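import Pool.Agent.Y118.HX.Hw
import Pool.Agent.Y492.MT.Fftq

/-!
# Invariant rational tensors are rational combinations of products of the form
-/

set_option autoImplicit false
set_option maxHeartbeats 400000

open Matrix

namespace Pool.Agent.Y118.HX

open Pool.Agent.Y119.HY Pool.Agent.Y119.HZ Pool.Agent.Y118.CM

variable {n d : ℕ}

/-- two numbers -/
def dd2 (d1 d2 : ℕ) : Fin 2 → ℕ
  | 0 => d1
  | 1 => d2

/-- two tensors -/
def TT2 {d1 d2 : ℕ} (T1 : Tn ℚ n d1) (T2 : Tn ℚ n d2) : ∀ j, Tn ℚ n (dd2 d1 d2 j)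
  | 0 => T1
  | 1 => T2

/-- **two points of a window** -/
theorem win_two {m : ℕ} {β : Fin m → ℚ} (hm : 2 ≤ m) (hβ : ∀ j, ∀ a : ℤ, β j ≠ a) : ∃ G E : ℕ, 2 ≤ G ∧ 1 ≤ E ∧ ∀ t1 t2 : ℕ,
    t1 < t2 → G ∣ t2 - t1 → (t2 - t1) ^ E ≤ t1 →
    ∀ (C : Matrix (Fin (2 * m)) (Fin (2 * m)) ℂ) (M Qb : Matrix (Fin (2 * m)) (Fin (2 * m)) ℚ) (s κ : ℂ), C.det ≠ 0 → s ≠ 0 →
    C * cm M = s • (cm (Am (2 * m)) * C) → C.transpose * cm (J0 (2 * m)) * C = κ • cm Qb →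
    (∀ p ≤ 2 * m, Fl (fun i => perr β t1 i ᵥ* C) (cm Qb⁻¹) p ⊓
      cj (Fl (fun i => perr β t1 i ᵥ* C) (cm Qb⁻¹) (2 * m - p)) = ⊥) →
    (∀ p ≤ 2 * m, Fl (fun i => perr β t2 i ᵥ* C) (cm Qb⁻¹) p ⊓
      cj (Fl (fun i => perr β t2 i ᵥ* C) (cm Qb⁻¹) (2 * m - p)) = ⊥) →
    ∀ (d1 d2 : ℕ) (T1 : Tn ℚ (2 * m) d1) (T2 : Tn ℚ (2 * m) d2),
    (∀ p : Fin d1 → ℕ, d1 * (2 * m - 1) < 2 * ∑ l, p l → ∀ x : Fin d1 → Fin (2 * m) → ℂ,
      (∀ l, x l ∈ Fl (fun i => perr β t1 i ᵥ* C) (cm Qb⁻¹) (p l)) → evx x (cmT T1) = 0) →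
    (∀ p : Fin d2 → ℕ, d2 * (2 * m - 1) < 2 * ∑ l, p l → ∀ x : Fin d2 → Fin (2 * m) → ℂ,
      (∀ l, x l ∈ Fl (fun i => perr β t2 i ᵥ* C) (cm Qb⁻¹) (p l)) → evx x (cmT T2) = 0) →
    (∀ A : Matrix (Fin (2 * m)) (Fin (2 * m)) ℂ, A * cm Qb⁻¹ + cm Qb⁻¹ * A.transpose = 0 → act A (cmT T1) = 0) ∨
    ∀ A : Matrix (Fin (2 * m)) (Fin (2 * m)) ℂ, A * cm Qb⁻¹ + cm Qb⁻¹ * A.transpose = 0 → act A (cmT T2) = 0 := by
  obtain ⟨G, E, hG, hE, h⟩ := win_tensor hm hβ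
  refine ⟨G, E, hG, hE, fun t1 t2 h1 h2 h3 C M Qb s κ hC hs hM hP ho1 ho2 d1 d2 T1 T2 hT1 hT2 => ?_⟩
  obtain ⟨j, hj⟩ := h (dd2 t1 t2) h1 h2 h3 C M Qb s κ hC hs hM hP (fun j => by
    fin_cases j
    · exact ho1
    · exact ho2) (dd2 d1 d2) (TT2 T1 T2) (fun j => by
    fin_cases j
    · exact hT1
    · exact hT2)
  fin_cases j
  · exact Or.inl hj
  · exact Or.inr hj

/-- **invariant rational tensors** -/
theorem fft_rat {Q : Matrix (Fin n) (Fin n) ℚ} (hQ : Q.det ≠ 0) (hsk : Q.transpose = -Q) {T : Tn ℚ n d}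
    (h : ∀ A : Matrix (Fin n) (Fin n) ℂ, A * cm Q⁻¹ + cm Q⁻¹ * A.transpose = 0 → act A (cmT T) = 0) :
    ∃ (k : ℕ) (c : (Fin k × Fin 2 ≃ Fin d) → ℚ), ∀ J, T J = ∑ e, c e * ∏ s, Q⁻¹ (J (e (s, 0))) (J (e (s, 1))) := by
  classical
  have hu : IsUnit Q.det := isUnit_iff_ne_zero.2 hQ
  have key := Pool.Agent.Y492.MT.fftq n 1 d Q hQ hsk (fun J _ => T J) (fun X hX => by
    have h1 : cm X.transpose * cm Q⁻¹ + cm Q⁻¹ * (cm X.transpose).transpose = 0 := by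
      rw [← cm_transpose, ← cm_mul, ← cm_mul, ← cm_add, Matrix.transpose_transpose]
      have h2 : X.transpose * Q⁻¹ + Q⁻¹ * X = Q⁻¹ * (X * Q + Q * X.transpose) * Q⁻¹ := by
        rw [Matrix.mul_add, Matrix.add_mul]
        have e1 : Q⁻¹ * (X * Q) * Q⁻¹ = Q⁻¹ * X := by
          rw [Matrix.mul_assoc, Matrix.mul_assoc X, Matrix.mul_nonsing_inv _ hu, Matrix.mul_one]
        have e2 : Q⁻¹ * (Q * X.transpose) * Q⁻¹ = X.transpose * Q⁻¹ := by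
          rw [← Matrix.mul_assoc, Matrix.nonsing_inv_mul _ hu, Matrix.one_mul]
        rw [e1, e2, add_comm]
      rw [h2, hX, Matrix.mul_zero, Matrix.zero_mul, cm_zero]
    have h2 := h _ h1
    have h3 : act X.transpose T = 0 := by
      have h4 : act (X.transpose.map (fun q : ℚ => (q : ℂ))) (cmT T) = 0 := h2
      rw [act_cmT] at h4
      funext I
      have h5 := congrFun h4 I
      unfold cmT at h5
      rw [Pi.zero_apply] at h5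
      exact_mod_cast h5
    funext J i
    have h4 := congrFun h3 J
    rw [act_apply, Pi.zero_apply] at h4
    unfold Pool.Agent.Y113.MT.act
    rw [Finset.sum_apply]
    simp only [Finset.sum_apply, Pi.smul_apply, smul_eq_mul]
    exact h4)
  have hgen : ∀ f ∈ Submodule.span ℚ {f : (Fin d → Fin n) → Fin 1 → ℚ | ∃ (s : ℕ) (e : Fin s × Fin 2 ≃ Fin d) (w : Fin 1 → ℚ),
      f = fun J i => (∏ l, Q⁻¹ (J (e (l, 0))) (J (e (l, 1)))) * w i},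
      ∃ c : (Fin (d / 2) × Fin 2 ≃ Fin d) → ℚ, ∀ J, f J 0 = ∑ e, c e * ∏ s, Q⁻¹ (J (e (s, 0))) (J (e (s, 1))) := by
    intro f hf
    induction hf using Submodule.span_induction with
    | mem f hf =>
      obtain ⟨s, e, w, rfl⟩ := hf
      have hs : s = d / 2 := by
        have h1 := Fintype.card_congr e
        rw [Fintype.card_prod, Fintype.card_fin, Fintype.card_fin, Fintype.card_fin] at h1
        omega
      subst hs
      refine ⟨fun e' => if e' = e then w 0 else 0, fun J => ?_⟩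
      simp only [ite_mul, zero_mul]
      rw [Finset.sum_ite_eq' Finset.univ e, if_pos (Finset.mem_univ _), mul_comm]
    | zero => exact ⟨0, fun J => by simp⟩
    | add f g _ _ hf hg =>
      obtain ⟨c, hc⟩ := hf
      obtain ⟨c', hc'⟩ := hg
      refine ⟨c + c', fun J => ?_⟩
      rw [Pi.add_apply, Pi.add_apply, hc, hc', ← Finset.sum_add_distrib]
      exact Finset.sum_congr rfl fun e _ => by rw [Pi.add_apply, add_mul]
    | smul a f _ hf =>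
      obtain ⟨c, hc⟩ := hf
      refine ⟨a • c, fun J => ?_⟩
      rw [Pi.smul_apply, Pi.smul_apply, hc, smul_eq_mul, Finset.mul_sum]
      exact Finset.sum_congr rfl fun e _ => by rw [Pi.smul_apply, smul_eq_mul, mul_assoc]
  obtain ⟨c, hc⟩ := hgen _ key
  exact ⟨d / 2, c, hc⟩

end Pool.Agent.Y118.HX
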