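import Pool.Agent.Y118.HX.Ten

/-!
# Root vectors of the symplectic Lie algebra and tensors of a given weight
-/

set_option autoImplicit false
set_option maxHeartbeats 400000

open Matrix

namespace Pool.Agent.Y118.HX

variable {K : Type} [Field K] {n d : ℕ}

lemma EE (i j k l : Fin n) : (Matrix.single i j (1 : K)) * Matrix.single k l 1 = if j = k then Matrix.single i l 1 else 0 := by
  split_ifs with h
  · subst h
    rw [Matrix.single_mul_single_same, one_mul]
  · exact Matrix.single_mul_single_of_ne _ _ _ _ h _

/-- root vectors -/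
def Xr (g : Fin n → K) (i j : Fin n) : Matrix (Fin n) (Fin n) K :=
  Matrix.single i j 1 - (g i / g j) • Matrix.single j.rev i.rev 1

section

variable {g : Fin n → K} (hg : ∀ i, g i ≠ 0) (hgr : ∀ i, g i.rev = -g i)

include hg hgr in
lemma Xr_rev (i j : Fin n) : Xr g j.rev i.rev = (-(g j / g i)) • Xr g i j := by
  unfold Xr
  rw [Fin.rev_rev, Fin.rev_rev, hgr, hgr, smul_sub, smul_smul]
  have h1 : -(g j / g i) * (g i / g j) = -1 := by
    have := hg i
    have := hg j
    field_simp
  have h2 : -g j / -g i = g j / g i := by rw [neg_div_neg_eq]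
  rw [h1, h2, neg_smul, neg_smul, one_smul]
  abel

include hg hgr in
/-- the bracket of two root vectors -/
lemma Xr_br {i j l : Fin n} (hij : i ≠ j) (hjl : j ≠ l) (hil : i ≠ l) :
    ∃ c : K, (c = 1 ∨ c = 2) ∧ Xr g i j * Xr g j l - Xr g j l * Xr g i j = c • Xr g i l := by
  have hi := hg i
  have hj := hg j
  have hl := hg l
  have hli : ¬ l = i := fun h => hil h.symm
  have hri : ¬ i.rev = l.rev := fun h => hil (Fin.rev_injective h)
  have key : Xr g i j * Xr g j l - Xr g j l * Xr g i j = Xr g i l +
      (if l = j.rev then (-(g j / g l)) • Matrix.single i j.rev 1 + (g i / g j) • Matrix.single j i.rev (1 : K) else 0) +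
      (if i = j.rev then (-(g i / g j)) • Matrix.single j.rev l 1 + (g j / g l) • Matrix.single l.rev j (1 : K) else 0) := by
    have e1 : (j = l.rev) = (l = j.rev) := propext ⟨fun h => by rw [h, Fin.rev_rev], fun h => by rw [h, Fin.rev_rev]⟩
    have e2 : (i.rev = j) = (i = j.rev) := propext ⟨fun h => by rw [← h, Fin.rev_rev], fun h => by rw [h, Fin.rev_rev]⟩
    have e3 : (j.rev = i) = (i = j.rev) := propext ⟨fun h => h.symm, fun h => h.symm⟩
    have e4 : (l = i) = False := propext ⟨fun h => hli h, fun h => h.elim⟩
    have e5 : (i.rev = l.rev) = False := propext ⟨fun h => hri h, fun h => h.elim⟩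
    unfold Xr
    simp only [Matrix.sub_mul, Matrix.mul_sub, Matrix.smul_mul, Matrix.mul_smul, EE, e1, e2, e3, e4, e5, if_true, if_false]
    have h3 : g j / g l * (g i / g j) = g i / g l := by field_simp
    have h3' : g i / g j * (g j / g l) = g i / g l := by field_simp
    split_ifs
    all_goals
      simp only [smul_zero, smul_add, smul_sub, smul_neg, neg_smul, smul_smul, h3, h3']
      abel
  rw [key]
  by_cases h1 : l = j.rev
  · refine ⟨2, Or.inr rfl, ?_⟩
    have h2 : ¬ i = j.rev := fun h => hil (h.trans h1.symm)
    rw [if_pos h1, if_neg h2, add_zero, two_smul]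
    congr 1
    have hgl : g l = -g j := by rw [h1, hgr]
    have hjr : j = l.rev := by rw [h1, Fin.rev_rev]
    have h3 : -(g j / g l) = 1 := by
      rw [hgl]
      field_simp
    have h4 : g i / g l = -(g i / g j) := by
      rw [hgl]
      field_simp
    unfold Xr
    rw [h3, one_smul, ← h1, h4, neg_smul, sub_neg_eq_add, ← hjr]
  · rw [if_neg h1, add_zero]
    by_cases h2 : i = j.rev
    · refine ⟨2, Or.inr rfl, ?_⟩
      rw [if_pos h2, two_smul]
      congr 1
      have hgi : g i = -g j := by rw [h2, hgr]
      have hjr : j = i.rev := by rw [h2, Fin.rev_rev]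
      have h3 : -(g i / g j) = 1 := by
        rw [hgi]
        field_simp
      have h4 : g i / g l = -(g j / g l) := by
        rw [hgi]
        ring
      unfold Xr
      rw [h3, one_smul, ← h2, h4, neg_smul, sub_neg_eq_add, ← hjr]
    · refine ⟨1, Or.inl rfl, ?_⟩
      rw [if_neg h2, add_zero, one_smul]

end

/-- the action of diagonal matrices -/
lemma act_diag (v : Fin n → K) (u : Tn K n d) (I : Fin d → Fin n) :
    act (Matrix.diagonal v) u I = (∑ l, v (I l)) * u I := by
  rw [act_apply, Finset.sum_mul]
  refine Finset.sum_congr rfl fun l _ => ?_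
  rw [Finset.sum_eq_single (I l)]
  · rw [Matrix.diagonal_apply_eq, Function.update_eq_self]
  · intro b _ hb
    rw [Matrix.diagonal_apply_ne _ hb.symm, zero_mul]
  · intro h
    exact absurd (Finset.mem_univ _) h

/-- the multiplicities -/
def ch (I : Fin d → Fin n) (i : Fin n) : ℤ := ∑ l, ((if I l = i then 1 else 0) - (if I l = i.rev then 1 else 0))

lemma ch_rev (I : Fin d → Fin n) (i : Fin n) : ch I i.rev = -ch I i := by
  unfold ch
  rw [← Finset.sum_neg_distrib]
  refine Finset.sum_congr rfl fun l _ => ?_
  rw [Fin.rev_rev]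
  ring

section sl2

variable {g : Fin n → K} (hg : ∀ i, g i ≠ 0) (hgr : ∀ i, g i.rev = -g i) (hrev : ∀ i : Fin n, i.rev ≠ i)

include hg hgr hrev in
/-- **the sign of the pairing with a root** -/
theorem root_sign [CharZero K] {i j : Fin n} (hij : i ≠ j) {u : Tn K n d} (hu : u ≠ 0) {χ : Fin n → ℤ}
    (hχ : ∀ I, u I ≠ 0 → ch I = χ) (h0 : act (Xr g i j) u = 0) : 0 ≤ χ i - χ j := by
  have hi := hg i
  have hj := hg j
  have hji : ¬ j = i := fun h => hij h.symm
  -- nilpotency of the opposite root vector
  have hnil : ∀ Y : Matrix (Fin n) (Fin n) K, (∀ a b, Y a b ≠ 0 → (a = j ∧ b = i) ∨ (a = i.rev ∧ b = j.rev)) →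
      ∃ k : ℕ, (act Y ^ k : Module.End K (Tn K n d)) = 0 := by
    intro Y hY
    rcases lt_or_gt_of_ne (fun h => hij (Fin.ext h) : (i : ℕ) ≠ j) with h | h
    · refine act_nilp' (fun k => (k : ℕ)) fun a b hab => ?_
      rcases hY a b hab with ⟨rfl, rfl⟩ | ⟨rfl, rfl⟩
      · exact h
      · show (j.rev : ℕ) < i.rev
        rw [Fin.val_rev, Fin.val_rev]
        have := j.2
        omega
    · refine act_nilp' (fun k => n - 1 - (k : ℕ)) fun a b hab => ?_
      have hi2 := i.2
      have hj2 := j.2
      rcases hY a b hab with ⟨rfl, rfl⟩ | ⟨rfl, rfl⟩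
      · show n - 1 - (b : ℕ) < n - 1 - a
        omega
      · show n - 1 - (j.rev : ℕ) < n - 1 - i.rev
        rw [Fin.val_rev, Fin.val_rev]
        omega
  have hsum : ∀ I : Fin d → Fin n, ∀ a : Fin n, ((ch I a : ℤ) : K) =
      ∑ l, (((if I l = a then 1 else 0) : K) - (if I l = a.rev then 1 else 0)) := by
    intro I a
    unfold ch
    push_cast
    rfl
  by_cases hjr : j = i.rev
  · -- long roots
    have e0 : Xr g i j = (2 : K) • Matrix.single i i.rev 1 := by
      unfold Xr
      rw [hjr, Fin.rev_rev, hgr, div_neg, div_self hi, neg_smul, one_smul, two_smul]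
      abel
    have he : act (Matrix.single i i.rev (1 : K)) u = 0 := by
      rw [e0, map_smul, LinearMap.smul_apply] at h0
      exact (smul_eq_zero.1 h0).resolve_left two_ne_zero
    have hir := hrev i
    have h1 : (0 : ℤ) ≤ χ i := by
      refine sl2_pos (e := act (Matrix.single i i.rev (1 : K))) (f := act (Matrix.single i.rev i (1 : K)))
        (h := act (Matrix.diagonal fun k => (if k = i then 1 else 0) - (if k = i.rev then 1 else 0))) ?_ ?_ hu he ?_
        (hnil _ fun a b hab => ?_)
      · rw [act_comm, EE, EE, if_pos rfl, if_pos rfl]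
        congr 1
        ext a b
        rw [Matrix.sub_apply, Matrix.single_apply, Matrix.single_apply, Matrix.diagonal_apply]
        by_cases hab : a = b
        · subst hab
          rw [if_pos rfl]
          simp only [and_self, eq_comm]
        · rw [if_neg hab, if_neg (fun h => hab (h.1.symm.trans h.2)), if_neg (fun h => hab (h.1.symm.trans h.2)), sub_zero]
      · rw [act_comm, ← map_smul]
        congr 1
        ext a b
        rw [Matrix.sub_apply, Matrix.diagonal_mul, Matrix.mul_diagonal, Matrix.smul_apply, Matrix.single_apply, smul_eq_mul]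
        by_cases hab : i.rev = a ∧ i = b
        · obtain ⟨rfl, rfl⟩ := hab
          simp only [if_neg hir, if_neg hir.symm, and_self, if_true]
          ring
        · rw [if_neg hab]
          ring
      · funext I
        rw [act_diag, Pi.smul_apply, smul_eq_mul]
        by_cases hI : u I = 0
        · rw [hI, mul_zero, mul_zero]
        · rw [← hχ I hI, hsum]
      · rw [Matrix.single_apply] at hab
        have h2 : i.rev = a ∧ i = b := by
          by_contra h3
          rw [if_neg h3] at hab
          exact hab rfl
        left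
        exact ⟨by rw [hjr]; exact h2.1.symm, h2.2.symm⟩
    obtain ⟨I, hI⟩ : ∃ I, u I ≠ 0 := by
      by_contra hcon
      push Not at hcon
      exact hu (funext hcon)
    have h2 : χ j = -χ i := by rw [hjr, ← hχ I hI, ch_rev]
    rw [h2]
    omega
  · -- short roots
    have hir := hrev i
    have hjr' := hrev j
    have hijr : ¬ i = j.rev := fun h => hjr (by rw [h, Fin.rev_rev])
    have hrij : ¬ i.rev = j := fun h => hjr h.symm
    have hrji : ¬ j.rev = i := fun h => hijr h.symm
    have hrr : ¬ i.rev = j.rev := fun h => hij (Fin.rev_injective h)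
    have hrr' : ¬ j.rev = i.rev := fun h => hrr h.symm
    refine sl2_pos (e := act (Xr g i j)) (f := act (Xr g j i))
      (h := act (Matrix.diagonal fun k => ((if k = i then 1 else 0) - (if k = i.rev then 1 else 0)) -
        ((if k = j then 1 else 0) - (if k = j.rev then 1 else 0)))) ?_ ?_ hu h0 ?_ (hnil _ fun a b hab => ?_)
    · rw [act_comm]
      congr 1
      unfold Xr
      have h3 : g j / g i * (g i / g j) = 1 := by field_simp
      have h4 : g i / g j * (g j / g i) = 1 := by field_simp
      simp only [Matrix.sub_mul, Matrix.mul_sub, Matrix.smul_mul, Matrix.mul_smul, EE, if_true, if_neg hijr, if_neg hjr,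
        if_neg hrij, if_neg hrji, smul_zero, sub_zero, zero_sub, smul_smul, h3, h4, one_smul, neg_neg, smul_neg]
      ext a b
      simp only [Matrix.sub_apply, Matrix.add_apply, Matrix.neg_apply, Matrix.single_apply, Matrix.diagonal_apply, Matrix.zero_apply]
      by_cases hab : a = b
      · subst hab
        rw [if_pos rfl]
        simp only [and_self, @eq_comm _ _ a]
        ring
      · rw [if_neg hab, if_neg (fun h => hab (h.1.symm.trans h.2)), if_neg (fun h => hab (h.1.symm.trans h.2)),
          if_neg (fun h => hab (h.1.symm.trans h.2)), if_neg (fun h => hab (h.1.symm.trans h.2))]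
        ring
    · rw [act_comm, ← map_smul]
      congr 1
      ext a b
      rw [Matrix.sub_apply, Matrix.diagonal_mul, Matrix.mul_diagonal, Matrix.smul_apply, smul_eq_mul]
      unfold Xr
      rw [Matrix.sub_apply, Matrix.smul_apply, Matrix.single_apply, Matrix.single_apply, smul_eq_mul]
      by_cases h3 : j = a ∧ i = b
      · obtain ⟨rfl, rfl⟩ := h3
        have q1 : ¬ j = j.rev := fun h => hjr' h.symm
        have q2 : ¬ i = i.rev := fun h => hir h.symm
        simp only [hji, hjr, q1, q2, hij, hijr, hrij, false_and, if_false, and_self, if_true]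
        ring
      · rw [if_neg h3]
        by_cases h4 : i.rev = a ∧ j.rev = b
        · obtain ⟨rfl, rfl⟩ := h4
          simp only [hir, hrij, hrr, hrji, hrr', hjr', if_false, and_self, if_true]
          ring
        · rw [if_neg h4]
          ring
    · funext I
      rw [act_diag, Pi.smul_apply, smul_eq_mul]
      by_cases hI : u I = 0
      · rw [hI, mul_zero, mul_zero]
      · rw [← hχ I hI, Int.cast_sub, hsum, hsum, ← Finset.sum_sub_distrib]
    · unfold Xr at hab
      rw [Matrix.sub_apply, Matrix.smul_apply, Matrix.single_apply, Matrix.single_apply, smul_eq_mul] at hab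
      by_cases h3 : j = a ∧ i = b
      · exact Or.inl ⟨h3.1.symm, h3.2.symm⟩
      · rw [if_neg h3] at hab
        by_cases h4 : i.rev = a ∧ j.rev = b
        · exact Or.inr ⟨h4.1.symm, h4.2.symm⟩
        · rw [if_neg h4] at hab
          exact absurd (by ring) hab

end sl2

end Pool.Agent.Y118.HX
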