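import Pool.Agent.Y118.HX.Endo
import Pool.Agent.Y118.HX.Root

/-!
# The count for stable Lie algebras
-/

set_option autoImplicit false
set_option maxHeartbeats 400000

open Matrix

namespace Pool.Agent.Y118.HX

section ad

variable {Ω : Type} [Field Ω] {n : ℕ}

/-- the commutator with a diagonal matrix -/
def adm (v : Fin n → Ω) : Module.End Ω (Matrix (Fin n) (Fin n) Ω) where
  toFun := fun X => Matrix.diagonal v * X - X * Matrix.diagonal v
  map_add' := fun X Y => by rw [Matrix.mul_add, Matrix.add_mul]; abel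
  map_smul' := fun c X => by rw [Matrix.mul_smul, Matrix.smul_mul, RingHom.id_apply, smul_sub]

lemma adm_def (v : Fin n → Ω) (X : Matrix (Fin n) (Fin n) Ω) :
    adm v X = Matrix.diagonal v * X - X * Matrix.diagonal v := rfl

lemma adm_apply (v : Fin n → Ω) (X : Matrix (Fin n) (Fin n) Ω) (i j : Fin n) : adm v X i j = (v i - v j) * X i j := by
  rw [adm_def, Matrix.sub_apply, Matrix.diagonal_mul, Matrix.mul_diagonal]
  ring

lemma adm_pow (v : Fin n → Ω) (k : ℕ) (X : Matrix (Fin n) (Fin n) Ω) (i j : Fin n) :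
    (adm v ^ k) X i j = (v i - v j) ^ k * X i j := by
  induction k with
  | zero => rw [pow_zero, pow_zero, one_mul, Module.End.one_apply]
  | succ k ih =>
    rw [pow_succ', Module.End.mul_apply, adm_apply, ih, pow_succ]
    ring

/-- the weights -/
def dl (Ω : Type) [Field Ω] (n : ℕ) (i : Fin n) : Ω := ((2 * ((i : ℕ) : ℤ) - ((n : ℤ) - 1) : ℤ) : Ω)

lemma interp [CharZero Ω] (n : ℕ) : ∃ q : Polynomial Ω, ∀ a : ℤ, -(n : ℤ) ≤ a → a ≤ n →
    q.eval ((2 * a : ℤ) : Ω) * ((2 * a : ℤ) : Ω) = if a < 0 then 1 else 0 := by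
  classical
  refine ⟨Lagrange.interpolate (Finset.Icc (-(n : ℤ)) n) (fun a => ((2 * a : ℤ) : Ω))
    (fun a => if a < 0 then (((2 * a : ℤ) : Ω))⁻¹ else 0), fun a h1 h2 => ?_⟩
  have hinj : Set.InjOn (fun a : ℤ => ((2 * a : ℤ) : Ω)) (Finset.Icc (-(n : ℤ)) n) := by
    intro x _ y _ h
    have h' : (2 * x : ℤ) = 2 * y := Int.cast_injective h
    omega
  have h3 := Lagrange.eval_interpolate_at_node (fun a : ℤ => if a < 0 then (((2 * a : ℤ) : Ω))⁻¹ else 0) hinj
    (Finset.mem_Icc.2 ⟨h1, h2⟩)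
  rw [h3]
  split_ifs with h
  · exact inv_mul_cancel₀ (by
      have : (2 * a : ℤ) ≠ 0 := by omega
      exact Int.cast_ne_zero.2 this)
  · rw [zero_mul]

/-- **the upper part of a matrix in a stable subspace** -/
theorem ad_proj [CharZero Ω] (h : Submodule Ω (Matrix (Fin n) (Fin n) Ω)) (hs : ∀ X ∈ h, adm (dl Ω n) X ∈ h)
    {B : Matrix (Fin n) (Fin n) Ω} (hB : adm (dl Ω n) B ∈ h) :
    (Matrix.of fun i j : Fin n => if (i : ℕ) < j then B i j else 0) ∈ h := by
  obtain ⟨q, hq⟩ := interp (Ω := Ω) n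
  have h1 : ∀ k : ℕ, (adm (dl Ω n) ^ k) (adm (dl Ω n) B) ∈ h := by
    intro k
    induction k with
    | zero => exact hB
    | succ k ih =>
      rw [pow_succ', Module.End.mul_apply]
      exact hs _ ih
  have h2 : (Matrix.of fun i j : Fin n => if (i : ℕ) < j then B i j else 0) =
      ∑ k ∈ Finset.range (q.natDegree + 1), q.coeff k • (adm (dl Ω n) ^ k) (adm (dl Ω n) B) := by
    ext i j
    rw [Matrix.of_apply, Matrix.sum_apply]
    simp only [Matrix.smul_apply, adm_pow, adm_apply, smul_eq_mul]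
    have h3 : dl Ω n i - dl Ω n j = ((2 * (((i : ℕ) : ℤ) - ((j : ℕ) : ℤ)) : ℤ) : Ω) := by
      unfold dl
      push_cast
      ring
    have hi := i.2
    have hj := j.2
    have h4 := hq (((i : ℕ) : ℤ) - ((j : ℕ) : ℤ)) (by omega) (by omega)
    rw [Polynomial.eval_eq_sum_range] at h4
    rw [h3]
    have h5 : (if (i : ℕ) < j then B i j else 0) = (if ((i : ℕ) : ℤ) - ((j : ℕ) : ℤ) < 0 then (1 : Ω) else 0) * B i j := by
      by_cases h6 : (i : ℕ) < j
      · rw [if_pos h6, if_pos (by omega), one_mul]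
      · rw [if_neg h6, if_neg (by omega), zero_mul]
    rw [h5, ← h4, Finset.sum_mul, Finset.sum_mul]
    exact Finset.sum_congr rfl fun k _ => by ring
  rw [h2]
  exact Submodule.sum_mem _ fun k _ => Submodule.smul_mem _ _ (h1 k)

end ad

variable {k Ω : Type} [Field k] [Field Ω] [CharZero Ω] [Algebra k Ω] {m : ℕ}

lemma sum_up (F : Fin (2 * m) × Fin (2 * m) → Ω) : ∑ p : Up m, F p.1 =
    ∑ x, if (x.1 : ℕ) < x.2 ∧ (x.1 : ℕ) + x.2 ≤ 2 * m - 1 then F x else 0 := by
  rw [← Finset.sum_filter]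
  exact (Finset.sum_subtype (Finset.univ.filter fun x : Fin (2 * m) × Fin (2 * m) =>
    (x.1 : ℕ) < x.2 ∧ (x.1 : ℕ) + x.2 ≤ 2 * m - 1) (fun x => by simp) F).symm

/-- the factor for the long roots -/
noncomputable def cu (Ω : Type) [Field Ω] {m : ℕ} (x : Fin (2 * m) × Fin (2 * m)) : Ω := if x.2 = x.1.rev then 1 / 2 else 1

omit [CharZero Ω] [Algebra k Ω] [Field k] in
/-- symplectic upper triangular matrices are combinations of root vectors -/
lemma up_sum [CharZero Ω] {γ : Fin (2 * m) → Ω} (hγ : ∀ i, γ i ≠ 0) (hγr : ∀ i, γ i.rev = -γ i)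
    {b : Matrix (Fin (2 * m)) (Fin (2 * m)) Ω}
    (hb : ∀ i j : Fin (2 * m), i ≠ j → γ j.rev * b j.rev i.rev + γ i.rev * b i j = 0) :
    (Matrix.of fun i j : Fin (2 * m) => if (i : ℕ) < j then b i j else 0) =
      ∑ p : Up m, (b p.1.1 p.1.2 * cu Ω p.1) • Xr γ p.1.1 p.1.2 := by
  ext i j
  have hi := i.2
  have hj := j.2
  rw [Matrix.of_apply, Matrix.sum_apply]
  have h1 : ∀ x : Fin (2 * m) × Fin (2 * m), ((b x.1 x.2 * cu Ω x) • Xr γ x.1 x.2) i j =
      (if x = (i, j) then b x.1 x.2 * cu Ω x else 0) -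
        (if x = (j.rev, i.rev) then b x.1 x.2 * cu Ω x * (γ x.1 / γ x.2) else 0) := by
    rintro ⟨a, q⟩
    have e1 : ((a, q) = (i, j)) = (a = i ∧ q = j) := Prod.mk.injEq _ _ _ _
    have e2 : ((a, q) = (j.rev, i.rev)) = (q.rev = i ∧ a.rev = j) := by
      rw [Prod.mk.injEq]
      refine propext ⟨fun h => ⟨by rw [h.2, Fin.rev_rev], by rw [h.1, Fin.rev_rev]⟩,
        fun h => ⟨by rw [← h.2, Fin.rev_rev], by rw [← h.1, Fin.rev_rev]⟩⟩
    unfold Xr
    rw [Matrix.smul_apply, Matrix.sub_apply, Matrix.smul_apply, Matrix.single_apply, Matrix.single_apply, smul_eq_mul,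
      smul_eq_mul]
    simp only [e1, e2]
    split_ifs <;> ring
  simp only [h1]
  rw [sum_up fun x => (if x = (i, j) then b x.1 x.2 * cu Ω x else 0) -
        (if x = (j.rev, i.rev) then b x.1 x.2 * cu Ω x * (γ x.1 / γ x.2) else 0)]
  have h2 : ∀ x : Fin (2 * m) × Fin (2 * m), (if (x.1 : ℕ) < x.2 ∧ (x.1 : ℕ) + x.2 ≤ 2 * m - 1 then
      ((if x = (i, j) then b x.1 x.2 * cu Ω x else 0) -
        (if x = (j.rev, i.rev) then b x.1 x.2 * cu Ω x * (γ x.1 / γ x.2) else 0)) else 0) =
      (if x = (i, j) then (if (i : ℕ) < j ∧ (i : ℕ) + j ≤ 2 * m - 1 then b i j * cu Ω (i, j) else 0) else 0) -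
      (if x = (j.rev, i.rev) then (if (j.rev : ℕ) < i.rev ∧ (j.rev : ℕ) + i.rev ≤ 2 * m - 1 then
        b j.rev i.rev * cu Ω (j.rev, i.rev) * (γ j.rev / γ i.rev) else 0) else 0) := by
    intro x
    by_cases h3 : x = (i, j)
    · subst h3
      by_cases h4 : ((i, j) : Fin (2 * m) × Fin (2 * m)) = (j.rev, i.rev)
      · have h5 : i = j.rev := congrArg Prod.fst h4
        have h6 : j = i.rev := congrArg Prod.snd h4
        simp only [if_pos h4, ← h5, ← h6, if_true]
        split_ifs <;> ring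
      · simp only [if_neg h4, if_true]
        split_ifs <;> ring
    · by_cases h4 : x = (j.rev, i.rev)
      · subst h4
        simp only [if_neg h3, if_true]
        split_ifs <;> ring
      · simp only [if_neg h3, if_neg h4]
        split_ifs <;> ring
  simp only [h2]
  rw [Finset.sum_sub_distrib, Finset.sum_ite_eq', Finset.sum_ite_eq', if_pos (Finset.mem_univ _), if_pos (Finset.mem_univ _),
    Fin.val_rev, Fin.val_rev]
  by_cases hij : (i : ℕ) < j
  · have hne : i ≠ j := fun h => by rw [h] at hij; exact lt_irrefl _ hij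
    rw [if_pos hij]
    have hs := hb i j hne
    have gi := hγ i
    have gj := hγ j
    have hs2 : b j.rev i.rev * (γ j.rev / γ i.rev) = -b i j := by
      have gi' := hγ i.rev
      field_simp
      linear_combination hs
    by_cases h5 : (i : ℕ) + j ≤ 2 * m - 1
    · rw [if_pos ⟨hij, h5⟩]
      by_cases h6 : j = i.rev
      · have h7 : (i : ℕ) + j = 2 * m - 1 := by
          have := congrArg Fin.val h6
          rw [Fin.val_rev] at this
          omega
        rw [if_pos ⟨by omega, by omega⟩]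
        have h8 : cu Ω (i, j) = 1 / 2 := by
          unfold cu
          rw [if_pos h6]
        have h9 : cu Ω (j.rev, i.rev) = 1 / 2 := by
          unfold cu
          rw [if_pos]
          show i.rev = j.rev.rev
          rw [Fin.rev_rev, h6]
        rw [h8, h9]
        linear_combination (1 / 2 : Ω) * hs2
      · have h7 : ¬ (i : ℕ) + j = 2 * m - 1 := fun h => h6 (Fin.ext (by rw [Fin.val_rev]; omega))
        rw [if_neg (by omega)]
        have h8 : cu Ω (i, j) = 1 := by
          unfold cu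
          rw [if_neg h6]
        rw [h8]
        ring
    · rw [if_neg (by omega), if_pos ⟨by omega, by omega⟩]
      have h9 : cu Ω (j.rev, i.rev) = 1 := by
        unfold cu
        rw [if_neg]
        intro h6
        have h7 := congrArg Fin.val h6
        have h8 : (i.rev : ℕ) = j.rev.rev := h7
        rw [Fin.rev_rev, Fin.val_rev] at h8
        omega
      rw [h9]
      linear_combination hs2
  · rw [if_neg hij, if_neg (by omega), if_neg (by omega), sub_zero]

namespace Dat

variable (d : Dat k Ω m)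

omit [CharZero Ω] in
lemma γ_rev (i : Fin (2 * m)) : d.γ i.rev = -d.γ i := by
  have h1 := d.Jform
  have h2 := congrArg Matrix.transpose h1
  rw [Matrix.transpose_mul, Matrix.transpose_mul, Matrix.transpose_transpose, d.skew] at h2
  have h3 : (d.P⁻¹).transpose * (-(d.J.map (algebraMap k Ω)) * d.P⁻¹) =
      -(d.κ • (Matrix.of fun i j => if j = Fin.rev i then d.γ i else 0)) := by
    rw [← h1, Matrix.neg_mul, Matrix.mul_neg, Matrix.mul_assoc]
  rw [h3] at h2
  have h4 := congrFun (congrFun h2 i) i.rev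
  rw [Matrix.neg_apply, Matrix.smul_apply, Matrix.transpose_apply, Matrix.smul_apply, Matrix.of_apply, Matrix.of_apply,
    if_pos rfl, if_pos (Fin.rev_rev i).symm, smul_eq_mul, smul_eq_mul, ← mul_neg] at h4
  exact (mul_left_cancel₀ d.κ0 h4).symm

/-- root vectors in the original basis -/
noncomputable def Ψ (q : Up m → Fin (2 * m) × Fin (2 * m)) : (Up m → Ω) →ₗ[Ω] Matrix (Fin (2 * m)) (Fin (2 * m)) Ω where
  toFun := fun f => d.w⁻¹ * (∑ p, f p • Xr d.γ (q p).1 (q p).2) * d.w
  map_add' := fun f h => by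
    rw [← Matrix.add_mul, ← Matrix.mul_add, ← Finset.sum_add_distrib]
    congr 2
    exact Finset.sum_congr rfl fun p _ => by rw [Pi.add_apply, add_smul]
  map_smul' := fun c f => by
    rw [RingHom.id_apply, ← Matrix.smul_mul, ← Matrix.mul_smul, Finset.smul_sum]
    congr 2
    exact Finset.sum_congr rfl fun p _ => by rw [Pi.smul_apply, smul_eq_mul, mul_smul]

/-- **the count for stable Lie algebras** -/
theorem count_alg (h : Submodule Ω (Matrix (Fin (2 * m)) (Fin (2 * m)) Ω))
    (hbr : ∀ X ∈ h, ∀ Y ∈ h, X * Y - Y * X ∈ h) (hD : ∀ (D : Derivation k Ω Ω), ∀ X ∈ h, dm D X ∈ h)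
    (hμ : d.w⁻¹ * Matrix.diagonal (dl Ω (2 * m)) * d.w ∈ h) :
    Fintype.card (Up m) ≤ Module.finrank Ω (h.comap (d.Ψ fun p => p.1)) + (m + 1) := by
  -- the conjugate algebra
  set κw : Matrix (Fin (2 * m)) (Fin (2 * m)) Ω →ₗ[Ω] Matrix (Fin (2 * m)) (Fin (2 * m)) Ω :=
    { toFun := fun Y => d.w⁻¹ * Y * d.w
      map_add' := fun X Y => by rw [Matrix.mul_add, Matrix.add_mul]
      map_smul' := fun c X => by rw [Matrix.mul_smul, Matrix.smul_mul, RingHom.id_apply] } with hκw
  set h' := h.comap κw with hh'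
  have hww : d.w * d.w⁻¹ = 1 := Matrix.mul_nonsing_inv _ d.wdet
  have hww' : d.w⁻¹ * d.w = 1 := Matrix.nonsing_inv_mul _ d.wdet
  have hst : ∀ X ∈ h', adm (dl Ω (2 * m)) X ∈ h' := by
    intro X hX
    have h1 := hbr _ hμ _ (show d.w⁻¹ * X * d.w ∈ h from hX)
    show d.w⁻¹ * (Matrix.diagonal (dl Ω (2 * m)) * X - X * Matrix.diagonal (dl Ω (2 * m))) * d.w ∈ h
    have h2 : d.w⁻¹ * (Matrix.diagonal (dl Ω (2 * m)) * X - X * Matrix.diagonal (dl Ω (2 * m))) * d.w =
        d.w⁻¹ * Matrix.diagonal (dl Ω (2 * m)) * d.w * (d.w⁻¹ * X * d.w) -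
          d.w⁻¹ * X * d.w * (d.w⁻¹ * Matrix.diagonal (dl Ω (2 * m)) * d.w) := by
      rw [Matrix.mul_sub, Matrix.sub_mul]
      congr 1
      · calc d.w⁻¹ * (Matrix.diagonal (dl Ω (2 * m)) * X) * d.w =
            d.w⁻¹ * Matrix.diagonal (dl Ω (2 * m)) * 1 * X * d.w := by simp only [Matrix.mul_assoc, Matrix.mul_one, Matrix.one_mul]
          _ = _ := by
            rw [← hww]
            simp only [Matrix.mul_assoc]
      · calc d.w⁻¹ * (X * Matrix.diagonal (dl Ω (2 * m))) * d.w =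
            d.w⁻¹ * X * 1 * Matrix.diagonal (dl Ω (2 * m)) * d.w := by simp only [Matrix.mul_assoc, Matrix.mul_one, Matrix.one_mul]
          _ = _ := by
            rw [← hww]
            simp only [Matrix.mul_assoc]
    rw [h2]
    exact h1
  have hDb : ∀ D : Derivation k Ω Ω, adm (dl Ω (2 * m)) (d.b D) ∈ h' := by
    intro D
    have h1 := hD D _ hμ
    have e1 : dm D (Matrix.diagonal (dl Ω (2 * m))) = 0 := by
      ext i j
      unfold dm
      rw [Matrix.map_apply, Matrix.diagonal_apply, Matrix.zero_apply]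
      split_ifs
      · unfold dl
        have : ((2 * ((i : ℕ) : ℤ) - (((2 * m : ℕ) : ℤ) - 1) : ℤ) : Ω) =
            algebraMap k Ω ((2 * ((i : ℕ) : ℤ) - (((2 * m : ℕ) : ℤ) - 1) : ℤ) : k) := (map_intCast (algebraMap k Ω) _).symm
        rw [this, Derivation.map_algebraMap]
      · exact map_zero _
    have e2 : dm D d.w⁻¹ = -(d.w⁻¹ * d.b D) := by
      have h2 := congrArg (dm D) hww'
      have h3 : dm D (1 : Matrix (Fin (2 * m)) (Fin (2 * m)) Ω) = 0 := by
        ext i j
        unfold dm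
        rw [Matrix.map_apply, Matrix.one_apply, Matrix.zero_apply]
        split_ifs
        · exact Derivation.map_one_eq_zero _
        · exact map_zero _
      rw [dm_mul, h3] at h2
      have h4 : dm D d.w⁻¹ * d.w = -(d.w⁻¹ * dm D d.w) := eq_neg_of_add_eq_zero_left h2
      calc dm D d.w⁻¹ = dm D d.w⁻¹ * (d.w * d.w⁻¹) := by rw [hww, Matrix.mul_one]
        _ = (dm D d.w⁻¹ * d.w) * d.w⁻¹ := by rw [Matrix.mul_assoc]
        _ = _ := by
          rw [h4, Matrix.neg_mul, Matrix.mul_assoc]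
          rfl
    show d.w⁻¹ * (Matrix.diagonal (dl Ω (2 * m)) * d.b D - d.b D * Matrix.diagonal (dl Ω (2 * m))) * d.w ∈ h
    have h5 : dm D (d.w⁻¹ * Matrix.diagonal (dl Ω (2 * m)) * d.w) =
        d.w⁻¹ * (Matrix.diagonal (dl Ω (2 * m)) * d.b D - d.b D * Matrix.diagonal (dl Ω (2 * m))) * d.w := by
      rw [dm_mul, dm_mul, e1, e2, Matrix.mul_zero, add_zero, ← d.bw D, Matrix.mul_sub, Matrix.sub_mul]
      simp only [Matrix.neg_mul, Matrix.mul_assoc]
      abel
    rw [← h5]
    exact h1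
  have hup : ∀ D : Derivation k Ω Ω, (∑ p : Up m, (d.b D p.1.1 p.1.2 * cu Ω p.1) • Xr d.γ p.1.1 p.1.2) ∈ h' := by
    intro D
    rw [← up_sum d.γ0 d.γ_rev fun i j hij => d.b_symp D hij]
    exact ad_proj h' hst (hDb D)
  -- the scaling
  set sc : (Up m → Ω) →ₗ[Ω] (Up m → Ω) :=
    { toFun := fun f p => f p * cu Ω p.1
      map_add' := fun f h => by
        funext p
        rw [Pi.add_apply, Pi.add_apply, add_mul]
      map_smul' := fun c f => by
        funext p
        rw [Pi.smul_apply, Pi.smul_apply, RingHom.id_apply, smul_eq_mul, smul_eq_mul, mul_assoc] } with hsc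
  have hsci : Function.Injective sc := by
    intro f g hfg
    funext p
    have h1 : f p * cu Ω p.1 = g p * cu Ω p.1 := congrFun hfg p
    have h2 : cu Ω p.1 ≠ 0 := by
      unfold cu
      split_ifs
      · exact one_div_ne_zero two_ne_zero
      · exact one_ne_zero
    exact mul_right_cancel₀ h2 h1
  have h1 := d.count ((h.comap (d.Ψ fun p => p.1)).comap sc) fun D => by
    show (d.Ψ fun p => p.1) (sc _) ∈ h
    exact hup D
  refine h1.trans (Nat.add_le_add_right ?_ _)
  let e : ((h.comap (d.Ψ fun p => p.1)).comap sc) →ₗ[Ω] (h.comap (d.Ψ fun p => p.1)) :=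
    { toFun := fun f => ⟨sc f.1, f.2⟩
      map_add' := fun f g => Subtype.ext (map_add sc _ _)
      map_smul' := fun c f => Subtype.ext (map_smul sc _ _) }
  exact LinearMap.finrank_le_finrank_of_injective (f := e) fun f g hfg =>
    Subtype.ext (hsci (congrArg Subtype.val hfg))

end Dat

end Pool.Agent.Y118.HX
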