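import Pool.Agent.Y118.HX.Nor

/-!
# The velocity of the Hodge flag
-/

set_option autoImplicit false
set_option maxHeartbeats 400000

open Matrix

namespace Pool.Agent.Y118.HX

/-- the positions above the diagonal modulo the duality -/
abbrev Up (m : ℕ) : Type := {p : Fin (2 * m) × Fin (2 * m) // (p.1 : ℕ) < p.2 ∧ (p.1 : ℕ) + p.2 ≤ 2 * m - 1}

/-- the data: `x` is a generic point of the symplectic group, `w` is the basis of the Hodge decomposition, `C` the base
change from the Frobenius basis to the rational basis -/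
structure Dat (k : Type) (Ω : Type) [Field k] [Field Ω] [Algebra k Ω] (m : ℕ) where
  J : Matrix (Fin (2 * m)) (Fin (2 * m)) k
  Dm : Matrix (Fin (2 * m)) (Fin (2 * m)) k
  M : Matrix (Fin (2 * m)) (Fin (2 * m)) k
  Qb : Matrix (Fin (2 * m)) (Fin (2 * m)) k
  x : Matrix (Fin (2 * m)) (Fin (2 * m)) Ω
  C : Matrix (Fin (2 * m)) (Fin (2 * m)) Ω
  w : Matrix (Fin (2 * m)) (Fin (2 * m)) Ω
  P : Matrix (Fin (2 * m)) (Fin (2 * m)) Ω
  c : Matrix (Fin (2 * m)) (Fin (2 * m)) Ω
  c' : Matrix (Fin (2 * m)) (Fin (2 * m)) Ω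
  s : Ω
  κ : Ω
  γ : Fin (2 * m) → Ω
  hm : 1 ≤ m
  skew : (J.map (algebraMap k Ω)).transpose = -(J.map (algebraMap k Ω))
  Jdet : IsUnit (J.map (algebraMap k Ω)).det
  JN : (Sh Ω (2 * m)).transpose * J.map (algebraMap k Ω) = -(J.map (algebraMap k Ω) * Sh Ω (2 * m))
  xJ : x.transpose * J.map (algebraMap k Ω) * x = J.map (algebraMap k Ω)
  gen : Generic k (J.map (algebraMap k Ω)) x
  Cdet : IsUnit C.det
  wdet : IsUnit w.det
  s0 : s ≠ 0
  κ0 : κ ≠ 0
  mon : C * M.map (algebraMap k Ω) = s • (Sh Ω (2 * m) * C)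
  pol : C.transpose * J.map (algebraMap k Ω) * C = κ • Qb.map (algebraMap k Ω)
  wP : w = P * C
  cP : ∀ i : Fin (2 * m), (i : ℕ) < m → P i = c i ᵥ* (Dm.map (algebraMap k Ω) * x)
  c0 : ∀ i j : Fin (2 * m), (i : ℕ) < j → c i j = 0
  cP' : ∀ i : Fin (2 * m), (i : ℕ) < m → (Dm.map (algebraMap k Ω) * x) i = c' i ᵥ* P
  c0' : ∀ i j : Fin (2 * m), (i : ℕ) < j → c' i j = 0
  γ0 : ∀ i, γ i ≠ 0
  wQ : w.transpose * (Matrix.of fun i j => if j = i.rev then γ i else 0) * w = Qb.map (algebraMap k Ω)

variable {k Ω : Type} [Field k] [Field Ω] [CharZero Ω] [Algebra k Ω] {m : ℕ}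

namespace Dat

variable (d : Dat k Ω m)

/-- the connection matrix -/
noncomputable def b (D : Derivation k Ω Ω) : Matrix (Fin (2 * m)) (Fin (2 * m)) Ω := dm D d.w * d.w⁻¹

omit [CharZero Ω] in
lemma bw (D : Derivation k Ω Ω) : d.b D * d.w = dm D d.w := by
  unfold b
  rw [Matrix.mul_assoc, Matrix.nonsing_inv_mul _ d.wdet, Matrix.mul_one]

omit [CharZero Ω] in
lemma Pdet : IsUnit d.P.det := by
  have h := d.wdet
  rw [d.wP, Matrix.det_mul] at h
  exact isUnit_of_mul_isUnit_left h

/-- the connection of the base change is in the normaliser -/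
lemma nC (D : Derivation k Ω Ω) : ∃ r : Ω, dm D d.C * d.C⁻¹ - r • (1 : Matrix (Fin (2 * m)) (Fin (2 * m)) Ω) ∈
    N0 (d.J.map (algebraMap k Ω)) := by
  set n := dm D d.C * d.C⁻¹ with hn
  have hC : dm D d.C = n * d.C := by
    rw [hn, Matrix.mul_assoc, Matrix.nonsing_inv_mul _ d.Cdet, Matrix.mul_one]
  have hN0 : dm D (Sh Ω (2 * m)) = 0 := by
    ext i j
    unfold dm Sh
    rw [Matrix.map_apply, Matrix.of_apply]
    split_ifs <;> simp
  have cancel : ∀ {X Y : Matrix (Fin (2 * m)) (Fin (2 * m)) Ω}, X * d.C = Y * d.C → X = Y := by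
    intro X Y h
    have h1 := congrArg (fun Z => Z * d.C⁻¹) h
    simp only [Matrix.mul_assoc, Matrix.mul_nonsing_inv _ d.Cdet, Matrix.mul_one] at h1
    exact h1
  -- the monodromy
  have e1 : n * Sh Ω (2 * m) - Sh Ω (2 * m) * n = (D d.s / d.s) • Sh Ω (2 * m) := by
    have h3 := congrArg (dm D) d.mon
    rw [dm_mul, dm_const, Matrix.mul_zero, add_zero, dm_smul, dm_mul, hN0, Matrix.zero_mul, zero_add, hC,
      Matrix.mul_assoc, d.mon, Matrix.mul_smul, ← Matrix.mul_assoc, ← Matrix.mul_assoc] at h3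
    have h4 : (d.s • (n * Sh Ω (2 * m))) * d.C = (D d.s • Sh Ω (2 * m) + d.s • (Sh Ω (2 * m) * n)) * d.C := by
      rw [Matrix.smul_mul, h3, Matrix.add_mul, Matrix.smul_mul, Matrix.smul_mul]
    have h5 := cancel h4
    have h6 : d.s • (n * Sh Ω (2 * m) - Sh Ω (2 * m) * n) = D d.s • Sh Ω (2 * m) := by
      rw [smul_sub, h5, add_sub_cancel_right]
    rw [div_eq_inv_mul, mul_smul, ← h6, smul_smul, inv_mul_cancel₀ d.s0, one_smul]
  -- the form
  set J := d.J.map (algebraMap k Ω) with hJ
  have e2 : n.transpose * J + J * n = (D d.κ / d.κ) • J := by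
    have h3 := congrArg (dm D) d.pol
    rw [dm_mul, dm_mul, dm_const, Matrix.mul_zero, add_zero, dm_smul, dm_const, smul_zero, add_zero, dm_transpose, hC,
      Matrix.transpose_mul, ← hJ] at h3
    have h7 : d.Qb.map (algebraMap k Ω) = d.κ⁻¹ • (d.C.transpose * J * d.C) := by
      rw [d.pol, smul_smul, inv_mul_cancel₀ d.κ0, one_smul]
    have h4 : (d.C.transpose * (n.transpose * J + J * n)) * d.C = (d.C.transpose * ((D d.κ / d.κ) • J)) * d.C := by
      rw [Matrix.mul_smul, Matrix.smul_mul, div_eq_mul_inv, mul_smul, ← h7, ← h3, Matrix.mul_add, Matrix.add_mul]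
      simp only [Matrix.mul_assoc]
    have h5 := cancel h4
    have hu : IsUnit d.C.transpose.det := by rw [Matrix.det_transpose]; exact d.Cdet
    have h6 := congrArg (fun Z => (d.C.transpose)⁻¹ * Z) h5
    simp only [← Matrix.mul_assoc, Matrix.nonsing_inv_mul _ hu, Matrix.one_mul] at h6
    exact h6
  refine ⟨D d.κ / d.κ / 2, ⟨D d.s / d.s, ?_⟩, ?_⟩
  · rw [Matrix.sub_mul, Matrix.mul_sub, Matrix.smul_mul, Matrix.mul_smul, Matrix.one_mul, Matrix.mul_one, ← e1]
    abel
  · rw [Matrix.transpose_sub, Matrix.transpose_smul, Matrix.transpose_one, Matrix.sub_mul, Matrix.mul_sub,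
      Matrix.smul_mul, Matrix.mul_smul, Matrix.one_mul, Matrix.mul_one]
    have : n.transpose * J - (D d.κ / d.κ / 2) • J + (J * n - (D d.κ / d.κ / 2) • J) =
        (n.transpose * J + J * n) - ((D d.κ / d.κ / 2) + (D d.κ / d.κ / 2)) • J := by
      rw [add_smul]
      abel
    rw [this, e2, add_halves, sub_self]

omit [CharZero Ω] in
/-- **the velocity of the flag** -/
lemma star (D : Derivation k Ω Ω) {A : Matrix (Fin (2 * m)) (Fin (2 * m)) Ω} (hD : dm D d.x = d.x * A)
    {i j : Fin (2 * m)} (hi : (i : ℕ) < m) (hij : (i : ℕ) < j) :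
    d.b D i j = (d.P * (A + dm D d.C * d.C⁻¹) * d.P⁻¹) i j := by
  set n := dm D d.C * d.C⁻¹ with hn
  have hC : dm D d.C = n * d.C := by
    rw [hn, Matrix.mul_assoc, Matrix.nonsing_inv_mul _ d.Cdet, Matrix.mul_one]
  have h1 : d.b D * d.P = dm D d.P + d.P * n := by
    have h2' : dm D d.w = dm D d.P * d.C + d.P * dm D d.C := by rw [← dm_mul, ← d.wP]
    have h2 : (d.b D * d.P) * d.C = (dm D d.P + d.P * n) * d.C := by
      calc (d.b D * d.P) * d.C = d.b D * d.w := by rw [Matrix.mul_assoc, ← d.wP]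
        _ = dm D d.P * d.C + d.P * dm D d.C := by rw [bw, h2']
        _ = dm D d.P * d.C + d.P * (n * d.C) := by rw [← hC]
        _ = _ := by rw [Matrix.add_mul, Matrix.mul_assoc d.P]
    have h3 := congrArg (fun Z => Z * d.C⁻¹) h2
    simp only [Matrix.mul_assoc, Matrix.mul_nonsing_inv _ d.Cdet, Matrix.mul_one] at h3
    exact h3
  have hDm : dm D (d.Dm.map (algebraMap k Ω) * d.x) = d.Dm.map (algebraMap k Ω) * d.x * A := by
    rw [dm_mul, dm_const, Matrix.zero_mul, zero_add, hD, Matrix.mul_assoc]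
  set R := d.Dm.map (algebraMap k Ω) * d.x with hR
  -- the row `i` of the derivative of `P`
  set e : Fin (2 * m) → Ω := fun r => ∑ l, D (d.c i l) * (if (l : ℕ) ≤ i then d.c' l r else 0) with he
  have h4 : dm D d.P i = e ᵥ* d.P + d.P i ᵥ* A := by
    funext q
    have h5 : ∀ q, d.P i q = ∑ l, d.c i l * R l q := fun q => congrFun (d.cP i hi) q
    show D (d.P i q) = _
    rw [h5, map_sum]
    simp only [Derivation.leibniz, smul_eq_mul]
    rw [Finset.sum_add_distrib, add_comm, Pi.add_apply]
    congr 1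
    · show _ = ∑ r, e r * d.P r q
      rw [he]
      simp only [Finset.sum_mul]
      rw [Finset.sum_comm]
      refine Finset.sum_congr rfl fun l _ => ?_
      by_cases hl : (l : ℕ) ≤ i
      · have h6 : R l q = ∑ r, d.c' l r * d.P r q := congrFun (d.cP' l (by omega)) q
        rw [h6, Finset.sum_mul]
        refine Finset.sum_congr rfl fun r _ => ?_
        rw [if_pos hl]
        ring
      · have h7 : D (d.c i l) = 0 := by rw [d.c0 i l (by omega), map_zero]
        rw [h7, mul_zero, Finset.sum_eq_zero]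
        intro r _
        rw [zero_mul, zero_mul]
    · show _ = ∑ r, d.P i r * A r q
      have h8 : ∀ l, D (R l q) = ∑ r, R l r * A r q := fun l => congrFun (congrFun hDm l) q
      simp only [h8, h5, Finset.mul_sum, Finset.sum_mul]
      rw [Finset.sum_comm]
      refine Finset.sum_congr rfl fun r _ => Finset.sum_congr rfl fun l _ => ?_
      ring
  -- the row `i` of `b`
  have h9 : d.b D i ᵥ* d.P = e ᵥ* d.P + (d.P * (A + n)) i := by
    have h10 : (d.b D * d.P) i = (dm D d.P + d.P * n) i := by rw [h1]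
    have h11 : (d.b D * d.P) i = d.b D i ᵥ* d.P := rfl
    rw [← h11, h10, Matrix.mul_add]
    show dm D d.P i + (d.P * n) i = _
    rw [h4]
    funext q
    show (e ᵥ* d.P) q + (d.P i ᵥ* A) q + (d.P * n) i q = (e ᵥ* d.P) q + ((d.P * A) i q + (d.P * n) i q)
    have : (d.P i ᵥ* A) q = (d.P * A) i q := rfl
    rw [this]
    ring
  have h12 : d.b D i = e + (d.P * (A + n) * d.P⁻¹) i := by
    have h13 := congrArg (fun v => v ᵥ* d.P⁻¹) h9
    simp only [add_vecMul, vecMul_vecMul, Matrix.mul_nonsing_inv _ d.Pdet, vecMul_one] at h13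
    exact h13
  rw [h12, Pi.add_apply]
  have h14 : e j = 0 := by
    rw [he]
    refine Finset.sum_eq_zero fun l _ => ?_
    split_ifs with hl
    · rw [d.c0' l j (by omega), mul_zero]
    · rw [mul_zero]
  rw [h14, zero_add]

/-- restriction to the upper positions -/
noncomputable def L : Matrix (Fin (2 * m)) (Fin (2 * m)) Ω →ₗ[Ω] (Up m → Ω) where
  toFun := fun B p => (d.P * B * d.P⁻¹) p.1.1 p.1.2
  map_add' := fun A B => by
    funext p
    rw [Matrix.mul_add, Matrix.add_mul]
    rfl
  map_smul' := fun r A => by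
    funext p
    rw [Matrix.mul_smul, Matrix.smul_mul]
    rfl

omit [CharZero Ω] in
lemma L_one : d.L 1 = 0 := by
  funext p
  show (d.P * (1 : Matrix (Fin (2 * m)) (Fin (2 * m)) Ω) * d.P⁻¹) p.1.1 p.1.2 = 0
  rw [Matrix.mul_one, Matrix.mul_nonsing_inv _ d.Pdet, Matrix.one_apply, if_neg]
  intro h
  have := p.2.1
  rw [h] at this
  exact lt_irrefl _ this

omit [CharZero Ω] in
/-- the form in the Hodge basis -/
lemma Jform : (d.P⁻¹).transpose * d.J.map (algebraMap k Ω) * d.P⁻¹ =
    d.κ • (Matrix.of fun i j => if j = Fin.rev i then d.γ i else 0) := by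
  set Γ : Matrix (Fin (2 * m)) (Fin (2 * m)) Ω := Matrix.of fun i j => if j = Fin.rev i then d.γ i else 0 with hΓ
  set J := d.J.map (algebraMap k Ω) with hJ
  have h1 : d.C.transpose * J * d.C = d.κ • (d.C.transpose * (d.P.transpose * Γ * d.P) * d.C) := by
    rw [hJ, d.pol, ← d.wQ, ← hΓ, d.wP, Matrix.transpose_mul]
    simp only [Matrix.mul_assoc]
  have hu : IsUnit d.C.transpose.det := by rw [Matrix.det_transpose]; exact d.Cdet
  have h2 : J = d.κ • (d.P.transpose * Γ * d.P) := by
    have h3 := congrArg (fun Z => (d.C.transpose)⁻¹ * Z * d.C⁻¹) h1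
    simp only [Matrix.mul_smul, Matrix.smul_mul] at h3
    have h4 : ∀ X : Matrix (Fin (2 * m)) (Fin (2 * m)) Ω, (d.C.transpose)⁻¹ * (d.C.transpose * X * d.C) * d.C⁻¹ = X := by
      intro X
      calc (d.C.transpose)⁻¹ * (d.C.transpose * X * d.C) * d.C⁻¹ =
          ((d.C.transpose)⁻¹ * d.C.transpose) * X * (d.C * d.C⁻¹) := by simp only [Matrix.mul_assoc]
        _ = X := by rw [Matrix.nonsing_inv_mul _ hu, Matrix.mul_nonsing_inv _ d.Cdet, Matrix.one_mul, Matrix.mul_one]
    rw [h4, h4] at h3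
    exact h3
  have h5 : (d.P⁻¹).transpose * d.P.transpose = 1 := by
    rw [← Matrix.transpose_mul, Matrix.mul_nonsing_inv _ d.Pdet, Matrix.transpose_one]
  rw [h2, Matrix.mul_smul, Matrix.smul_mul]
  congr 1
  calc (d.P⁻¹).transpose * (d.P.transpose * Γ * d.P) * d.P⁻¹ = ((d.P⁻¹).transpose * d.P.transpose) * Γ * (d.P * d.P⁻¹) := by
        simp only [Matrix.mul_assoc]
    _ = Γ := by rw [h5, Matrix.mul_nonsing_inv _ d.Pdet, Matrix.one_mul, Matrix.mul_one]

/-- **the count** -/
theorem count (H : Submodule Ω (Up m → Ω)) (hH : ∀ D : Derivation k Ω Ω, (fun p : Up m => d.b D p.1.1 p.1.2) ∈ H) :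
    Fintype.card (Up m) ≤ Module.finrank Ω H + (m + 1) := by
  set J := d.J.map (algebraMap k Ω) with hJ
  set K := (N0 J).map d.L with hK
  have htop : (⊤ : Submodule Ω (Up m → Ω)) ≤ H ⊔ K := by
    -- the members of the basis
    have hp : ∀ p : Up m, (Pi.single p 1 : Up m → Ω) ∈ H ⊔ K := by
      intro p
      obtain ⟨⟨a, q⟩, hp1, hp2⟩ := p
      simp only at hp1 hp2
      set u : Fin (2 * m) → Ω := fun i => d.P⁻¹ i a with hu
      set v : Fin (2 * m) → Ω := fun i => d.P⁻¹ i q.rev with hv
      obtain ⟨D, hD⟩ := der_uv d.skew d.xJ d.gen u v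
      set A := (vecMulVec u v + vecMulVec v u) * J with hA
      have hLA : ∀ i j, (d.P * A * d.P⁻¹) i j =
          d.κ * ((if i = a then (if j = q then d.γ q.rev else 0) else 0) +
            (if i = q.rev then (if j = a.rev then d.γ a else 0) else 0)) := by
        intro i j
        have hPu : ∀ c : Fin (2 * m), d.P *ᵥ (fun i => d.P⁻¹ i c) = Pi.single c 1 := by
          intro c
          funext r
          have h1 := congrFun (congrFun (Matrix.mul_nonsing_inv _ d.Pdet) r) c
          rw [Matrix.mul_apply] at h1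
          show ∑ l, d.P r l * d.P⁻¹ l c = _
          rw [h1, Matrix.one_apply, Pi.single_apply]
        have h2 : d.P * A * d.P⁻¹ = (vecMulVec (Pi.single a 1) v + vecMulVec (Pi.single q.rev 1) u) * J * d.P⁻¹ := by
          rw [hA, ← Matrix.mul_assoc, Matrix.mul_add, mul_vecMulVec, mul_vecMulVec, hPu, hPu]
        have h3 : ∀ c : Fin (2 * m), (fun i => d.P⁻¹ i c) = (Pi.single c (1 : Ω)) ᵥ* (d.P⁻¹).transpose := by
          intro c
          rw [Matrix.single_one_vecMul]
          rfl
        have h4 : ∀ c r : Fin (2 * m), vecMulVec (Pi.single c (1 : Ω)) (fun i => d.P⁻¹ i r) * J * d.P⁻¹ =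
            vecMulVec (Pi.single c 1) ((Pi.single r (1 : Ω)) ᵥ* (d.κ • (Matrix.of fun i j => if j = Fin.rev i then d.γ i else 0))) := by
          intro c r
          have h5 : (d.P⁻¹).transpose * (J * d.P⁻¹) =
              d.κ • (Matrix.of fun i j => if j = Fin.rev i then d.γ i else 0) := by
            rw [← Matrix.mul_assoc]
            exact d.Jform
          rw [h3, vecMulVec_mul, vecMulVec_mul, vecMul_vecMul, vecMul_vecMul, h5]
        rw [h2, Matrix.add_mul, Matrix.add_mul, h4, h4, Matrix.add_apply, vecMulVec_apply, vecMulVec_apply,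
          Matrix.single_one_vecMul, Matrix.single_one_vecMul]
        show (Pi.single a (1 : Ω) : Fin (2 * m) → Ω) i * (d.κ * (if j = Fin.rev (Fin.rev q) then d.γ (Fin.rev q) else 0)) +
          (Pi.single (Fin.rev q) (1 : Ω) : Fin (2 * m) → Ω) i * (d.κ * (if j = Fin.rev a then d.γ a else 0)) = _
        rw [Fin.rev_rev, Pi.single_apply, Pi.single_apply]
        split_ifs <;> ring
      -- the value on the upper positions
      have hval : ∃ c : Ω, c ≠ 0 ∧ d.L A = c • Pi.single (⟨(a, q), hp1, hp2⟩ : Up m) 1 := by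
        by_cases hq : q = a.rev
        · refine ⟨d.κ * (2 * d.γ a), mul_ne_zero d.κ0 (mul_ne_zero two_ne_zero (d.γ0 a)), ?_⟩
          funext r
          obtain ⟨⟨i, j⟩, hr1, hr2⟩ := r
          have hqr : q.rev = a := by rw [hq, Fin.rev_rev]
          show (d.P * A * d.P⁻¹) i j = _
          rw [hLA, hqr, ← hq, Pi.smul_apply, Pi.single_apply, smul_eq_mul]
          by_cases h1 : i = a ∧ j = q
          · obtain ⟨rfl, rfl⟩ := h1
            rw [if_pos rfl, if_pos rfl, if_pos rfl]
            ring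
          · have h5 : (⟨(i, j), hr1, hr2⟩ : Up m) ≠ ⟨(a, q), hp1, hp2⟩ := by
              intro h
              exact h1 ⟨congrArg (fun z : Up m => z.1.1) h, congrArg (fun z : Up m => z.1.2) h⟩
            rw [if_neg h5]
            by_cases h6 : i = a
            · rw [if_pos h6, if_neg (fun h7 => h1 ⟨h6, h7⟩)]
              ring
            · rw [if_neg h6]
              ring
        · refine ⟨d.κ * d.γ q.rev, mul_ne_zero d.κ0 (d.γ0 _), ?_⟩
          funext r
          obtain ⟨⟨i, j⟩, hr1, hr2⟩ := r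
          simp only at hr1 hr2
          show (d.P * A * d.P⁻¹) i j = _
          rw [hLA, Pi.smul_apply, Pi.single_apply, smul_eq_mul]
          have h2 : ¬ (i = q.rev ∧ j = a.rev) := by
            rintro ⟨rfl, rfl⟩
            rw [Fin.val_rev, Fin.val_rev] at hr2
            have := q.2
            have := a.2
            apply hq
            apply Fin.ext
            rw [Fin.val_rev]
            omega
          by_cases h1 : i = a ∧ j = q
          · obtain ⟨rfl, rfl⟩ := h1
            rw [if_pos rfl, if_pos rfl]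
            by_cases h3 : i = Fin.rev j
            · rw [if_pos h3, if_neg (fun h4 => h2 ⟨h3, h4⟩)]
              simp
            · rw [if_neg h3]
              simp
          · have h5 : (⟨(i, j), hr1, hr2⟩ : Up m) ≠ ⟨(a, q), hp1, hp2⟩ := by
              intro h
              exact h1 ⟨congrArg (fun z : Up m => z.1.1) h, congrArg (fun z : Up m => z.1.2) h⟩
            rw [if_neg h5]
            by_cases h6 : i = a
            · rw [if_pos h6, if_neg (fun h7 => h1 ⟨h6, h7⟩)]
              by_cases h8 : i = q.rev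
              · rw [if_pos h8, if_neg (fun h9 => h2 ⟨h8, h9⟩)]
                ring
              · rw [if_neg h8]
                ring
            · rw [if_neg h6]
              by_cases h8 : i = q.rev
              · rw [if_pos h8, if_neg (fun h9 => h2 ⟨h8, h9⟩)]
                ring
              · rw [if_neg h8]
                ring
      obtain ⟨c, hc, hL⟩ := hval
      -- the velocity
      obtain ⟨r, hr⟩ := d.nC D
      have h10 : (fun p : Up m => d.b D p.1.1 p.1.2) = d.L A + d.L (dm D d.C * d.C⁻¹ - r • 1) := by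
        rw [map_sub, map_smul, L_one, smul_zero, sub_zero, ← map_add]
        funext z
        exact d.star D hD (by have h11 := z.2.1; have h12 := z.2.2; omega) z.2.1
      have h11 : d.L A ∈ H ⊔ K := by
        have h12 : d.L A = (fun p : Up m => d.b D p.1.1 p.1.2) - d.L (dm D d.C * d.C⁻¹ - r • 1) := by
          rw [h10, add_sub_cancel_right]
        rw [h12]
        exact Submodule.sub_mem _ (Submodule.mem_sup_left (hH D))
          (Submodule.mem_sup_right (Submodule.mem_map_of_mem hr))
      rw [hL] at h11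
      have h13 := Submodule.smul_mem _ c⁻¹ h11
      rwa [smul_smul, inv_mul_cancel₀ hc, one_smul] at h13
    intro f _
    have h14 : f = ∑ p : Up m, f p • (Pi.single p 1 : Up m → Ω) := by
      funext z
      rw [Finset.sum_apply]
      simp only [Pi.smul_apply, Pi.single_apply, smul_eq_mul, mul_ite, mul_one, mul_zero]
      rw [Finset.sum_ite_eq Finset.univ z fun p => f p, if_pos (Finset.mem_univ _)]
    rw [h14]
    exact Submodule.sum_mem _ fun p _ => Submodule.smul_mem _ _ (hp p)
  have h1 : Fintype.card (Up m) = Module.finrank Ω (⊤ : Submodule Ω (Up m → Ω)) := by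
    rw [finrank_top, Module.finrank_fintype_fun_eq_card]
  rw [h1]
  calc Module.finrank Ω (⊤ : Submodule Ω (Up m → Ω)) ≤ Module.finrank Ω (H ⊔ K : Submodule Ω (Up m → Ω)) :=
        Submodule.finrank_mono htop
    _ ≤ Module.finrank Ω H + Module.finrank Ω K := Submodule.finrank_add_le_finrank_add_finrank H K
    _ ≤ Module.finrank Ω H + (m + 1) := by
        refine Nat.add_le_add_left ?_ _
        exact (Submodule.finrank_map_le _ _).trans (N0_dim d.hm d.Jdet d.JN)

end Dat

end Pool.Agent.Y118.HX
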