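import Pool.Agent.Y118.HX.Hod

/-!
# Polarised flags and the data at one point
-/

set_option autoImplicit false
set_option maxHeartbeats 400000

open Matrix

namespace Pool.Agent.Y118.HX

variable {m : ℕ}

/-- the filtration given by an isotropic flag and its orthogonal complements -/
def Fl (v : ℕ → Fin (2 * m) → ℂ) (R : Matrix (Fin (2 * m)) (Fin (2 * m)) ℂ) (p : ℕ) : Submodule ℂ (Fin (2 * m) → ℂ) :=
  if m ≤ p then Submodule.span ℂ {x | ∃ i : ℕ, i + p < 2 * m ∧ x = v i}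
  else
    { carrier := {x | ∀ j, j < p → x ⬝ᵥ (R *ᵥ v j) = 0}
      add_mem' := fun {a b} ha hb j hj => by rw [add_dotProduct, ha j hj, hb j hj, add_zero]
      zero_mem' := fun j _ => zero_dotProduct _
      smul_mem' := fun c a ha j hj => by rw [smul_dotProduct, ha j hj, smul_zero] }

variable {v : ℕ → Fin (2 * m) → ℂ} {R : Matrix (Fin (2 * m)) (Fin (2 * m)) ℂ}

lemma Fl_hi {p : ℕ} (hp : m ≤ p) : Fl v R p = Submodule.span ℂ {x | ∃ i : ℕ, i + p < 2 * m ∧ x = v i} := by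
  unfold Fl
  rw [if_pos hp]

lemma mem_Fl_lo {p : ℕ} (hp : p < m) {x : Fin (2 * m) → ℂ} : x ∈ Fl v R p ↔ ∀ j, j < p → x ⬝ᵥ (R *ᵥ v j) = 0 := by
  unfold Fl
  rw [if_neg (by omega)]
  rfl

/-- membership in the orthogonal complement of a span -/
lemma span_orth {s : Set (Fin (2 * m) → ℂ)} {y x : Fin (2 * m) → ℂ} (h : ∀ z ∈ s, z ⬝ᵥ y = 0)
    (hx : x ∈ Submodule.span ℂ s) : x ⬝ᵥ y = 0 := by
  induction hx using Submodule.span_induction with
  | mem z hz => exact h z hz
  | zero => exact zero_dotProduct _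
  | add a b _ _ ha hb => rw [add_dotProduct, ha, hb, add_zero]
  | smul c a _ ha => rw [smul_dotProduct, ha, smul_zero]

section
variable (hR : R.transpose = -R) (hiso : ∀ i j, i < m → j < m → v i ⬝ᵥ (R *ᵥ v j) = 0)

include hR in
lemma skew_form (x y : Fin (2 * m) → ℂ) : x ⬝ᵥ (R *ᵥ y) = -(y ⬝ᵥ (R *ᵥ x)) := by
  rw [dotProduct_mulVec, ← mulVec_transpose, hR, neg_mulVec, neg_dotProduct, dotProduct_comm]

include hiso in
lemma Fl_anti (p q : ℕ) (hpq : p ≤ q) : Fl v R q ≤ Fl v R p := by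
  by_cases hp : m ≤ p
  · rw [Fl_hi hp, Fl_hi (hp.trans hpq)]
    refine Submodule.span_mono ?_
    rintro _ ⟨i, hi, rfl⟩
    exact ⟨i, by omega, rfl⟩
  · push Not at hp
    by_cases hq : m ≤ q
    · rw [Fl_hi hq, Submodule.span_le]
      rintro _ ⟨i, hi, rfl⟩
      exact (mem_Fl_lo hp).2 fun j hj => hiso i j (by omega) (by omega)
    · push Not at hq
      intro x hx
      exact (mem_Fl_lo hp).2 fun j hj => (mem_Fl_lo hq).1 hx j (by omega)

lemma Fl_dim (hli : LinearIndependent ℂ fun i : Fin m => v i) (p : ℕ) (hp : p ≤ 2 * m) :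
    2 * m - p ≤ Module.finrank ℂ (Fl v R p) := by
  by_cases hm : m ≤ p
  · rw [Fl_hi hm]
    have h2 : {x | ∃ i : ℕ, i + p < 2 * m ∧ x = v i} = Set.range (fun j : Fin (2 * m - p) => v j) := by
      ext x
      constructor
      · rintro ⟨j, hj, rfl⟩
        exact ⟨⟨j, by omega⟩, rfl⟩
      · rintro ⟨⟨j, hj⟩, rfl⟩
        exact ⟨j, by show j + p < 2 * m; omega, rfl⟩
    have h3 : LinearIndependent ℂ (fun j : Fin (2 * m - p) => v j) := by
      have := hli.comp (fun j : Fin (2 * m - p) => (⟨j, by have := j.2; omega⟩ : Fin m)) fun a b h => by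
        have h4 := congrArg (fun z : Fin m => (z : ℕ)) h
        exact Fin.ext h4
      exact this
    rw [h2, finrank_span_eq_card h3, Fintype.card_fin]
  · push Not at hm
    let f : (Fin (2 * m) → ℂ) →ₗ[ℂ] (Fin p → ℂ) :=
      { toFun := fun x j => x ⬝ᵥ (R *ᵥ v j)
        map_add' := fun a b => by
          funext j
          rw [add_dotProduct]
          rfl
        map_smul' := fun c a => by
          funext j
          rw [smul_dotProduct]
          rfl }
    have h1 := LinearMap.finrank_range_add_finrank_ker f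
    rw [Module.finrank_fin_fun] at h1
    have h2 : Module.finrank ℂ (LinearMap.range f) ≤ p := by
      have := Submodule.finrank_le (LinearMap.range f)
      rwa [Module.finrank_fin_fun] at this
    have h3 : LinearMap.ker f = Fl v R p := by
      ext x
      rw [LinearMap.mem_ker, mem_Fl_lo hm]
      constructor
      · intro h j hj
        exact congrFun h ⟨j, hj⟩
      · intro h
        funext j
        exact h j j.2
    rw [h3] at h1
    omega

include hR hiso in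
lemma Fl_orth {p : ℕ} (hp : p ≤ 2 * m) {x y : Fin (2 * m) → ℂ} (hx : x ∈ Fl v R p) (hy : y ∈ Fl v R (2 * m - p)) :
    x ⬝ᵥ (R *ᵥ y) = 0 := by
  have main : ∀ p : ℕ, p ≤ m → ∀ x y : Fin (2 * m) → ℂ, x ∈ Fl v R p → y ∈ Fl v R (2 * m - p) → x ⬝ᵥ (R *ᵥ y) = 0 := by
    intro p hpm x y hx hy
    rw [Fl_hi (show m ≤ 2 * m - p by omega)] at hy
    rw [skew_form hR, neg_eq_zero]
    refine span_orth ?_ hy
    rintro _ ⟨j, hj, rfl⟩
    rw [skew_form hR, neg_eq_zero]
    by_cases h : m ≤ p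
    · rw [Fl_hi h] at hx
      refine span_orth ?_ hx
      rintro _ ⟨i, hi, rfl⟩
      exact hiso i j (by omega) (by omega)
    · exact (mem_Fl_lo (by omega)).1 hx j (by omega)
  rcases le_total p m with h | h
  · exact main p h x y hx hy
  · rw [skew_form hR, neg_eq_zero]
    refine main (2 * m - p) (by omega) y x hy ?_
    have : 2 * m - (2 * m - p) = p := by omega
    rwa [this]

end

/-- coefficients of the members of the span of the first vectors -/
lemma tri_coeff {n : ℕ} {u : Fin n → Fin n → ℂ} {i : Fin n} {x : Fin n → ℂ}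
    (hx : x ∈ Submodule.span ℂ {y | ∃ j : Fin n, j ≤ i ∧ y = u j}) :
    ∃ c : Fin n → ℂ, (∀ j, i < j → c j = 0) ∧ x = c ᵥ* (Matrix.of u) := by
  induction hx using Submodule.span_induction with
  | mem z hz =>
    obtain ⟨j, hj, rfl⟩ := hz
    refine ⟨Pi.single j 1, fun l hl => ?_, ?_⟩
    · rw [Pi.single_apply, if_neg]
      rintro rfl
      exact absurd hj (not_le.2 hl)
    · rw [Matrix.single_one_vecMul]
      rfl
  | zero => exact ⟨0, fun _ _ => rfl, by rw [zero_vecMul]⟩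
  | add a b _ _ ha hb =>
    obtain ⟨c1, h1, h2⟩ := ha
    obtain ⟨c2, h3, h4⟩ := hb
    exact ⟨c1 + c2, fun j hj => by rw [Pi.add_apply, h1 j hj, h3 j hj, add_zero], by rw [add_vecMul, ← h2, ← h4]⟩
  | smul c a _ ha =>
    obtain ⟨c1, h1, h2⟩ := ha
    exact ⟨c • c1, fun j hj => by rw [Pi.smul_apply, h1 j hj, smul_zero], by rw [smul_vecMul, ← h2]⟩

lemma star_cm (Z : Matrix (Fin (2 * m)) (Fin (2 * m)) ℚ) (x : Fin (2 * m) → ℂ) :
    star (x ᵥ* Z.map (fun q : ℚ => (q : ℂ))) = star x ᵥ* Z.map (fun q : ℚ => (q : ℂ)) := by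
  funext j
  show star (∑ i, x i * ((Z i j : ℚ) : ℂ)) = ∑ i, star (x i) * ((Z i j : ℚ) : ℂ)
  rw [star_sum]
  refine Finset.sum_congr rfl fun i _ => ?_
  rw [star_mul', ← Complex.ofReal_ratCast]
  simp

lemma star_form (Z : Matrix (Fin (2 * m)) (Fin (2 * m)) ℚ) (x y : Fin (2 * m) → ℂ) :
    star (x ⬝ᵥ (Z.map (fun q : ℚ => (q : ℂ)) *ᵥ y)) = star x ⬝ᵥ (Z.map (fun q : ℚ => (q : ℂ)) *ᵥ star y) := by
  rw [dotProduct_mulVec, dotProduct_mulVec, ← star_cm]
  simp only [dotProduct, star_sum, star_mul']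
  rfl

/-- **the data at one point** -/
theorem pt_data (hm : 1 ≤ m) {Qb : Matrix (Fin (2 * m)) (Fin (2 * m)) ℚ} (hQ : Qb.det ≠ 0) (hskew : Qb.transpose = -Qb)
    (hiso : ∀ i j, i < m → j < m → v i ⬝ᵥ ((Qb⁻¹).map (fun q : ℚ => (q : ℂ)) *ᵥ v j) = 0)
    (hli : LinearIndependent ℂ fun i : Fin m => v i)
    (hopp : ∀ p ≤ 2 * m, Fl v ((Qb⁻¹).map (fun q : ℚ => (q : ℂ))) p ⊓ cj (Fl v ((Qb⁻¹).map (fun q : ℚ => (q : ℂ))) (2 * m - p)) = ⊥) :
    ∃ (w c c' : Matrix (Fin (2 * m)) (Fin (2 * m)) ℂ) (γ : Fin (2 * m) → ℂ), w.det ≠ 0 ∧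
      (∀ i : Fin (2 * m), w i ∈ Fl v ((Qb⁻¹).map (fun q : ℚ => (q : ℂ))) (2 * m - 1 - i)) ∧
      (∀ i : Fin (2 * m), star (w i) ∈ Fl v ((Qb⁻¹).map (fun q : ℚ => (q : ℂ))) i) ∧
      (∀ i : Fin (2 * m), ∀ z ∈ Fl v ((Qb⁻¹).map (fun q : ℚ => (q : ℂ))) (2 * m - 1 - i),
        star z ∈ Fl v ((Qb⁻¹).map (fun q : ℚ => (q : ℂ))) i → ∃ c : ℂ, z = c • w i) ∧
      (∀ i, γ i ≠ 0) ∧
      w.transpose * (Matrix.of fun i j => if j = i.rev then γ i else 0) * w = Qb.map (fun q : ℚ => (q : ℂ)) ∧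
      (∀ i j : Fin (2 * m), (i : ℕ) < j → c i j = 0) ∧ (∀ i j : Fin (2 * m), (i : ℕ) < j → c' i j = 0) ∧
      (∀ i : Fin (2 * m), (i : ℕ) < m → w i = c i ᵥ* (Matrix.of fun j : Fin (2 * m) => v j)) ∧
      ∀ i : Fin (2 * m), (i : ℕ) < m → v i = c' i ᵥ* w := by
  set R := (Qb⁻¹).map (fun q : ℚ => (q : ℂ)) with hR
  set Qc := Qb.map (fun q : ℚ => (q : ℂ)) with hQc
  have hu : IsUnit Qb.det := isUnit_iff_ne_zero.2 hQ
  have hRQ : R * Qc = 1 := by
    have h1 := congrArg (fun Z : Matrix (Fin (2 * m)) (Fin (2 * m)) ℚ => Z.map (Rat.castHom ℂ)) (Matrix.nonsing_inv_mul Qb hu)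
    simp only [Matrix.map_mul] at h1
    rw [Matrix.map_one _ (map_zero _) (map_one _)] at h1
    exact h1
  have hQR : Qc * R = 1 := mul_eq_one_comm.1 hRQ
  have hRs : R.transpose = -R := by
    have h1 : (Qb⁻¹).transpose = -Qb⁻¹ := by
      rw [Matrix.transpose_nonsing_inv, hskew]
      refine Matrix.inv_eq_left_inv ?_
      rw [neg_mul_neg, Matrix.nonsing_inv_mul _ hu]
    have h2 := congrArg (fun Z : Matrix (Fin (2 * m)) (Fin (2 * m)) ℚ => Z.map (fun q : ℚ => (q : ℂ))) h1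
    ext i j
    have h3 := congrFun (congrFun h2 i) j
    simp only [Matrix.map_apply, Matrix.transpose_apply, Matrix.neg_apply] at h3
    rw [Matrix.transpose_apply, Matrix.neg_apply, hR, Matrix.map_apply, Matrix.map_apply, h3]
    push_cast
    rfl
  obtain ⟨w, hw, hw1, hw2, hw3, hw4⟩ := hodge_basis (Fl v R) (Fl_anti hiso) (Fl_dim hli) hopp
  have hdet : (Matrix.of w).det ≠ 0 := by
    have h1 : LinearIndependent ℂ (Matrix.of w).row := hw
    have h2 := Matrix.linearIndependent_rows_iff_isUnit.1 h1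
    exact (isUnit_iff_ne_zero.1 ((Matrix.isUnit_iff_isUnit_det _).1 h2))
  -- the form in the basis
  set W : Matrix (Fin (2 * m)) (Fin (2 * m)) ℂ := Matrix.of w * R * (Matrix.of w).transpose with hW
  have hWe : ∀ i j, W i j = w i ⬝ᵥ (R *ᵥ w j) := by
    intro i j
    rw [hW, Matrix.mul_assoc, Matrix.mul_apply]
    rfl
  have hW0 : ∀ i j : Fin (2 * m), j ≠ i.rev → W i j = 0 := by
    intro i j hij
    have hi := i.2
    have hj := j.2
    have hne : (i : ℕ) + j ≠ 2 * m - 1 := by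
      intro h
      apply hij
      apply Fin.ext
      rw [Fin.val_rev]
      omega
    rw [hWe]
    rcases Nat.lt_or_ge ((i : ℕ) + j) (2 * m - 1) with h | h
    · refine Fl_orth hRs hiso (p := 2 * m - 1 - i) (by omega) (hw1 i) (Fl_anti hiso _ _ ?_ (hw1 j))
      omega
    · have h1 : star (w i) ⬝ᵥ (R *ᵥ star (w j)) = 0 := by
        refine Fl_orth hRs hiso (p := i) (by omega) (hw2 i) (Fl_anti hiso _ _ ?_ (hw2 j))
        omega
      rw [hR, ← star_form, star_eq_zero] at h1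
      exact h1
  have hwu : IsUnit (Matrix.of w).det := isUnit_iff_ne_zero.2 hdet
  have hWQ : (Matrix.of w).transpose⁻¹ * Qc * (Matrix.of w)⁻¹ * W = 1 := by
    have hwt : IsUnit (Matrix.of w).transpose.det := by rw [Matrix.det_transpose]; exact hwu
    calc (Matrix.of w).transpose⁻¹ * Qc * (Matrix.of w)⁻¹ * W =
        (Matrix.of w).transpose⁻¹ * Qc * ((Matrix.of w)⁻¹ * Matrix.of w) * R * (Matrix.of w).transpose := by
          rw [hW]
          simp only [Matrix.mul_assoc]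
      _ = (Matrix.of w).transpose⁻¹ * (Qc * R) * (Matrix.of w).transpose := by
          rw [Matrix.nonsing_inv_mul _ hwu, Matrix.mul_one]
          simp only [Matrix.mul_assoc]
      _ = 1 := by rw [hQR, Matrix.mul_one, Matrix.nonsing_inv_mul _ hwt]
  -- the entries of the antidiagonal are not zero
  have hWd : ∀ i : Fin (2 * m), W i i.rev ≠ 0 := by
    intro i h0
    have h1' : W * ((Matrix.of w).transpose⁻¹ * Qc * (Matrix.of w)⁻¹) = 1 := mul_eq_one_comm.1 hWQ
    have h1 := congrFun (congrFun h1' i) i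
    rw [Matrix.mul_apply, Matrix.one_apply_eq] at h1
    have h2 : ∀ j, W i j = 0 := by
      intro j
      by_cases hj : j = i.rev
      · rw [hj, h0]
      · exact hW0 i j hj
    simp only [h2, zero_mul, Finset.sum_const_zero] at h1
    exact zero_ne_one h1
  set γ : Fin (2 * m) → ℂ := fun i => (W i.rev i)⁻¹ with hγ
  set Γ : Matrix (Fin (2 * m)) (Fin (2 * m)) ℂ := Matrix.of fun i j => if j = i.rev then γ i else 0 with hΓ
  have hΓW : Γ * W = 1 := by
    ext i j
    rw [Matrix.mul_apply, Finset.sum_eq_single i.rev]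
    · rw [hΓ, Matrix.of_apply, if_pos rfl, hγ]
      by_cases hij : i = j
      · subst hij
        rw [Matrix.one_apply_eq]
        have h1 := hWd i.rev
        rw [Fin.rev_rev] at h1
        exact inv_mul_cancel₀ h1
      · rw [Matrix.one_apply_ne hij, hW0 i.rev j, mul_zero]
        rw [Fin.rev_rev]
        exact fun h => hij h.symm
    · intro l _ hl
      rw [hΓ, Matrix.of_apply, if_neg hl, zero_mul]
    · intro h
      exact absurd (Finset.mem_univ _) h
  have hfin : (Matrix.of w).transpose * Γ * Matrix.of w = Qc := by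
    have h1 : Γ = (Matrix.of w).transpose⁻¹ * Qc * (Matrix.of w)⁻¹ := by
      have h2 := mul_eq_one_comm.1 hΓW
      calc Γ = ((Matrix.of w).transpose⁻¹ * Qc * (Matrix.of w)⁻¹ * W) * Γ := by rw [hWQ, Matrix.one_mul]
        _ = (Matrix.of w).transpose⁻¹ * Qc * (Matrix.of w)⁻¹ * (W * Γ) := by simp only [Matrix.mul_assoc]
        _ = _ := by rw [h2, Matrix.mul_one]
    have hwt : IsUnit (Matrix.of w).transpose.det := by rw [Matrix.det_transpose]; exact hwu
    rw [h1]
    calc (Matrix.of w).transpose * ((Matrix.of w).transpose⁻¹ * Qc * (Matrix.of w)⁻¹) * Matrix.of w =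
        ((Matrix.of w).transpose * (Matrix.of w).transpose⁻¹) * Qc * ((Matrix.of w)⁻¹ * Matrix.of w) := by
          simp only [Matrix.mul_assoc]
      _ = Qc := by rw [Matrix.mul_nonsing_inv _ hwt, Matrix.nonsing_inv_mul _ hwu, Matrix.one_mul, Matrix.mul_one]
  -- the triangular matrices
  have hspanv : ∀ i : Fin (2 * m), (i : ℕ) < m → Fl v R (2 * m - 1 - i) =
      Submodule.span ℂ {y | ∃ j : Fin (2 * m), j ≤ i ∧ y = (fun j : Fin (2 * m) => v j) j} := by
    intro i hi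
    rw [Fl_hi (by omega)]
    congr 1
    ext x
    constructor
    · rintro ⟨l, hl, rfl⟩
      exact ⟨⟨l, by omega⟩, by rw [Fin.le_def]; show l ≤ (i : ℕ); omega, rfl⟩
    · rintro ⟨j, hj, rfl⟩
      rw [Fin.le_def] at hj
      exact ⟨j, by omega, rfl⟩
  have hc : ∀ i : Fin (2 * m), ∃ c : Fin (2 * m) → ℂ, (∀ j, i < j → c j = 0) ∧
      ((i : ℕ) < m → w i = c ᵥ* (Matrix.of fun j : Fin (2 * m) => v j)) := by
    intro i
    by_cases hi : (i : ℕ) < m
    · have h1 := hw1 i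
      rw [hspanv i hi] at h1
      obtain ⟨c, h2, h3⟩ := tri_coeff h1
      exact ⟨c, h2, fun _ => h3⟩
    · exact ⟨0, fun _ _ => rfl, fun h => absurd h hi⟩
  have hc' : ∀ i : Fin (2 * m), ∃ c : Fin (2 * m) → ℂ, (∀ j, i < j → c j = 0) ∧ ((i : ℕ) < m → v i = c ᵥ* (Matrix.of w)) := by
    intro i
    by_cases hi : (i : ℕ) < m
    · have h1 : v i ∈ Fl v R (2 * m - 1 - i) := by
        rw [Fl_hi (by omega)]
        exact Submodule.subset_span ⟨i, by omega, rfl⟩
      rw [hw3 i] at h1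
      obtain ⟨c, h2, h3⟩ := tri_coeff h1
      exact ⟨c, h2, fun _ => h3⟩
    · exact ⟨0, fun _ _ => rfl, fun h => absurd h hi⟩
  choose c hc1 hc2 using hc
  choose c' hc3 hc4 using hc'
  refine ⟨Matrix.of w, Matrix.of c, Matrix.of c', γ, hdet, hw1, hw2, hw4, fun i => ?_, hfin, fun i j h => hc1 i j h,
    fun i j h => hc3 i j h, fun i h => hc2 i h, fun i h => hc4 i h⟩
  rw [hγ]
  have h1 := hWd i.rev
  rw [Fin.rev_rev] at h1
  exact inv_ne_zero h1

end Pool.Agent.Y118.HX
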