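import Pool.Agent.Y118.HX.Ult
import Pool.Agent.Y118.HX.Pt
import Pool.Agent.Y118.HX.Core
import Pool.Agent.Y118.CM.Cl

/-!
# From sequences of Hodge structures to the data over the ultraproduct
-/

set_option autoImplicit false
set_option maxHeartbeats 400000

open Matrix Filter

namespace Pool.Agent.Y118.HX

open Pool.Agent.Y118.UL (mk mk_eq mk_eq_zero mk_ne_zero mk_surj ev_ge qc qc_mk algebraMap_eq U)
open Pool.Agent.Y119.HY Pool.Agent.Y119.HZ
open Pool.Agent.Y118.CM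

variable {m : ℕ}

/-- the data at one point -/
structure PD (β : Fin m → ℚ) where
  t : ℕ
  ht : 2 ≤ t
  A : Matrix (Fin (2 * m)) (Fin (2 * m)) ℂ
  M : Matrix (Fin (2 * m)) (Fin (2 * m)) ℚ
  Qb : Matrix (Fin (2 * m)) (Fin (2 * m)) ℚ
  w : Matrix (Fin (2 * m)) (Fin (2 * m)) ℂ
  c : Matrix (Fin (2 * m)) (Fin (2 * m)) ℂ
  c' : Matrix (Fin (2 * m)) (Fin (2 * m)) ℂ
  s : ℂ
  κ : ℂ
  γ : Fin (2 * m) → ℂ
  Adet : A.det ≠ 0
  wdet : w.det ≠ 0
  s0 : s ≠ 0
  κ0 : κ ≠ 0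
  mon : A * cm M = s • (cm (Am (2 * m)) * A)
  pol : A.transpose * cm (Jm (2 * m) (QB β)) * A = κ • cm Qb
  cw : ∀ i : Fin (2 * m), (i : ℕ) < m →
    w i = c i ᵥ* (cm (DN β) * Hf (Hc (2 * m) (QB β)) (((1 / (t : ℝ) : ℝ)) : ℂ) * A)
  c0 : ∀ i j : Fin (2 * m), (i : ℕ) < j → c i j = 0
  cw' : ∀ i : Fin (2 * m), (i : ℕ) < m →
    (cm (DN β) * Hf (Hc (2 * m) (QB β)) (((1 / (t : ℝ) : ℝ)) : ℂ) * A) i = c' i ᵥ* w
  c0' : ∀ i j : Fin (2 * m), (i : ℕ) < j → c' i j = 0
  γ0 : ∀ i, γ i ≠ 0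
  wQ : w.transpose * (Matrix.of fun i j => if j = i.rev then γ i else 0) * w = cm Qb

lemma gm_shift (n : ℕ) : gm (fun _ => cm (Am n)) = Sh (U ℂ) n := by
  ext i j
  rw [gm_apply]
  unfold Sh
  rw [Matrix.of_apply]
  split_ifs with h
  · have h1 : (fun _ : ℕ => cm (Am n) i j) = 1 := by
      funext t
      rw [cm_apply]
      unfold Am
      rw [Matrix.of_apply, if_pos h, Rat.cast_one]
      rfl
    rw [h1, map_one]
  · have h1 : (fun _ : ℕ => cm (Am n) i j) = 0 := by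
      funext t
      rw [cm_apply]
      unfold Am
      rw [Matrix.of_apply, if_neg h, Rat.cast_zero]
      rfl
    rw [h1, map_zero]

lemma gm_anti {n : ℕ} (γ : ℕ → Fin n → ℂ) : gm (fun t => (Matrix.of fun i j : Fin n => if j = i.rev then γ t i else 0)) =
    Matrix.of fun i j => if j = i.rev then mk ℂ (fun t => γ t i) else 0 := by
  ext i j
  rw [gm_apply, Matrix.of_apply]
  split_ifs with h
  · congr 1
    funext t
    rw [Matrix.of_apply, if_pos h]
  · have h1 : (fun t : ℕ => (Matrix.of fun i j : Fin n => if j = i.rev then γ t i else 0) i j) = 0 := by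
      funext t
      rw [Matrix.of_apply, if_neg h]
      rfl
    rw [h1, map_zero]

/-- a row of a product -/
lemma gm_row {n : ℕ} {F G H : ℕ → Matrix (Fin n) (Fin n) ℂ} {i : Fin n} (h : ∀ t, F t i = G t i ᵥ* H t) :
    gm F i = gm G i ᵥ* gm H := by
  funext j
  show gm F i j = (gm G * gm H) i j
  rw [← gm_mul, gm_apply, gm_apply]
  congr 1
  funext t
  rw [h t]
  rfl

/-- **the data over the ultraproduct** -/
noncomputable def dat {β : Fin m → ℚ} (hm : 1 ≤ m) (hQ : QD (2 * m) (QB β))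
    (hH : ∀ i j, Pool.Agent.Y113.SDc (Hp (2 * m) (QB β) i j)) (d : ℕ → PD β) (hd : ∀ k, k ≤ (d k).t) :
    Dat (U ℚ) (U ℂ) m where
  J := gm fun _ => Jm (2 * m) (QB β)
  Dm := gm fun _ => DN β
  M := gm fun k => (d k).M
  Qb := gm fun k => (d k).Qb
  x := gm fun k => Hf (Hc (2 * m) (QB β)) (((1 / ((d k).t : ℝ) : ℝ)) : ℂ)
  C := gm fun k => (d k).A
  w := gm fun k => (d k).w
  P := gm fun k => (d k).w * ((d k).A)⁻¹
  c := gm fun k => (d k).c
  c' := gm fun k => (d k).c'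
  s := mk ℂ fun k => (d k).s
  κ := mk ℂ fun k => (d k).κ
  γ := fun i => mk ℂ fun k => (d k).γ i
  hm := hm
  skew := by
    rw [gm_map, ← gm_transpose, ← gm_neg]
    congr 1
    funext t
    exact Jc_skew hQ
  Jdet := by
    rw [gm_map]
    exact gm_unit fun _ => Jc_det hQ
  JN := by
    rw [gm_map, ← gm_shift, ← gm_transpose, ← gm_mul, ← gm_mul, ← gm_neg]
    congr 1
    funext t
    exact eq_neg_of_add_eq_zero_left Jc_rel
  xJ := by
    rw [gm_map, ← gm_transpose, ← gm_mul, ← gm_mul]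
    congr 1
    funext k
    have ht := (d k).ht
    have h1 := isom_mul (Yt_form hQ ht) (E_isom (N := cm (Am (2 * m))) Ac_nil Jc_rel ((Real.log ((d k).t) : ℝ) : ℂ))
    have h2 : Yt (2 * m) (QB β) (d k).t * E (cm (Am (2 * m))) ((Real.log (d k).t : ℝ) : ℂ) =
        Hf (Hc (2 * m) (QB β)) (((1 / ((d k).t : ℝ) : ℝ)) : ℂ) := by
      unfold Yt
      have h3 : E (cm (Am (2 * m))) (-((Real.log (d k).t : ℝ) : ℂ)) * E (cm (Am (2 * m))) ((Real.log (d k).t : ℝ) : ℂ) = 1 := by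
        have := E_mul_neg (Ac_nil (n := 2 * m)) (-((Real.log (d k).t : ℝ) : ℂ))
        rwa [neg_neg] at this
      rw [Matrix.mul_assoc, h3, mul_one]
    rwa [h2] at h1
  gen := generic_of hQ hH _ hd
  Cdet := gm_unit fun k => (d k).Adet
  wdet := gm_unit fun k => (d k).wdet
  s0 := mk_ne_zero.2 (Eventually.of_forall fun k => (d k).s0)
  κ0 := mk_ne_zero.2 (Eventually.of_forall fun k => (d k).κ0)
  mon := by
    rw [gm_map, ← gm_shift, ← gm_mul, ← gm_mul, ← gm_smul]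
    congr 1
    funext k
    exact (d k).mon
  pol := by
    rw [gm_map, gm_map, ← gm_transpose, ← gm_mul, ← gm_mul, ← gm_smul]
    congr 1
    funext k
    exact (d k).pol
  wP := by
    rw [← gm_mul]
    congr 1
    funext k
    rw [Matrix.mul_assoc, Matrix.nonsing_inv_mul _ (isUnit_iff_ne_zero.2 (d k).Adet), Matrix.mul_one]
  cP := fun i hi => by
    rw [gm_map, ← gm_mul]
    refine gm_row fun k => ?_
    have h1 := (d k).cw i hi
    calc ((d k).w * ((d k).A)⁻¹) i = (d k).w i ᵥ* ((d k).A)⁻¹ := rfl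
      _ = (d k).c i ᵥ* (cm (DN β) * Hf (Hc (2 * m) (QB β)) (((1 / ((d k).t : ℝ) : ℝ)) : ℂ)) := by
        rw [h1, vecMul_vecMul, Matrix.mul_assoc _ (d k).A, Matrix.mul_nonsing_inv _ (isUnit_iff_ne_zero.2 (d k).Adet),
          Matrix.mul_one]
  c0 := fun i j h => by
    rw [gm_apply]
    have h1 : (fun k => (d k).c i j) = 0 := by
      funext k
      exact (d k).c0 i j h
    rw [h1, map_zero]
  cP' := fun i hi => by
    rw [gm_map, ← gm_mul]
    refine gm_row fun k => ?_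
    have h1 := (d k).cw' i hi
    have h2 := congrArg (fun z => z ᵥ* ((d k).A)⁻¹) h1
    simp only [vecMul_vecMul] at h2
    rw [← h2]
    show _ = ((cm (DN β) * Hf (Hc (2 * m) (QB β)) (((1 / ((d k).t : ℝ) : ℝ)) : ℂ) * (d k).A) * ((d k).A)⁻¹) i
    rw [Matrix.mul_assoc _ (d k).A, Matrix.mul_nonsing_inv _ (isUnit_iff_ne_zero.2 (d k).Adet), Matrix.mul_one]
  c0' := fun i j h => by
    rw [gm_apply]
    have h1 : (fun k => (d k).c' i j) = 0 := by
      funext k
      exact (d k).c0' i j h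
    rw [h1, map_zero]
  γ0 := fun i => mk_ne_zero.2 (Eventually.of_forall fun k => (d k).γ0 i)
  wQ := by
    rw [gm_map, ← gm_anti fun k => (d k).γ, ← gm_transpose, ← gm_mul, ← gm_mul]
    congr 1
    funext k
    exact (d k).wQ

end Pool.Agent.Y118.HX
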