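import Mathlib

/-!
# Colourings compatible with the duality have many pairs of different colours
-/

set_option autoImplicit false
set_option maxHeartbeats 400000

namespace Pool.Agent.Y118.HX

variable {n : ℕ}

/-- the representative of a root up to sign -/
def rp (x : Fin n × Fin n) : Fin n × Fin n :=
  if (x.1 : ℕ) + x.2 ≤ n - 1 then (if x.1 < x.2 then x else (x.2, x.1))
  else (if x.1 < x.2 then (x.2.rev, x.1.rev) else (x.1.rev, x.2.rev))

lemma rp_mem (x : Fin n × Fin n) : x = rp x ∨ x = ((rp x).2, (rp x).1) ∨ x = ((rp x).2.rev, (rp x).1.rev) ∨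
    x = ((rp x).1.rev, (rp x).2.rev) := by
  unfold rp
  split_ifs
  · exact Or.inl rfl
  · exact Or.inr (Or.inl rfl)
  · right; right; left
    simp [Fin.rev_rev]
  · right; right; right
    simp [Fin.rev_rev]

lemma rp_up {x : Fin n × Fin n} (hx : x.1 ≠ x.2) : ((rp x).1 : ℕ) < (rp x).2 ∧ ((rp x).1 : ℕ) + (rp x).2 ≤ n - 1 := by
  have h0 : (x.1 : ℕ) ≠ x.2 := fun h => hx (Fin.ext h)
  have h1 := x.1.2
  have h2 := x.2.2
  unfold rp
  split_ifs with h3 h4 h4
  · exact ⟨h4, h3⟩
  · rw [Fin.lt_def] at h4
    constructor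
    · show (x.2 : ℕ) < x.1
      omega
    · show (x.2 : ℕ) + x.1 ≤ n - 1
      omega
  · rw [Fin.lt_def] at h4
    constructor
    · show (x.2.rev : ℕ) < x.1.rev
      rw [Fin.val_rev, Fin.val_rev]
      omega
    · show (x.2.rev : ℕ) + x.1.rev ≤ n - 1
      rw [Fin.val_rev, Fin.val_rev]
      omega
  · rw [Fin.lt_def] at h4
    constructor
    · show (x.1.rev : ℕ) < x.2.rev
      rw [Fin.val_rev, Fin.val_rev]
      omega
    · show (x.1.rev : ℕ) + x.2.rev ≤ n - 1
      rw [Fin.val_rev, Fin.val_rev]
      omega

/-- **many bad roots** -/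
theorem many_bad {α : Type} [DecidableEq α] (hn : 4 ≤ n) (he : Even n) (μ : Fin n → α) (hμ : ∀ i j, μ i = μ j → μ i.rev = μ j.rev)
    (hne : ∃ i j, μ i ≠ μ j) :
    n - 2 ≤ (Finset.univ.filter fun x : Fin n × Fin n => (x.1 : ℕ) < x.2 ∧ (x.1 : ℕ) + x.2 ≤ n - 1 ∧ μ x.1 ≠ μ x.2).card := by
  classical
  set B := Finset.univ.filter fun x : Fin n × Fin n => (x.1 : ℕ) < x.2 ∧ (x.1 : ℕ) + x.2 ≤ n - 1 ∧ μ x.1 ≠ μ x.2 with hB
  set A := Finset.univ.filter fun x : Fin n × Fin n => μ x.1 ≠ μ x.2 with hA
  have hrev : ∀ i j : Fin n, μ i ≠ μ j → μ i.rev ≠ μ j.rev := by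
    intro i j h h2
    apply h
    have := hμ _ _ h2
    rwa [Fin.rev_rev, Fin.rev_rev] at this
  -- four to one
  have h1 : A.card ≤ 4 * B.card := by
    have h2 : A.card ≤ 4 * (A.image rp).card := by
      refine Finset.card_le_mul_card_image A 4 fun r _ => ?_
      have h3 : (A.filter fun x => rp x = r) ⊆ {r, (r.2, r.1), (r.2.rev, r.1.rev), (r.1.rev, r.2.rev)} := by
        intro x hx
        rw [Finset.mem_filter] at hx
        have h4 := rp_mem x
        rw [hx.2] at h4
        simp only [Finset.mem_insert, Finset.mem_singleton]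
        exact h4
      exact (Finset.card_le_card h3).trans Finset.card_le_four
    refine h2.trans (Nat.mul_le_mul_left _ (Finset.card_le_card ?_))
    intro r hr
    obtain ⟨x, hx, rfl⟩ := Finset.mem_image.1 hr
    rw [hA, Finset.mem_filter] at hx
    have hx0 : x.1 ≠ x.2 := fun h => hx.2 (by rw [h])
    have h3 := rp_up hx0
    rw [hB, Finset.mem_filter]
    refine ⟨Finset.mem_univ _, h3.1, h3.2, ?_⟩
    unfold rp
    split_ifs
    · exact hx.2
    · exact hx.2.symm
    · exact hrev _ _ hx.2.symm
    · exact hrev _ _ hx.2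
  -- many ordered pairs
  have hcl : ∀ i0 : Fin n, (Finset.univ.filter fun j => μ j = μ i0).card *
      (n - (Finset.univ.filter fun j => μ j = μ i0).card) * 2 ≤ A.card := by
    intro i0
    set K := Finset.univ.filter fun j => μ j = μ i0 with hK
    have h3 : Kᶜ.card = n - K.card := by rw [Finset.card_compl, Fintype.card_fin]
    have h4 : (K ×ˢ Kᶜ) ∪ (Kᶜ ×ˢ K) ⊆ A := by
      intro x hx
      rw [Finset.mem_union, Finset.mem_product, Finset.mem_product, Finset.mem_compl, Finset.mem_compl, hK,
        Finset.mem_filter, Finset.mem_filter] at hx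
      rw [hA, Finset.mem_filter]
      refine ⟨Finset.mem_univ _, fun h => ?_⟩
      rcases hx with ⟨⟨-, h5⟩, h6⟩ | ⟨h6, -, h5⟩
      · exact h6 ⟨Finset.mem_univ _, h.symm.trans h5⟩
      · exact h6 ⟨Finset.mem_univ _, h.trans h5⟩
    have h5 : Disjoint (K ×ˢ Kᶜ) (Kᶜ ×ˢ K) := by
      rw [Finset.disjoint_left]
      intro x hx hx2
      rw [Finset.mem_product] at hx hx2
      exact (Finset.mem_compl.1 hx2.1) hx.1
    have h6 := Finset.card_le_card h4
    rw [Finset.card_union_of_disjoint h5, Finset.card_product, Finset.card_product, h3] at h6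
    calc K.card * (n - K.card) * 2 = K.card * (n - K.card) + (n - K.card) * K.card := by ring
      _ ≤ A.card := h6
  have h3 : 4 * (n - 2) ≤ A.card := by
    by_cases hbig : ∃ i0, 2 ≤ (Finset.univ.filter fun j => μ j = μ i0).card ∧ (Finset.univ.filter fun j => μ j = μ i0).card ≤ n - 2
    · obtain ⟨i0, h4, h5⟩ := hbig
      refine le_trans ?_ (hcl i0)
      set s := (Finset.univ.filter fun j => μ j = μ i0).card
      obtain ⟨a, ha⟩ : ∃ a, s = a + 2 := ⟨s - 2, by omega⟩
      obtain ⟨b, hb⟩ : ∃ b, n = a + b + 4 := ⟨n - a - 4, by omega⟩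
      rw [ha, hb]
      have h6 : a + b + 4 - 2 = a + b + 2 := by omega
      have h7 : a + b + 4 - (a + 2) = b + 2 := by omega
      rw [h6, h7]
      nlinarith [Nat.zero_le (a * b)]
    · push Not at hbig
      -- no class has `n - 1` elements
      have h1c : ∀ i0, (Finset.univ.filter fun j => μ j = μ i0).card ≤ 1 := by
        intro i0
        by_contra hcon
        push Not at hcon
        have h4 := hbig i0 hcon
        set K := Finset.univ.filter fun j => μ j = μ i0 with hK
        -- the complement
        have h5 : ∃ j, j ∉ K := by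
          obtain ⟨i, j, hij⟩ := hne
          by_contra hall
          push Not at hall
          have hi := hall i
          have hj := hall j
          rw [hK, Finset.mem_filter] at hi hj
          exact hij (hi.2.trans hj.2.symm)
        obtain ⟨l, hl⟩ := h5
        have h6 : Kᶜ.card ≤ 1 := by
          rw [Finset.card_compl, Fintype.card_fin]
          omega
        have h7 : ∀ j, j ∉ K → j = l := by
          intro j hj
          exact Finset.card_le_one.1 h6 j (Finset.mem_compl.2 hj) l (Finset.mem_compl.2 hl)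
        -- the dual of `l` is in `K` and everything in `K` is the dual of `l`
        have hln : l.rev ≠ l := by
          intro h
          have hv := congrArg (fun z : Fin n => (z : ℕ)) h
          simp only [Fin.val_rev] at hv
          obtain ⟨r, hr⟩ := he
          have := l.2
          omega
        have hlK : l.rev ∈ K := by
          by_contra h
          exact hln (h7 _ h)
        have h8 : ∀ j, j ∈ K → j = l.rev := by
          intro j hj
          by_contra hjl
          rw [hK, Finset.mem_filter] at hj hlK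
          have h9 : μ j = μ l.rev := hj.2.trans hlK.2.symm
          have h10 := hμ _ _ h9
          rw [Fin.rev_rev] at h10
          have h11 : j.rev ∉ K := by
            rw [hK, Finset.mem_filter]
            rintro ⟨-, h12⟩
            apply hl
            rw [hK, Finset.mem_filter]
            exact ⟨Finset.mem_univ _, h10.symm.trans h12⟩
          have h12 := h7 _ h11
          apply hjl
          rw [← h12, Fin.rev_rev]
        have h9 : K.card ≤ 1 := Finset.card_le_one.2 fun a ha b hb => (h8 a ha).trans (h8 b hb).symm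
        omega
      -- all classes have one element
      have h4 : ∀ i j, μ i = μ j → i = j := fun i j h =>
        Finset.card_le_one.1 (h1c j) i (Finset.mem_filter.2 ⟨Finset.mem_univ _, h⟩) j
          (Finset.mem_filter.2 ⟨Finset.mem_univ _, rfl⟩)
      have h5 : (Finset.univ : Finset (Fin n)).offDiag ⊆ A := by
        intro x hx
        rw [Finset.mem_offDiag] at hx
        rw [hA, Finset.mem_filter]
        exact ⟨Finset.mem_univ _, fun h => hx.2.2 (h4 _ _ h)⟩
      have h6 := Finset.card_le_card h5
      rw [Finset.offDiag_card, Finset.card_univ, Fintype.card_fin] at h6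
      refine le_trans ?_ h6
      obtain ⟨a, ha⟩ : ∃ a, n = a + 4 := ⟨n - 4, by omega⟩
      rw [ha]
      have h7 : a + 4 - 2 = a + 2 := by omega
      have h8 : (a + 4) * (a + 4) - (a + 4) = (a + 4) * (a + 3) := by
        rw [Nat.sub_eq_iff_eq_add (Nat.le_mul_self _)]
        ring
      rw [h7, h8]
      nlinarith [Nat.zero_le (a * a)]
  omega

end Pool.Agent.Y118.HX
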