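import Pool.Agent.Y118.HX.Comb

/-!
# Regular weights are not orthogonal to many roots
-/

set_option autoImplicit false
set_option maxHeartbeats 400000

namespace Pool.Agent.Y118.HX

variable {n : ℕ}

/-- four to one -/
theorem four_one {α : Type} [DecidableEq α] (μ : Fin n → α) (hμ : ∀ i j, μ i = μ j → μ i.rev = μ j.rev) :
    (Finset.univ.filter fun x : Fin n × Fin n => μ x.1 ≠ μ x.2).card ≤
    4 * (Finset.univ.filter fun x : Fin n × Fin n => (x.1 : ℕ) < x.2 ∧ (x.1 : ℕ) + x.2 ≤ n - 1 ∧ μ x.1 ≠ μ x.2).card := by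
  classical
  set B := Finset.univ.filter fun x : Fin n × Fin n => (x.1 : ℕ) < x.2 ∧ (x.1 : ℕ) + x.2 ≤ n - 1 ∧ μ x.1 ≠ μ x.2 with hB
  set A := Finset.univ.filter fun x : Fin n × Fin n => μ x.1 ≠ μ x.2 with hA
  have hrev : ∀ i j : Fin n, μ i ≠ μ j → μ i.rev ≠ μ j.rev := by
    intro i j h h2
    apply h
    have := hμ _ _ h2
    rwa [Fin.rev_rev, Fin.rev_rev] at this
  have h2 : A.card ≤ 4 * (A.image rp).card := by
    refine Finset.card_le_mul_card_image A 4 fun r _ => ?_
    have h3 : (A.filter fun x => rp x = r) ⊆ {r, (r.2, r.1), (r.2.rev, r.1.rev), (r.1.rev, r.2.rev)} := by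
      intro x hx
      rw [Finset.mem_filter] at hx
      have h4 := rp_mem x
      rw [hx.2] at h4
      simp only [Finset.mem_insert, Finset.mem_singleton]
      exact h4
    exact (Finset.card_le_card h3).trans Finset.card_le_four
  refine h2.trans (Nat.mul_le_mul_left _ (Finset.card_le_card ?_))
  intro r hr
  obtain ⟨x, hx, rfl⟩ := Finset.mem_image.1 hr
  rw [hA, Finset.mem_filter] at hx
  have hx0 : x.1 ≠ x.2 := fun h => hx.2 (by rw [h])
  have h3 := rp_up hx0
  rw [hB, Finset.mem_filter]
  refine ⟨Finset.mem_univ _, h3.1, h3.2, ?_⟩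
  unfold rp
  split_ifs
  · exact hx.2
  · exact hx.2.symm
  · exact hrev _ _ hx.2.symm
  · exact hrev _ _ hx.2

/-- **many roots are not orthogonal to a regular weight** -/
theorem many_bad2 {m : ℕ} (hm : 5 ≤ m) (χ : Fin (2 * m) → ℤ) (hχ : ∀ i, χ i.rev = -χ i) (hne : ∃ i, χ i ≠ 0)
    (hbal : ∑ i : Fin (2 * m), (2 * ((i : ℕ) : ℤ) - (2 * m - 1)) * χ i = 0) :
    2 * m + 3 ≤ (Finset.univ.filter fun x : Fin (2 * m) × Fin (2 * m) =>
      (x.1 : ℕ) < x.2 ∧ (x.1 : ℕ) + x.2 ≤ 2 * m - 1 ∧ χ x.1 ≠ χ x.2).card := by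
  classical
  have h4 := four_one χ (fun i j h => by rw [hχ, hχ, h])
  set B := Finset.univ.filter fun x : Fin (2 * m) × Fin (2 * m) =>
      (x.1 : ℕ) < x.2 ∧ (x.1 : ℕ) + x.2 ≤ 2 * m - 1 ∧ χ x.1 ≠ χ x.2 with hB
  set A := Finset.univ.filter fun x : Fin (2 * m) × Fin (2 * m) => χ x.1 ≠ χ x.2 with hA
  set Z := Finset.univ.filter fun i : Fin (2 * m) => χ i = 0 with hZ
  set P := Finset.univ.filter fun i : Fin (2 * m) => 0 < χ i with hP
  set N := Finset.univ.filter fun i : Fin (2 * m) => χ i < 0 with hN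
  have hNP : N.card = P.card := by
    refine Finset.card_bij (fun i _ => i.rev) (fun i hi => ?_) (fun i _ j _ h => Fin.rev_injective h) fun j hj => ?_
    · rw [hN, Finset.mem_filter] at hi
      rw [hP, Finset.mem_filter, hχ]
      exact ⟨Finset.mem_univ _, by omega⟩
    · rw [hP, Finset.mem_filter] at hj
      refine ⟨j.rev, ?_, Fin.rev_rev j⟩
      rw [hN, Finset.mem_filter, hχ]
      exact ⟨Finset.mem_univ _, by omega⟩
  have hcard : Z.card + (P.card + N.card) = 2 * m := by
    have h1 : Disjoint P N := by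
      rw [Finset.disjoint_left]
      intro i hi hj
      rw [hP, Finset.mem_filter] at hi
      rw [hN, Finset.mem_filter] at hj
      omega
    have h2 : Disjoint Z (P ∪ N) := by
      rw [Finset.disjoint_left]
      intro i hi hj
      rw [hZ, Finset.mem_filter] at hi
      rw [Finset.mem_union, hP, hN, Finset.mem_filter, Finset.mem_filter] at hj
      omega
    rw [← Finset.card_union_of_disjoint h1, ← Finset.card_union_of_disjoint h2]
    have h3 : Z ∪ (P ∪ N) = Finset.univ := by
      ext i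
      rw [Finset.mem_union, Finset.mem_union, hZ, hP, hN, Finset.mem_filter, Finset.mem_filter, Finset.mem_filter]
      have := Finset.mem_univ i
      constructor
      · intro _
        exact this
      · intro _
        rcases lt_trichotomy (χ i) 0 with h | h | h
        · exact Or.inr (Or.inr ⟨this, h⟩)
        · exact Or.inl ⟨this, h⟩
        · exact Or.inr (Or.inl ⟨this, h⟩)
    rw [h3, Finset.card_univ, Fintype.card_fin]
  set r := P.card with hr
  -- at least two positive entries
  have hr2 : 2 ≤ r := by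
    by_contra hcon
    push Not at hcon
    obtain ⟨i, hi⟩ := hne
    have hex : ∃ j, 0 < χ j := by
      rcases lt_or_gt_of_ne hi with h | h
      · exact ⟨i.rev, by rw [hχ]; omega⟩
      · exact ⟨i, h⟩
    obtain ⟨j, hj⟩ := hex
    have hjP : j ∈ P := by
      rw [hP, Finset.mem_filter]
      exact ⟨Finset.mem_univ _, hj⟩
    have hone : ∀ l, 0 < χ l → l = j := fun l hl =>
      Finset.card_le_one.1 (by omega : P.card ≤ 1) l (by rw [hP, Finset.mem_filter]; exact ⟨Finset.mem_univ _, hl⟩) j hjP
    have hjr : j.rev ≠ j := by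
      intro h
      have := hχ j
      rw [h] at this
      omega
    have h5 : ∀ l, l ≠ j → l ≠ j.rev → χ l = 0 := by
      intro l h6 h7
      by_contra h8
      rcases lt_or_gt_of_ne h8 with h | h
      · have h9 := hone l.rev (by rw [hχ]; omega)
        exact h7 (by rw [← h9, Fin.rev_rev])
      · exact h6 (hone l h)
    rw [← Finset.add_sum_erase _ _ (Finset.mem_univ j),
      ← Finset.add_sum_erase _ _ (Finset.mem_erase.2 ⟨hjr, Finset.mem_univ j.rev⟩), Finset.sum_eq_zero (fun l hl => ?_)] at hbal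
    · rw [hχ, Fin.val_rev] at hbal
      have hj2 := j.2
      have h10 : ((2 * m - ((j : ℕ) + 1) : ℕ) : ℤ) = 2 * m - 1 - (j : ℕ) := by omega
      rw [h10] at hbal
      have h11 : 2 * (2 * ((j : ℕ) : ℤ) - (2 * m - 1)) * χ j = 0 := by linear_combination hbal
      rcases mul_eq_zero.1 h11 with h12 | h12
      · omega
      · omega
    · rw [Finset.mem_erase, Finset.mem_erase] at hl
      rw [h5 l hl.2.1 hl.1, mul_zero]
  have hrm : r ≤ m := by omega
  -- the number of ordered pairs
  have hcount : Z.card * (2 * m - Z.card) + (P.card * (2 * m - P.card) + N.card * (2 * m - N.card)) ≤ A.card := by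
    have hc : ∀ S : Finset (Fin (2 * m)), Sᶜ.card = 2 * m - S.card := fun S => by rw [Finset.card_compl, Fintype.card_fin]
    rw [← hc, ← hc, ← hc, ← Finset.card_product, ← Finset.card_product, ← Finset.card_product]
    have d1 : Disjoint (P ×ˢ Pᶜ) (N ×ˢ Nᶜ) := by
      rw [Finset.disjoint_left]
      intro x hx hy
      rw [Finset.mem_product] at hx hy
      have h6 := hx.1
      have h7 := hy.1
      rw [hP, Finset.mem_filter] at h6
      rw [hN, Finset.mem_filter] at h7
      omega
    have d2 : Disjoint (Z ×ˢ Zᶜ) ((P ×ˢ Pᶜ) ∪ (N ×ˢ Nᶜ)) := by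
      rw [Finset.disjoint_left]
      intro x hx hy
      rw [Finset.mem_union, Finset.mem_product, Finset.mem_product] at hy
      rw [Finset.mem_product] at hx
      have h6 := hx.1
      rw [hZ, Finset.mem_filter] at h6
      rcases hy with h7 | h7
      · have h8 := h7.1
        rw [hP, Finset.mem_filter] at h8
        omega
      · have h8 := h7.1
        rw [hN, Finset.mem_filter] at h8
        omega
    rw [← Finset.card_union_of_disjoint d1, ← Finset.card_union_of_disjoint d2]
    refine Finset.card_le_card fun x hx => ?_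
    rw [hA, Finset.mem_filter]
    refine ⟨Finset.mem_univ _, fun h => ?_⟩
    rw [Finset.mem_union, Finset.mem_union, Finset.mem_product, Finset.mem_product, Finset.mem_product, Finset.mem_compl,
      Finset.mem_compl, Finset.mem_compl, hZ, hP, hN, Finset.mem_filter, Finset.mem_filter, Finset.mem_filter,
      Finset.mem_filter, Finset.mem_filter, Finset.mem_filter, h] at hx
    rcases hx with h6 | h6 | h6
    · exact h6.2 ⟨Finset.mem_univ _, h6.1.2⟩
    · exact h6.2 ⟨Finset.mem_univ _, h6.1.2⟩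
    · exact h6.2 ⟨Finset.mem_univ _, h6.1.2⟩
  have hZc : Z.card = 2 * m - 2 * r := by omega
  rw [hNP, hZc] at hcount
  obtain ⟨a, ha⟩ : ∃ a, r = a + 2 := ⟨r - 2, by omega⟩
  obtain ⟨b, hb⟩ : ∃ b, m = a + b + 2 := ⟨m - a - 2, by omega⟩
  have e1 : 2 * m - 2 * r = 2 * b := by omega
  have e2 : 2 * m - (2 * m - 2 * r) = 2 * (a + 2) := by omega
  have e3 : 2 * m - r = a + 2 * b + 2 := by omega
  rw [← hr, e2, e1, e3, ha] at hcount
  -- `8 m r - 6 r^2 ≥ 8 m + 9`
  have hfin : 8 * m + 9 ≤ 2 * b * (2 * (a + 2)) + ((a + 2) * (a + 2 * b + 2) + (a + 2) * (a + 2 * b + 2)) := by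
    rw [hb]
    have hab : 3 ≤ a + b := by omega
    have hq : 8 * (a + b + 2) + 9 ≤ 2 * (a * a) + 8 * (a * b) + 8 * a + 16 * b + 8 := by
      rcases Nat.lt_or_ge b 3 with h | h
      · interval_cases b
        · have : 3 ≤ a := by omega
          nlinarith
        · have : 2 ≤ a := by omega
          nlinarith
        · have : 1 ≤ a := by omega
          nlinarith
      · nlinarith [Nat.zero_le (a * a), Nat.zero_le (a * b)]
    calc 8 * (a + b + 2) + 9 ≤ 2 * (a * a) + 8 * (a * b) + 8 * a + 16 * b + 8 := hq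
      _ = _ := by ring
  omega

end Pool.Agent.Y118.HX
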