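import Mathlib

/-!
# Derivations of large fields of characteristic zero with prescribed values
-/

set_option autoImplicit false
set_option maxHeartbeats 400000
set_option linter.style.haveILetI false

namespace Pool.Agent.Y118.HX

/-- fields of characteristic zero are formally smooth over subfields -/
lemma lift_abs {E Ω B : Type} [Field E] [Field Ω] [CharZero E] [CommRing B] [Algebra E Ω] [Algebra E B] (g : B →ₐ[E] Ω)
    (hg : Function.Surjective g) (hn : IsNilpotent (RingHom.ker (g : B →+* Ω))) : ∃ f : Ω →ₐ[E] B, ∀ x, g (f x) = x := by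
  obtain ⟨v, hv⟩ := exists_isTranscendenceBasis E Ω
  haveI : Algebra.IsAlgebraic (IntermediateField.adjoin E (Set.range ((↑) : v → Ω))) Ω := hv.isAlgebraic_field
  haveI : CharZero Ω := charZero_of_injective_algebraMap (algebraMap E Ω).injective
  haveI : CharZero (IntermediateField.adjoin E (Set.range ((↑) : v → Ω))) := inferInstance
  haveI : Algebra.FormallySmooth E Ω := Algebra.FormallySmooth.of_algebraicIndependent_of_isSeparable hv.1
  exact ⟨Algebra.FormallySmooth.liftOfSurjective (AlgHom.id E Ω) g hg hn, fun x =>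
    Algebra.FormallySmooth.liftOfSurjective_apply (AlgHom.id E Ω) g hg hn x⟩

variable {Ω : Type} [Field Ω]

/-- the field generated by a subring of the dual numbers -/
def Ef (R0 : Subring (TrivSqZeroExt Ω Ω)) : Subring (TrivSqZeroExt Ω Ω) where
  carrier := {z | ∃ p ∈ R0, ∃ q ∈ R0, q.fst ≠ 0 ∧ z * q = p}
  mul_mem' := by
    rintro z1 z2 ⟨p1, hp1, q1, hq1, h1, e1⟩ ⟨p2, hp2, q2, hq2, h2, e2⟩
    refine ⟨p1 * p2, mul_mem hp1 hp2, q1 * q2, mul_mem hq1 hq2, ?_, ?_⟩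
    · rw [TrivSqZeroExt.fst_mul]
      exact mul_ne_zero h1 h2
    · rw [← e1, ← e2]
      ring
  one_mem' := ⟨1, one_mem _, 1, one_mem _, by simp, by simp⟩
  add_mem' := by
    rintro z1 z2 ⟨p1, hp1, q1, hq1, h1, e1⟩ ⟨p2, hp2, q2, hq2, h2, e2⟩
    refine ⟨p1 * q2 + p2 * q1, add_mem (mul_mem hp1 hq2) (mul_mem hp2 hq1), q1 * q2, mul_mem hq1 hq2, ?_, ?_⟩
    · rw [TrivSqZeroExt.fst_mul]
      exact mul_ne_zero h1 h2
    · rw [← e1, ← e2]
      ring
  zero_mem' := ⟨0, zero_mem _, 1, one_mem _, by simp, by simp⟩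
  neg_mem' := by
    rintro z1 ⟨p1, hp1, q1, hq1, h1, e1⟩
    exact ⟨-p1, neg_mem hp1, q1, hq1, h1, by rw [← e1]; ring⟩

lemma le_Ef (R0 : Subring (TrivSqZeroExt Ω Ω)) : R0 ≤ Ef R0 := fun z hz => ⟨z, hz, 1, one_mem _, by simp, by simp⟩

lemma unit_of {z : TrivSqZeroExt Ω Ω} (h : z.fst ≠ 0) : ∃ w, z * w = 1 := by
  have h1 : IsUnit z := TrivSqZeroExt.isUnit_iff_isUnit_fst.2 (isUnit_iff_ne_zero.2 h)
  obtain ⟨u, rfl⟩ := h1
  exact ⟨↑u⁻¹, by simp⟩

lemma Ef_zero {R0 : Subring (TrivSqZeroExt Ω Ω)} (hR : ∀ z ∈ R0, z.fst = 0 → z = 0) {z : TrivSqZeroExt Ω Ω}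
    (hz : z ∈ Ef R0) (h0 : z.fst = 0) : z = 0 := by
  obtain ⟨p, hp, q, hq, hq0, e⟩ := hz
  have h1 : p.fst = 0 := by rw [← e, TrivSqZeroExt.fst_mul, h0, zero_mul]
  have h2 := hR p hp h1
  obtain ⟨w, hw⟩ := unit_of hq0
  calc z = (z * q) * w := by rw [mul_assoc, hw, mul_one]
    _ = 0 := by rw [e, h2, zero_mul]

lemma Ef_field {R0 : Subring (TrivSqZeroExt Ω Ω)} (hR : ∀ z ∈ R0, z.fst = 0 → z = 0) : IsField (Ef R0) where
  exists_pair_ne := ⟨0, 1, by
    intro h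
    have h1 := congrArg (fun z : Ef R0 => (z : TrivSqZeroExt Ω Ω).fst) h
    simp at h1⟩
  mul_comm := mul_comm
  mul_inv_cancel := by
    rintro ⟨z, hz⟩ hne
    have hz0 : z.fst ≠ 0 := fun h => hne (Subtype.ext (Ef_zero hR hz h))
    obtain ⟨p, hp, q, hq, hq0, e⟩ := hz
    obtain ⟨w, hw⟩ := unit_of hz0
    refine ⟨⟨w, q, hq, p, hp, ?_, ?_⟩, Subtype.ext hw⟩
    · rw [← e, TrivSqZeroExt.fst_mul]
      exact mul_ne_zero hz0 hq0
    · rw [← e, ← mul_assoc, mul_comm w z, hw, one_mul]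

/-- the ring version of the extension -/
lemma ext_ring [CharZero Ω] {R0 : Subring (TrivSqZeroExt Ω Ω)} (hR : ∀ z ∈ R0, z.fst = 0 → z = 0) :
    ∃ f : Ω →+* TrivSqZeroExt Ω Ω, (∀ x, (f x).fst = x) ∧ ∀ z ∈ R0, f z.fst = z := by
  letI : Field (Ef R0) := (Ef_field hR).toField
  let i1 : (Ef R0) →+* TrivSqZeroExt Ω Ω := (Ef R0).subtype
  let fs : TrivSqZeroExt Ω Ω →+* Ω := (TrivSqZeroExt.fstHom ℤ Ω Ω : TrivSqZeroExt Ω Ω →+* Ω)
  let i2 : (Ef R0) →+* Ω := fs.comp i1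
  letI a1 : Algebra (Ef R0) (TrivSqZeroExt Ω Ω) := i1.toAlgebra
  letI a2 : Algebra (Ef R0) Ω := i2.toAlgebra
  haveI : CharZero (Ef R0) := (RingHom.charZero_iff i2.injective).2 inferInstance
  let g : TrivSqZeroExt Ω Ω →ₐ[Ef R0] Ω := { fs with commutes' := fun r => rfl }
  have hg : Function.Surjective g := fun x => ⟨TrivSqZeroExt.inl x, rfl⟩
  have hn : IsNilpotent (RingHom.ker (g : TrivSqZeroExt Ω Ω →+* Ω)) := by
    refine ⟨2, ?_⟩
    show RingHom.ker (g : TrivSqZeroExt Ω Ω →+* Ω) ^ (1 + 1) = 0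
    rw [Submodule.pow_succ, Submodule.pow_one, Ideal.zero_eq_bot, eq_bot_iff]
    refine Ideal.mul_le.2 ?_
    intro a ha b hb
    rw [RingHom.mem_ker] at ha hb
    have ha' : a.fst = 0 := ha
    have hb' : b.fst = 0 := hb
    rw [Ideal.mem_bot]
    ext
    · rw [TrivSqZeroExt.fst_mul, ha', zero_mul]
      rfl
    · rw [TrivSqZeroExt.snd_mul, ha', hb']
      simp
  obtain ⟨f, hf⟩ := lift_abs g hg hn
  refine ⟨(f : Ω →+* TrivSqZeroExt Ω Ω), fun x => hf x, fun z hz => ?_⟩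
  have h1 := f.commutes ⟨z, le_Ef R0 hz⟩
  exact h1

/-- **derivations with prescribed values** -/
theorem ex_der [CharZero Ω] {k ι : Type} [Field k] [Algebra k Ω] (x y : ι → Ω)
    (h : ∀ P : MvPolynomial ι k, MvPolynomial.aeval x P = 0 →
      MvPolynomial.aeval (fun i => TrivSqZeroExt.inl (x i) + TrivSqZeroExt.inr (y i) : ι → TrivSqZeroExt Ω Ω) P = 0) :
    ∃ D : Derivation k Ω Ω, ∀ i, D (x i) = y i := by
  set φ : MvPolynomial ι k →ₐ[k] TrivSqZeroExt Ω Ω :=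
    MvPolynomial.aeval (fun i => TrivSqZeroExt.inl (x i) + TrivSqZeroExt.inr (y i)) with hφ
  have hfst : ∀ P, (φ P).fst = MvPolynomial.aeval x P := by
    intro P
    have h1 : (TrivSqZeroExt.fstHom k Ω Ω).comp φ = MvPolynomial.aeval x := by
      refine MvPolynomial.algHom_ext fun i => ?_
      rw [AlgHom.comp_apply, hφ, MvPolynomial.aeval_X, MvPolynomial.aeval_X]
      simp
    exact AlgHom.congr_fun h1 P
  have hR : ∀ z ∈ φ.toRingHom.range, z.fst = 0 → z = 0 := by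
    rintro _ ⟨P, rfl⟩ h0
    exact h P ((hfst P).symm.trans h0)
  obtain ⟨f, hf1, hf2⟩ := ext_ring hR
  have hk : ∀ c : k, f (algebraMap k Ω c) = algebraMap k (TrivSqZeroExt Ω Ω) c := by
    intro c
    have h1 := hf2 (φ (MvPolynomial.C c)) ⟨_, rfl⟩
    rw [hfst] at h1
    simpa using h1
  have hx : ∀ i, f (x i) = TrivSqZeroExt.inl (x i) + TrivSqZeroExt.inr (y i) := by
    intro i
    have h1 := hf2 (φ (MvPolynomial.X i)) ⟨_, rfl⟩
    rw [hfst] at h1
    simpa [hφ] using h1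
  let D0 : Ω →ₗ[k] Ω :=
    { toFun := fun a => (f a).snd
      map_add' := fun a b => by rw [map_add, TrivSqZeroExt.snd_add]
      map_smul' := fun c a => by
        rw [Algebra.smul_def, map_mul, hk, TrivSqZeroExt.snd_mul]
        simp [Algebra.smul_def, hf1, TrivSqZeroExt.algebraMap_eq_inl'] }
  refine ⟨Derivation.mk' D0 fun a b => ?_, fun i => ?_⟩
  · show (f (a * b)).snd = a • (f b).snd + b • (f a).snd
    rw [map_mul, TrivSqZeroExt.snd_mul, hf1, hf1]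
    simp [mul_comm]
  · show (f (x i)).snd = y i
    rw [hx]
    simp

end Pool.Agent.Y118.HX
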