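import Pool.Agent.Y118.HX.Lead

/-!
# The dichotomy for tensors annihilated by many root vectors
-/

set_option autoImplicit false
set_option maxHeartbeats 400000

open Matrix

namespace Pool.Agent.Y118.HX

variable {K : Type} [Field K] {n d : ℕ}

/-- a vector of weight zero killed by the raising operator is killed by the lowering operator -/
lemma sl2_zero [CharZero K] {U : Type} [AddCommGroup U] [Module K U] {e f h : Module.End K U} (hef : e * f - f * e = h)
    (hhf : h * f - f * h = (-2 : K) • f) {u : U} (heu : e u = 0) (hz : h u = 0)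
    (hf : ∃ k : ℕ, f ^ k = 0) : f u = 0 := by
  by_contra hne
  have h1 : e (f u) = 0 := by
    have h2 := LinearMap.congr_fun hef u
    rw [LinearMap.sub_apply, Module.End.mul_apply, Module.End.mul_apply, heu, map_zero, sub_zero, hz] at h2
    exact h2
  have h2 : h (f u) = (((-2 : ℤ)) : K) • f u := by
    have h3 := LinearMap.congr_fun hhf u
    rw [LinearMap.sub_apply, Module.End.mul_apply, Module.End.mul_apply, hz, map_zero, sub_zero, LinearMap.smul_apply] at h3
    rw [h3]
    congr 1
    push_cast
    rfl
  have h3 := sl2_pos hef hhf hne h1 h2 hf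
  omega

section

variable {g : Fin n → K} (hg : ∀ i, g i ≠ 0) (hgr : ∀ i, g i.rev = -g i) (hrev : ∀ i : Fin n, i.rev ≠ i)

include hg hgr hrev in
/-- **tensors of weight zero** -/
theorem root_zero [CharZero K] {i j : Fin n} (hij : i ≠ j) {u : Tn K n d}
    (hχ : ∀ I, u I ≠ 0 → ∀ k, ch I k = 0) (h0 : act (Xr g i j) u = 0) : act (Xr g j i) u = 0 := by
  have hi := hg i
  have hj := hg j
  have hji : ¬ j = i := fun h => hij h.symm
  -- nilpotency of the opposite root vector
  have hnil : ∀ Y : Matrix (Fin n) (Fin n) K, (∀ a b, Y a b ≠ 0 → (a = j ∧ b = i) ∨ (a = i.rev ∧ b = j.rev)) →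
      ∃ k : ℕ, (act Y ^ k : Module.End K (Tn K n d)) = 0 := by
    intro Y hY
    rcases lt_or_gt_of_ne (fun h => hij (Fin.ext h) : (i : ℕ) ≠ j) with h | h
    · refine act_nilp' (fun k => (k : ℕ)) fun a b hab => ?_
      rcases hY a b hab with ⟨rfl, rfl⟩ | ⟨rfl, rfl⟩
      · exact h
      · show (j.rev : ℕ) < i.rev
        rw [Fin.val_rev, Fin.val_rev]
        have := j.2
        omega
    · refine act_nilp' (fun k => n - 1 - (k : ℕ)) fun a b hab => ?_
      have hi2 := i.2
      have hj2 := j.2
      rcases hY a b hab with ⟨rfl, rfl⟩ | ⟨rfl, rfl⟩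
      · show n - 1 - (b : ℕ) < n - 1 - a
        omega
      · show n - 1 - (j.rev : ℕ) < n - 1 - i.rev
        rw [Fin.val_rev, Fin.val_rev]
        omega
  have hsum : ∀ I : Fin d → Fin n, ∀ a : Fin n, ((ch I a : ℤ) : K) =
      ∑ l, (((if I l = a then 1 else 0) : K) - (if I l = a.rev then 1 else 0)) := by
    intro I a
    unfold ch
    push_cast
    rfl
  by_cases hjr : j = i.rev
  · -- long roots
    have e0 : Xr g i j = (2 : K) • Matrix.single i i.rev 1 := by
      unfold Xr
      rw [hjr, Fin.rev_rev, hgr, div_neg, div_self hi, neg_smul, one_smul, two_smul]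
      abel
    have e0' : Xr g j i = (2 : K) • Matrix.single i.rev i 1 := by
      unfold Xr
      rw [hjr, Fin.rev_rev, hgr, neg_div, div_self hi, neg_smul, one_smul, two_smul]
      abel
    have he : act (Matrix.single i i.rev (1 : K)) u = 0 := by
      rw [e0, map_smul, LinearMap.smul_apply] at h0
      exact (smul_eq_zero.1 h0).resolve_left two_ne_zero
    have hir := hrev i
    rw [e0', map_smul, LinearMap.smul_apply]
    have h1 : act (Matrix.single i.rev i (1 : K)) u = 0 := by
      refine sl2_zero (e := act (Matrix.single i i.rev (1 : K))) (f := act (Matrix.single i.rev i (1 : K)))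
        (h := act (Matrix.diagonal fun k => (if k = i then 1 else 0) - (if k = i.rev then 1 else 0))) ?_ ?_ he ?_
        (hnil _ fun a b hab => ?_)
      · rw [act_comm, EE, EE, if_pos rfl, if_pos rfl]
        congr 1
        ext a b
        rw [Matrix.sub_apply, Matrix.single_apply, Matrix.single_apply, Matrix.diagonal_apply]
        by_cases hab : a = b
        · subst hab
          rw [if_pos rfl]
          simp only [and_self, eq_comm]
        · rw [if_neg hab, if_neg (fun h => hab (h.1.symm.trans h.2)), if_neg (fun h => hab (h.1.symm.trans h.2)), sub_zero]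
      · rw [act_comm, ← map_smul]
        congr 1
        ext a b
        rw [Matrix.sub_apply, Matrix.diagonal_mul, Matrix.mul_diagonal, Matrix.smul_apply, Matrix.single_apply, smul_eq_mul]
        by_cases hab : i.rev = a ∧ i = b
        · obtain ⟨rfl, rfl⟩ := hab
          simp only [if_neg hir, if_neg hir.symm, and_self, if_true]
          ring
        · rw [if_neg hab]
          ring
      · funext I
        rw [act_diag, Pi.zero_apply]
        by_cases hI : u I = 0
        · rw [hI, mul_zero]
        · have h2 := hsum I i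
          rw [hχ I hI i, Int.cast_zero] at h2
          rw [← h2, zero_mul]
      · rw [Matrix.single_apply] at hab
        have h2 : i.rev = a ∧ i = b := by
          by_contra h3
          rw [if_neg h3] at hab
          exact hab rfl
        left
        exact ⟨by rw [hjr]; exact h2.1.symm, h2.2.symm⟩
    rw [h1, smul_zero]
  · -- short roots
    have hir := hrev i
    have hjr' := hrev j
    have hijr : ¬ i = j.rev := fun h => hjr (by rw [h, Fin.rev_rev])
    have hrij : ¬ i.rev = j := fun h => hjr h.symm
    have hrji : ¬ j.rev = i := fun h => hijr h.symm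
    have hrr : ¬ i.rev = j.rev := fun h => hij (Fin.rev_injective h)
    have hrr' : ¬ j.rev = i.rev := fun h => hrr h.symm
    refine sl2_zero (e := act (Xr g i j)) (f := act (Xr g j i))
      (h := act (Matrix.diagonal fun k => ((if k = i then 1 else 0) - (if k = i.rev then 1 else 0)) -
        ((if k = j then 1 else 0) - (if k = j.rev then 1 else 0)))) ?_ ?_ h0 ?_ (hnil _ fun a b hab => ?_)
    · rw [act_comm]
      congr 1
      unfold Xr
      have h3 : g j / g i * (g i / g j) = 1 := by field_simp
      have h4 : g i / g j * (g j / g i) = 1 := by field_simp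
      simp only [Matrix.sub_mul, Matrix.mul_sub, Matrix.smul_mul, Matrix.mul_smul, EE, if_true, if_neg hijr, if_neg hjr,
        if_neg hrij, if_neg hrji, smul_zero, sub_zero, zero_sub, smul_smul, h3, h4, one_smul, neg_neg, smul_neg]
      ext a b
      simp only [Matrix.sub_apply, Matrix.add_apply, Matrix.neg_apply, Matrix.single_apply, Matrix.diagonal_apply, Matrix.zero_apply]
      by_cases hab : a = b
      · subst hab
        rw [if_pos rfl]
        simp only [and_self, @eq_comm _ _ a]
        ring
      · rw [if_neg hab, if_neg (fun h => hab (h.1.symm.trans h.2)), if_neg (fun h => hab (h.1.symm.trans h.2)),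
          if_neg (fun h => hab (h.1.symm.trans h.2)), if_neg (fun h => hab (h.1.symm.trans h.2))]
        ring
    · rw [act_comm, ← map_smul]
      congr 1
      ext a b
      rw [Matrix.sub_apply, Matrix.diagonal_mul, Matrix.mul_diagonal, Matrix.smul_apply, smul_eq_mul]
      unfold Xr
      rw [Matrix.sub_apply, Matrix.smul_apply, Matrix.single_apply, Matrix.single_apply, smul_eq_mul]
      by_cases h3 : j = a ∧ i = b
      · obtain ⟨rfl, rfl⟩ := h3
        have q1 : ¬ j = j.rev := fun h => hjr' h.symm
        have q2 : ¬ i = i.rev := fun h => hir h.symm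
        simp only [hji, hjr, q1, q2, hij, hijr, hrij, false_and, if_false, and_self, if_true]
        ring
      · rw [if_neg h3]
        by_cases h4 : i.rev = a ∧ j.rev = b
        · obtain ⟨rfl, rfl⟩ := h4
          simp only [hir, hrij, hrr, hrji, hrr', hjr', if_false, and_self, if_true]
          ring
        · rw [if_neg h4]
          ring
    · funext I
      rw [act_diag, Pi.zero_apply]
      by_cases hI : u I = 0
      · rw [hI, mul_zero]
      · rw [Finset.sum_sub_distrib, ← hsum, ← hsum, hχ I hI, hχ I hI]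
        simp
    · unfold Xr at hab
      rw [Matrix.sub_apply, Matrix.smul_apply, Matrix.single_apply, Matrix.single_apply, smul_eq_mul] at hab
      by_cases h3 : j = a ∧ i = b
      · exact Or.inl ⟨h3.1.symm, h3.2.symm⟩
      · rw [if_neg h3] at hab
        by_cases h4 : i.rev = a ∧ j.rev = b
        · exact Or.inr ⟨h4.1.symm, h4.2.symm⟩
        · rw [if_neg h4] at hab
          exact absurd (by ring) hab

end

section dich

variable {m : ℕ} {g : Fin (2 * m) → K} (hg : ∀ i, g i ≠ 0) (hgr : ∀ i, g i.rev = -g i)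

/-- the balance -/
lemma ch_bal {I : Fin d → Fin (2 * m)} (h : 2 * ∑ l, ((I l : ℕ) : ℤ) = d * (2 * m - 1)) :
    ∑ i : Fin (2 * m), (2 * ((i : ℕ) : ℤ) - (2 * m - 1)) * ch I i = 0 := by
  unfold ch
  simp only [Finset.mul_sum]
  rw [Finset.sum_comm]
  have h1 : ∀ l : Fin d, ∑ i : Fin (2 * m), (2 * ((i : ℕ) : ℤ) - (2 * m - 1)) *
      ((if I l = i then 1 else 0) - (if I l = i.rev then 1 else 0)) = 4 * ((I l : ℕ) : ℤ) - 2 * (2 * m - 1) := by
    intro l
    have h2 : ∀ i : Fin (2 * m), (2 * ((i : ℕ) : ℤ) - (2 * m - 1)) *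
      ((if I l = i then 1 else 0) - (if I l = i.rev then 1 else 0)) =
      (if I l = i then (2 * ((i : ℕ) : ℤ) - (2 * m - 1)) else 0) - (if (I l).rev = i then (2 * ((i : ℕ) : ℤ) - (2 * m - 1)) else 0) := by
      intro i
      have h3 : (I l = i.rev) = ((I l).rev = i) := propext ⟨fun h => by rw [h, Fin.rev_rev], fun h => by rw [← h, Fin.rev_rev]⟩
      simp only [h3]
      split_ifs <;> ring
    simp only [h2]
    rw [Finset.sum_sub_distrib, Finset.sum_ite_eq, Finset.sum_ite_eq, if_pos (Finset.mem_univ _), if_pos (Finset.mem_univ _),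
      Fin.val_rev]
    have := (I l).2
    have h4 : ((2 * m - (((I l : Fin (2 * m)) : ℕ) + 1) : ℕ) : ℤ) = 2 * m - 1 - ((I l : Fin (2 * m)) : ℕ) := by omega
    rw [h4]
    ring
  simp only [h1]
  rw [Finset.sum_sub_distrib, ← Finset.mul_sum, Finset.sum_const, Finset.card_univ, Fintype.card_fin]
  have h2 : 4 * ∑ l, ((I l : ℕ) : ℤ) = 2 * (d * (2 * m - 1)) := by rw [← h]; ring
  rw [h2]
  simp
  ring

include hg hgr in
/-- **the dichotomy** -/
theorem dich [CharZero K] (hm : 5 ≤ m) {u : Tn K (2 * m) d}
    (hμ : ∀ I, u I ≠ 0 → 2 * ∑ l, ((I l : ℕ) : ℤ) = d * (2 * m - 1))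
    (hp : Fintype.card (Up m) ≤ Module.finrank K (LinearMap.ker (Ph g (fun p : Up m => (p.1.1, p.1.2)) u)) + (m + 1))
    (hn : Fintype.card (Up m) ≤ Module.finrank K (LinearMap.ker (Ph g (fun p : Up m => (p.1.2, p.1.1)) u)) + (m + 1)) :
    (∀ i j, i ≠ j → act (Xr g i j) u = 0) ∧ ∀ I, u I ≠ 0 → ∀ k, ch I k = 0 := by
  classical
  have hrev : ∀ i : Fin (2 * m), i.rev ≠ i := fun i h => by
    have h1 := congrArg Fin.val h
    rw [Fin.val_rev] at h1
    have := i.2
    omega
  have hUp : ∀ p : Up m, p.1.1 ≠ p.1.2 := fun p h => by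
    have := p.2.1
    rw [h] at this
    exact lt_irrefl _ this
  have hcard : ∀ (μ : Fin (2 * m) → Fin (2 * m) → Prop), Fintype.card {p : Up m // μ p.1.1 p.1.2} =
      (Finset.univ.filter fun x : Fin (2 * m) × Fin (2 * m) =>
      (x.1 : ℕ) < x.2 ∧ (x.1 : ℕ) + x.2 ≤ 2 * m - 1 ∧ μ x.1 x.2).card := by
    intro μ
    rw [← Fintype.card_subtype]
    exact Fintype.card_congr
      { toFun := fun p => ⟨p.1.1, p.1.2.1, p.1.2.2, p.2⟩
        invFun := fun x => ⟨⟨x.1, x.2.1, x.2.2.1⟩, x.2.2.2⟩
        left_inv := fun p => rfl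
        right_inv := fun x => rfl }
  -- first: all weights are zero
  have hzero : ∀ I, u I ≠ 0 → ∀ k, ch I k = 0 := by
    by_contra hcon
    push Not at hcon
    obtain ⟨I0, hI0, k0, hk0⟩ := hcon
    -- the order
    obtain ⟨ε, M, hεr, hεi, hM, hM0, hMχ⟩ : ∃ (ε : Fin (2 * m) → Lex (Fin (2 * m) → ℤ)) (M : Lex (Fin (2 * m) → ℤ)),
        (∀ i, ε i.rev = -ε i) ∧ (Function.Injective fun p : Up m => ε p.1.1 - ε p.1.2) ∧ (∀ I, u I ≠ 0 → wt ε I ≤ M) ∧
        (∃ I, u I ≠ 0 ∧ wt ε I = M ∧ ∃ k, ch I k ≠ 0) ∧ ∀ I J, wt ε I = M → wt ε J = M → ch I = ch J := by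
      have hfin : (Finset.univ.filter fun I : Fin d → Fin (2 * m) => u I ≠ 0).Nonempty :=
        ⟨I0, Finset.mem_filter.2 ⟨Finset.mem_univ _, hI0⟩⟩
      have hwn : ∀ I : Fin d → Fin (2 * m), wt (fun i => -el (2 * m) i) I = -wt (el (2 * m)) I := by
        intro I
        unfold wt
        rw [Finset.sum_neg_distrib]
      have hti : ∀ I J : Fin d → Fin (2 * m), wt (el (2 * m)) I = wt (el (2 * m)) J → ch I = ch J := by
        intro I J h
        rw [wt_el, wt_el] at h
        exact toLex.injective h
      obtain ⟨I1, hI1, hmax1⟩ := Finset.exists_max_image _ (wt (el (2 * m))) hfin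
      obtain ⟨I2, hI2, hmax2⟩ := Finset.exists_max_image _ (wt fun i => -el (2 * m) i) hfin
      rw [Finset.mem_filter] at hI1 hI2
      by_cases h1 : ∃ k, ch I1 k ≠ 0
      · refine ⟨el (2 * m), wt (el (2 * m)) I1, el_rev, el_inj, fun I hI => hmax1 I (Finset.mem_filter.2 ⟨Finset.mem_univ _, hI⟩),
          ⟨I1, hI1.2, rfl, h1⟩, fun I J hI hJ => hti I J (hI.trans hJ.symm)⟩
      · refine ⟨fun i => -el (2 * m) i, wt (fun i => -el (2 * m) i) I2, fun i => congrArg (fun z => -z) (el_rev i), ?_,
          fun I hI => hmax2 I (Finset.mem_filter.2 ⟨Finset.mem_univ _, hI⟩), ⟨I2, hI2.2, rfl, ?_⟩, fun I J hI hJ => hti I J ?_⟩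
        · intro p q hpq
          refine el_inj ?_
          simp only at hpq ⊢
          have h3 := congrArg (fun z => -z) hpq
          simp only [neg_sub] at h3
          have h4 : ∀ a b : Lex (Fin (2 * m) → ℤ), -b - -a = a - b := fun a b => by abel
          rw [h4, h4] at h3
          exact h3
        · by_contra h2
          push Not at h1 h2
          have z1 : wt (el (2 * m)) I1 = 0 := by
            rw [wt_el]
            have : ch I1 = 0 := funext h1
            rw [this]
            rfl
          have z2 : wt (el (2 * m)) I2 = 0 := by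
            rw [wt_el]
            have : ch I2 = 0 := funext h2
            rw [this]
            rfl
          have h3 := hmax1 I0 (Finset.mem_filter.2 ⟨Finset.mem_univ _, hI0⟩)
          have h4 := hmax2 I0 (Finset.mem_filter.2 ⟨Finset.mem_univ _, hI0⟩)
          rw [z1] at h3
          rw [hwn, hwn, z2, neg_zero] at h4
          have h5 : wt (el (2 * m)) I0 = 0 := le_antisymm h3 (neg_nonpos.1 h4)
          rw [wt_el] at h5
          exact hk0 (congrFun (toLex.injective h5 : ch I0 = 0) k0)
        · rw [hwn] at hI hJ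
          have h5 := hI.trans hJ.symm
          exact neg_injective h5
    obtain ⟨I1, hI1, hI1M, hχne⟩ := hM0
    set χ := ch I1 with hχ
    have hv0 : res ε M u ≠ 0 := by
      intro h
      have h1 := congrFun h I1
      unfold res at h1
      rw [if_pos hI1M] at h1
      exact hI1 h1
    have hvχ : ∀ I, res ε M u I ≠ 0 → ch I = χ := by
      intro I hI
      unfold res at hI
      by_cases h1 : wt ε I = M
      · exact hMχ I I1 h1 hI1M
      · rw [if_neg h1] at hI
        exact absurd rfl hI
    have hbal : ∑ i : Fin (2 * m), (2 * ((i : ℕ) : ℤ) - (2 * m - 1)) * χ i = 0 := ch_bal (hμ I1 hI1)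
    have hbad := many_bad2 hm χ (fun i => ch_rev I1 i) hχne hbal
    have hpos := lead_dim (q := fun p : Up m => (p.1.1, p.1.2)) hεr (g := g) hεi hM (fun p => 0 ≤ χ p.1.1 - χ p.1.2)
      fun p hp0 => root_sign hg hgr hrev (hUp p) hv0 hvχ hp0
    have hneg := lead_dim (q := fun p : Up m => (p.1.2, p.1.1)) hεr (g := g) (fun p q hpq => hεi (by
      simp only at hpq ⊢
      have h3 := congrArg (fun z => -z) hpq
      simp only [neg_sub] at h3
      exact h3)) hM (fun p => 0 ≤ χ p.1.2 - χ p.1.1)
      fun p hp0 => root_sign hg hgr hrev (hUp p).symm hv0 hvχ hp0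
    -- the count
    have c1 : Fintype.card {p : Up m // 0 ≤ χ p.1.1 - χ p.1.2} + Fintype.card {p : Up m // 0 ≤ χ p.1.2 - χ p.1.1} +
        Fintype.card {p : Up m // χ p.1.1 ≠ χ p.1.2} ≤ 2 * Fintype.card (Up m) := by
      rw [Fintype.card_subtype, Fintype.card_subtype, Fintype.card_subtype]
      set A := Finset.univ.filter fun p : Up m => 0 ≤ χ p.1.1 - χ p.1.2 with hA
      set B := Finset.univ.filter fun p : Up m => 0 ≤ χ p.1.2 - χ p.1.1 with hB
      set C := Finset.univ.filter fun p : Up m => χ p.1.1 ≠ χ p.1.2 with hC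
      have h1 : (A ∩ B).card + C.card ≤ Fintype.card (Up m) := by
        rw [← Finset.card_union_of_disjoint, ← Finset.card_univ]
        · exact Finset.card_le_card (Finset.subset_univ _)
        · rw [Finset.disjoint_left]
          intro p hpA hpC
          rw [Finset.mem_inter, hA, hB, Finset.mem_filter, Finset.mem_filter] at hpA
          rw [hC, Finset.mem_filter] at hpC
          apply hpC.2
          have := hpA.1.2
          have := hpA.2.2
          omega
      have h2 : (A ∪ B).card ≤ Fintype.card (Up m) := by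
        rw [← Finset.card_univ]
        exact Finset.card_le_card (Finset.subset_univ _)
      have h3 := Finset.card_union_add_card_inter A B
      omega
    have hbad' : 2 * m + 3 ≤ Fintype.card {p : Up m // χ p.1.1 ≠ χ p.1.2} := by
      have c2 := hcard fun i j => χ i ≠ χ j
      refine le_trans hbad (le_of_eq ?_)
      convert c2.symm
    omega
  refine ⟨?_, hzero⟩
  -- the relation
  set Rl : Fin (2 * m) → Fin (2 * m) → Prop := fun i j => i = j ∨ act (Xr g i j) u = 0 with hRl
  have hsymm : ∀ i j, Rl i j → Rl j i := by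
    intro i j h
    rcases h with h | h
    · exact Or.inl h.symm
    · by_cases hij : i = j
      · exact Or.inl hij.symm
      · exact Or.inr (root_zero hg hgr hrev hij hzero h)
  have htrans : ∀ i j l, Rl i j → Rl j l → Rl i l := by
    intro i j l h1 h2
    rcases h1 with h1 | h1
    · rw [h1]; exact h2
    rcases h2 with h2 | h2
    · rw [← h2]; exact Or.inr h1
    by_cases hil : i = l
    · exact Or.inl hil
    by_cases hij : i = j
    · rw [hij]; exact Or.inr h2
    by_cases hjl : j = l
    · rw [← hjl]; exact Or.inr h1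
    right
    obtain ⟨c, hc, hbr⟩ := Xr_br hg hgr hij hjl hil
    have h3 := LinearMap.congr_fun (act_comm (K := K) (n := 2 * m) (d := d) (Xr g i j) (Xr g j l)) u
    rw [LinearMap.sub_apply, Module.End.mul_apply, Module.End.mul_apply, h1, h2, map_zero, map_zero, sub_zero, hbr, map_smul,
      LinearMap.smul_apply] at h3
    have hc0 : c ≠ 0 := by
      rcases hc with hc | hc
      · rw [hc]; exact one_ne_zero
      · rw [hc]; exact two_ne_zero
    exact (smul_eq_zero.1 h3.symm).resolve_left hc0
  have hrl : ∀ i j, Rl i j → Rl i.rev j.rev := by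
    intro i j h
    rcases hsymm i j h with h1 | h1
    · left
      rw [h1]
    · right
      have h2 := Xr_rev hg hgr j i
      rw [h2, map_smul, LinearMap.smul_apply, h1, smul_zero]
  -- the classes
  set μ : Fin (2 * m) → Set (Fin (2 * m)) := fun i => {j | Rl i j} with hμd
  have hμiff : ∀ i j, μ i = μ j ↔ Rl i j := by
    intro i j
    constructor
    · intro h
      have h1 : j ∈ μ j := Or.inl rfl
      rw [← h] at h1
      exact h1
    · intro h
      ext l
      exact ⟨fun h1 => htrans _ _ _ (hsymm _ _ h) h1, fun h1 => htrans _ _ _ h h1⟩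
  have hall : ∀ i j, μ i = μ j := by
    by_contra hcon
    push Not at hcon
    obtain ⟨i, j, hij⟩ := hcon
    have hbad := many_bad (n := 2 * m) (by omega) ⟨m, by ring⟩ μ
      (fun i j h => (hμiff _ _).2 (hrl _ _ ((hμiff _ _).1 h))) ⟨i, j, hij⟩
    have hw0 : ∀ I, u I ≠ 0 → wt (el (2 * m)) I = 0 := by
      intro I hI
      rw [wt_el]
      have : ch I = 0 := funext (hzero I hI)
      rw [this]
      rfl
    have hres : res (el (2 * m)) 0 u = u := by
      funext I
      unfold res
      split_ifs with h
      · rfl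
      · by_contra h2
        exact h (hw0 I fun h3 => h2 h3.symm)
    have hpos := lead_dim (q := fun p : Up m => (p.1.1, p.1.2)) el_rev (g := g) el_inj (fun I hI => (hw0 I hI).le)
      (fun p => μ p.1.1 = μ p.1.2) fun p hp0 => (hμiff _ _).2 (Or.inr (by rw [hres] at hp0; exact hp0))
    have hbad' : 2 * m - 2 ≤ Fintype.card {p : Up m // μ p.1.1 ≠ μ p.1.2} := by
      have c2 := hcard fun i j => μ i ≠ μ j
      refine le_trans hbad (le_of_eq ?_)
      convert c2.symm
    have c3 := Fintype.card_subtype_compl (fun p : Up m => μ p.1.1 = μ p.1.2)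
    have c4 := Fintype.card_subtype_le (fun p : Up m => μ p.1.1 = μ p.1.2)
    have c5 : Fintype.card {p : Up m // ¬ μ p.1.1 = μ p.1.2} = Fintype.card {p : Up m // μ p.1.1 ≠ μ p.1.2} := rfl
    omega
  intro i j hij
  rcases (hμiff i j).1 (hall i j) with h | h
  · exact absurd h hij
  · exact h

end dich

end Pool.Agent.Y118.HX
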