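import Pool.Agent.Y118.HX.Lead

/-!
# The weights of rank four which are orthogonal to six roots
-/

set_option autoImplicit false
set_option maxHeartbeats 400000

namespace Pool.Agent.Y118.HX

/-- the number of short roots in the plane which are orthogonal -/
def PP (x y : ℤ) : ℕ := (if x = y then 1 else 0) + (if x = -y then 1 else 0)

/-- the number of long roots which are orthogonal -/
def ZZ (x : ℤ) : ℕ := if x = -x then 1 else 0

lemma PP_le (x y : ℤ) : PP x y ≤ 2 := by
  unfold PP
  split_ifs <;> omega

lemma PP_ne {x y : ℤ} (h : x ≠ 0) : PP x y ≤ 1 := by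
  unfold PP
  split_ifs <;> omega

lemma PP_z {x y : ℤ} (h : x = 0) (h2 : y ≠ 0) : PP x y = 0 := by
  unfold PP
  split_ifs <;> omega

lemma PP_z' {x y : ℤ} (h : x ≠ 0) (h2 : y = 0) : PP x y = 0 := by
  unfold PP
  split_ifs <;> omega

lemma PP_one {x y : ℤ} (h : PP x y = 1) : x = y ∨ x = -y := by
  unfold PP at h
  split_ifs at h <;> omega

lemma ZZ_z {x : ℤ} : ZZ x ≤ 1 := by
  unfold ZZ
  split_ifs <;> omega

lemma ZZ_ne {x : ℤ} (h : x ≠ 0) : ZZ x = 0 := by
  unfold ZZ
  split_ifs <;> omega

/-- the pattern -/
lemma pat {a b c d : ℤ} (hbal : 7 * a + 5 * b + 3 * c + d = 0)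
    (h : 6 ≤ PP a b + PP a c + PP a d + PP b c + PP b d + PP c d + (ZZ a + ZZ b + ZZ c + ZZ d)) :
    b = -a ∧ c = -a ∧ d = a := by
  have t1 := PP_le a b
  have t2 := PP_le a c
  have t3 := PP_le a d
  have t4 := PP_le b c
  have t5 := PP_le b d
  have t6 := PP_le c d
  have z1 := ZZ_z (x := a)
  have z2 := ZZ_z (x := b)
  have z3 := ZZ_z (x := c)
  have z4 := ZZ_z (x := d)
  by_cases ha : a = 0
  · by_cases hb : b = 0
    · by_cases hc : c = 0
      · omega
      · by_cases hd : d = 0
        · omega
        · have := PP_z ha hc
          have := PP_z ha hd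
          have := PP_z hb hc
          have := PP_z hb hd
          have := PP_ne hc (y := d)
          have := ZZ_ne hc
          have := ZZ_ne hd
          omega
    · by_cases hc : c = 0
      · by_cases hd : d = 0
        · omega
        · have := PP_z ha hb
          have := PP_z ha hd
          have := PP_z' hb hc
          have := PP_ne hb (y := d)
          have := PP_z hc hd
          have := ZZ_ne hb
          have := ZZ_ne hd
          omega
      · by_cases hd : d = 0
        · have := PP_z ha hb
          have := PP_z ha hc
          have := PP_ne hb (y := c)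
          have := PP_z' hb hd
          have := PP_z' hc hd
          have := ZZ_ne hb
          have := ZZ_ne hc
          omega
        · have := PP_z ha hb
          have := PP_z ha hc
          have := PP_z ha hd
          have := PP_ne hb (y := c)
          have := PP_ne hb (y := d)
          have := PP_ne hc (y := d)
          have := ZZ_ne hb
          have := ZZ_ne hc
          have := ZZ_ne hd
          omega
  · by_cases hb : b = 0
    · by_cases hc : c = 0
      · by_cases hd : d = 0
        · omega
        · have := PP_z' ha hb
          have := PP_z' ha hc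
          have := PP_ne ha (y := d)
          have := PP_z hb hd
          have := PP_z hc hd
          have := ZZ_ne ha
          have := ZZ_ne hd
          omega
      · by_cases hd : d = 0
        · have := PP_z' ha hb
          have := PP_ne ha (y := c)
          have := PP_z' ha hd
          have := PP_z hb hc
          have := PP_z' hc hd
          have := ZZ_ne ha
          have := ZZ_ne hc
          omega
        · have := PP_z' ha hb
          have := PP_ne ha (y := c)
          have := PP_ne ha (y := d)
          have := PP_z hb hc
          have := PP_z hb hd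
          have := PP_ne hc (y := d)
          have := ZZ_ne ha
          have := ZZ_ne hc
          have := ZZ_ne hd
          omega
    · by_cases hc : c = 0
      · by_cases hd : d = 0
        · have := PP_ne ha (y := b)
          have := PP_z' ha hc
          have := PP_z' ha hd
          have := PP_z' hb hc
          have := PP_z' hb hd
          have := ZZ_ne ha
          have := ZZ_ne hb
          omega
        · have := PP_ne ha (y := b)
          have := PP_z' ha hc
          have := PP_ne ha (y := d)
          have := PP_z' hb hc
          have := PP_ne hb (y := d)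
          have := PP_z hc hd
          have := ZZ_ne ha
          have := ZZ_ne hb
          have := ZZ_ne hd
          omega
      · by_cases hd : d = 0
        · have := PP_ne ha (y := b)
          have := PP_ne ha (y := c)
          have := PP_z' ha hd
          have := PP_ne hb (y := c)
          have := PP_z' hb hd
          have := PP_z' hc hd
          have := ZZ_ne ha
          have := ZZ_ne hb
          have := ZZ_ne hc
          omega
        · have s1 := PP_ne ha (y := b)
          have s2 := PP_ne ha (y := c)
          have s3 := PP_ne ha (y := d)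
          have s4 := PP_ne hb (y := c)
          have s5 := PP_ne hb (y := d)
          have s6 := PP_ne hc (y := d)
          have := ZZ_ne ha
          have := ZZ_ne hb
          have := ZZ_ne hc
          have := ZZ_ne hd
          have q1 := PP_one (show PP a b = 1 by omega)
          have q2 := PP_one (show PP a c = 1 by omega)
          have q3 := PP_one (show PP a d = 1 by omega)
          omega

/-- **the pattern in rank four** -/
theorem pat8 (χ : Fin 8 → ℤ) (hχ : ∀ i, χ i.rev = -χ i) (hbal : ∑ i : Fin 8, (2 * ((i : ℕ) : ℤ) - 7) * χ i = 0)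
    (h : 6 ≤ (Finset.univ.filter fun x : Fin 8 × Fin 8 => (x.1 : ℕ) < x.2 ∧ (x.1 : ℕ) + x.2 ≤ 7 ∧ χ x.1 = χ x.2).card) :
    χ 1 = -χ 0 ∧ χ 2 = -χ 0 ∧ χ 3 = χ 0 := by
  have h4 : χ 4 = -χ 3 := hχ 3
  have h5 : χ 5 = -χ 2 := hχ 2
  have h6 : χ 6 = -χ 1 := hχ 1
  have h7 : χ 7 = -χ 0 := hχ 0
  rw [Fin.sum_univ_eight] at hbal
  simp only [Fin.isValue, Fin.val_zero, Fin.val_one, h4, h5, h6, h7] at hbal
  have hb : 7 * χ 0 + 5 * χ 1 + 3 * χ 2 + χ 3 = 0 := by
    have e2 : ((2 : Fin 8) : ℕ) = 2 := rfl
    have e3 : ((3 : Fin 8) : ℕ) = 3 := rfl
    have e4 : ((4 : Fin 8) : ℕ) = 4 := rfl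
    have e5 : ((5 : Fin 8) : ℕ) = 5 := rfl
    have e6 : ((6 : Fin 8) : ℕ) = 6 := rfl
    have e7 : ((7 : Fin 8) : ℕ) = 7 := rfl
    rw [e2, e3, e4, e5, e6, e7] at hbal
    push_cast at hbal
    linarith
  refine pat hb (h.trans (le_of_eq ?_))
  rw [Finset.card_filter, Fintype.sum_prod_type]
  simp only [Fin.sum_univ_eight, h4, h5, h6, h7]
  unfold PP ZZ
  simp
  ring

end Pool.Agent.Y118.HX
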