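import Pool.Agent.Y118.HX.Dich
import Pool.Agent.Y118.HX.Pat

/-!
# The dichotomy in rank four
-/

set_option autoImplicit false
set_option maxHeartbeats 400000

open Matrix

namespace Pool.Agent.Y118.HX

variable {K : Type} [Field K] {n d : ℕ}

section gen

variable {m : ℕ} {g : Fin (2 * m) → K} (hg : ∀ i, g i ≠ 0) (hgr : ∀ i, g i.rev = -g i)

lemma rev_ne' (i : Fin (2 * m)) : i.rev ≠ i := fun h => by
  have h1 := congrArg Fin.val h
  rw [Fin.val_rev] at h1
  have := i.2
  omega

lemma Up_ne (p : Up m) : p.1.1 ≠ p.1.2 := fun h => by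
  have := p.2.1
  rw [h] at this
  exact lt_irrefl _ this

include hg hgr in
/-- **the top weight** -/
theorem top_bad [CharZero K] {G : Type} [AddCommGroup G] [LinearOrder G] [IsOrderedAddMonoid G] {ε : Fin (2 * m) → G}
    (hεr : ∀ i, ε i.rev = -ε i) (hεi : Function.Injective fun p : Up m => ε p.1.1 - ε p.1.2)
    {u : Tn K (2 * m) d} (hu : u ≠ 0) (hch : ∀ I J : Fin d → Fin (2 * m), wt ε I = wt ε J → ch I = ch J)
    (hp : Fintype.card (Up m) ≤ Module.finrank K (LinearMap.ker (Ph g (fun p : Up m => (p.1.1, p.1.2)) u)) + (m + 1))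
    (hn : Fintype.card (Up m) ≤ Module.finrank K (LinearMap.ker (Ph g (fun p : Up m => (p.1.2, p.1.1)) u)) + (m + 1)) :
    ∃ I0, u I0 ≠ 0 ∧ (∀ I, u I ≠ 0 → wt ε I ≤ wt ε I0) ∧
      Fintype.card (Up m) ≤ Fintype.card {p : Up m // ch I0 p.1.1 = ch I0 p.1.2} + (2 * m + 2) := by
  classical
  have hfin : (Finset.univ.filter fun I : Fin d → Fin (2 * m) => u I ≠ 0).Nonempty := by
    by_contra hcon
    rw [Finset.not_nonempty_iff_eq_empty] at hcon
    apply hu
    funext I
    by_contra hI
    have : I ∈ Finset.univ.filter fun I : Fin d → Fin (2 * m) => u I ≠ 0 := Finset.mem_filter.2 ⟨Finset.mem_univ _, hI⟩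
    rw [hcon] at this
    exact Finset.notMem_empty _ this
  obtain ⟨I0, hI0, hmax⟩ := Finset.exists_max_image _ (wt ε) hfin
  rw [Finset.mem_filter] at hI0
  have hM : ∀ I, u I ≠ 0 → wt ε I ≤ wt ε I0 := fun I hI => hmax I (Finset.mem_filter.2 ⟨Finset.mem_univ _, hI⟩)
  refine ⟨I0, hI0.2, hM, ?_⟩
  set M := wt ε I0 with hMd
  set χ := ch I0 with hχ
  have hv0 : res ε M u ≠ 0 := by
    intro h
    have h1 := congrFun h I0
    unfold res at h1
    rw [if_pos rfl] at h1
    exact hI0.2 h1
  have hvχ : ∀ I, res ε M u I ≠ 0 → ch I = χ := by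
    intro I hI
    unfold res at hI
    by_cases h1 : wt ε I = M
    · exact hch I I0 h1
    · rw [if_neg h1] at hI
      exact absurd rfl hI
  have hpos := lead_dim (q := fun p : Up m => (p.1.1, p.1.2)) hεr (g := g) hεi hM (fun p => 0 ≤ χ p.1.1 - χ p.1.2)
    fun p hp0 => root_sign hg hgr rev_ne' (Up_ne p) hv0 hvχ hp0
  have hneg := lead_dim (q := fun p : Up m => (p.1.2, p.1.1)) hεr (g := g) (fun p q hpq => hεi (by
    simp only at hpq ⊢
    have h3 := congrArg (fun z => -z) hpq
    simp only [neg_sub] at h3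
    exact h3)) hM (fun p => 0 ≤ χ p.1.2 - χ p.1.1)
    fun p hp0 => root_sign hg hgr rev_ne' (Up_ne p).symm hv0 hvχ hp0
  -- the count
  have c1 : Fintype.card {p : Up m // 0 ≤ χ p.1.1 - χ p.1.2} + Fintype.card {p : Up m // 0 ≤ χ p.1.2 - χ p.1.1} ≤
      Fintype.card (Up m) + Fintype.card {p : Up m // χ p.1.1 = χ p.1.2} := by
    have a1 := Fintype.card_subtype fun p : Up m => 0 ≤ χ p.1.1 - χ p.1.2
    have a2 := Fintype.card_subtype fun p : Up m => 0 ≤ χ p.1.2 - χ p.1.1
    have a3 := Fintype.card_subtype fun p : Up m => χ p.1.1 = χ p.1.2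
    set A := Finset.univ.filter fun p : Up m => 0 ≤ χ p.1.1 - χ p.1.2 with hA
    set B := Finset.univ.filter fun p : Up m => 0 ≤ χ p.1.2 - χ p.1.1 with hB
    set C := Finset.univ.filter fun p : Up m => χ p.1.1 = χ p.1.2 with hC
    have h1 : (A ∩ B).card ≤ C.card := by
      refine Finset.card_le_card fun p hpA => ?_
      rw [Finset.mem_inter, hA, hB, Finset.mem_filter, Finset.mem_filter] at hpA
      rw [hC, Finset.mem_filter]
      refine ⟨Finset.mem_univ _, ?_⟩
      have := hpA.1.2
      have := hpA.2.2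
      omega
    have h2 : (A ∪ B).card ≤ Fintype.card (Up m) := by
      rw [← Finset.card_univ]
      exact Finset.card_le_card (Finset.subset_univ _)
    have h3 := Finset.card_union_add_card_inter A B
    omega
  omega

include hg hgr in
/-- **tensors of weight zero** -/
theorem dichB [CharZero K] (hm : 4 ≤ m) {u : Tn K (2 * m) d} (hzero : ∀ I, u I ≠ 0 → ∀ k, ch I k = 0)
    (hp : Fintype.card (Up m) ≤ Module.finrank K (LinearMap.ker (Ph g (fun p : Up m => (p.1.1, p.1.2)) u)) + (m + 1)) :
    ∀ i j, i ≠ j → act (Xr g i j) u = 0 := by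
  classical
  have hrev : ∀ i : Fin (2 * m), i.rev ≠ i := rev_ne'
  have hcard : ∀ (μ : Fin (2 * m) → Fin (2 * m) → Prop), Fintype.card {p : Up m // μ p.1.1 p.1.2} =
      (Finset.univ.filter fun x : Fin (2 * m) × Fin (2 * m) =>
      (x.1 : ℕ) < x.2 ∧ (x.1 : ℕ) + x.2 ≤ 2 * m - 1 ∧ μ x.1 x.2).card := by
    intro μ
    rw [← Fintype.card_subtype]
    exact Fintype.card_congr
      { toFun := fun p => ⟨p.1.1, p.1.2.1, p.1.2.2, p.2⟩
        invFun := fun x => ⟨⟨x.1, x.2.1, x.2.2.1⟩, x.2.2.2⟩
        left_inv := fun p => rfl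
        right_inv := fun x => rfl }
  -- the relation
  set Rl : Fin (2 * m) → Fin (2 * m) → Prop := fun i j => i = j ∨ act (Xr g i j) u = 0 with hRl
  have hsymm : ∀ i j, Rl i j → Rl j i := by
    intro i j h
    rcases h with h | h
    · exact Or.inl h.symm
    · by_cases hij : i = j
      · exact Or.inl hij.symm
      · exact Or.inr (root_zero hg hgr hrev hij hzero h)
  have htrans : ∀ i j l, Rl i j → Rl j l → Rl i l := by
    intro i j l h1 h2
    rcases h1 with h1 | h1
    · rw [h1]; exact h2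
    rcases h2 with h2 | h2
    · rw [← h2]; exact Or.inr h1
    by_cases hil : i = l
    · exact Or.inl hil
    by_cases hij : i = j
    · rw [hij]; exact Or.inr h2
    by_cases hjl : j = l
    · rw [← hjl]; exact Or.inr h1
    right
    obtain ⟨c, hc, hbr⟩ := Xr_br hg hgr hij hjl hil
    have h3 := LinearMap.congr_fun (act_comm (K := K) (n := 2 * m) (d := d) (Xr g i j) (Xr g j l)) u
    rw [LinearMap.sub_apply, Module.End.mul_apply, Module.End.mul_apply, h1, h2, map_zero, map_zero, sub_zero, hbr, map_smul,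
      LinearMap.smul_apply] at h3
    have hc0 : c ≠ 0 := by
      rcases hc with hc | hc
      · rw [hc]; exact one_ne_zero
      · rw [hc]; exact two_ne_zero
    exact (smul_eq_zero.1 h3.symm).resolve_left hc0
  have hrl : ∀ i j, Rl i j → Rl i.rev j.rev := by
    intro i j h
    rcases hsymm i j h with h1 | h1
    · left
      rw [h1]
    · right
      have h2 := Xr_rev hg hgr j i
      rw [h2, map_smul, LinearMap.smul_apply, h1, smul_zero]
  -- the classes
  set μ : Fin (2 * m) → Set (Fin (2 * m)) := fun i => {j | Rl i j} with hμd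
  have hμiff : ∀ i j, μ i = μ j ↔ Rl i j := by
    intro i j
    constructor
    · intro h
      have h1 : j ∈ μ j := Or.inl rfl
      rw [← h] at h1
      exact h1
    · intro h
      ext l
      exact ⟨fun h1 => htrans _ _ _ (hsymm _ _ h) h1, fun h1 => htrans _ _ _ h h1⟩
  have hall : ∀ i j, μ i = μ j := by
    by_contra hcon
    push Not at hcon
    obtain ⟨i, j, hij⟩ := hcon
    have hbad := many_bad (n := 2 * m) (by omega) ⟨m, by ring⟩ μ
      (fun i j h => (hμiff _ _).2 (hrl _ _ ((hμiff _ _).1 h))) ⟨i, j, hij⟩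
    have hw0 : ∀ I, u I ≠ 0 → wt (el (2 * m)) I = 0 := by
      intro I hI
      rw [wt_el]
      have : ch I = 0 := funext (hzero I hI)
      rw [this]
      rfl
    have hres : res (el (2 * m)) 0 u = u := by
      funext I
      unfold res
      split_ifs with h
      · rfl
      · by_contra h2
        exact h (hw0 I fun h3 => h2 h3.symm)
    have hpos := lead_dim (q := fun p : Up m => (p.1.1, p.1.2)) el_rev (g := g) el_inj (fun I hI => (hw0 I hI).le)
      (fun p => μ p.1.1 = μ p.1.2) fun p hp0 => (hμiff _ _).2 (Or.inr (by rw [hres] at hp0; exact hp0))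
    have hbad' : 2 * m - 2 ≤ Fintype.card {p : Up m // μ p.1.1 ≠ μ p.1.2} := by
      have c2 := hcard fun i j => μ i ≠ μ j
      refine le_trans hbad (le_of_eq ?_)
      convert c2.symm
    have c3 := Fintype.card_subtype_compl (fun p : Up m => μ p.1.1 = μ p.1.2)
    have c4 := Fintype.card_subtype_le (fun p : Up m => μ p.1.1 = μ p.1.2)
    have c5 : Fintype.card {p : Up m // ¬ μ p.1.1 = μ p.1.2} = Fintype.card {p : Up m // μ p.1.1 ≠ μ p.1.2} := rfl
    omega
  intro i j hij
  rcases (hμiff i j).1 (hall i j) with h | h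
  · exact absurd h hij
  · exact h

end gen

section lam

/-- integral functionals of the weights -/
def lam (c : Fin n → ℤ) (i : Fin n) : ℤ := ∑ k, c k * ((if i = k then 1 else 0) - (if i = k.rev then 1 else 0))

lemma lam_rev (c : Fin n → ℤ) (i : Fin n) : lam c i.rev = -lam c i := by
  unfold lam
  rw [← Finset.sum_neg_distrib]
  refine Finset.sum_congr rfl fun k _ => ?_
  have h1 : (i.rev = k) = (i = k.rev) := propext ⟨fun h => by rw [← h, Fin.rev_rev], fun h => by rw [h, Fin.rev_rev]⟩
  have h2 : (i.rev = k.rev) = (i = k) := propext ⟨fun h => Fin.rev_injective h, fun h => by rw [h]⟩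
  simp only [h1, h2]
  ring

lemma lam_sum (c : Fin n → ℤ) (I : Fin d → Fin n) : ∑ l, lam c (I l) = ∑ k, c k * ch I k := by
  unfold lam ch
  simp only [Finset.mul_sum]
  rw [Finset.sum_comm]

/-- the refined order -/
def em (c : Fin n → ℤ) (i : Fin n) : ℤ ×ₗ Lex (Fin n → ℤ) := toLex (lam c i, el n i)

lemma em_rev (c : Fin n → ℤ) (i : Fin n) : em c i.rev = -em c i := by
  unfold em
  rw [lam_rev, el_rev]
  rfl

lemma wt_em (c : Fin n → ℤ) (I : Fin d → Fin n) : wt (em c) I = toLex (∑ k, c k * ch I k, wt (el n) I) := by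
  rw [← lam_sum]
  unfold wt em
  have : ∀ (s : Finset (Fin d)), ∑ l ∈ s, (toLex (lam c (I l), el n (I l)) : ℤ ×ₗ Lex (Fin n → ℤ)) =
      toLex (∑ l ∈ s, lam c (I l), ∑ l ∈ s, el n (I l)) := by
    classical
    intro s
    induction s using Finset.induction_on with
    | empty => rfl
    | insert a s ha ih =>
      rw [Finset.sum_insert ha, Finset.sum_insert ha, Finset.sum_insert ha, ih]
      rfl
  exact this _

lemma em_inj {m : ℕ} (c : Fin (2 * m) → ℤ) : Function.Injective fun p : Up m => em c p.1.1 - em c p.1.2 := by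
  intro p q hpq
  refine el_inj ?_
  exact congrArg (fun z => (ofLex z).2) hpq

end lam

end Pool.Agent.Y118.HX
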