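import Pool.Agent.Y118.HX.Dich4

/-!
# The dichotomy for one of two points
-/

set_option autoImplicit false
set_option maxHeartbeats 400000

open Matrix

namespace Pool.Agent.Y118.HX

/-- **many roots are not orthogonal to a regular weight** -/
theorem many_bad3 {m : ℕ} (hm : 3 ≤ m) (χ : Fin (2 * m) → ℤ) (hχ : ∀ i, χ i.rev = -χ i) (hne : ∃ i, χ i ≠ 0)
    (hbal : ∑ i : Fin (2 * m), (2 * ((i : ℕ) : ℤ) - (2 * m - 1)) * χ i = 0) :
    m + 2 ≤ (Finset.univ.filter fun x : Fin (2 * m) × Fin (2 * m) =>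
      (x.1 : ℕ) < x.2 ∧ (x.1 : ℕ) + x.2 ≤ 2 * m - 1 ∧ χ x.1 ≠ χ x.2).card := by
  classical
  have h4 := four_one χ (fun i j h => by rw [hχ, hχ, h])
  set B := Finset.univ.filter fun x : Fin (2 * m) × Fin (2 * m) =>
      (x.1 : ℕ) < x.2 ∧ (x.1 : ℕ) + x.2 ≤ 2 * m - 1 ∧ χ x.1 ≠ χ x.2 with hB
  set A := Finset.univ.filter fun x : Fin (2 * m) × Fin (2 * m) => χ x.1 ≠ χ x.2 with hA
  set Z := Finset.univ.filter fun i : Fin (2 * m) => χ i = 0 with hZ
  set P := Finset.univ.filter fun i : Fin (2 * m) => 0 < χ i with hP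
  set N := Finset.univ.filter fun i : Fin (2 * m) => χ i < 0 with hN
  have hNP : N.card = P.card := by
    refine Finset.card_bij (fun i _ => i.rev) (fun i hi => ?_) (fun i _ j _ h => Fin.rev_injective h) fun j hj => ?_
    · rw [hN, Finset.mem_filter] at hi
      rw [hP, Finset.mem_filter, hχ]
      exact ⟨Finset.mem_univ _, by omega⟩
    · rw [hP, Finset.mem_filter] at hj
      refine ⟨j.rev, ?_, Fin.rev_rev j⟩
      rw [hN, Finset.mem_filter, hχ]
      exact ⟨Finset.mem_univ _, by omega⟩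
  have hcard : Z.card + (P.card + N.card) = 2 * m := by
    have h1 : Disjoint P N := by
      rw [Finset.disjoint_left]
      intro i hi hj
      rw [hP, Finset.mem_filter] at hi
      rw [hN, Finset.mem_filter] at hj
      omega
    have h2 : Disjoint Z (P ∪ N) := by
      rw [Finset.disjoint_left]
      intro i hi hj
      rw [hZ, Finset.mem_filter] at hi
      rw [Finset.mem_union, hP, hN, Finset.mem_filter, Finset.mem_filter] at hj
      omega
    rw [← Finset.card_union_of_disjoint h1, ← Finset.card_union_of_disjoint h2]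
    have h3 : Z ∪ (P ∪ N) = Finset.univ := by
      ext i
      rw [Finset.mem_union, Finset.mem_union, hZ, hP, hN, Finset.mem_filter, Finset.mem_filter, Finset.mem_filter]
      have := Finset.mem_univ i
      constructor
      · intro _
        exact this
      · intro _
        rcases lt_trichotomy (χ i) 0 with h | h | h
        · exact Or.inr (Or.inr ⟨this, h⟩)
        · exact Or.inl ⟨this, h⟩
        · exact Or.inr (Or.inl ⟨this, h⟩)
    rw [h3, Finset.card_univ, Fintype.card_fin]
  set r := P.card with hr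
  -- at least two positive entries
  have hr2 : 2 ≤ r := by
    by_contra hcon
    push Not at hcon
    obtain ⟨i, hi⟩ := hne
    have hex : ∃ j, 0 < χ j := by
      rcases lt_or_gt_of_ne hi with h | h
      · exact ⟨i.rev, by rw [hχ]; omega⟩
      · exact ⟨i, h⟩
    obtain ⟨j, hj⟩ := hex
    have hjP : j ∈ P := by
      rw [hP, Finset.mem_filter]
      exact ⟨Finset.mem_univ _, hj⟩
    have hone : ∀ l, 0 < χ l → l = j := fun l hl =>
      Finset.card_le_one.1 (by omega : P.card ≤ 1) l (by rw [hP, Finset.mem_filter]; exact ⟨Finset.mem_univ _, hl⟩) j hjP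
    have hjr : j.rev ≠ j := by
      intro h
      have := hχ j
      rw [h] at this
      omega
    have h5 : ∀ l, l ≠ j → l ≠ j.rev → χ l = 0 := by
      intro l h6 h7
      by_contra h8
      rcases lt_or_gt_of_ne h8 with h | h
      · have h9 := hone l.rev (by rw [hχ]; omega)
        exact h7 (by rw [← h9, Fin.rev_rev])
      · exact h6 (hone l h)
    rw [← Finset.add_sum_erase _ _ (Finset.mem_univ j),
      ← Finset.add_sum_erase _ _ (Finset.mem_erase.2 ⟨hjr, Finset.mem_univ j.rev⟩), Finset.sum_eq_zero (fun l hl => ?_)] at hbal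
    · rw [hχ, Fin.val_rev] at hbal
      have hj2 := j.2
      have h10 : ((2 * m - ((j : ℕ) + 1) : ℕ) : ℤ) = 2 * m - 1 - (j : ℕ) := by omega
      rw [h10] at hbal
      have h11 : 2 * (2 * ((j : ℕ) : ℤ) - (2 * m - 1)) * χ j = 0 := by linear_combination hbal
      rcases mul_eq_zero.1 h11 with h12 | h12
      · omega
      · omega
    · rw [Finset.mem_erase, Finset.mem_erase] at hl
      rw [h5 l hl.2.1 hl.1, mul_zero]
  have hrm : r ≤ m := by omega
  -- the number of ordered pairs
  have hcount : Z.card * (2 * m - Z.card) + (P.card * (2 * m - P.card) + N.card * (2 * m - N.card)) ≤ A.card := by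
    have hc : ∀ S : Finset (Fin (2 * m)), Sᶜ.card = 2 * m - S.card := fun S => by rw [Finset.card_compl, Fintype.card_fin]
    rw [← hc, ← hc, ← hc, ← Finset.card_product, ← Finset.card_product, ← Finset.card_product]
    have d1 : Disjoint (P ×ˢ Pᶜ) (N ×ˢ Nᶜ) := by
      rw [Finset.disjoint_left]
      intro x hx hy
      rw [Finset.mem_product] at hx hy
      have h6 := hx.1
      have h7 := hy.1
      rw [hP, Finset.mem_filter] at h6
      rw [hN, Finset.mem_filter] at h7
      omega
    have d2 : Disjoint (Z ×ˢ Zᶜ) ((P ×ˢ Pᶜ) ∪ (N ×ˢ Nᶜ)) := by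
      rw [Finset.disjoint_left]
      intro x hx hy
      rw [Finset.mem_union, Finset.mem_product, Finset.mem_product] at hy
      rw [Finset.mem_product] at hx
      have h6 := hx.1
      rw [hZ, Finset.mem_filter] at h6
      rcases hy with h7 | h7
      · have h8 := h7.1
        rw [hP, Finset.mem_filter] at h8
        omega
      · have h8 := h7.1
        rw [hN, Finset.mem_filter] at h8
        omega
    rw [← Finset.card_union_of_disjoint d1, ← Finset.card_union_of_disjoint d2]
    refine Finset.card_le_card fun x hx => ?_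
    rw [hA, Finset.mem_filter]
    refine ⟨Finset.mem_univ _, fun h => ?_⟩
    rw [Finset.mem_union, Finset.mem_union, Finset.mem_product, Finset.mem_product, Finset.mem_product, Finset.mem_compl,
      Finset.mem_compl, Finset.mem_compl, hZ, hP, hN, Finset.mem_filter, Finset.mem_filter, Finset.mem_filter,
      Finset.mem_filter, Finset.mem_filter, Finset.mem_filter, h] at hx
    rcases hx with h6 | h6 | h6
    · exact h6.2 ⟨Finset.mem_univ _, h6.1.2⟩
    · exact h6.2 ⟨Finset.mem_univ _, h6.1.2⟩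
    · exact h6.2 ⟨Finset.mem_univ _, h6.1.2⟩
  have hZc : Z.card = 2 * m - 2 * r := by omega
  rw [hNP, hZc] at hcount
  obtain ⟨a, ha⟩ : ∃ a, r = a + 2 := ⟨r - 2, by omega⟩
  obtain ⟨b, hb⟩ : ∃ b, m = a + b + 2 := ⟨m - a - 2, by omega⟩
  have e1 : 2 * m - 2 * r = 2 * b := by omega
  have e2 : 2 * m - (2 * m - 2 * r) = 2 * (a + 2) := by omega
  have e3 : 2 * m - r = a + 2 * b + 2 := by omega
  rw [← hr, e2, e1, e3, ha] at hcount
  have hfin : 4 * m + 5 ≤ 2 * b * (2 * (a + 2)) + ((a + 2) * (a + 2 * b + 2) + (a + 2) * (a + 2 * b + 2)) := by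
    rw [hb]
    have hab : 1 ≤ a + b := by omega
    have hq : 4 * (a + b + 2) + 5 ≤ 2 * (a * a) + 8 * (a * b) + 8 * a + 16 * b + 8 := by
      rcases Nat.eq_zero_or_pos b with h | h
      · subst h
        have : 1 ≤ a := by omega
        nlinarith
      · nlinarith [Nat.zero_le (a * a), Nat.zero_le (a * b)]
    calc 4 * (a + b + 2) + 5 ≤ 2 * (a * a) + 8 * (a * b) + 8 * a + 16 * b + 8 := hq
      _ = _ := by ring
  omega

/-- rank two -/
theorem many_bad4 (χ : Fin 4 → ℤ) (hχ : ∀ i, χ i.rev = -χ i) (hne : ∃ i, χ i ≠ 0)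
    (hbal : ∑ i : Fin 4, (2 * ((i : ℕ) : ℤ) - 3) * χ i = 0) :
    4 ≤ (Finset.univ.filter fun x : Fin 4 × Fin 4 =>
      (x.1 : ℕ) < x.2 ∧ (x.1 : ℕ) + x.2 ≤ 3 ∧ χ x.1 ≠ χ x.2).card := by
  have h3 : χ 3 = -χ 0 := hχ 0
  have h2 : χ 2 = -χ 1 := hχ 1
  rw [Fin.sum_univ_four] at hbal
  have e0 : ((((0 : Fin 4) : ℕ)) : ℤ) = 0 := rfl
  have e1 : ((((1 : Fin 4) : ℕ)) : ℤ) = 1 := rfl
  have e2 : ((((2 : Fin 4) : ℕ)) : ℤ) = 2 := rfl
  have e3 : ((((3 : Fin 4) : ℕ)) : ℤ) = 3 := rfl
  rw [e0, e1, e2, e3, h2, h3] at hbal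
  have h1 : χ 1 = -3 * χ 0 := by linarith
  have h0 : χ 0 ≠ 0 := by
    intro h0
    obtain ⟨i, hi⟩ := hne
    apply hi
    fin_cases i
    · exact h0
    · show χ 1 = 0
      rw [h1, h0, mul_zero]
    · show χ 2 = 0
      rw [h2, h1, h0, mul_zero, neg_zero]
    · show χ 3 = 0
      rw [h3, h0, neg_zero]
  have hsub : ({(0, 1), (0, 2), (0, 3), (1, 2)} : Finset (Fin 4 × Fin 4)) ⊆ Finset.univ.filter fun x : Fin 4 × Fin 4 =>
      (x.1 : ℕ) < x.2 ∧ (x.1 : ℕ) + x.2 ≤ 3 ∧ χ x.1 ≠ χ x.2 := by
    intro x hx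
    rw [Finset.mem_filter]
    simp only [Finset.mem_insert, Finset.mem_singleton] at hx
    rcases hx with rfl | rfl | rfl | rfl
    · exact ⟨Finset.mem_univ _, by decide, by decide, by show χ 0 ≠ χ 1; omega⟩
    · exact ⟨Finset.mem_univ _, by decide, by decide, by show χ 0 ≠ χ 2; omega⟩
    · exact ⟨Finset.mem_univ _, by decide, by decide, by show χ 0 ≠ χ 3; omega⟩
    · exact ⟨Finset.mem_univ _, by decide, by decide, by show χ 1 ≠ χ 2; omega⟩
  exact (by decide : 4 ≤ ({(0, 1), (0, 2), (0, 3), (1, 2)} : Finset (Fin 4 × Fin 4)).card).trans (Finset.card_le_card hsub)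

theorem many_badW {m : ℕ} (hm : 2 ≤ m) (χ : Fin (2 * m) → ℤ) (hχ : ∀ i, χ i.rev = -χ i) (hne : ∃ i, χ i ≠ 0)
    (hbal : ∑ i : Fin (2 * m), (2 * ((i : ℕ) : ℤ) - (2 * m - 1)) * χ i = 0) :
    m + 2 ≤ (Finset.univ.filter fun x : Fin (2 * m) × Fin (2 * m) =>
      (x.1 : ℕ) < x.2 ∧ (x.1 : ℕ) + x.2 ≤ 2 * m - 1 ∧ χ x.1 ≠ χ x.2).card := by
  rcases eq_or_lt_of_le hm with h | h
  · subst h
    refine many_bad4 χ hχ hne ?_
    refine Eq.trans ?_ hbal
    refine Finset.sum_congr rfl fun i _ => ?_
    norm_num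
  · exact many_bad3 h χ hχ hne hbal

variable {K : Type} [Field K] {n d : ℕ}

section dich

variable {m : ℕ} {g : Fin (2 * m) → K} (hg : ∀ i, g i ≠ 0) (hgr : ∀ i, g i.rev = -g i)

include hg hgr in
/-- **the dichotomy** -/
theorem dichW [CharZero K] (hm : 2 ≤ m) {u : Tn K (2 * m) d}
    (hμ : ∀ I, u I ≠ 0 → 2 * ∑ l, ((I l : ℕ) : ℤ) = d * (2 * m - 1))
    (hp : 2 * Fintype.card (Up m) ≤ 2 * Module.finrank K (LinearMap.ker (Ph g (fun p : Up m => (p.1.1, p.1.2)) u)) + (m + 1))
    (hn : 2 * Fintype.card (Up m) ≤ 2 * Module.finrank K (LinearMap.ker (Ph g (fun p : Up m => (p.1.2, p.1.1)) u)) + (m + 1)) :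
    (∀ i j, i ≠ j → act (Xr g i j) u = 0) ∧ ∀ I, u I ≠ 0 → ∀ k, ch I k = 0 := by
  classical
  have hrev : ∀ i : Fin (2 * m), i.rev ≠ i := fun i h => by
    have h1 := congrArg Fin.val h
    rw [Fin.val_rev] at h1
    have := i.2
    omega
  have hUp : ∀ p : Up m, p.1.1 ≠ p.1.2 := fun p h => by
    have := p.2.1
    rw [h] at this
    exact lt_irrefl _ this
  have hcard : ∀ (μ : Fin (2 * m) → Fin (2 * m) → Prop), Fintype.card {p : Up m // μ p.1.1 p.1.2} =
      (Finset.univ.filter fun x : Fin (2 * m) × Fin (2 * m) =>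
      (x.1 : ℕ) < x.2 ∧ (x.1 : ℕ) + x.2 ≤ 2 * m - 1 ∧ μ x.1 x.2).card := by
    intro μ
    rw [← Fintype.card_subtype]
    exact Fintype.card_congr
      { toFun := fun p => ⟨p.1.1, p.1.2.1, p.1.2.2, p.2⟩
        invFun := fun x => ⟨⟨x.1, x.2.1, x.2.2.1⟩, x.2.2.2⟩
        left_inv := fun p => rfl
        right_inv := fun x => rfl }
  -- first: all weights are zero
  have hzero : ∀ I, u I ≠ 0 → ∀ k, ch I k = 0 := by
    by_contra hcon
    push Not at hcon
    obtain ⟨I0, hI0, k0, hk0⟩ := hcon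
    -- the order
    obtain ⟨ε, M, hεr, hεi, hM, hM0, hMχ⟩ : ∃ (ε : Fin (2 * m) → Lex (Fin (2 * m) → ℤ)) (M : Lex (Fin (2 * m) → ℤ)),
        (∀ i, ε i.rev = -ε i) ∧ (Function.Injective fun p : Up m => ε p.1.1 - ε p.1.2) ∧ (∀ I, u I ≠ 0 → wt ε I ≤ M) ∧
        (∃ I, u I ≠ 0 ∧ wt ε I = M ∧ ∃ k, ch I k ≠ 0) ∧ ∀ I J, wt ε I = M → wt ε J = M → ch I = ch J := by
      have hfin : (Finset.univ.filter fun I : Fin d → Fin (2 * m) => u I ≠ 0).Nonempty :=
        ⟨I0, Finset.mem_filter.2 ⟨Finset.mem_univ _, hI0⟩⟩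
      have hwn : ∀ I : Fin d → Fin (2 * m), wt (fun i => -el (2 * m) i) I = -wt (el (2 * m)) I := by
        intro I
        unfold wt
        rw [Finset.sum_neg_distrib]
      have hti : ∀ I J : Fin d → Fin (2 * m), wt (el (2 * m)) I = wt (el (2 * m)) J → ch I = ch J := by
        intro I J h
        rw [wt_el, wt_el] at h
        exact toLex.injective h
      obtain ⟨I1, hI1, hmax1⟩ := Finset.exists_max_image _ (wt (el (2 * m))) hfin
      obtain ⟨I2, hI2, hmax2⟩ := Finset.exists_max_image _ (wt fun i => -el (2 * m) i) hfin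
      rw [Finset.mem_filter] at hI1 hI2
      by_cases h1 : ∃ k, ch I1 k ≠ 0
      · refine ⟨el (2 * m), wt (el (2 * m)) I1, el_rev, el_inj, fun I hI => hmax1 I (Finset.mem_filter.2 ⟨Finset.mem_univ _, hI⟩),
          ⟨I1, hI1.2, rfl, h1⟩, fun I J hI hJ => hti I J (hI.trans hJ.symm)⟩
      · refine ⟨fun i => -el (2 * m) i, wt (fun i => -el (2 * m) i) I2, fun i => congrArg (fun z => -z) (el_rev i), ?_,
          fun I hI => hmax2 I (Finset.mem_filter.2 ⟨Finset.mem_univ _, hI⟩), ⟨I2, hI2.2, rfl, ?_⟩, fun I J hI hJ => hti I J ?_⟩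
        · intro p q hpq
          refine el_inj ?_
          simp only at hpq ⊢
          have h3 := congrArg (fun z => -z) hpq
          simp only [neg_sub] at h3
          have h4 : ∀ a b : Lex (Fin (2 * m) → ℤ), -b - -a = a - b := fun a b => by abel
          rw [h4, h4] at h3
          exact h3
        · by_contra h2
          push Not at h1 h2
          have z1 : wt (el (2 * m)) I1 = 0 := by
            rw [wt_el]
            have : ch I1 = 0 := funext h1
            rw [this]
            rfl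
          have z2 : wt (el (2 * m)) I2 = 0 := by
            rw [wt_el]
            have : ch I2 = 0 := funext h2
            rw [this]
            rfl
          have h3 := hmax1 I0 (Finset.mem_filter.2 ⟨Finset.mem_univ _, hI0⟩)
          have h4 := hmax2 I0 (Finset.mem_filter.2 ⟨Finset.mem_univ _, hI0⟩)
          rw [z1] at h3
          rw [hwn, hwn, z2, neg_zero] at h4
          have h5 : wt (el (2 * m)) I0 = 0 := le_antisymm h3 (neg_nonpos.1 h4)
          rw [wt_el] at h5
          exact hk0 (congrFun (toLex.injective h5 : ch I0 = 0) k0)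
        · rw [hwn] at hI hJ
          have h5 := hI.trans hJ.symm
          exact neg_injective h5
    obtain ⟨I1, hI1, hI1M, hχne⟩ := hM0
    set χ := ch I1 with hχ
    have hv0 : res ε M u ≠ 0 := by
      intro h
      have h1 := congrFun h I1
      unfold res at h1
      rw [if_pos hI1M] at h1
      exact hI1 h1
    have hvχ : ∀ I, res ε M u I ≠ 0 → ch I = χ := by
      intro I hI
      unfold res at hI
      by_cases h1 : wt ε I = M
      · exact hMχ I I1 h1 hI1M
      · rw [if_neg h1] at hI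
        exact absurd rfl hI
    have hbal : ∑ i : Fin (2 * m), (2 * ((i : ℕ) : ℤ) - (2 * m - 1)) * χ i = 0 := ch_bal (hμ I1 hI1)
    have hbad := many_badW hm χ (fun i => ch_rev I1 i) hχne hbal
    have hpos := lead_dim (q := fun p : Up m => (p.1.1, p.1.2)) hεr (g := g) hεi hM (fun p => 0 ≤ χ p.1.1 - χ p.1.2)
      fun p hp0 => root_sign hg hgr hrev (hUp p) hv0 hvχ hp0
    have hneg := lead_dim (q := fun p : Up m => (p.1.2, p.1.1)) hεr (g := g) (fun p q hpq => hεi (by
      simp only at hpq ⊢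
      have h3 := congrArg (fun z => -z) hpq
      simp only [neg_sub] at h3
      exact h3)) hM (fun p => 0 ≤ χ p.1.2 - χ p.1.1)
      fun p hp0 => root_sign hg hgr hrev (hUp p).symm hv0 hvχ hp0
    -- the count
    have c1 : Fintype.card {p : Up m // 0 ≤ χ p.1.1 - χ p.1.2} + Fintype.card {p : Up m // 0 ≤ χ p.1.2 - χ p.1.1} +
        Fintype.card {p : Up m // χ p.1.1 ≠ χ p.1.2} ≤ 2 * Fintype.card (Up m) := by
      rw [Fintype.card_subtype, Fintype.card_subtype, Fintype.card_subtype]
      set A := Finset.univ.filter fun p : Up m => 0 ≤ χ p.1.1 - χ p.1.2 with hA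
      set B := Finset.univ.filter fun p : Up m => 0 ≤ χ p.1.2 - χ p.1.1 with hB
      set C := Finset.univ.filter fun p : Up m => χ p.1.1 ≠ χ p.1.2 with hC
      have h1 : (A ∩ B).card + C.card ≤ Fintype.card (Up m) := by
        rw [← Finset.card_union_of_disjoint, ← Finset.card_univ]
        · exact Finset.card_le_card (Finset.subset_univ _)
        · rw [Finset.disjoint_left]
          intro p hpA hpC
          rw [Finset.mem_inter, hA, hB, Finset.mem_filter, Finset.mem_filter] at hpA
          rw [hC, Finset.mem_filter] at hpC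
          apply hpC.2
          have := hpA.1.2
          have := hpA.2.2
          omega
      have h2 : (A ∪ B).card ≤ Fintype.card (Up m) := by
        rw [← Finset.card_univ]
        exact Finset.card_le_card (Finset.subset_univ _)
      have h3 := Finset.card_union_add_card_inter A B
      omega
    have hbad' : m + 2 ≤ Fintype.card {p : Up m // χ p.1.1 ≠ χ p.1.2} := by
      have c2 := hcard fun i j => χ i ≠ χ j
      refine le_trans hbad (le_of_eq ?_)
      convert c2.symm
    omega
  refine ⟨?_, hzero⟩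
  -- the relation
  set Rl : Fin (2 * m) → Fin (2 * m) → Prop := fun i j => i = j ∨ act (Xr g i j) u = 0 with hRl
  have hsymm : ∀ i j, Rl i j → Rl j i := by
    intro i j h
    rcases h with h | h
    · exact Or.inl h.symm
    · by_cases hij : i = j
      · exact Or.inl hij.symm
      · exact Or.inr (root_zero hg hgr hrev hij hzero h)
  have htrans : ∀ i j l, Rl i j → Rl j l → Rl i l := by
    intro i j l h1 h2
    rcases h1 with h1 | h1
    · rw [h1]; exact h2
    rcases h2 with h2 | h2
    · rw [← h2]; exact Or.inr h1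
    by_cases hil : i = l
    · exact Or.inl hil
    by_cases hij : i = j
    · rw [hij]; exact Or.inr h2
    by_cases hjl : j = l
    · rw [← hjl]; exact Or.inr h1
    right
    obtain ⟨c, hc, hbr⟩ := Xr_br hg hgr hij hjl hil
    have h3 := LinearMap.congr_fun (act_comm (K := K) (n := 2 * m) (d := d) (Xr g i j) (Xr g j l)) u
    rw [LinearMap.sub_apply, Module.End.mul_apply, Module.End.mul_apply, h1, h2, map_zero, map_zero, sub_zero, hbr, map_smul,
      LinearMap.smul_apply] at h3
    have hc0 : c ≠ 0 := by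
      rcases hc with hc | hc
      · rw [hc]; exact one_ne_zero
      · rw [hc]; exact two_ne_zero
    exact (smul_eq_zero.1 h3.symm).resolve_left hc0
  have hrl : ∀ i j, Rl i j → Rl i.rev j.rev := by
    intro i j h
    rcases hsymm i j h with h1 | h1
    · left
      rw [h1]
    · right
      have h2 := Xr_rev hg hgr j i
      rw [h2, map_smul, LinearMap.smul_apply, h1, smul_zero]
  -- the classes
  set μ : Fin (2 * m) → Set (Fin (2 * m)) := fun i => {j | Rl i j} with hμd
  have hμiff : ∀ i j, μ i = μ j ↔ Rl i j := by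
    intro i j
    constructor
    · intro h
      have h1 : j ∈ μ j := Or.inl rfl
      rw [← h] at h1
      exact h1
    · intro h
      ext l
      exact ⟨fun h1 => htrans _ _ _ (hsymm _ _ h) h1, fun h1 => htrans _ _ _ h h1⟩
  have hall : ∀ i j, μ i = μ j := by
    by_contra hcon
    push Not at hcon
    obtain ⟨i, j, hij⟩ := hcon
    have hbad := many_bad (n := 2 * m) (by omega) ⟨m, by ring⟩ μ
      (fun i j h => (hμiff _ _).2 (hrl _ _ ((hμiff _ _).1 h))) ⟨i, j, hij⟩
    have hw0 : ∀ I, u I ≠ 0 → wt (el (2 * m)) I = 0 := by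
      intro I hI
      rw [wt_el]
      have : ch I = 0 := funext (hzero I hI)
      rw [this]
      rfl
    have hres : res (el (2 * m)) 0 u = u := by
      funext I
      unfold res
      split_ifs with h
      · rfl
      · by_contra h2
        exact h (hw0 I fun h3 => h2 h3.symm)
    have hpos := lead_dim (q := fun p : Up m => (p.1.1, p.1.2)) el_rev (g := g) el_inj (fun I hI => (hw0 I hI).le)
      (fun p => μ p.1.1 = μ p.1.2) fun p hp0 => (hμiff _ _).2 (Or.inr (by rw [hres] at hp0; exact hp0))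
    have hbad' : 2 * m - 2 ≤ Fintype.card {p : Up m // μ p.1.1 ≠ μ p.1.2} := by
      have c2 := hcard fun i j => μ i ≠ μ j
      refine le_trans hbad (le_of_eq ?_)
      convert c2.symm
    have c3 := Fintype.card_subtype_compl (fun p : Up m => μ p.1.1 = μ p.1.2)
    have c4 := Fintype.card_subtype_le (fun p : Up m => μ p.1.1 = μ p.1.2)
    have c5 : Fintype.card {p : Up m // ¬ μ p.1.1 = μ p.1.2} = Fintype.card {p : Up m // μ p.1.1 ≠ μ p.1.2} := rfl
    omega
  intro i j hij
  rcases (hμiff i j).1 (hall i j) with h | h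
  · exact absurd h hij
  · exact h

end dich

end Pool.Agent.Y118.HX
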