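import Pool.Agent.Y118.HX.Core
import Pool.Agent.Y118.HX.Comb

/-!
# No endomorphisms
-/

set_option autoImplicit false
set_option maxHeartbeats 400000

open Matrix

namespace Pool.Agent.Y118.HX

variable {k Ω : Type} [Field k] [Field Ω] [Algebra k Ω] {m : ℕ}

namespace Dat

variable (d : Dat k Ω m)

/-- the connection matrix is symplectic -/
lemma b_symp (D : Derivation k Ω Ω) {i j : Fin (2 * m)} (hij : i ≠ j) :
    d.γ j.rev * d.b D j.rev i.rev + d.γ i.rev * d.b D i j = 0 := by
  set Γ : Matrix (Fin (2 * m)) (Fin (2 * m)) Ω := Matrix.of fun i j => if j = Fin.rev i then d.γ i else 0 with hΓ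
  set b := d.b D with hb
  have h1 := congrArg (dm D) d.wQ
  rw [dm_mul, dm_mul, dm_const, dm_transpose, ← d.bw D, ← hb, Matrix.transpose_mul, ← hΓ] at h1
  have hwt : IsUnit d.w.transpose.det := by rw [Matrix.det_transpose]; exact d.wdet
  have h2 : d.w.transpose * (b.transpose * Γ + dm D Γ + Γ * b) * d.w = 0 := by
    rw [← h1, Matrix.mul_add, Matrix.mul_add, Matrix.add_mul, Matrix.add_mul, Matrix.add_mul]
    simp only [Matrix.mul_assoc]
  have h3 : b.transpose * Γ + dm D Γ + Γ * b = 0 := by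
    have h4 := congrArg (fun Z => (d.w.transpose)⁻¹ * Z * d.w⁻¹) h2
    simp only [Matrix.mul_zero, Matrix.zero_mul] at h4
    calc b.transpose * Γ + dm D Γ + Γ * b =
        ((d.w.transpose)⁻¹ * d.w.transpose) * (b.transpose * Γ + dm D Γ + Γ * b) * (d.w * d.w⁻¹) := by
          rw [Matrix.nonsing_inv_mul _ hwt, Matrix.mul_nonsing_inv _ d.wdet, Matrix.one_mul, Matrix.mul_one]
      _ = (d.w.transpose)⁻¹ * (d.w.transpose * (b.transpose * Γ + dm D Γ + Γ * b) * d.w) * d.w⁻¹ := by
          simp only [Matrix.mul_assoc]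
      _ = 0 := h4
  have h5 := congrFun (congrFun h3 i.rev) j
  have h6 : (b.transpose * Γ) i.rev j = b j.rev i.rev * d.γ j.rev := by
    rw [Matrix.mul_apply, Finset.sum_eq_single j.rev]
    · rw [Matrix.transpose_apply, hΓ, Matrix.of_apply, if_pos (Fin.rev_rev j).symm]
    · intro r _ hr
      rw [hΓ, Matrix.of_apply, if_neg, mul_zero]
      intro h
      exact hr (by rw [h, Fin.rev_rev])
    · intro h
      exact absurd (Finset.mem_univ _) h
  have h7 : (Γ * b) i.rev j = d.γ i.rev * b i j := by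
    rw [Matrix.mul_apply, Finset.sum_eq_single i]
    · rw [hΓ, Matrix.of_apply, if_pos (Fin.rev_rev i).symm]
    · intro r _ hr
      rw [hΓ, Matrix.of_apply, if_neg, zero_mul]
      intro h
      exact hr (by rw [h, Fin.rev_rev])
    · intro h
      exact absurd (Finset.mem_univ _) h
  have h8 : (dm D Γ) i.rev j = 0 := by
    unfold dm
    rw [Matrix.map_apply, hΓ, Matrix.of_apply, Fin.rev_rev, if_neg (fun h => hij h.symm), map_zero]
  rw [Matrix.add_apply, Matrix.add_apply, h6, h7, h8, Matrix.zero_apply] at h5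
  rw [← h5]
  ring

lemma b_symp0 (D : Derivation k Ω Ω) {i j : Fin (2 * m)} (hij : i ≠ j) (h : d.b D j.rev i.rev = 0) : d.b D i j = 0 := by
  have h1 := d.b_symp D hij
  rw [h, mul_zero, zero_add] at h1
  exact (mul_eq_zero.1 h1).resolve_left (d.γ0 _)

/-- the connection matrix is compatible with the endomorphism -/
lemma b_endo {a : Matrix (Fin (2 * m)) (Fin (2 * m)) k} {lam : Fin (2 * m) → Ω}
    (ha : d.w * a.map (algebraMap k Ω) = Matrix.diagonal lam * d.w) (D : Derivation k Ω Ω) {i j : Fin (2 * m)}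
    (hij : i ≠ j) (hl : lam i ≠ lam j) : d.b D i j = 0 := by
  have h1 := congrArg (dm D) ha
  rw [dm_mul, dm_const, Matrix.mul_zero, add_zero, dm_mul, ← d.bw D, Matrix.mul_assoc, ha, ← Matrix.mul_assoc,
    ← Matrix.mul_assoc, ← Matrix.add_mul] at h1
  have h2 : d.b D * Matrix.diagonal lam = dm D (Matrix.diagonal lam) + Matrix.diagonal lam * d.b D := by
    have h3 := congrArg (fun Z => Z * d.w⁻¹) h1
    simp only [Matrix.mul_assoc, Matrix.mul_nonsing_inv _ d.wdet, Matrix.mul_one] at h3
    exact h3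
  have h4 := congrFun (congrFun h2 i) j
  rw [Matrix.mul_diagonal, Matrix.add_apply, Matrix.diagonal_mul] at h4
  have h5 : dm D (Matrix.diagonal lam) i j = 0 := by
    unfold dm
    rw [Matrix.map_apply, Matrix.diagonal_apply_ne _ hij, map_zero]
  rw [h5, zero_add] at h4
  have h6 : (lam i - lam j) * d.b D i j = 0 := by linear_combination -h4
  exact (mul_eq_zero.1 h6).resolve_left (sub_ne_zero.2 hl)

/-- a submodule of functions which vanish on a set -/
lemma finrank_vanish {ι : Type} [Fintype ι] (B : ι → Prop) [DecidablePred B] (H : Submodule Ω (ι → Ω))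
    (hH : ∀ f ∈ H, ∀ p, B p → f p = 0) :
    Module.finrank Ω H + Fintype.card {p // B p} ≤ Fintype.card ι := by
  let f : (ι → Ω) →ₗ[Ω] ({p // ¬ B p} → Ω) := LinearMap.funLeft Ω Ω Subtype.val
  have hinj : Function.Injective (f.comp H.subtype) := by
    rw [← LinearMap.ker_eq_bot, LinearMap.ker_eq_bot']
    rintro ⟨g, hg⟩ h0
    apply Subtype.ext
    funext p
    by_cases hp : B p
    · exact hH g hg p hp
    · exact congrFun h0 ⟨p, hp⟩
  have h := LinearMap.finrank_le_finrank_of_injective hinj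
  rw [Module.finrank_fintype_fun_eq_card] at h
  have h2 := Fintype.card_subtype_compl B
  have h3 := Fintype.card_subtype_le B
  omega

/-- **all eigenvalues are equal** -/
theorem endo [CharZero Ω] (hm : 4 ≤ m) {a : Matrix (Fin (2 * m)) (Fin (2 * m)) k} {lam : Fin (2 * m) → Ω}
    (ha : d.w * a.map (algebraMap k Ω) = Matrix.diagonal lam * d.w) (i j : Fin (2 * m)) : lam i = lam j := by
  classical
  by_contra hij
  set μ : Fin (2 * m) → Ω × Ω := fun i => (lam i, lam i.rev) with hμ
  have hμrev : ∀ i j, μ i = μ j → μ i.rev = μ j.rev := by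
    intro i j h
    rw [hμ] at h ⊢
    simp only [Prod.mk.injEq, Fin.rev_rev] at h ⊢
    exact ⟨h.2, h.1⟩
  let B : Up m → Prop := fun p => μ p.1.1 ≠ μ p.1.2
  let H : Submodule Ω (Up m → Ω) :=
    { carrier := {f | ∀ p, B p → f p = 0}
      add_mem' := fun {f g} hf hg p hp => by rw [Pi.add_apply, hf p hp, hg p hp, add_zero]
      zero_mem' := fun p _ => rfl
      smul_mem' := fun r f hf p hp => by rw [Pi.smul_apply, hf p hp, smul_zero] }
  have h1 := d.count H (fun D p hp => by
    have hne : p.1.1 ≠ p.1.2 := fun h => by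
      have := p.2.1
      rw [h] at this
      exact lt_irrefl _ this
    show d.b D p.1.1 p.1.2 = 0
    by_cases h2 : lam p.1.1 = lam p.1.2
    · have h3 : lam p.1.2.rev ≠ lam p.1.1.rev := fun h4 => hp (by
        rw [hμ]
        simp only [Prod.mk.injEq]
        exact ⟨h2, h4.symm⟩)
      refine d.b_symp0 D hne (d.b_endo ha D (fun h4 => hne ?_) h3)
      exact (Fin.rev_injective h4).symm
    · exact d.b_endo ha D hne h2)
  have h2 := finrank_vanish (Ω := Ω) B H fun f hf p hp => hf p hp
  have h3 := many_bad (n := 2 * m) (by omega) ⟨m, by ring⟩ μ hμrev ⟨i, j, fun h => hij (by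
    rw [hμ] at h
    exact congrArg Prod.fst h)⟩
  have h4 : Fintype.card {p : Up m // B p} = (Finset.univ.filter fun x : Fin (2 * m) × Fin (2 * m) =>
      (x.1 : ℕ) < x.2 ∧ (x.1 : ℕ) + x.2 ≤ 2 * m - 1 ∧ μ x.1 ≠ μ x.2).card := by
    rw [← Fintype.card_subtype]
    refine Fintype.card_congr
      { toFun := fun p => ⟨p.1.1, p.1.2.1, p.1.2.2, p.2⟩
        invFun := fun x => ⟨⟨x.1, x.2.1, x.2.2.1⟩, x.2.2.2⟩
        left_inv := fun p => rfl
        right_inv := fun x => rfl }
  omega

end Dat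

end Pool.Agent.Y118.HX
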