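import Pool.Agent.Y118.HX.Ten

/-!
# Evaluation of tensors in a basis, and rational tensors
-/

set_option autoImplicit false
set_option maxHeartbeats 400000

open Matrix

namespace Pool.Agent.Y118.HX

variable {K : Type} [Field K] {n d : ℕ}

/-- the values of a tensor at the members of a basis -/
def ev (w : Matrix (Fin n) (Fin n) K) : Tn K n d →ₗ[K] Tn K n d where
  toFun := fun u I => ∑ J : Fin d → Fin n, (∏ l, w (I l) (J l)) * u J
  map_add' := fun u v => by
    funext I
    rw [Pi.add_apply, ← Finset.sum_add_distrib]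
    exact Finset.sum_congr rfl fun J _ => by rw [Pi.add_apply, mul_add]
  map_smul' := fun c u => by
    funext I
    rw [Pi.smul_apply, RingHom.id_apply, smul_eq_mul, Finset.mul_sum]
    refine Finset.sum_congr rfl fun J _ => ?_
    rw [Pi.smul_apply, smul_eq_mul]
    ring

lemma ev_apply (w : Matrix (Fin n) (Fin n) K) (u : Tn K n d) (I : Fin d → Fin n) :
    ev w u I = ∑ J : Fin d → Fin n, (∏ l, w (I l) (J l)) * u J := rfl

lemma ev_one (u : Tn K n d) : ev (1 : Matrix (Fin n) (Fin n) K) u = u := by
  funext I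
  rw [ev_apply, Finset.sum_eq_single I]
  · rw [Finset.prod_eq_one fun l _ => Matrix.one_apply_eq _, one_mul]
  · intro J _ hJ
    obtain ⟨l, hl⟩ : ∃ l, I l ≠ J l := by
      by_contra hcon
      push Not at hcon
      exact hJ (funext fun l => (hcon l).symm)
    have h1 : ∏ l, (1 : Matrix (Fin n) (Fin n) K) (I l) (J l) = 0 :=
      Finset.prod_eq_zero (Finset.mem_univ l) (Matrix.one_apply_ne hl)
    rw [h1, zero_mul]
  · intro h
    exact absurd (Finset.mem_univ _) h

lemma ev_mul (w w' : Matrix (Fin n) (Fin n) K) (u : Tn K n d) : ev w (ev w' u) = ev (w * w') u := by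
  funext I
  rw [ev_apply, ev_apply]
  simp only [ev_apply, Finset.mul_sum]
  rw [Finset.sum_comm]
  refine Finset.sum_congr rfl fun M _ => ?_
  have h1 : ∏ l, (w * w') (I l) (M l) = ∑ J : Fin d → Fin n, ∏ l, (w (I l) (J l) * w' (J l) (M l)) := by
    simp only [Matrix.mul_apply]
    rw [Finset.prod_univ_sum, Fintype.piFinset_univ]
  rw [h1, Finset.sum_mul]
  refine Finset.sum_congr rfl fun J _ => ?_
  rw [Finset.prod_mul_distrib, mul_assoc]

lemma ev_inj {w : Matrix (Fin n) (Fin n) K} (hw : w.det ≠ 0) {u : Tn K n d} (h : ev w u = 0) : u = 0 := by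
  have h1 : ev w⁻¹ (ev w u) = u := by
    rw [ev_mul, Matrix.nonsing_inv_mul _ (isUnit_iff_ne_zero.2 hw), ev_one]
  rw [← h1, h, map_zero]

/-- exchange of an index -/
def sw (l : Fin d) : (Fin d → Fin n) × Fin n ≃ (Fin d → Fin n) × Fin n :=
  Function.Involutive.toPerm (fun x => (Function.update x.1 l x.2, x.1 l)) (by
    rintro ⟨J, j⟩
    simp)

/-- **evaluation and the action** -/
theorem ev_act {w X Y : Matrix (Fin n) (Fin n) K} (h : Y * w = w * X) (u : Tn K n d) : ev w (act X u) = act Y (ev w u) := by
  funext I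
  rw [ev_apply, act_apply]
  simp only [act_apply, ev_apply]
  have h1 : ∑ J : Fin d → Fin n, (∏ l, w (I l) (J l)) * ∑ l, ∑ j, X (J l) j * u (Function.update J l j) =
      ∑ l, ∑ J : Fin d → Fin n, ∑ j, (∏ l', w (I l') (J l')) * (X (J l) j * u (Function.update J l j)) := by
    simp only [Finset.mul_sum]
    rw [Finset.sum_comm]
  rw [h1]
  refine Finset.sum_congr rfl fun l _ => ?_
  have h2 : ∑ J : Fin d → Fin n, ∑ j, (∏ l', w (I l') (J l')) * (X (J l) j * u (Function.update J l j)) =
      ∑ x : (Fin d → Fin n) × Fin n, (∏ l', w (I l') (x.1 l')) * (X (x.1 l) x.2 * u (Function.update x.1 l x.2)) := by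
    rw [Fintype.sum_prod_type]
  rw [h2, ← Equiv.sum_comp (sw l)]
  have h3 : ∀ x : (Fin d → Fin n) × Fin n, (∏ l', w (I l') ((sw l x).1 l')) *
      (X ((sw l x).1 l) (sw l x).2 * u (Function.update (sw l x).1 l (sw l x).2)) =
      (∏ l' ∈ Finset.univ.erase l, w (I l') (x.1 l')) * ((w (I l) x.2 * X x.2 (x.1 l)) * u x.1) := by
    rintro ⟨J, j⟩
    show (∏ l', w (I l') (Function.update J l j l')) *
      (X (Function.update J l j l) (J l) * u (Function.update (Function.update J l j) l (J l))) = _
    rw [Function.update_idem, Function.update_eq_self, Function.update_self, ← Finset.mul_prod_erase _ _ (Finset.mem_univ l),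
      Function.update_self]
    have h4 : ∏ l' ∈ Finset.univ.erase l, w (I l') (Function.update J l j l') = ∏ l' ∈ Finset.univ.erase l, w (I l') (J l') :=
      Finset.prod_congr rfl fun l' hl' => by rw [Function.update_of_ne (Finset.ne_of_mem_erase hl')]
    rw [h4]
    ring
  simp only [h3]
  rw [Fintype.sum_prod_type]
  have h5 : ∑ j, Y (I l) j * ∑ J : Fin d → Fin n, (∏ l', w (Function.update I l j l') (J l')) * u J =
      ∑ J : Fin d → Fin n, (∏ l' ∈ Finset.univ.erase l, w (I l') (J l')) * ((Y * w) (I l) (J l) * u J) := by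
    simp only [Finset.mul_sum, Matrix.mul_apply, Finset.sum_mul]
    rw [Finset.sum_comm]
    refine Finset.sum_congr rfl fun J _ => Finset.sum_congr rfl fun j _ => ?_
    rw [← Finset.mul_prod_erase _ _ (Finset.mem_univ l), Function.update_self]
    have h4 : ∏ l' ∈ Finset.univ.erase l, w (Function.update I l j l') (J l') = ∏ l' ∈ Finset.univ.erase l, w (I l') (J l') :=
      Finset.prod_congr rfl fun l' hl' => by rw [Function.update_of_ne (Finset.ne_of_mem_erase hl')]
    rw [h4]
    ring
  rw [h5, h]
  refine Finset.sum_congr rfl fun J _ => ?_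
  rw [Matrix.mul_apply, Finset.sum_mul, Finset.mul_sum]

/-- the conjugate action -/
lemma ev_conj {w : Matrix (Fin n) (Fin n) K} (hw : w.det ≠ 0) (B : Matrix (Fin n) (Fin n) K) (u : Tn K n d) :
    act (w⁻¹ * B * w) u = 0 ↔ act B (ev w u) = 0 := by
  have hww : w * w⁻¹ = 1 := Matrix.mul_nonsing_inv _ (isUnit_iff_ne_zero.2 hw)
  have h1 : B * w = w * (w⁻¹ * B * w) := by
    rw [← Matrix.mul_assoc, ← Matrix.mul_assoc, hww, Matrix.one_mul]
  rw [← ev_act h1]
  constructor
  · intro h
    rw [h, map_zero]
  · intro h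
    exact ev_inj hw h

/-- the complex tensor -/
def cmT (T : Tn ℚ n d) : Tn ℂ n d := fun I => (T I : ℂ)

lemma act_cmT (X : Matrix (Fin n) (Fin n) ℚ) (T : Tn ℚ n d) :
    act (X.map (fun q : ℚ => (q : ℂ))) (cmT T) = cmT (act X T) := by
  funext I
  unfold cmT
  rw [act_apply, act_apply]
  push_cast
  rfl

/-- **the annihilator of a rational tensor is rational** -/
theorem flat (T : Tn ℚ n d) : ∃ h : Fin n → Fin n → Matrix (Fin n) (Fin n) ℚ, (∀ i j, act (h i j) T = 0) ∧
    ∀ A : Matrix (Fin n) (Fin n) ℂ, act A (cmT T) = 0 → A = ∑ i, ∑ j, A i j • (h i j).map (fun q : ℚ => (q : ℂ)) := by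
  let L : Matrix (Fin n) (Fin n) ℚ →ₗ[ℚ] Tn ℚ n d :=
    { toFun := fun X => act X T
      map_add' := fun X Y => by rw [map_add, LinearMap.add_apply]
      map_smul' := fun c X => by rw [map_smul, LinearMap.smul_apply, RingHom.id_apply] }
  obtain ⟨s, hs⟩ := L.rangeRestrict.exists_rightInverse_of_surjective L.range_rangeRestrict
  obtain ⟨g, hg⟩ := s.exists_extend
  have hgL : ∀ X, L (g (L X)) = L X := by
    intro X
    have h1 : g (L X) = s ⟨L X, LinearMap.mem_range_self L X⟩ := LinearMap.congr_fun hg ⟨L X, LinearMap.mem_range_self L X⟩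
    have h2 := LinearMap.congr_fun hs ⟨L X, LinearMap.mem_range_self L X⟩
    rw [h1]
    exact congrArg Subtype.val h2
  refine ⟨fun i j => Matrix.single i j 1 - g (L (Matrix.single i j 1)), fun i j => ?_, fun A hA => ?_⟩
  · show L (Matrix.single i j 1 - g (L (Matrix.single i j 1))) = 0
    rw [map_sub, hgL, sub_self]
  · ext a b
    rw [Matrix.sum_apply]
    simp only [Matrix.sum_apply, Matrix.smul_apply, Matrix.map_apply, Matrix.sub_apply, smul_eq_mul, Rat.cast_sub, mul_sub,
      Finset.sum_sub_distrib]
    have h1 : ∑ i, ∑ j, A i j * ((Matrix.single i j (1 : ℚ) a b : ℚ) : ℂ) = A a b := by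
      rw [Finset.sum_eq_single a, Finset.sum_eq_single b]
      · rw [Matrix.single_apply, if_pos ⟨rfl, rfl⟩]
        simp
      · intro j _ hj
        rw [Matrix.single_apply, if_neg (fun h => hj h.2)]
        simp
      · intro h
        exact absurd (Finset.mem_univ _) h
      · intro i _ hi
        refine Finset.sum_eq_zero fun j _ => ?_
        rw [Matrix.single_apply, if_neg (fun h => hi h.1)]
        simp
      · intro h
        exact absurd (Finset.mem_univ _) h
    have h2 : ∑ i, ∑ j, A i j * ((g (L (Matrix.single i j 1)) a b : ℚ) : ℂ) = 0 := by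
      have h3 : ∀ v : Tn ℚ n d, g v a b = ∑ I, v I * g (Pi.single I 1) a b := by
        intro v
        have h4 : v = ∑ I, v I • (Pi.single I 1 : Tn ℚ n d) := by
          funext z
          rw [Finset.sum_apply]
          simp only [Pi.smul_apply, Pi.single_apply, smul_eq_mul, mul_ite, mul_one, mul_zero]
          rw [Finset.sum_ite_eq Finset.univ z fun p => v p, if_pos (Finset.mem_univ _)]
        conv_lhs => rw [h4]
        rw [map_sum, Matrix.sum_apply]
        refine Finset.sum_congr rfl fun I _ => ?_
        rw [map_smul, Matrix.smul_apply, smul_eq_mul]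
      have h5 : ∀ I, ∑ i, ∑ j, A i j * ((L (Matrix.single i j 1) I : ℚ) : ℂ) = 0 := by
        intro I
        have h6 := congrFun hA I
        have h7 : A = ∑ i, ∑ j, A i j • Matrix.single i j (1 : ℂ) := by
          conv_lhs => rw [Matrix.matrix_eq_sum_single A]
          refine Finset.sum_congr rfl fun i _ => Finset.sum_congr rfl fun j _ => ?_
          rw [Matrix.smul_single, smul_eq_mul, mul_one]
        rw [h7, map_sum, LinearMap.sum_apply, Finset.sum_apply] at h6
        rw [Pi.zero_apply] at h6
        rw [← h6]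
        refine Finset.sum_congr rfl fun i _ => ?_
        rw [map_sum, LinearMap.sum_apply, Finset.sum_apply]
        refine Finset.sum_congr rfl fun j _ => ?_
        rw [map_smul, LinearMap.smul_apply, Pi.smul_apply, smul_eq_mul]
        congr 1
        have h8 := act_cmT (Matrix.single i j (1 : ℚ)) T
        have h9 : (Matrix.single i j (1 : ℚ)).map (fun q : ℚ => (q : ℂ)) = Matrix.single i j (1 : ℂ) := by
          ext a b
          rw [Matrix.map_apply, Matrix.single_apply, Matrix.single_apply]
          split_ifs <;> simp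
        rw [h9] at h8
        rw [h8]
        rfl
      calc ∑ i, ∑ j, A i j * ((g (L (Matrix.single i j 1)) a b : ℚ) : ℂ) =
          ∑ i, ∑ j, ∑ I, (A i j * ((L (Matrix.single i j 1) I : ℚ) : ℂ)) * ((g (Pi.single I 1) a b : ℚ) : ℂ) := by
            refine Finset.sum_congr rfl fun i _ => Finset.sum_congr rfl fun j _ => ?_
            rw [h3]
            push_cast
            rw [Finset.mul_sum]
            exact Finset.sum_congr rfl fun I _ => by ring
        _ = ∑ I, (∑ i, ∑ j, A i j * ((L (Matrix.single i j 1) I : ℚ) : ℂ)) * ((g (Pi.single I 1) a b : ℚ) : ℂ) := by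
            simp only [Finset.sum_mul]
            symm
            rw [Finset.sum_comm]
            refine Finset.sum_congr rfl fun i _ => ?_
            rw [Finset.sum_comm]
        _ = 0 := by
            refine Finset.sum_eq_zero fun I _ => ?_
            rw [h5, zero_mul]
    rw [h1, h2, sub_zero]

end Pool.Agent.Y118.HX
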