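import Pool.Agent.Y118.HX.Asm
import Pool.Agent.Y118.HX.Endo

/-!
# The data at the point `1 / t`, and the theorem about endomorphisms
-/

set_option autoImplicit false
set_option maxHeartbeats 400000

open Matrix Filter

namespace Pool.Agent.Y118.HX

open Pool.Agent.Y118.UL (mk mk_eq mk_eq_zero mk_ne_zero mk_surj ev_ge qc qc_mk algebraMap_eq U)
open Pool.Agent.Y119.HY Pool.Agent.Y119.HZ
open Pool.Agent.Y118.CM

variable {m : ℕ} {β : Fin m → ℚ}

lemma beta' (hβ : ∀ j, ∀ a : ℤ, β j ≠ a) : ∀ j, ∀ l : ℕ, (l : ℚ) + β j ≠ 0 ∧ (l : ℚ) + -β j ≠ 0 := by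
  intro j l
  constructor
  · intro h
    apply hβ j (-(l : ℤ))
    push_cast
    linear_combination h
  · intro h
    apply hβ j (l : ℤ)
    push_cast
    linear_combination -h

section point
variable (hm : 1 ≤ m) (hβ : ∀ j, ∀ a : ℤ, β j ≠ a) {t : ℕ} (ht : 2 ≤ t)
  {C : Matrix (Fin (2 * m)) (Fin (2 * m)) ℂ} {M Qb : Matrix (Fin (2 * m)) (Fin (2 * m)) ℚ} {s κ : ℂ}
  (hC : C.det ≠ 0) (hs : s ≠ 0) (hM : C * cm M = s • (cm (Am (2 * m)) * C))
  (hP : C.transpose * cm (J0 (2 * m)) * C = κ • cm Qb)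

include hC hP in
lemma kappa_ne (hm : 1 ≤ m) : κ ≠ 0 ∧ Qb.det ≠ 0 ∧ Qb.transpose = -Qb := by
  have hSS : cm (J0 (2 * m)) * cm (J0 (2 * m)) = -1 := by
    rw [← cm_mul, J0_sq ⟨m, by ring⟩, cm_neg, cm_one]
  have hS : (cm (J0 (2 * m))).det ≠ 0 := by
    intro h
    have h1 := congrArg Matrix.det hSS
    rw [Matrix.det_mul, h, mul_zero, Matrix.det_neg, Matrix.det_one, mul_one] at h1
    exact pow_ne_zero _ (by norm_num) h1.symm
  have h0 : (C.transpose * cm (J0 (2 * m)) * C).det ≠ 0 := by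
    rw [Matrix.det_mul, Matrix.det_mul, Matrix.det_transpose]
    exact mul_ne_zero (mul_ne_zero hC hS) hC
  rw [hP, Matrix.det_smul] at h0
  have hκ : κ ≠ 0 := by
    rintro rfl
    apply h0
    rw [zero_pow, zero_mul]
    rw [Fintype.card_fin]
    omega
  refine ⟨hκ, ?_, ?_⟩
  · intro h
    apply h0
    have h2 : (cm Qb).det = ((Qb.det : ℚ) : ℂ) := by
      have := (algebraMap ℚ ℂ).map_det Qb
      simpa [cm] using this.symm
    rw [h2, h, Rat.cast_zero, mul_zero]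
  · have hJt : (cm (J0 (2 * m))).transpose = -cm (J0 (2 * m)) := by
      rw [← cm_transpose, ← cm_neg]
      congr 1
      ext i j
      have hi := i.2
      have hj := j.2
      unfold J0
      rw [Matrix.transpose_apply, Matrix.neg_apply, Matrix.of_apply, Matrix.of_apply]
      by_cases h : (i : ℕ) + j + 1 = 2 * m
      · rw [if_pos (by omega), if_pos h]
        rcases Nat.even_or_odd (i : ℕ) with he | ho
        · have hjo : Odd (j : ℕ) := by
            obtain ⟨a, ha⟩ := he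
            exact ⟨m - a - 1, by omega⟩
          rw [he.neg_one_pow, hjo.neg_one_pow]
        · have hje : Even (j : ℕ) := by
            obtain ⟨a, ha⟩ := ho
            exact ⟨m - a - 1, by omega⟩
          rw [ho.neg_one_pow, hje.neg_one_pow, neg_neg]
      · rw [if_neg (by omega), if_neg h, neg_zero]
    have h1 := congrArg Matrix.transpose hP
    rw [Matrix.transpose_mul, Matrix.transpose_mul, Matrix.transpose_transpose, hJt, Matrix.transpose_smul] at h1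
    have h2 : C.transpose * (-cm (J0 (2 * m)) * C) = -(κ • cm Qb) := by
      rw [← hP, Matrix.neg_mul, Matrix.mul_neg, Matrix.mul_assoc]
    rw [h2, ← smul_neg] at h1
    have h3 : -cm Qb = (cm Qb).transpose := by
      have h4 := congrArg (fun Z => κ⁻¹ • Z) h1
      simp only [smul_smul, inv_mul_cancel₀ hκ, one_smul] at h4
      exact h4
    rw [← cm_neg, ← cm_transpose] at h3
    ext i j
    have h5 := congrFun (congrFun h3 i) j
    rw [cm_apply, cm_apply] at h5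
    exact_mod_cast h5.symm

include hC hP in
/-- the dual form in the Frobenius coordinates -/
lemma dual_form (hm : 1 ≤ m) : C * cm Qb⁻¹ * C.transpose = (-κ) • cm (J0 (2 * m)) := by
  obtain ⟨hκ, hQ, -⟩ := kappa_ne hC hP hm
  have hSS : cm (J0 (2 * m)) * cm (J0 (2 * m)) = -1 := by
    rw [← cm_mul, J0_sq ⟨m, by ring⟩, cm_neg, cm_one]
  have hQi : cm Qb⁻¹ * cm Qb = 1 := by
    rw [← cm_mul, Matrix.nonsing_inv_mul _ (isUnit_iff_ne_zero.2 hQ), cm_one]
  have h1 : (C * cm Qb⁻¹ * C.transpose) * cm (J0 (2 * m)) * C = (κ • (1 : Matrix (Fin (2 * m)) (Fin (2 * m)) ℂ)) * C := by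
    calc (C * cm Qb⁻¹ * C.transpose) * cm (J0 (2 * m)) * C = C * cm Qb⁻¹ * (C.transpose * cm (J0 (2 * m)) * C) := by
          simp only [Matrix.mul_assoc]
      _ = (κ • (1 : Matrix (Fin (2 * m)) (Fin (2 * m)) ℂ)) * C := by
          rw [hP, Matrix.mul_smul, Matrix.mul_assoc, hQi, Matrix.mul_one, Matrix.smul_mul, Matrix.one_mul]
  have h2 : (C * cm Qb⁻¹ * C.transpose) * cm (J0 (2 * m)) = κ • (1 : Matrix (Fin (2 * m)) (Fin (2 * m)) ℂ) := by
    have h3 := congrArg (fun Z => Z * C⁻¹) h1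
    simp only [Matrix.mul_assoc, Matrix.mul_nonsing_inv _ (isUnit_iff_ne_zero.2 hC), Matrix.mul_one] at h3
    rw [← h3]
    simp only [Matrix.mul_assoc]
  have h4 := congrArg (fun Z => Z * cm (J0 (2 * m))) h2
  simp only [Matrix.smul_mul, Matrix.one_mul] at h4
  rw [Matrix.mul_assoc, hSS, Matrix.mul_neg, Matrix.mul_one] at h4
  rw [neg_smul, ← h4, neg_neg]

include hm hβ ht in
lemma row_eq (i : Fin (2 * m)) (hi : (i : ℕ) < m) (C : Matrix (Fin (2 * m)) (Fin (2 * m)) ℂ) : perr β t i ᵥ* C =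
    (cm (DN β) * Hf (Hc (2 * m) (QB β)) (((1 / (t : ℝ) : ℝ)) : ℂ) * Cc β t C) i := by
  have hQ : QD (2 * m) (QB β) := QD_QB hm (beta' hβ)
  rw [perr_C hQ (by omega) ht]
  have h1 : (fun c : Fin (2 * m) => (Pool.Agent.Y118.CM.dd β i c : ℂ)) = cm (DN β) i := by
    funext c
    rw [cm_apply]
    congr 1
    unfold Pool.Agent.Y118.CM.dd DN
    rw [aeval_Am, Polynomial.coeff_mul_X_pow']
  rw [h1, vecMul_vecMul]
  rw [Matrix.mul_assoc]
  rfl

include hm hβ ht hC in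
lemma rows_li : LinearIndependent ℂ fun i : Fin m => perr β t i ᵥ* C := by
  have hQ : QD (2 * m) (QB β) := QD_QB hm (beta' hβ)
  set Z := cm (DN β) * Hf (Hc (2 * m) (QB β)) (((1 / (t : ℝ) : ℝ)) : ℂ) * Cc β t C with hZ
  have hHf : (Hf (Hc (2 * m) (QB β)) (((1 / (t : ℝ) : ℝ)) : ℂ)).det ≠ 0 := by
    intro h
    have h1 := congrArg Matrix.det (Yt_form hQ ht)
    unfold Yt at h1
    rw [Matrix.transpose_mul, Matrix.det_mul, Matrix.det_mul, Matrix.det_mul, Matrix.det_mul, h, zero_mul, mul_zero] at h1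
    exact Jc_det hQ h1.symm
  have hdet : IsUnit Z.det := by
    rw [isUnit_iff_ne_zero, hZ, Matrix.det_mul, Matrix.det_mul]
    exact mul_ne_zero (mul_ne_zero (DN_det hQ) hHf) (Cc_det hQ t hC)
  have hli : LinearIndependent ℂ Z.row := Matrix.linearIndependent_rows_iff_isUnit.2 ((Matrix.isUnit_iff_isUnit_det _).2 hdet)
  have h2 := hli.comp (fun i : Fin m => (⟨i, by have := i.2; omega⟩ : Fin (2 * m))) fun a b h => by
    have h4 := congrArg (fun z : Fin (2 * m) => (z : ℕ)) h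
    exact Fin.ext h4
  have h3 : (fun i : Fin m => perr β t i ᵥ* C) = Z.row ∘ fun i : Fin m => (⟨i, by have := i.2; omega⟩ : Fin (2 * m)) := by
    funext i
    exact row_eq hm hβ ht (⟨i, by have := i.2; omega⟩ : Fin (2 * m)) i.2 C
  rw [h3]
  exact h2

include hm hβ ht hC hs hM hP in
/-- **the data at the point `1 / t`** -/
theorem pd_exists
    (hopp : ∀ p ≤ 2 * m, Fl (fun i => perr β t i ᵥ* C) (cm Qb⁻¹) p ⊓
      cj (Fl (fun i => perr β t i ᵥ* C) (cm Qb⁻¹) (2 * m - p)) = ⊥) :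
    ∃ d : PD β, d.t = t ∧ (∀ i : Fin (2 * m), d.w i ∈ Fl (fun i => perr β t i ᵥ* C) (cm Qb⁻¹) (2 * m - 1 - i)) ∧
      (∀ i : Fin (2 * m), star (d.w i) ∈ Fl (fun i => perr β t i ᵥ* C) (cm Qb⁻¹) i) ∧
      (∀ i : Fin (2 * m), ∀ z ∈ Fl (fun i => perr β t i ᵥ* C) (cm Qb⁻¹) (2 * m - 1 - i),
        star z ∈ Fl (fun i => perr β t i ᵥ* C) (cm Qb⁻¹) i → ∃ c : ℂ, z = c • d.w i) := by
  have hQ : QD (2 * m) (QB β) := QD_QB hm (beta' hβ)
  obtain ⟨hκ, hQb, hsk⟩ := kappa_ne hC hP hm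
  have hiso : ∀ i j, i < m → j < m → (perr β t i ᵥ* C) ⬝ᵥ (cm Qb⁻¹ *ᵥ (perr β t j ᵥ* C)) = 0 := by
    intro i j hi hj
    have h1 := perr_lag hm hβ ht hi hj
    have h2 := dual_form hC hP hm
    have h3 : (perr β t i ᵥ* C) ⬝ᵥ (cm Qb⁻¹ *ᵥ (perr β t j ᵥ* C)) = (perr β t i ᵥ* (C * cm Qb⁻¹ * C.transpose)) ⬝ᵥ perr β t j := by
      rw [← mulVec_transpose C (perr β t j), dotProduct_mulVec, dotProduct_mulVec, vecMul_vecMul, vecMul_vecMul,
        Matrix.mul_assoc]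
    rw [h3, h2, vecMul_smul, smul_dotProduct, h1, smul_zero]
  obtain ⟨w, c, c', γ, h1, h2, h3, h4, h5, h6, h7, h8, h9, h10⟩ := pt_data (v := fun i => perr β t i ᵥ* C) hm hQb hsk hiso
    (rows_li hm hβ ht hC) hopp
  refine ⟨{ t := t, ht := ht, A := Cc β t C, M := M, Qb := Qb, w := w, c := c, c' := c', s := s, κ := (-1) ^ m * κ, γ := γ,
            Adet := Cc_det hQ t hC, wdet := h1, s0 := hs, κ0 := mul_ne_zero (pow_ne_zero _ (by norm_num)) hκ,
            mon := Cc_mon hQ t hM, pol := Cc_pol hQ t hP, cw := fun i hi => ?_, c0 := h7, cw' := fun i hi => ?_, c0' := h8,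
            γ0 := h5, wQ := h6 }, rfl, h2, h3, h4⟩
  · rw [h9 i hi]
    funext q
    show ∑ j, c i j * (perr β t j ᵥ* C) q = ∑ j, c i j *
      (cm (DN β) * Hf (Hc (2 * m) (QB β)) (((1 / (t : ℝ) : ℝ)) : ℂ) * Cc β t C) j q
    refine Finset.sum_congr rfl fun j _ => ?_
    by_cases hj : (i : ℕ) < j
    · rw [h7 i j hj, zero_mul, zero_mul]
    · rw [row_eq hm hβ ht j (by omega) C]
  · rw [← row_eq hm hβ ht i hi C]
    exact h10 i hi

end point

/-- **no endomorphisms** -/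
theorem no_endo (hm : 4 ≤ m) (hβ : ∀ j, ∀ a : ℤ, β j ≠ a) : ∃ t0 : ℕ, 2 ≤ t0 ∧ ∀ t : ℕ, t0 ≤ t →
    ∀ (C : Matrix (Fin (2 * m)) (Fin (2 * m)) ℂ) (M Qb : Matrix (Fin (2 * m)) (Fin (2 * m)) ℚ) (s κ : ℂ), C.det ≠ 0 → s ≠ 0 →
    C * cm M = s • (cm (Am (2 * m)) * C) → C.transpose * cm (J0 (2 * m)) * C = κ • cm Qb →
    (∀ p ≤ 2 * m, Fl (fun i => perr β t i ᵥ* C) (cm Qb⁻¹) p ⊓
      cj (Fl (fun i => perr β t i ᵥ* C) (cm Qb⁻¹) (2 * m - p)) = ⊥) →
    ∀ a : Matrix (Fin (2 * m)) (Fin (2 * m)) ℚ,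
    (∀ p, ∀ x ∈ Fl (fun i => perr β t i ᵥ* C) (cm Qb⁻¹) p, x ᵥ* cm a ∈ Fl (fun i => perr β t i ᵥ* C) (cm Qb⁻¹) p) →
    ∃ r : ℚ, a = r • 1 := by
  have hQ : QD (2 * m) (QB β) := QD_QB (by omega) (beta' hβ)
  by_contra hcon
  have hbad : ∀ N : ℕ, ∃ (d : PD β) (a : Matrix (Fin (2 * m)) (Fin (2 * m)) ℚ) (lam : Fin (2 * m) → ℂ), N ≤ d.t ∧
      d.w * cm a = Matrix.diagonal lam * d.w ∧ ¬ ∃ r : ℚ, a = r • 1 := by
    intro N
    by_contra hcon2
    apply hcon
    refine ⟨max N 2, le_max_right _ _, fun t ht C M Qb s κ hC hs hM hP hopp a ha => ?_⟩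
    by_contra hr
    apply hcon2
    obtain ⟨d, hdt, h1, h2, h3⟩ := pd_exists (by omega) hβ ((le_max_right _ _).trans ht) hC hs hM hP hopp
    have h4 : ∀ i : Fin (2 * m), ∃ l : ℂ, d.w i ᵥ* cm a = l • d.w i := by
      intro i
      refine h3 i _ (ha _ _ (h1 i)) ?_
      have h5 : star (d.w i ᵥ* cm a) = star (d.w i) ᵥ* cm a := star_cm a (d.w i)
      rw [h5]
      exact ha _ _ (h2 i)
    choose lam hlam using h4
    refine ⟨d, a, lam, by rw [hdt]; exact (le_max_left _ _).trans ht, ?_, hr⟩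
    ext i j
    rw [Matrix.diagonal_mul]
    exact congrFun (hlam i) j
  choose d a lam hdt hlam hna using hbad
  -- the ultraproduct
  set D := dat (by omega) hQ (fun i j => sdc_hps (beta' hβ) hQ i j) d hdt with hD
  have h1 : D.w * (gm a).map (algebraMap (U ℚ) (U ℂ)) = Matrix.diagonal (fun i => mk ℂ fun k => lam k i) * D.w := by
    rw [gm_map]
    show (gm fun k => (d k).w) * gm (fun k => cm (a k)) = Matrix.diagonal (fun i => mk ℂ fun k => lam k i) * gm fun k => (d k).w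
    rw [← gm_mul]
    ext i j
    rw [Matrix.diagonal_mul, gm_apply, gm_apply, ← mk_mul']
    congr 1
    funext k
    have h2 := congrFun (congrFun (hlam k) i) j
    rw [Matrix.diagonal_mul] at h2
    exact h2
  have h2 := fun i j => D.endo hm h1 i j
  have h3 : ∀ᶠ k in (hyperfilter ℕ : Filter ℕ), ∀ i j, lam k i = lam k j :=
    Filter.eventually_all.2 fun i => Filter.eventually_all.2 fun j => mk_eq.1 (h2 i j)
  obtain ⟨k, hk⟩ := h3.exists
  apply hna k
  have hn : 0 < 2 * m := by omega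
  set l := lam k ⟨0, hn⟩ with hl
  have h4 : cm (a k) = l • (1 : Matrix (Fin (2 * m)) (Fin (2 * m)) ℂ) := by
    have h5 : Matrix.diagonal (lam k) = l • (1 : Matrix (Fin (2 * m)) (Fin (2 * m)) ℂ) := by
      rw [Matrix.smul_one_eq_diagonal]
      congr 1
      funext i
      exact hk i _
    have h6 := hlam k
    rw [h5, Matrix.smul_mul, Matrix.one_mul] at h6
    have hwu : IsUnit (d k).w.det := isUnit_iff_ne_zero.2 (d k).wdet
    have h7 := congrArg (fun Z => ((d k).w)⁻¹ * Z) h6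
    simp only [← Matrix.mul_assoc, Matrix.nonsing_inv_mul _ hwu, Matrix.one_mul, Matrix.mul_smul] at h7
    exact h7
  refine ⟨a k ⟨0, hn⟩ ⟨0, hn⟩, ?_⟩
  have h8 : ((a k ⟨0, hn⟩ ⟨0, hn⟩ : ℚ) : ℂ) = l := by
    have h9 := congrFun (congrFun h4 ⟨0, hn⟩) ⟨0, hn⟩
    rw [cm_apply, Matrix.smul_apply, Matrix.one_apply_eq, smul_eq_mul, mul_one] at h9
    exact h9
  ext i j
  have h9 := congrFun (congrFun h4 i) j
  rw [cm_apply, ← h8, Matrix.smul_apply, smul_eq_mul] at h9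
  rw [Matrix.smul_apply, smul_eq_mul]
  by_cases hij : i = j
  · subst hij
    rw [Matrix.one_apply_eq] at h9 ⊢
    exact_mod_cast h9
  · rw [Matrix.one_apply_ne hij] at h9 ⊢
    exact_mod_cast h9

end Pool.Agent.Y118.HX
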