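import Pool.Agent.Y118.HX.WinM
import Pool.Agent.Y118.CM.One

/-!
# Relations between the values at two points of a window and the logarithm of the quotient
-/

set_option autoImplicit false
set_option maxHeartbeats 400000

open Matrix PowerSeries Pool.Agent.Y113 Pool.Agent.Y120.GF Pool.Agent.Y120.GH Pool.Agent.Y119.HY Pool.Agent.Y119.HZ
open Pool.Agent.Y118.CM Pool.Agent.Y118.UL

namespace Pool.Agent.Y118.HX

variable {n : ℕ}

/-- tuples of isometries -/
def Spp {ι : Type} (k : ℕ) (J : Matrix (Fin n) (Fin n) ℂ) (e : ι → Fin n × Fin n) : Set (Fin k × ι → ℂ) :=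
  {y | ∃ g : Fin k → Matrix (Fin n) (Fin n) ℂ, (∀ j, (g j).transpose * J * g j = J) ∧
    y = fun a => g a.1 (e a.2).1 (e a.2).2}

/-- **irreducibility** -/
theorem spp_irr {ι : Type} {k : ℕ} {J : Matrix (Fin n) (Fin n) ℂ} (hJ : J.transpose = -J) (hdet : J.det ≠ 0)
    (e : ι → Fin n × Fin n) : Pool.Agent.Y118.UL.Irr (Spp k J e) := by
  intro P Q h
  by_contra hcon
  push Not at hcon
  obtain ⟨⟨_, ⟨g1, hg1, rfl⟩, h1⟩, ⟨_, ⟨g2, hg2, rfl⟩, h2⟩⟩ := hcon
  choose W hW1 hW2 hW3 using fun j => isom_inv hdet (hg1 j)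
  choose M hM0 hM1 hM using fun j => Pc_all hJ hdet (W j * g2 j) (isom_mul (hW3 j) (hg2 j))
  have hNe : ∀ j c, ((g1 j).map Polynomial.C * M j).map (Polynomial.eval c) = g1 j * (M j).map (Polynomial.eval c) := by
    intro j c
    rw [map_mul', map_C_eval]
  have hev : ∀ (R : MvPolynomial (Fin k × ι) ℂ) (c : ℂ),
      Polynomial.eval c (MvPolynomial.aeval (fun a : Fin k × ι => ((g1 a.1).map Polynomial.C * M a.1) (e a.2).1 (e a.2).2) R) =
      MvPolynomial.eval (fun a : Fin k × ι => (g1 a.1 * (M a.1).map (Polynomial.eval c)) (e a.2).1 (e a.2).2) R := by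
    intro R c
    have h3 : (Polynomial.aeval c : Polynomial ℂ →ₐ[ℂ] ℂ).comp
        (MvPolynomial.aeval (fun a : Fin k × ι => ((g1 a.1).map Polynomial.C * M a.1) (e a.2).1 (e a.2).2)) =
        MvPolynomial.aeval (fun a : Fin k × ι => (g1 a.1 * (M a.1).map (Polynomial.eval c)) (e a.2).1 (e a.2).2) := by
      refine MvPolynomial.algHom_ext fun a => ?_
      rw [AlgHom.comp_apply, MvPolynomial.aeval_X, MvPolynomial.aeval_X, ← hNe]
      rfl
    exact DFunLike.congr_fun h3 R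
  set p := MvPolynomial.aeval (fun a : Fin k × ι => ((g1 a.1).map Polynomial.C * M a.1) (e a.2).1 (e a.2).2) P with hp
  set q := MvPolynomial.aeval (fun a : Fin k × ι => ((g1 a.1).map Polynomial.C * M a.1) (e a.2).1 (e a.2).2) Q with hq
  have hp0 : p ≠ 0 := by
    intro h0
    apply h1
    have h3 := hev P 0
    rw [← hp, h0, Polynomial.eval_zero] at h3
    simp only [hM0, mul_one] at h3
    exact h3.symm
  have hq0 : q ≠ 0 := by
    intro h0
    apply h2
    have h3 := hev Q 1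
    rw [← hq, h0, Polynomial.eval_zero] at h3
    simp only [hM1, ← Matrix.mul_assoc, hW1, one_mul] at h3
    exact h3.symm
  obtain ⟨s, hs⟩ := Infinite.exists_notMem_finset (p * q).roots.toFinset
  have h3 : (p * q).eval s ≠ 0 := by
    intro h3
    exact hs (Multiset.mem_toFinset.2 ((Polynomial.mem_roots (mul_ne_zero hp0 hq0)).2 h3))
  rw [Polynomial.eval_mul, hev, hev] at h3
  exact h3 (h _ ⟨fun j => g1 j * (M j).map (Polynomial.eval s), fun j => isom_mul (hg1 j) (hM j s), rfl⟩)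

variable {Q : Polynomial ℚ}

lemma hform' (hQ : QD n Q) {t : ℕ} (ht1 : 2 ≤ t) :
    (Hf (Hc n Q) (((1 / (t : ℝ) : ℝ)) : ℂ)).transpose * cm (Jm n Q) * Hf (Hc n Q) (((1 / (t : ℝ) : ℝ)) : ℂ) =
      cm (Jm n Q) := by
  have h1 := Yt_form hQ ht1
  have hN : cm (Am n) ^ n = 0 := Pool.Agent.Y119.HY.Ac_nil
  have hNJ : (cm (Am n)).transpose * cm (Jm n Q) + cm (Jm n Q) * cm (Am n) = 0 := Pool.Agent.Y119.HY.Jc_rel
  have i2 := E_isom hN hNJ ((Real.log t : ℝ) : ℂ)
  have h3 : Hf (Hc n Q) (((1 / (t : ℝ) : ℝ)) : ℂ) = Yt n Q t * E (cm (Am n)) ((Real.log t : ℝ) : ℂ) := by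
    unfold Yt
    have h4 : E (cm (Am n)) (-((Real.log t : ℝ) : ℂ)) * E (cm (Am n)) ((Real.log t : ℝ) : ℂ) = 1 := by
      have := E_mul_neg hN (-((Real.log t : ℝ) : ℂ))
      rwa [neg_neg] at this
    rw [Matrix.mul_assoc, h4, mul_one]
  rw [h3]
  exact isom_mul h1 i2

lemma arith1 {x G : ℕ} (hx : 1 ≤ x) (hG : 2 ≤ G) (E' : ℕ) : (x + 1 + 2) ^ E' ≤ (G * x) ^ (3 * E') := by
  rw [pow_mul]
  refine Nat.pow_le_pow_left ?_ _
  have h1 : 2 * x ≤ G * x := Nat.mul_le_mul_right _ hG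
  have h2 : (2 * x) ^ 3 ≤ (G * x) ^ 3 := Nat.pow_le_pow_left h1 _
  refine le_trans ?_ h2
  nlinarith [Nat.mul_le_mul hx hx, Nat.mul_le_mul (Nat.mul_le_mul hx hx) hx]

/-- **relations at two points of a window** -/
theorem two_fibre (hQ : QD n Q) (hH : ∀ i j, SDc (Hp n Q i j)) : ∃ G : ℕ, 2 ≤ G ∧ ∀ D d : ℕ, ∃ E : ℕ, ∀ t : Fin 2 → ℕ,
    t 0 < t 1 → G ∣ t 1 - t 0 → (t 1 - t 0) ^ E ≤ t 0 → 2 ≤ t 0 →
    ∀ K : IntermediateField ℚ ℂ, FiniteDimensional ℚ K → Module.finrank ℚ K ≤ D →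
    ∀ P : MvPolynomial (Fin 2 × Option (Fin n × Fin n)) K, P.totalDegree ≤ d →
    MvPolynomial.aeval (fun a : Fin 2 × Option (Fin n × Fin n) =>
      a.2.elim ((Real.log ((t a.1 : ℝ) / (t 1 + G)) : ℝ) : ℂ) fun x => Hf (Hc n Q) (((1 / (t a.1 : ℝ) : ℝ)) : ℂ) x.1 x.2) P = 0 →
    ∀ g : Fin 2 → Matrix (Fin n) (Fin n) ℂ, (∀ j, (g j).transpose * cm (Jm n Q) * g j = cm (Jm n Q)) → ∀ ν : Fin 2 → ℂ,
    MvPolynomial.aeval (fun a : Fin 2 × Option (Fin n × Fin n) => a.2.elim (ν a.1) fun x => g a.1 x.1 x.2) P = 0 := by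
  classical
  obtain ⟨D', b, hD, hb⟩ := exists_b n Q
  obtain ⟨q, C, hG⟩ := gsys_Hp hQ hH hb
  have hG' := hG.reindex (ix n)
  have hT : Polynomial.X * T1 D' ≠ 0 := by
    refine mul_ne_zero Polynomial.X_ne_zero (mul_ne_zero (Polynomial.C_ne_zero.2 (by exact_mod_cast hD)) ?_)
    intro h0
    have := congrArg (Polynomial.eval 0) h0
    simp at this
  have hode : ∀ i : Fin (n * n), ps (Polynomial.X * T1 D') * d⁄dX ℚ (hf n Q i) =
      ∑ j, ps (A2 n D' b (ix n i) (ix n j)) * hf n Q j := by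
    intro i
    have h1 := ode_A2 hQ hb (ix n i)
    have h2 : ∑ j : Fin (n * n), ps (A2 n D' b (ix n i) (ix n j)) * hf n Q j =
        ∑ q, ps (A2 n D' b (ix n i) q) * Hp n Q q.1 q.2 :=
      Equiv.sum_comp (ix n) fun q => ps (A2 n D' b (ix n i) q) * Hp n Q q.1 q.2
    exact h1.trans h2.symm
  obtain ⟨G0, hwin⟩ := winM (h := hf n Q) (A := fun a c => A2 n D' b (ix n a) (ix n c)) hT hode hG'
    (qu_hf hQ hH hb)
  refine ⟨G0 + 2, Nat.le_add_left _ _, fun D d => ?_⟩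
  set G := G0 + 2 with hGd
  obtain ⟨Ex, hE⟩ := hwin G (by omega) 2 D d
  refine ⟨3 * Ex, fun t ht1 hdvd htE ht2 K hK hKD P hPd hP0 g hg ν => ?_⟩
  obtain ⟨x, hx⟩ := hdvd
  have hx1 : 1 ≤ x := by
    rcases Nat.eq_zero_or_pos x with h | h
    · rw [h, mul_zero] at hx
      omega
    · exact h
  obtain ⟨hlt, hw⟩ := hE (x + 1) (t 1 + G) (by
    refine (arith1 hx1 (by omega : 2 ≤ G) Ex).trans ?_
    rw [← hx]
    omega)
  have hdet := Jc_det hQ
  set u : Fin 2 → ℕ := fun j => if j = 0 then x + 1 else 1 with hu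
  have hu0 : u 0 = x + 1 := rfl
  have hu1 : u 1 = 1 := rfl
  have hinj : Function.Injective u := by
    intro i j hij
    fin_cases i <;> fin_cases j
    · rfl
    · exfalso
      have h1 : x + 1 = 1 := hij
      omega
    · exfalso
      have h1 : 1 = x + 1 := hij
      omega
    · rfl
  have htu : ∀ j, t 1 + G - G * u j = t j := by
    intro j
    fin_cases j
    · show t 1 + G - G * (x + 1) = t 0
      rw [mul_add, mul_one, ← hx]
      omega
    · show t 1 + G - G * 1 = t 1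
      omega
  have htj : ∀ j, 2 ≤ t j := by
    intro j
    fin_cases j
    · exact ht2
    · show 2 ≤ t 1
      omega
  have hform : ∀ j, (Hf (Hc n Q) (((1 / (t j : ℝ) : ℝ)) : ℂ)).transpose * cm (Jm n Q) *
      Hf (Hc n Q) (((1 / (t j : ℝ) : ℝ)) : ℂ) = cm (Jm n Q) := fun j => hform' hQ (htj j)
  choose W hW1 hW2 hW3 using fun j => isom_inv hdet (hform j)
  set e : Fin (n * n) → Fin n × Fin n := fun a => ix n a with he
  have hval : (fun a : Fin 2 × Fin (n * n) => ((ev ((t 1 + G - G * u a.1 : ℕ) : ℝ) (hf n Q a.2) : ℝ) : ℂ)) =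
      fun a => Hf (Hc n Q) (((1 / (t a.1 : ℝ) : ℝ)) : ℂ) (e a.2).1 (e a.2).2 := by
    funext a
    rw [htu]
    exact ev_Hp _ _ _
  have hlog : ∀ j, Real.log (1 - ((G * u j : ℕ) : ℝ) / ((t 1 + G : ℕ) : ℝ)) = Real.log ((t j : ℝ) / (t 1 + G)) := by
    intro j
    congr 1
    have h1 : G * u j ≤ t 1 + G := by
      have := htj j
      have h2 := htu j
      omega
    have h2 : ((t j : ℕ) : ℝ) = ((t 1 + G : ℕ) : ℝ) - ((G * u j : ℕ) : ℝ) := by
      rw [← Nat.cast_sub h1, htu j]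
    have h3 : ((t 1 + G : ℕ) : ℝ) ≠ 0 := by
      have : t 1 + G ≠ 0 := by omega
      exact_mod_cast this
    have h4 : (t 1 : ℝ) + G = ((t 1 + G : ℕ) : ℝ) := by push_cast; rfl
    rw [h4, h2]
    field_simp
  set gx : Fin 2 × Option (Fin n × Fin n) → Fin 2 × Option (Fin (n * n)) := fun a => (a.1, a.2.map (ix n).symm) with hgx
  have hrn : ∀ (y : Fin 2 × Fin (n * n) → ℂ) (μ : Fin 2 → ℂ), MvPolynomial.aeval (gl y μ) (MvPolynomial.rename gx P) =
      MvPolynomial.aeval (fun a : Fin 2 × Option (Fin n × Fin n) => a.2.elim (μ a.1) fun x => y (a.1, (ix n).symm x)) P := by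
    intro y μ
    rw [MvPolynomial.aeval_rename]
    refine congrArg (fun z => MvPolynomial.aeval z P) (funext fun a => ?_)
    obtain ⟨j, _ | i⟩ := a <;> rfl
  have hm := hw u hinj (fun j => ⟨by fin_cases j <;> simp [hu], by fin_cases j <;> simp [hu]⟩)
    (Spp 2 (cm (Jm n Q)) e) (spp_irr (Jc_skew hQ) hdet e) (by
      rintro y ⟨g', hg', rfl⟩ j R hR
      show MvPolynomial.eval₂ ((algebraMap ℚ ℂ).comp (Polynomial.evalRingHom (1 / ((t 1 + G - G * u j : ℕ) : ℚ))))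
        (fun i => g' j (e i).1 (e i).2) R = 0
      rw [htu]
      have ht2' : (2 : ℝ) ≤ t j := by exact_mod_cast htj j
      have h3 := rel_inv hQ (R := R) hR (x := 1 / (t j : ℝ)) (by positivity) (by rw [div_lt_one (by linarith)]; linarith)
        (isom_mul (hW3 j) (hg' j))
      rw [← Matrix.mul_assoc, hW1, one_mul, ← spec_eq] at h3
      exact h3) (by
      rw [hval]
      exact ⟨_, hform, rfl⟩) K hK hKD
    (MvPolynomial.rename gx P) ((MvPolynomial.totalDegree_rename_le _ _).trans hPd) (by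
      rw [hrn, ← hP0]
      refine congrArg (fun z => MvPolynomial.aeval z P) (funext fun a => ?_)
      obtain ⟨j, _ | i⟩ := a
      · show ((Real.log (1 - ((G * u j : ℕ) : ℝ) / ((t 1 + G : ℕ) : ℝ)) : ℝ) : ℂ) = _
        rw [hlog]
        rfl
      · have h5 := congrFun hval (j, (ix n).symm i)
        simp only at h5
        show ((ev ((t 1 + G - G * u j : ℕ) : ℝ) (hf n Q ((ix n).symm i)) : ℝ) : ℂ) = _
        rw [h5]
        show Hf (Hc n Q) (((1 / (t j : ℝ) : ℝ)) : ℂ) (ix n ((ix n).symm i)).1 (ix n ((ix n).symm i)).2 = _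
        rw [Equiv.apply_symm_apply]
        rfl) (fun a => g a.1 (e a.2).1 (e a.2).2) ⟨g, hg, rfl⟩ ν
  rw [hrn] at hm
  rw [← hm]
  refine congrArg (fun z => MvPolynomial.aeval z P) (funext fun a => ?_)
  obtain ⟨j, _ | i⟩ := a
  · rfl
  · show g j i.1 i.2 = g j (ix n ((ix n).symm i)).1 (ix n ((ix n).symm i)).2
    rw [Equiv.apply_symm_apply]

end Pool.Agent.Y118.HX
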