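import Pool.Agent.Y118.HX.Dich4

/-!
# Tensors in rank four have weight zero
-/

set_option autoImplicit false
set_option maxHeartbeats 400000

open Matrix

namespace Pool.Agent.Y118.HX

variable {K : Type} [Field K] {n d : ℕ}

/-- the action on the part of a given weight -/
lemma act_res_zero {G : Type} [AddCommGroup G] [LinearOrder G] {ε : Fin n → G} (hε : ∀ i, ε i.rev = -ε i) {g : Fin n → K}
    {i j : Fin n} {u : Tn K n d} (h : act (Xr g i j) u = 0) (γ : G) : act (Xr g i j) (res ε γ u) = 0 := by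
  funext I
  rw [act_res hε]
  by_cases h2 : wt ε I - (ε i - ε j) = γ
  · have h1 : res ε (wt ε I - (ε i - ε j)) (res ε γ u) = res ε (wt ε I - (ε i - ε j)) u := by
      rw [h2]
      funext J
      unfold res
      split_ifs <;> rfl
    rw [h1, ← act_res hε, h]
  · have h1 : res ε (wt ε I - (ε i - ε j)) (res ε γ u) = 0 := by
      funext J
      unfold res
      split_ifs with h3 h4
      · exact absurd (h3.symm.trans h4) h2
      · rfl
      · rfl
    rw [h1, map_zero]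

lemma ch_revI (I : Fin d → Fin n) (k : Fin n) : ch (fun l => (I l).rev) k = -ch I k := by
  unfold ch
  rw [← Finset.sum_neg_distrib]
  refine Finset.sum_congr rfl fun l _ => ?_
  have h1 : ((I l).rev = k) = (I l = k.rev) := propext ⟨fun h => by rw [← h, Fin.rev_rev], fun h => by rw [h, Fin.rev_rev]⟩
  have h2 : ((I l).rev = k.rev) = (I l = k) := propext ⟨fun h => Fin.rev_injective h, fun h => by rw [h]⟩
  simp only [h1, h2]
  ring

/-- the removed roots -/
def Rm (p : Up 4) : Prop := p.1.2 = p.1.1.rev ∨ (p.1.1 = (0 : Fin 8) ∧ (p.1.2 = (1 : Fin 8) ∨ p.1.2 = (2 : Fin 8) ∨ p.1.2 = (4 : Fin 8)))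

instance : DecidablePred Rm := fun p => by unfold Rm; infer_instance

/-- the separating functional -/
def cs : Fin (2 * 4) → ℤ := (![111, 1, 10, -100, 0, 0, 0, 0] : Fin 8 → ℤ)

lemma card_Up4 : Fintype.card (Up 4) = 16 := by decide +kernel

lemma card_Rm : Fintype.card {p : Up 4 // ¬ Rm p} = 9 := by decide +kernel

lemma Rm_inj : ∀ p q : Up 4, Rm p → Rm q → lam cs p.1.1 - lam cs p.1.2 = lam cs q.1.1 - lam cs q.1.2 → p = q := by
  decide +kernel

lemma s1 (χ : Fin 8 → ℤ) : ∑ k, (![1, 1, 0, 0, 0, 0, 0, 0] : Fin 8 → ℤ) k * χ k = χ 0 + χ 1 := by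
  simp [Fin.sum_univ_eight]

lemma s2 (χ : Fin 8 → ℤ) : ∑ k, (![1, 0, 1, 0, 0, 0, 0, 0] : Fin 8 → ℤ) k * χ k = χ 0 + χ 2 := by
  simp [Fin.sum_univ_eight]

lemma s3 (χ : Fin 8 → ℤ) : ∑ k, (![1, 0, 0, -1, 0, 0, 0, 0] : Fin 8 → ℤ) k * χ k = χ 0 - χ 3 := by
  simp [Fin.sum_univ_eight]
  ring

lemma s4 (χ : Fin 8 → ℤ) : ∑ k, (![111, 1, 10, -100, 0, 0, 0, 0] : Fin 8 → ℤ) k * χ k =
    111 * χ 0 + χ 1 + 10 * χ 2 - 100 * χ 3 := by
  simp [Fin.sum_univ_eight]
  ring

/-- **the weights are zero** -/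
theorem zero4 [CharZero K] {g : Fin (2 * 4) → K} (hg : ∀ i, g i ≠ 0) (hgr : ∀ i, g i.rev = -g i)
    {u : Tn K (2 * 4) d} (hμ : ∀ I, u I ≠ 0 → 2 * ∑ l, ((I l : ℕ) : ℤ) = d * (2 * ((4 : ℕ) : ℤ) - 1))
    (hsym : ∀ I, u I ≠ 0 → u (fun l => (I l).rev) ≠ 0)
    (hp : Fintype.card (Up 4) ≤ Module.finrank K (LinearMap.ker (Ph g (fun p : Up 4 => (p.1.1, p.1.2)) u)) + (4 + 1))
    (hn : Fintype.card (Up 4) ≤ Module.finrank K (LinearMap.ker (Ph g (fun p : Up 4 => (p.1.2, p.1.1)) u)) + (4 + 1)) :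
    ∀ I, u I ≠ 0 → ∀ k, ch I k = 0 := by
  classical
  by_contra hcon
  push Not at hcon
  obtain ⟨I1, hI1, k1, hk1⟩ := hcon
  have hu : u ≠ 0 := fun h => hI1 (congrFun h I1)
  have hti : ∀ I J : Fin d → Fin (2 * 4), wt (el (2 * 4)) I = wt (el (2 * 4)) J → ch I = ch J := by
    intro I J h
    rw [wt_el, wt_el] at h
    exact toLex.injective h
  -- the top weights
  have hpat : ∀ c : Fin (2 * 4) → ℤ, ∃ I0, u I0 ≠ 0 ∧ (∀ I, u I ≠ 0 → wt (em c) I ≤ wt (em c) I0) ∧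
      (ch I0 (1 : Fin 8) = -ch I0 (0 : Fin 8) ∧ ch I0 (2 : Fin 8) = -ch I0 (0 : Fin 8) ∧ ch I0 (3 : Fin 8) = ch I0 (0 : Fin 8)) := by
    intro c
    obtain ⟨I0, h1, h2, h3⟩ := top_bad hg hgr (em_rev c) (em_inj c) hu (fun I J h => hti I J (by
      rw [wt_em, wt_em] at h
      exact congrArg (fun z => (ofLex z).2) h)) hp hn
    refine ⟨I0, h1, h2, pat8 (ch I0) (ch_rev I0) ?_ ?_⟩
    · have h4 := ch_bal (hμ I0 h1)
      have h5 : ∑ i : Fin (2 * 4), (2 * ((i : ℕ) : ℤ) - 7) * ch I0 i = 0 := by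
        rw [← h4]
        refine Finset.sum_congr rfl fun i _ => ?_
        norm_num
      exact h5
    · have h4 : Fintype.card {p : Up 4 // ch I0 p.1.1 = ch I0 p.1.2} =
          (Finset.univ.filter fun x : Fin (2 * 4) × Fin (2 * 4) =>
          (x.1 : ℕ) < x.2 ∧ (x.1 : ℕ) + x.2 ≤ 2 * 4 - 1 ∧ ch I0 x.1 = ch I0 x.2).card := by
        rw [← Fintype.card_subtype]
        exact Fintype.card_congr
          { toFun := fun p => ⟨p.1.1, p.1.2.1, p.1.2.2, p.2⟩
            invFun := fun x => ⟨⟨x.1, x.2.1, x.2.2.1⟩, x.2.2.2⟩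
            left_inv := fun p => rfl
            right_inv := fun x => rfl }
      have h5 : 6 ≤ Fintype.card {p : Up 4 // ch I0 p.1.1 = ch I0 p.1.2} := by
        rw [card_Up4] at h3
        have h6 : 16 ≤ Fintype.card {p : Up 4 // ch I0 p.1.1 = ch I0 p.1.2} + (2 * 4 + 2) := by
          convert h3
        omega
      rw [h4] at h5
      exact h5
  have hle : ∀ c : Fin (2 * 4) → ℤ, (∀ χ : Fin 8 → ℤ, χ 1 = -χ 0 → χ 2 = -χ 0 → χ 3 = χ 0 → ∑ k, c k * χ k = 0) →
      ∀ I, u I ≠ 0 → ∑ k, c k * ch I k ≤ 0 := by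
    intro c hc I hI
    obtain ⟨I0, h1, h2, h3, h4, h5⟩ := hpat c
    have h6 := h2 I hI
    rw [wt_em, wt_em, Prod.Lex.le_iff'] at h6
    have h7 : ∑ k, c k * ch I k ≤ ∑ k, c k * ch I0 k := h6.1
    rwa [hc (ch I0) h3 h4 h5] at h7
  have hsup : ∀ I, u I ≠ 0 → ch I (1 : Fin 8) = -ch I (0 : Fin 8) ∧ ch I (2 : Fin 8) = -ch I (0 : Fin 8) ∧
      ch I (3 : Fin 8) = ch I (0 : Fin 8) := by
    intro I hI
    have a1 := hle (![1, 1, 0, 0, 0, 0, 0, 0] : Fin 8 → ℤ) (fun χ e1 e2 e3 => (s1 χ).trans (by rw [e1]; ring)) I hI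
    have a2 := hle (![1, 0, 1, 0, 0, 0, 0, 0] : Fin 8 → ℤ) (fun χ e1 e2 e3 => (s2 χ).trans (by rw [e2]; ring)) I hI
    have a3 := hle (![1, 0, 0, -1, 0, 0, 0, 0] : Fin 8 → ℤ) (fun χ e1 e2 e3 => (s3 χ).trans (by rw [e3]; ring)) I hI
    have b1 := hle (![1, 1, 0, 0, 0, 0, 0, 0] : Fin 8 → ℤ) (fun χ e1 e2 e3 => (s1 χ).trans (by rw [e1]; ring)) _ (hsym I hI)
    have b2 := hle (![1, 0, 1, 0, 0, 0, 0, 0] : Fin 8 → ℤ) (fun χ e1 e2 e3 => (s2 χ).trans (by rw [e2]; ring)) _ (hsym I hI)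
    have b3 := hle (![1, 0, 0, -1, 0, 0, 0, 0] : Fin 8 → ℤ) (fun χ e1 e2 e3 => (s3 χ).trans (by rw [e3]; ring)) _ (hsym I hI)
    have c1 := (s1 (ch I)).symm.trans_le a1
    have c2 := (s2 (ch I)).symm.trans_le a2
    have c3 := (s3 (ch I)).symm.trans_le a3
    have d1 := (s1 (ch (fun l => (I l).rev))).symm.trans_le b1
    have d2 := (s2 (ch (fun l => (I l).rev))).symm.trans_le b2
    have d3 := (s3 (ch (fun l => (I l).rev))).symm.trans_le b3
    have r0 := ch_revI I (0 : Fin 8)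
    have r1 := ch_revI I (1 : Fin 8)
    have r2 := ch_revI I (2 : Fin 8)
    have r3 := ch_revI I (3 : Fin 8)
    refine ⟨?_, ?_, ?_⟩ <;> omega
  obtain ⟨e1, e2, e3⟩ := hsup I1 hI1
  have f4 : ch I1 (4 : Fin 8) = -ch I1 (3 : Fin 8) := ch_rev I1 (3 : Fin 8)
  have f5 : ch I1 (5 : Fin 8) = -ch I1 (2 : Fin 8) := ch_rev I1 (2 : Fin 8)
  have f6 : ch I1 (6 : Fin 8) = -ch I1 (1 : Fin 8) := ch_rev I1 (1 : Fin 8)
  have f7 : ch I1 (7 : Fin 8) = -ch I1 (0 : Fin 8) := ch_rev I1 (0 : Fin 8)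
  have hpm : ∀ k : Fin 8, ch I1 k = ch I1 (0 : Fin 8) ∨ ch I1 k = -ch I1 (0 : Fin 8) := by
    intro k
    fin_cases k
    · exact Or.inl rfl
    · exact Or.inr e1
    · exact Or.inr e2
    · exact Or.inl e3
    · exact Or.inr (f4.trans (by rw [e3]))
    · exact Or.inl (f5.trans (by rw [e2, neg_neg]))
    · exact Or.inl (f6.trans (by rw [e1, neg_neg]))
    · exact Or.inr f7
  have hc0 : ch I1 (0 : Fin 8) ≠ 0 := by
    intro h0
    apply hk1
    rcases hpm k1 with h | h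
    · exact h.trans h0
    · exact h.trans (by rw [h0, neg_zero])
  -- root vectors which kill the tensor
  have hX : ∀ i j : Fin (2 * 4), i ≠ j → act (Xr g i j) u = 0 → ch I1 i = ch I1 j := by
    intro i j hij h0
    have key : ∀ I, u I ≠ 0 → 0 ≤ ch I i - ch I j := by
      intro I hI
      refine root_sign hg hgr rev_ne' hij (u := res (el (2 * 4)) (wt (el (2 * 4)) I) u) ?_ (fun J hJ => ?_)
        (act_res_zero el_rev h0 _)
      · intro h
        have h1 := congrFun h I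
        unfold res at h1
        rw [if_pos rfl] at h1
        exact hI h1
      · unfold res at hJ
        by_cases h1 : wt (el (2 * 4)) J = wt (el (2 * 4)) I
        · exact hti J I h1
        · rw [if_neg h1] at hJ
          exact absurd rfl hJ
    have q1 := key I1 hI1
    have q2 := key _ (hsym I1 hI1)
    rw [ch_revI, ch_revI] at q2
    omega
  have hRm : ∀ p : Up 4, Rm p → act (Xr g p.1.1 p.1.2) u ≠ 0 := by
    rintro p hp0 h0
    have h1 := hX p.1.1 p.1.2 (Up_ne p) h0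
    rcases hp0 with h2 | ⟨h2, h3⟩
    · rw [h2, ch_rev] at h1
      rcases hpm p.1.1 with h4 | h4
      · have h5 : ch I1 p.1.1 = ch I1 (0 : Fin 8) := h4
        omega
      · have h5 : ch I1 p.1.1 = -ch I1 (0 : Fin 8) := h4
        omega
    · rw [h2] at h1
      rcases h3 with h3 | h3 | h3
      · rw [h3] at h1
        omega
      · rw [h3] at h1
        omega
      · rw [h3] at h1
        omega
  have hw : ∀ I, u I ≠ 0 → wt (lam cs) I = 0 := by
    intro I hI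
    obtain ⟨e1, e2, e3⟩ := hsup I hI
    have h1 : wt (lam cs) I = ∑ k, cs k * ch I k := lam_sum cs I
    have h2 : ∑ k, cs k * ch I k =
        111 * ch I (0 : Fin 8) + ch I (1 : Fin 8) + 10 * ch I (2 : Fin 8) - 100 * ch I (3 : Fin 8) := s4 (ch I)
    rw [h1, h2, e1, e2, e3]
    ring
  have hres : ∀ δ : ℤ, δ ≠ 0 → res (lam cs) δ u = 0 := by
    intro δ hδ
    funext J
    unfold res
    split_ifs with h
    · by_contra h2
      exact hδ (by rw [← h, hw J h2])
    · rfl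
  have hinj : ∀ f ∈ LinearMap.ker (Ph g (fun p : Up 4 => (p.1.1, p.1.2)) u), (∀ p, ¬ Rm p → f p = 0) → f = 0 := by
    intro f hf h0
    rw [LinearMap.mem_ker] at hf
    funext p
    by_contra hfp
    have hRp : Rm p := by
      by_contra h
      exact hfp (h0 p h)
    apply hRm p hRp
    funext I
    by_cases hI : wt (lam cs) I - (lam cs p.1.1 - lam cs p.1.2) = 0
    · have h1 : ∑ q : Up 4, f q * act (Xr g q.1.1 q.1.2) u I = 0 := by
        have h2 := congrFun hf I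
        have h3 : (Ph g (fun p : Up 4 => (p.1.1, p.1.2)) u f) I = ∑ q : Up 4, f q * act (Xr g q.1.1 q.1.2) u I := by
          show (∑ q : Up 4, f q • act (Xr g q.1.1 q.1.2) u) I = _
          rw [Finset.sum_apply]
          rfl
        rw [h3] at h2
        exact h2
      rw [Finset.sum_eq_single p] at h1
      · exact (mul_eq_zero.1 h1).resolve_left hfp
      · intro q _ hq
        by_cases hRq : Rm q
        · rw [act_res (lam_rev cs), hres, map_zero, Pi.zero_apply, mul_zero]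
          intro h2
          exact hq (Rm_inj q p hRq hRp (by omega))
        · rw [h0 q hRq, zero_mul]
      · intro h
        exact absurd (Finset.mem_univ _) h
    · rw [act_res (lam_rev cs), hres _ hI, map_zero]
  have hfin : Module.finrank K (LinearMap.ker (Ph g (fun p : Up 4 => (p.1.1, p.1.2)) u)) ≤ Fintype.card {p : Up 4 // ¬ Rm p} := by
    let f : (Up 4 → K) →ₗ[K] ({p : Up 4 // ¬ Rm p} → K) := LinearMap.funLeft K K Subtype.val
    have hinj2 : Function.Injective (f.comp (LinearMap.ker (Ph g (fun p : Up 4 => (p.1.1, p.1.2)) u)).subtype) := by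
      rw [← LinearMap.ker_eq_bot, LinearMap.ker_eq_bot']
      rintro ⟨a, ha⟩ h0
      apply Subtype.ext
      exact hinj a ha fun p hp0 => congrFun h0 ⟨p, hp0⟩
    have h := LinearMap.finrank_le_finrank_of_injective hinj2
    rwa [Module.finrank_fintype_fun_eq_card] at h
  rw [card_Rm] at hfin
  rw [card_Up4] at hp
  omega

/-- **the dichotomy in rank at least four** -/
theorem dichAll [CharZero K] {m : ℕ} (hm : 4 ≤ m) {g : Fin (2 * m) → K} (hg : ∀ i, g i ≠ 0) (hgr : ∀ i, g i.rev = -g i)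
    {u : Tn K (2 * m) d} (hμ : ∀ I, u I ≠ 0 → 2 * ∑ l, ((I l : ℕ) : ℤ) = d * (2 * m - 1))
    (hsym : ∀ I, u I ≠ 0 → u (fun l => (I l).rev) ≠ 0)
    (hp : Fintype.card (Up m) ≤ Module.finrank K (LinearMap.ker (Ph g (fun p : Up m => (p.1.1, p.1.2)) u)) + (m + 1))
    (hn : Fintype.card (Up m) ≤ Module.finrank K (LinearMap.ker (Ph g (fun p : Up m => (p.1.2, p.1.1)) u)) + (m + 1)) :
    (∀ i j, i ≠ j → act (Xr g i j) u = 0) ∧ ∀ I, u I ≠ 0 → ∀ k, ch I k = 0 := by
  rcases eq_or_lt_of_le hm with h | h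
  · subst h
    have h1 := zero4 hg hgr hμ hsym hp hn
    exact ⟨dichB hg hgr hm h1 hp, h1⟩
  · exact dich hg hgr h hμ hp hn

end Pool.Agent.Y118.HX
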