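import Pool.Agent.Y118.HX.Der

/-!
# Derivations at a generic point of the symplectic group
-/

set_option autoImplicit false
set_option maxHeartbeats 400000

open Matrix

namespace Pool.Agent.Y118.HX

variable {k Ω : Type} [Field k] [Field Ω] [Algebra k Ω] {n : ℕ}

/-- a derivation applied to a matrix -/
def dm (D : Derivation k Ω Ω) (M : Matrix (Fin n) (Fin n) Ω) : Matrix (Fin n) (Fin n) Ω := M.map D

lemma dm_mul (D : Derivation k Ω Ω) (M N : Matrix (Fin n) (Fin n) Ω) : dm D (M * N) = dm D M * N + M * dm D N := by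
  ext i j
  rw [Matrix.add_apply, Matrix.mul_apply, Matrix.mul_apply]
  unfold dm
  rw [Matrix.map_apply, Matrix.mul_apply, map_sum, ← Finset.sum_add_distrib]
  refine Finset.sum_congr rfl fun l _ => ?_
  rw [Derivation.leibniz, Matrix.map_apply, Matrix.map_apply, smul_eq_mul, smul_eq_mul]
  ring

lemma dm_smul (D : Derivation k Ω Ω) (c : Ω) (M : Matrix (Fin n) (Fin n) Ω) : dm D (c • M) = D c • M + c • dm D M := by
  ext i j
  unfold dm
  rw [Matrix.map_apply, Matrix.smul_apply, Matrix.add_apply, Matrix.smul_apply, Matrix.smul_apply, Matrix.map_apply,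
    smul_eq_mul, Derivation.leibniz]
  simp only [smul_eq_mul]
  ring

lemma dm_transpose (D : Derivation k Ω Ω) (M : Matrix (Fin n) (Fin n) Ω) : dm D M.transpose = (dm D M).transpose := rfl

lemma dm_const (D : Derivation k Ω Ω) (M : Matrix (Fin n) (Fin n) k) : dm D (M.map (algebraMap k Ω)) = 0 := by
  ext i j
  unfold dm
  simp

/-- unipotent elements -/
lemma transv [CharZero Ω] {J : Matrix (Fin n) (Fin n) Ω} (hJ : J.transpose = -J) {x : Matrix (Fin n) (Fin n) Ω}
    (hx : x.transpose * J * x = J) (u : Fin n → Ω) (s : Ω) :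
    (x + s • (x * (vecMulVec u u * J))).transpose * J * (x + s • (x * (vecMulVec u u * J))) = J := by
  set A := vecMulVec u u * J with hA
  have h1 : x + s • (x * A) = x * (1 + s • A) := by
    rw [Matrix.mul_add, Matrix.mul_one, mul_smul_comm]
  have huu : (vecMulVec u u : Matrix (Fin n) (Fin n) Ω).transpose = vecMulVec u u := transpose_vecMulVec _ _
  have hAt : A.transpose * J = -(J * A) := by
    rw [hA, Matrix.transpose_mul, huu, hJ, Matrix.neg_mul, Matrix.neg_mul, Matrix.mul_assoc]
  have hz : (u ᵥ* J) ⬝ᵥ u = 0 := by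
    have h2 : (u ᵥ* J) ⬝ᵥ u = -((u ᵥ* J) ⬝ᵥ u) := by
      calc (u ᵥ* J) ⬝ᵥ u = (J.transpose *ᵥ u) ⬝ᵥ u := by rw [mulVec_transpose]
        _ = -((J *ᵥ u) ⬝ᵥ u) := by rw [hJ, neg_mulVec, neg_dotProduct]
        _ = -((u ᵥ* J) ⬝ᵥ u) := by rw [dotProduct_comm, dotProduct_mulVec]
    have h3 : (2 : Ω) * ((u ᵥ* J) ⬝ᵥ u) = 0 := by linear_combination h2
    exact (mul_eq_zero.1 h3).resolve_left two_ne_zero
  have hAA : A * A = 0 := by
    have h4 : A = vecMulVec u (u ᵥ* J) := vecMulVec_mul _ _ _
    rw [h4, vecMulVec_mul_vecMulVec, hz, zero_smul, vecMulVec_zero]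
  rw [h1, Matrix.transpose_mul, Matrix.transpose_add, Matrix.transpose_one, Matrix.transpose_smul]
  calc (1 + s • A.transpose) * x.transpose * J * (x * (1 + s • A)) =
      (1 + s • A.transpose) * (x.transpose * J * x) * (1 + s • A) := by simp only [Matrix.mul_assoc]
    _ = (1 + s • A.transpose) * J * (1 + s • A) := by rw [hx]
    _ = (J + s • (A.transpose * J)) * (1 + s • A) := by rw [Matrix.add_mul, Matrix.one_mul, Matrix.smul_mul]
    _ = J := by
      rw [hAt, Matrix.add_mul, Matrix.mul_add, Matrix.mul_add, Matrix.mul_one, Matrix.mul_one, Matrix.mul_smul,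
        Matrix.smul_mul, Matrix.mul_smul, Matrix.neg_mul, Matrix.mul_assoc, hAA, Matrix.mul_zero]
      simp

/-- generic points of the symplectic group -/
def Generic (k : Type) [Field k] [Algebra k Ω] (J x : Matrix (Fin n) (Fin n) Ω) : Prop :=
  ∀ P : MvPolynomial (Fin n × Fin n) k, MvPolynomial.aeval (fun p => x p.1 p.2) P = 0 →
    ∀ g : Matrix (Fin n) (Fin n) Ω, g.transpose * J * g = J → MvPolynomial.aeval (fun p => g p.1 p.2) P = 0

/-- derivations in the direction of a square -/
lemma der_uu [CharZero Ω] {J x : Matrix (Fin n) (Fin n) Ω} (hJ : J.transpose = -J) (hx : x.transpose * J * x = J)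
    (hg : Generic k J x) (u : Fin n → Ω) : ∃ D : Derivation k Ω Ω, dm D x = x * (vecMulVec u u * J) := by
  set y := x * (vecMulVec u u * J) with hy
  obtain ⟨D, hD⟩ := ex_der (k := k) (fun p : Fin n × Fin n => x p.1 p.2) (fun p => y p.1 p.2) (by
    intro P hP
    -- the polynomial in one variable
    set q : Polynomial Ω := MvPolynomial.aeval (fun p : Fin n × Fin n =>
      Polynomial.C (x p.1 p.2) + Polynomial.X * Polynomial.C (y p.1 p.2)) P with hq
    have h1 : ∀ s : Ω, q.eval s = 0 := by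
      intro s
      have h2 := hg P hP _ (transv hJ hx u s)
      have h3 : ((Polynomial.aeval s : Polynomial Ω →ₐ[Ω] Ω).restrictScalars k).comp
          (MvPolynomial.aeval (fun p : Fin n × Fin n =>
          Polynomial.C (x p.1 p.2) + Polynomial.X * Polynomial.C (y p.1 p.2))) =
          MvPolynomial.aeval (fun p : Fin n × Fin n => (x + s • y) p.1 p.2) := by
        refine MvPolynomial.algHom_ext fun p => ?_
        rw [AlgHom.comp_apply, MvPolynomial.aeval_X, MvPolynomial.aeval_X]
        simp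
        exact mul_comm _ _
      have h4 := AlgHom.congr_fun h3 P
      rw [← hy] at h2
      rw [h2] at h4
      exact h4
    have hq0 : q = 0 := Polynomial.funext fun s => by rw [h1, Polynomial.eval_zero]
    -- the map to the dual numbers
    have h5 : ((Polynomial.aeval (TrivSqZeroExt.inr 1 : TrivSqZeroExt Ω Ω) : Polynomial Ω →ₐ[Ω] TrivSqZeroExt Ω Ω).restrictScalars
        k).comp (MvPolynomial.aeval (fun p : Fin n × Fin n =>
          Polynomial.C (x p.1 p.2) + Polynomial.X * Polynomial.C (y p.1 p.2))) =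
        MvPolynomial.aeval (fun p : Fin n × Fin n =>
          (TrivSqZeroExt.inl (x p.1 p.2) + TrivSqZeroExt.inr (y p.1 p.2) : TrivSqZeroExt Ω Ω)) := by
      refine MvPolynomial.algHom_ext fun p => ?_
      rw [AlgHom.comp_apply, MvPolynomial.aeval_X, MvPolynomial.aeval_X]
      ext
      · simp [TrivSqZeroExt.algebraMap_eq_inl]
      · simp [TrivSqZeroExt.algebraMap_eq_inl]
    have h6 := AlgHom.congr_fun h5 P
    rw [← h6, AlgHom.comp_apply, ← hq, hq0, map_zero])
  refine ⟨D, ?_⟩
  ext i j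
  exact hD (i, j)

/-- derivations in the direction of a product -/
lemma der_uv [CharZero Ω] {J x : Matrix (Fin n) (Fin n) Ω} (hJ : J.transpose = -J) (hx : x.transpose * J * x = J)
    (hg : Generic k J x) (u v : Fin n → Ω) : ∃ D : Derivation k Ω Ω, dm D x = x * ((vecMulVec u v + vecMulVec v u) * J) := by
  obtain ⟨D1, h1⟩ := der_uu hJ hx hg (u + v)
  obtain ⟨D2, h2⟩ := der_uu hJ hx hg u
  obtain ⟨D3, h3⟩ := der_uu hJ hx hg v
  refine ⟨D1 - D2 - D3, ?_⟩
  have h4 : dm (D1 - D2 - D3) x = dm D1 x - dm D2 x - dm D3 x := by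
    ext i j
    unfold dm
    simp
  rw [h4, h1, h2, h3, ← Matrix.mul_sub, ← Matrix.mul_sub, ← Matrix.sub_mul, ← Matrix.sub_mul]
  congr 2
  rw [add_vecMulVec, vecMulVec_add, vecMulVec_add]
  abel

end Pool.Agent.Y118.HX
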