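import Pool.Agent.Y118.HX.Core

/-!
# Derivations at a generic pair of points of the symplectic group
-/

set_option autoImplicit false
set_option maxHeartbeats 400000

open Matrix

namespace Pool.Agent.Y118.HX

variable {k Ω : Type} [Field k] [Field Ω] [Algebra k Ω] {n : ℕ}

/-- generic pairs of points of the symplectic group with two further independent elements -/
def Generic2 (k : Type) [Field k] [Algebra k Ω] (J : Matrix (Fin n) (Fin n) Ω) (x : Fin 2 → Matrix (Fin n) (Fin n) Ω)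
    (μ : Fin 2 → Ω) : Prop :=
  ∀ P : MvPolynomial (Fin 2 × Option (Fin n × Fin n)) k,
    MvPolynomial.aeval (fun a : Fin 2 × Option (Fin n × Fin n) => a.2.elim (μ a.1) fun p => x a.1 p.1 p.2) P = 0 →
    ∀ g : Fin 2 → Matrix (Fin n) (Fin n) Ω, (∀ j, (g j).transpose * J * g j = J) → ∀ ν : Fin 2 → Ω,
    MvPolynomial.aeval (fun a : Fin 2 × Option (Fin n × Fin n) => a.2.elim (ν a.1) fun p => g a.1 p.1 p.2) P = 0

/-- derivations in the direction of a square -/
lemma der2_uu [CharZero Ω] {J : Matrix (Fin n) (Fin n) Ω} {x : Fin 2 → Matrix (Fin n) (Fin n) Ω} {μ : Fin 2 → Ω}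
    (hJ : J.transpose = -J) (hx : ∀ j, (x j).transpose * J * x j = J)
    (hg : Generic2 k J x μ) (j0 : Fin 2) (u : Fin n → Ω) : ∃ D : Derivation k Ω Ω, dm D (x j0) = x j0 * (vecMulVec u u * J) ∧
      (∀ j, j ≠ j0 → dm D (x j) = 0) ∧ ∀ j, D (μ j) = 0 := by
  classical
  set y : Fin 2 → Matrix (Fin n) (Fin n) Ω := fun j => if j = j0 then x j * (vecMulVec u u * J) else 0 with hy
  obtain ⟨D, hD⟩ := ex_der (k := k) (fun a : Fin 2 × Option (Fin n × Fin n) => a.2.elim (μ a.1) fun p => x a.1 p.1 p.2)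
    (fun a => a.2.elim 0 fun p => y a.1 p.1 p.2) (by
    intro P hP
    -- the polynomial in one variable
    set q : Polynomial Ω := MvPolynomial.aeval (fun a : Fin 2 × Option (Fin n × Fin n) =>
      a.2.elim (Polynomial.C (μ a.1)) fun p => Polynomial.C (x a.1 p.1 p.2) + Polynomial.X * Polynomial.C (y a.1 p.1 p.2)) P
      with hq
    have h1 : ∀ s : Ω, q.eval s = 0 := by
      intro s
      have h2 := hg P hP (fun j => x j + s • y j) (fun j => by
        by_cases hj : j = j0
        · have : y j = x j * (vecMulVec u u * J) := by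
            rw [hy]
            simp only [if_pos hj]
          rw [this]
          exact transv hJ (hx j) u s
        · have : y j = 0 := by
            rw [hy]
            simp only [if_neg hj]
          rw [this, smul_zero, add_zero]
          exact hx j) μ
      have h3 : ((Polynomial.aeval s : Polynomial Ω →ₐ[Ω] Ω).restrictScalars k).comp
          (MvPolynomial.aeval (fun a : Fin 2 × Option (Fin n × Fin n) =>
          a.2.elim (Polynomial.C (μ a.1)) fun p => Polynomial.C (x a.1 p.1 p.2) +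
            Polynomial.X * Polynomial.C (y a.1 p.1 p.2))) =
          MvPolynomial.aeval (fun a : Fin 2 × Option (Fin n × Fin n) =>
            a.2.elim (μ a.1) fun p => (x a.1 + s • y a.1) p.1 p.2) := by
        refine MvPolynomial.algHom_ext fun a => ?_
        rw [AlgHom.comp_apply, MvPolynomial.aeval_X, MvPolynomial.aeval_X]
        obtain ⟨j, _ | p⟩ := a
        · simp
        · simp
          exact mul_comm _ _
      have h4 := AlgHom.congr_fun h3 P
      rw [h2] at h4
      exact h4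
    have hq0 : q = 0 := Polynomial.funext fun s => by rw [h1, Polynomial.eval_zero]
    -- the map to the dual numbers
    have h5 : ((Polynomial.aeval (TrivSqZeroExt.inr 1 : TrivSqZeroExt Ω Ω) : Polynomial Ω →ₐ[Ω] TrivSqZeroExt Ω Ω).restrictScalars
        k).comp (MvPolynomial.aeval (fun a : Fin 2 × Option (Fin n × Fin n) =>
          a.2.elim (Polynomial.C (μ a.1)) fun p => Polynomial.C (x a.1 p.1 p.2) +
            Polynomial.X * Polynomial.C (y a.1 p.1 p.2))) =
        MvPolynomial.aeval (fun a : Fin 2 × Option (Fin n × Fin n) =>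
          (TrivSqZeroExt.inl (a.2.elim (μ a.1) fun p => x a.1 p.1 p.2) +
            TrivSqZeroExt.inr (a.2.elim 0 fun p => y a.1 p.1 p.2) : TrivSqZeroExt Ω Ω)) := by
      refine MvPolynomial.algHom_ext fun a => ?_
      rw [AlgHom.comp_apply, MvPolynomial.aeval_X, MvPolynomial.aeval_X]
      obtain ⟨j, _ | p⟩ := a
      · ext
        · simp [TrivSqZeroExt.algebraMap_eq_inl]
        · simp [TrivSqZeroExt.algebraMap_eq_inl]
      · ext
        · simp [TrivSqZeroExt.algebraMap_eq_inl]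
        · simp [TrivSqZeroExt.algebraMap_eq_inl]
    have h6 := AlgHom.congr_fun h5 P
    rw [← h6, AlgHom.comp_apply, ← hq, hq0, map_zero])
  refine ⟨D, ?_, fun j hj => ?_, fun j => hD (j, none)⟩
  · ext i l
    refine (hD (j0, some (i, l))).trans ?_
    show y j0 i l = _
    rw [hy]
    simp only [if_true]
  · ext i l
    refine (hD (j, some (i, l))).trans ?_
    show y j i l = _
    rw [hy]
    simp only [if_neg hj]

/-- derivations in the direction of a product -/
lemma der2_uv [CharZero Ω] {J : Matrix (Fin n) (Fin n) Ω} {x : Fin 2 → Matrix (Fin n) (Fin n) Ω} {μ : Fin 2 → Ω}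
    (hJ : J.transpose = -J) (hx : ∀ j, (x j).transpose * J * x j = J)
    (hg : Generic2 k J x μ) (j0 : Fin 2) (u v : Fin n → Ω) : ∃ D : Derivation k Ω Ω,
      dm D (x j0) = x j0 * ((vecMulVec u v + vecMulVec v u) * J) ∧ (∀ j, j ≠ j0 → dm D (x j) = 0) ∧ ∀ j, D (μ j) = 0 := by
  obtain ⟨D1, h1, i1, k1⟩ := der2_uu hJ hx hg j0 (u + v)
  obtain ⟨D2, h2, i2, k2⟩ := der2_uu hJ hx hg j0 u
  obtain ⟨D3, h3, i3, k3⟩ := der2_uu hJ hx hg j0 v
  have h4 : ∀ z : Matrix (Fin n) (Fin n) Ω, dm (D1 - D2 - D3) z = dm D1 z - dm D2 z - dm D3 z := by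
    intro z
    ext i j
    unfold dm
    simp
  refine ⟨D1 - D2 - D3, ?_, fun j hj => ?_, fun j => ?_⟩
  · rw [h4, h1, h2, h3, ← Matrix.mul_sub, ← Matrix.mul_sub, ← Matrix.sub_mul, ← Matrix.sub_mul]
    congr 2
    rw [add_vecMulVec, vecMulVec_add, vecMulVec_add]
    abel
  · rw [h4, i1 j hj, i2 j hj, i3 j hj, sub_zero, sub_zero]
  · show D1 (μ j) - D2 (μ j) - D3 (μ j) = 0
    rw [k1, k2, k3, sub_zero, sub_zero]

namespace Dat

variable [CharZero Ω] {m : ℕ} (d : Dat k Ω m)

/-- **the directions which give the members of the basis** -/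
lemma exL (p : Up m) : ∃ (u v : Fin (2 * m) → Ω) (c : Ω), c ≠ 0 ∧
    d.L ((vecMulVec u v + vecMulVec v u) * d.J.map (algebraMap k Ω)) = c • Pi.single p 1 := by
  set J := d.J.map (algebraMap k Ω) with hJ
  obtain ⟨⟨a, q⟩, hp1, hp2⟩ := p
  simp only at hp1 hp2
  set u : Fin (2 * m) → Ω := fun i => d.P⁻¹ i a with hu
  set v : Fin (2 * m) → Ω := fun i => d.P⁻¹ i q.rev with hv
  set A := (vecMulVec u v + vecMulVec v u) * J with hA
  have hLA : ∀ i j, (d.P * A * d.P⁻¹) i j =
      d.κ * ((if i = a then (if j = q then d.γ q.rev else 0) else 0) +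
        (if i = q.rev then (if j = a.rev then d.γ a else 0) else 0)) := by
    intro i j
    have hPu : ∀ c : Fin (2 * m), d.P *ᵥ (fun i => d.P⁻¹ i c) = Pi.single c 1 := by
      intro c
      funext r
      have h1 := congrFun (congrFun (Matrix.mul_nonsing_inv _ d.Pdet) r) c
      rw [Matrix.mul_apply] at h1
      show ∑ l, d.P r l * d.P⁻¹ l c = _
      rw [h1, Matrix.one_apply, Pi.single_apply]
    have h2 : d.P * A * d.P⁻¹ = (vecMulVec (Pi.single a 1) v + vecMulVec (Pi.single q.rev 1) u) * J * d.P⁻¹ := by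
      rw [hA, ← Matrix.mul_assoc, Matrix.mul_add, mul_vecMulVec, mul_vecMulVec, hPu, hPu]
    have h3 : ∀ c : Fin (2 * m), (fun i => d.P⁻¹ i c) = (Pi.single c (1 : Ω)) ᵥ* (d.P⁻¹).transpose := by
      intro c
      rw [Matrix.single_one_vecMul]
      rfl
    have h4 : ∀ c r : Fin (2 * m), vecMulVec (Pi.single c (1 : Ω)) (fun i => d.P⁻¹ i r) * J * d.P⁻¹ =
        vecMulVec (Pi.single c 1) ((Pi.single r (1 : Ω)) ᵥ* (d.κ • (Matrix.of fun i j => if j = Fin.rev i then d.γ i else 0))) := by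
      intro c r
      have h5 : (d.P⁻¹).transpose * (J * d.P⁻¹) =
          d.κ • (Matrix.of fun i j => if j = Fin.rev i then d.γ i else 0) := by
        rw [← Matrix.mul_assoc]
        exact d.Jform
      rw [h3, vecMulVec_mul, vecMulVec_mul, vecMul_vecMul, vecMul_vecMul, h5]
    rw [h2, Matrix.add_mul, Matrix.add_mul, h4, h4, Matrix.add_apply, vecMulVec_apply, vecMulVec_apply,
      Matrix.single_one_vecMul, Matrix.single_one_vecMul]
    show (Pi.single a (1 : Ω) : Fin (2 * m) → Ω) i * (d.κ * (if j = Fin.rev (Fin.rev q) then d.γ (Fin.rev q) else 0)) +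
      (Pi.single (Fin.rev q) (1 : Ω) : Fin (2 * m) → Ω) i * (d.κ * (if j = Fin.rev a then d.γ a else 0)) = _
    rw [Fin.rev_rev, Pi.single_apply, Pi.single_apply]
    split_ifs <;> ring
  refine ⟨u, v, ?_⟩
  rw [← hA]
  -- the value on the upper positions
  by_cases hq : q = a.rev
  · refine ⟨d.κ * (2 * d.γ a), mul_ne_zero d.κ0 (mul_ne_zero two_ne_zero (d.γ0 a)), ?_⟩
    funext r
    obtain ⟨⟨i, j⟩, hr1, hr2⟩ := r
    have hqr : q.rev = a := by rw [hq, Fin.rev_rev]
    show (d.P * A * d.P⁻¹) i j = _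
    rw [hLA, hqr, ← hq, Pi.smul_apply, Pi.single_apply, smul_eq_mul]
    by_cases h1 : i = a ∧ j = q
    · obtain ⟨rfl, rfl⟩ := h1
      rw [if_pos rfl, if_pos rfl, if_pos rfl]
      ring
    · have h5 : (⟨(i, j), hr1, hr2⟩ : Up m) ≠ ⟨(a, q), hp1, hp2⟩ := by
        intro h
        exact h1 ⟨congrArg (fun z : Up m => z.1.1) h, congrArg (fun z : Up m => z.1.2) h⟩
      rw [if_neg h5]
      by_cases h6 : i = a
      · rw [if_pos h6, if_neg (fun h7 => h1 ⟨h6, h7⟩)]
        ring
      · rw [if_neg h6]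
        ring
  · refine ⟨d.κ * d.γ q.rev, mul_ne_zero d.κ0 (d.γ0 _), ?_⟩
    funext r
    obtain ⟨⟨i, j⟩, hr1, hr2⟩ := r
    simp only at hr1 hr2
    show (d.P * A * d.P⁻¹) i j = _
    rw [hLA, Pi.smul_apply, Pi.single_apply, smul_eq_mul]
    have h2 : ¬ (i = q.rev ∧ j = a.rev) := by
      rintro ⟨rfl, rfl⟩
      rw [Fin.val_rev, Fin.val_rev] at hr2
      have := q.2
      have := a.2
      apply hq
      apply Fin.ext
      rw [Fin.val_rev]
      omega
    by_cases h1 : i = a ∧ j = q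
    · obtain ⟨rfl, rfl⟩ := h1
      rw [if_pos rfl, if_pos rfl]
      by_cases h3 : i = Fin.rev j
      · rw [if_pos h3, if_neg (fun h4 => h2 ⟨h3, h4⟩)]
        simp
      · rw [if_neg h3]
        simp
    · have h5 : (⟨(i, j), hr1, hr2⟩ : Up m) ≠ ⟨(a, q), hp1, hp2⟩ := by
        intro h
        exact h1 ⟨congrArg (fun z : Up m => z.1.1) h, congrArg (fun z : Up m => z.1.2) h⟩
      rw [if_neg h5]
      by_cases h6 : i = a
      · rw [if_pos h6, if_neg (fun h7 => h1 ⟨h6, h7⟩)]
        by_cases h8 : i = q.rev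
        · rw [if_pos h8, if_neg (fun h9 => h2 ⟨h8, h9⟩)]
          ring
        · rw [if_neg h8]
          ring
      · rw [if_neg h6]
        by_cases h8 : i = q.rev
        · rw [if_pos h8, if_neg (fun h9 => h2 ⟨h8, h9⟩)]
          ring
        · rw [if_neg h8]
          ring

/-- the velocity on the upper positions -/
lemma vel (D : Derivation k Ω Ω) {A : Matrix (Fin (2 * m)) (Fin (2 * m)) Ω} (hD : dm D d.x = d.x * A) (r : Ω) :
    (fun p : Up m => d.b D p.1.1 p.1.2) = d.L A + d.L (dm D d.C * d.C⁻¹ - r • 1) := by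
  rw [map_sub, map_smul, L_one, smul_zero, sub_zero, ← map_add]
  funext z
  exact d.star D hD (by have h11 := z.2.1; have h12 := z.2.2; omega) z.2.1

/-- **the count for two points** -/
theorem count2 (d0 d1 : Dat k Ω m) (hJ : d1.J = d0.J) {μ : Fin 2 → Ω} {X : Matrix (Fin (2 * m)) (Fin (2 * m)) Ω}
    (hX : IsUnit X.det) (hC : d1.C = X * d0.C)
    (hXD : ∀ D : Derivation k Ω Ω, (∀ j, D (μ j) = 0) → dm D X = 0)
    (hg : Generic2 k (d0.J.map (algebraMap k Ω)) (fun j : Fin 2 => if j = 0 then d0.x else d1.x) μ)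
    (H0 H1 : Submodule Ω (Up m → Ω)) (hH0 : ∀ D : Derivation k Ω Ω, (fun p : Up m => d0.b D p.1.1 p.1.2) ∈ H0)
    (hH1 : ∀ D : Derivation k Ω Ω, (fun p : Up m => d1.b D p.1.1 p.1.2) ∈ H1) :
    2 * Fintype.card (Up m) ≤ Module.finrank Ω H0 + Module.finrank Ω H1 + (m + 1) := by
  set J := d0.J.map (algebraMap k Ω) with hJd
  have hxJ : ∀ j : Fin 2, (if j = 0 then d0.x else d1.x).transpose * J * (if j = 0 then d0.x else d1.x) = J := by
    intro j
    by_cases hj : j = 0
    · rw [if_pos hj]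
      exact d0.xJ
    · rw [if_neg hj, hJd, ← hJ]
      exact d1.xJ
  -- conjugation with `X`
  set cj : Matrix (Fin (2 * m)) (Fin (2 * m)) Ω →ₗ[Ω] Matrix (Fin (2 * m)) (Fin (2 * m)) Ω :=
    { toFun := fun Y => X * Y * X⁻¹
      map_add' := fun Y Z => by rw [Matrix.mul_add, Matrix.add_mul]
      map_smul' := fun c Y => by rw [Matrix.mul_smul, Matrix.smul_mul, RingHom.id_apply] } with hcj
  set H : Submodule Ω ((Up m → Ω) × (Up m → Ω)) := H0.map (LinearMap.inl Ω _ _) ⊔ H1.map (LinearMap.inr Ω _ _) with hHd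
  set K : Submodule Ω ((Up m → Ω) × (Up m → Ω)) := (N0 J).map (d0.L.prod (d1.L ∘ₗ cj)) with hK
  have hH : ∀ D : Derivation k Ω Ω, ((fun p : Up m => d0.b D p.1.1 p.1.2), (fun p : Up m => d1.b D p.1.1 p.1.2)) ∈ H := by
    intro D
    have h1 : ((fun p : Up m => d0.b D p.1.1 p.1.2), (fun p : Up m => d1.b D p.1.1 p.1.2)) =
        LinearMap.inl Ω (Up m → Ω) (Up m → Ω) (fun p : Up m => d0.b D p.1.1 p.1.2) +
          LinearMap.inr Ω (Up m → Ω) (Up m → Ω) (fun p : Up m => d1.b D p.1.1 p.1.2) := by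
      rw [LinearMap.inl_apply, LinearMap.inr_apply, Prod.mk_add_mk, add_zero, zero_add]
    rw [h1]
    exact Submodule.add_mem _ (Submodule.mem_sup_left (Submodule.mem_map_of_mem (hH0 D)))
      (Submodule.mem_sup_right (Submodule.mem_map_of_mem (hH1 D)))
  -- the connection of the second base change
  have hn1 : ∀ D : Derivation k Ω Ω, (∀ j, D (μ j) = 0) → ∀ r : Ω, dm D d1.C * d1.C⁻¹ - r • 1 =
      cj (dm D d0.C * d0.C⁻¹ - r • 1) := by
    intro D hD r
    show _ = X * (dm D d0.C * d0.C⁻¹ - r • 1) * X⁻¹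
    have h1 : d1.C⁻¹ = d0.C⁻¹ * X⁻¹ := by rw [hC, Matrix.mul_inv_rev]
    rw [h1, hC, dm_mul, hXD D hD, Matrix.zero_mul, zero_add, Matrix.mul_sub, Matrix.sub_mul, Matrix.mul_smul,
      Matrix.smul_mul, Matrix.mul_one, Matrix.mul_nonsing_inv _ hX]
    simp only [Matrix.mul_assoc]
  have htop : (⊤ : Submodule Ω ((Up m → Ω) × (Up m → Ω))) ≤ H ⊔ K := by
    have hp0 : ∀ p : Up m, ((Pi.single p 1 : Up m → Ω), (0 : Up m → Ω)) ∈ H ⊔ K := by
      intro p
      obtain ⟨u, v, c, hc, hL⟩ := d0.exL p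
      obtain ⟨D, hD0, hD1, hDμ⟩ := der2_uv d0.skew hxJ hg 0 u v
      have e0 : dm D d0.x = d0.x * ((vecMulVec u v + vecMulVec v u) * J) := hD0
      have e1 : dm D d1.x = d1.x * 0 := by
        rw [Matrix.mul_zero]
        exact hD1 1 (by decide)
      obtain ⟨r, hr⟩ := d0.nC D
      have h1 := d0.vel D e0 r
      have h2 := d1.vel D e1 r
      rw [map_zero, zero_add, hn1 D hDμ] at h2
      have h3 : (c • (Pi.single p 1 : Up m → Ω), (0 : Up m → Ω)) =
          ((fun p : Up m => d0.b D p.1.1 p.1.2), (fun p : Up m => d1.b D p.1.1 p.1.2)) -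
            (d0.L.prod (d1.L ∘ₗ cj)) (dm D d0.C * d0.C⁻¹ - r • 1) := by
        rw [h1, h2]
        show _ = (_, _) - (d0.L (dm D d0.C * d0.C⁻¹ - r • 1), d1.L (cj (dm D d0.C * d0.C⁻¹ - r • 1)))
        rw [Prod.mk_sub_mk, add_sub_cancel_right, sub_self, hL]
      have h4 : (c • (Pi.single p 1 : Up m → Ω), (0 : Up m → Ω)) ∈ H ⊔ K := by
        rw [h3]
        exact Submodule.sub_mem _ (Submodule.mem_sup_left (hH D)) (Submodule.mem_sup_right (Submodule.mem_map_of_mem hr))
      have h5 := Submodule.smul_mem _ c⁻¹ h4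
      rwa [Prod.smul_mk, smul_smul, inv_mul_cancel₀ hc, one_smul, smul_zero] at h5
    have hp1 : ∀ p : Up m, ((0 : Up m → Ω), (Pi.single p 1 : Up m → Ω)) ∈ H ⊔ K := by
      intro p
      obtain ⟨u, v, c, hc, hL⟩ := d1.exL p
      obtain ⟨D, hD0, hD1, hDμ⟩ := der2_uv d0.skew hxJ hg 1 u v
      have e1 : dm D d1.x = d1.x * ((vecMulVec u v + vecMulVec v u) * d1.J.map (algebraMap k Ω)) := by
        rw [hJ]
        exact hD0
      have e0 : dm D d0.x = d0.x * 0 := by
        rw [Matrix.mul_zero]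
        exact hD1 0 (by decide)
      obtain ⟨r, hr⟩ := d0.nC D
      have h1 := d0.vel D e0 r
      have h2 := d1.vel D e1 r
      rw [map_zero, zero_add] at h1
      rw [hn1 D hDμ] at h2
      have h3 : ((0 : Up m → Ω), c • (Pi.single p 1 : Up m → Ω)) =
          ((fun p : Up m => d0.b D p.1.1 p.1.2), (fun p : Up m => d1.b D p.1.1 p.1.2)) -
            (d0.L.prod (d1.L ∘ₗ cj)) (dm D d0.C * d0.C⁻¹ - r • 1) := by
        rw [h1, h2]
        show _ = (_, _) - (d0.L (dm D d0.C * d0.C⁻¹ - r • 1), d1.L (cj (dm D d0.C * d0.C⁻¹ - r • 1)))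
        rw [Prod.mk_sub_mk, add_sub_cancel_right, sub_self, hL]
      have h4 : ((0 : Up m → Ω), c • (Pi.single p 1 : Up m → Ω)) ∈ H ⊔ K := by
        rw [h3]
        exact Submodule.sub_mem _ (Submodule.mem_sup_left (hH D)) (Submodule.mem_sup_right (Submodule.mem_map_of_mem hr))
      have h5 := Submodule.smul_mem _ c⁻¹ h4
      rwa [Prod.smul_mk, smul_smul, inv_mul_cancel₀ hc, one_smul, smul_zero] at h5
    rintro ⟨f, h⟩ _
    have h14 : ∀ f : Up m → Ω, f = ∑ p : Up m, f p • (Pi.single p 1 : Up m → Ω) := by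
      intro f
      funext z
      rw [Finset.sum_apply]
      simp only [Pi.smul_apply, Pi.single_apply, smul_eq_mul, mul_ite, mul_one, mul_zero]
      rw [Finset.sum_ite_eq Finset.univ z fun p => f p, if_pos (Finset.mem_univ _)]
    have h15 : (f, h) = ∑ p : Up m, f p • ((Pi.single p 1 : Up m → Ω), (0 : Up m → Ω)) +
        ∑ p : Up m, h p • ((0 : Up m → Ω), (Pi.single p 1 : Up m → Ω)) := by
      refine Prod.ext ?_ ?_
      · rw [Prod.fst_add, Prod.fst_sum, Prod.fst_sum]
        simp only [Prod.smul_fst, smul_zero, Finset.sum_const_zero, add_zero]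
        exact h14 f
      · rw [Prod.snd_add, Prod.snd_sum, Prod.snd_sum]
        simp only [Prod.smul_snd, smul_zero, Finset.sum_const_zero, zero_add]
        exact h14 h
    rw [h15]
    exact Submodule.add_mem _ (Submodule.sum_mem _ fun p _ => Submodule.smul_mem _ _ (hp0 p))
      (Submodule.sum_mem _ fun p _ => Submodule.smul_mem _ _ (hp1 p))
  have h1 : 2 * Fintype.card (Up m) = Module.finrank Ω (⊤ : Submodule Ω ((Up m → Ω) × (Up m → Ω))) := by
    rw [finrank_top, Module.finrank_prod, Module.finrank_fintype_fun_eq_card, two_mul]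
  rw [h1]
  calc Module.finrank Ω (⊤ : Submodule Ω ((Up m → Ω) × (Up m → Ω))) ≤
        Module.finrank Ω (H ⊔ K : Submodule Ω ((Up m → Ω) × (Up m → Ω))) :=
        Submodule.finrank_mono htop
    _ ≤ Module.finrank Ω H + Module.finrank Ω K := Submodule.finrank_add_le_finrank_add_finrank H K
    _ ≤ (Module.finrank Ω H0 + Module.finrank Ω H1) + (m + 1) := by
        refine Nat.add_le_add ?_ ?_
        · refine (Submodule.finrank_add_le_finrank_add_finrank _ _).trans (Nat.add_le_add ?_ ?_)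
          · exact Submodule.finrank_map_le _ _
          · exact Submodule.finrank_map_le _ _
        · exact (Submodule.finrank_map_le _ _).trans (N0_dim d0.hm d0.Jdet d0.JN)

end Dat

end Pool.Agent.Y118.HX
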