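import Pool.Agent.Y118.HX.Root
import Pool.Agent.Y118.HX.Comb2
import Pool.Agent.Y118.HX.Core

/-!
# Leading terms of tensors and the dichotomy
-/

set_option autoImplicit false
set_option maxHeartbeats 400000

open Matrix

namespace Pool.Agent.Y118.HX

section lead

variable {K : Type} [Field K] {G : Type} [AddCommGroup G] [LinearOrder G] [IsOrderedAddMonoid G] {n d : ℕ}

/-- the weight of a multi-index -/
def wt (ε : Fin n → G) (I : Fin d → Fin n) : G := ∑ l, ε (I l)

omit [LinearOrder G] [IsOrderedAddMonoid G] in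
lemma wt_update (ε : Fin n → G) (I : Fin d → Fin n) (l : Fin d) (j : Fin n) :
    wt ε (Function.update I l j) = wt ε I - ε (I l) + ε j := by
  unfold wt
  rw [← Finset.add_sum_erase _ _ (Finset.mem_univ l), ← Finset.add_sum_erase Finset.univ (fun l' => ε (I l')) (Finset.mem_univ l),
    Function.update_self]
  have h3 : ∑ x ∈ Finset.univ.erase l, ε (Function.update I l j x) = ∑ x ∈ Finset.univ.erase l, ε (I x) :=
    Finset.sum_congr rfl fun x hx => by rw [Function.update_of_ne (Finset.ne_of_mem_erase hx)]
  rw [h3]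
  abel

/-- the part of a tensor of weight `γ` -/
def res (ε : Fin n → G) (γ : G) (u : Tn K n d) : Tn K n d := fun I => if wt ε I = γ then u I else 0

omit [IsOrderedAddMonoid G] in
lemma act_res {ε : Fin n → G} (hε : ∀ i, ε i.rev = -ε i) (g : Fin n → K) (i j : Fin n) (u : Tn K n d) (I : Fin d → Fin n) :
    act (Xr g i j) u I = act (Xr g i j) (res ε (wt ε I - (ε i - ε j)) u) I := by
  rw [act_apply, act_apply]
  refine Finset.sum_congr rfl fun l _ => Finset.sum_congr rfl fun k _ => ?_
  by_cases h : (I l = i ∧ k = j) ∨ (I l = j.rev ∧ k = i.rev)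
  · have h1 : wt ε (Function.update I l k) = wt ε I - (ε i - ε j) := by
      rw [wt_update]
      rcases h with ⟨h2, h3⟩ | ⟨h2, h3⟩
      · rw [h2, h3]
        abel
      · rw [h2, h3, hε, hε]
        abel
    unfold res
    rw [if_pos h1]
  · push Not at h
    have h1 : Xr g i j (I l) k = 0 := by
      unfold Xr
      rw [Matrix.sub_apply, Matrix.smul_apply, Matrix.single_apply, Matrix.single_apply,
        if_neg (fun h2 => h.1 h2.1.symm h2.2.symm), if_neg (fun h2 => h.2 h2.1.symm h2.2.symm)]
      simp
    rw [h1, zero_mul, zero_mul]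

/-- the map whose kernel we bound -/
def Ph {ι : Type} [Fintype ι] (g : Fin n → K) (q : ι → Fin n × Fin n) (u : Tn K n d) : (ι → K) →ₗ[K] Tn K n d where
  toFun := fun f => ∑ p, f p • act (Xr g (q p).1 (q p).2) u
  map_add' := fun f h => by
    rw [← Finset.sum_add_distrib]
    exact Finset.sum_congr rfl fun p _ => by rw [Pi.add_apply, add_smul]
  map_smul' := fun c f => by
    rw [RingHom.id_apply, Finset.smul_sum]
    exact Finset.sum_congr rfl fun p _ => by rw [Pi.smul_apply, smul_eq_mul, mul_smul]

/-- **the leading term of a relation** -/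
lemma lead {ι : Type} [Fintype ι] {ε : Fin n → G} (hε : ∀ i, ε i.rev = -ε i) {g : Fin n → K} {q : ι → Fin n × Fin n}
    (hq : Function.Injective fun p => ε (q p).1 - ε (q p).2) {u : Tn K n d} {M : G} (hM : ∀ I, u I ≠ 0 → wt ε I ≤ M)
    {f : ι → K} (hf : f ≠ 0) (h0 : Ph g q u f = 0) :
    ∃ p, f p ≠ 0 ∧ act (Xr g (q p).1 (q p).2) (res ε M u) = 0 := by
  classical
  have hne : (Finset.univ.filter fun p => f p ≠ 0).Nonempty := by
    by_contra hcon
    rw [Finset.not_nonempty_iff_eq_empty] at hcon
    apply hf
    funext p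
    by_contra hp
    have : p ∈ Finset.univ.filter fun p => f p ≠ 0 := Finset.mem_filter.2 ⟨Finset.mem_univ _, hp⟩
    rw [hcon] at this
    exact Finset.notMem_empty _ this
  obtain ⟨p0, hp0, hmax⟩ := Finset.exists_max_image _ (fun p => ε (q p).1 - ε (q p).2) hne
  rw [Finset.mem_filter] at hp0
  refine ⟨p0, hp0.2, ?_⟩
  funext I
  by_cases hI : wt ε I - (ε (q p0).1 - ε (q p0).2) = M
  · have h1 : ∑ p, f p * act (Xr g (q p).1 (q p).2) u I = 0 := by
      have h2 := congrFun h0 I
      have h3 : (Ph g q u f) I = ∑ p, f p * act (Xr g (q p).1 (q p).2) u I := by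
        show (∑ p, f p • act (Xr g (q p).1 (q p).2) u) I = _
        rw [Finset.sum_apply]
        rfl
      rw [h3] at h2
      exact h2
    rw [Finset.sum_eq_single p0] at h1
    · have h4 := (mul_eq_zero.1 h1).resolve_left hp0.2
      rw [act_res hε, hI] at h4
      exact h4
    · intro p _ hp
      by_cases hfp : f p = 0
      · rw [hfp, zero_mul]
      · have h5 : ε (q p).1 - ε (q p).2 < ε (q p0).1 - ε (q p0).2 :=
          lt_of_le_of_ne (hmax p (Finset.mem_filter.2 ⟨Finset.mem_univ _, hfp⟩)) fun h => hp (hq h)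
        have h6 : res ε (wt ε I - (ε (q p).1 - ε (q p).2)) u = 0 := by
          funext J
          unfold res
          split_ifs with h7
          · by_contra h8
            have h9 := hM J h8
            rw [h7, ← hI] at h9
            exact absurd h9 (not_le.2 (sub_lt_sub_left h5 _))
          · rfl
        rw [act_res hε, h6, map_zero, Pi.zero_apply, mul_zero]
    · intro h
      exact absurd (Finset.mem_univ _) h
  · rw [act_res hε]
    have h6 : res ε (wt ε I - (ε (q p0).1 - ε (q p0).2)) (res ε M u) = 0 := by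
      funext J
      unfold res
      split_ifs with h7 h8
      · exact absurd (h7.symm.trans h8) hI
      · rfl
      · rfl
    rw [h6, map_zero]

/-- the bound for the dimension -/
lemma lead_dim {ι : Type} [Fintype ι] {ε : Fin n → G} (hε : ∀ i, ε i.rev = -ε i) {g : Fin n → K} {q : ι → Fin n × Fin n}
    (hq : Function.Injective fun p => ε (q p).1 - ε (q p).2) {u : Tn K n d} {M : G} (hM : ∀ I, u I ≠ 0 → wt ε I ≤ M)
    (S : ι → Prop) [DecidablePred S] (hS : ∀ p, act (Xr g (q p).1 (q p).2) (res ε M u) = 0 → S p) :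
    Module.finrank K (LinearMap.ker (Ph g q u)) ≤ Fintype.card {p // S p} := by
  let f : (ι → K) →ₗ[K] ({p // S p} → K) := LinearMap.funLeft K K Subtype.val
  have hinj : Function.Injective (f.comp (LinearMap.ker (Ph g q u)).subtype) := by
    rw [← LinearMap.ker_eq_bot, LinearMap.ker_eq_bot']
    rintro ⟨a, ha⟩ h0
    apply Subtype.ext
    show a = 0
    by_contra hne
    obtain ⟨p, hp, hp2⟩ := lead hε hq hM hne (LinearMap.mem_ker.1 ha)
    exact hp (congrFun h0 ⟨p, hS p hp2⟩)
  have h := LinearMap.finrank_le_finrank_of_injective hinj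
  rwa [Module.finrank_fintype_fun_eq_card] at h

end lead

section lex

variable {n d : ℕ}

/-- the standard weights -/
def el (n : ℕ) (i : Fin n) : Lex (Fin n → ℤ) := toLex fun k => (if i = k then 1 else 0) - (if i = k.rev then 1 else 0)

lemma el_rev (i : Fin n) : el n i.rev = -el n i := by
  show toLex _ = -toLex _
  rw [← toLex_neg]
  congr 1
  funext k
  rw [Pi.neg_apply]
  have h1 : (i.rev = k) = (i = k.rev) := propext ⟨fun h => by rw [← h, Fin.rev_rev], fun h => by rw [h, Fin.rev_rev]⟩
  have h2 : (i.rev = k.rev) = (i = k) := propext ⟨fun h => Fin.rev_injective h, fun h => by rw [h]⟩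
  simp only [h1, h2]
  ring

lemma wt_el (I : Fin d → Fin n) : wt (el n) I = toLex (ch I) := by
  unfold wt el
  have : ∀ (s : Finset (Fin d)), ∑ l ∈ s, (toLex fun k => ((if I l = k then 1 else 0) - (if I l = k.rev then 1 else 0)) :
      Lex (Fin n → ℤ)) = toLex (∑ l ∈ s, fun k => ((if I l = k then 1 else 0) - (if I l = k.rev then 1 else 0))) := by
    classical
    intro s
    induction s using Finset.induction_on with
    | empty => rfl
    | insert a s ha ih => rw [Finset.sum_insert ha, Finset.sum_insert ha, ih]; rfl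
  rw [this]
  congr 1
  funext k
  rw [Finset.sum_apply]
  rfl

/-- distinct positive roots are distinct -/
lemma el_inj {m : ℕ} : Function.Injective fun p : Up m => el (2 * m) p.1.1 - el (2 * m) p.1.2 := by
  rintro ⟨⟨a, q⟩, h1, h2⟩ ⟨⟨b, r⟩, h3, h4⟩ h
  simp only at h1 h2 h3 h4
  have h5 : ∀ k : Fin (2 * m), (((if a = k then 1 else 0) - (if a = k.rev then 1 else 0)) -
      ((if q = k then 1 else 0) - (if q = k.rev then 1 else 0)) : ℤ) =
      ((if b = k then 1 else 0) - (if b = k.rev then 1 else 0)) - ((if r = k then 1 else 0) - (if r = k.rev then 1 else 0)) := by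
    intro k
    exact congrFun (congrArg ofLex h) k
  have ha := a.2
  have hq := q.2
  have hb := b.2
  have hr := r.2
  have hself : ∀ x : Fin (2 * m), ¬ x = x.rev := fun x hx => by
    have h6 := congrArg Fin.val hx
    rw [Fin.val_rev] at h6
    have := x.2
    omega
  have key : ∀ {a q b r : Fin (2 * m)}, (a : ℕ) < q → (((if a = a then 1 else 0) - (if a = a.rev then 1 else 0)) -
      ((if q = a then 1 else 0) - (if q = a.rev then 1 else 0)) : ℤ) =
      ((if b = a then 1 else 0) - (if b = a.rev then 1 else 0)) - ((if r = a then 1 else 0) - (if r = a.rev then 1 else 0)) →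
      b ≠ a → r = a.rev := by
    intro a q b r haq e hba
    by_contra hra
    rw [if_pos rfl, if_neg (hself a), if_neg (fun h6 => by rw [h6] at haq; exact lt_irrefl _ haq), if_neg hba, if_neg hra] at e
    split_ifs at e <;> omega
  have hab : a = b := by
    by_contra hne
    have e1 := key h1 (h5 a) (fun h6 => hne h6.symm)
    have e2 := key h3 (h5 b).symm hne
    have f1 := congrArg Fin.val e1
    have f2 := congrArg Fin.val e2
    rw [Fin.val_rev] at f1 f2
    apply hne
    apply Fin.ext
    omega
  subst hab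
  have hqr : q = r := by
    have e3 := h5 q
    by_contra hne
    rw [if_pos (rfl : q = q), if_neg (hself q), if_neg (fun h6 : r = q => hne h6.symm)] at e3
    split_ifs at e3 <;> omega
  subst hqr
  rfl

end lex

end Pool.Agent.Y118.HX
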