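import Pool.Agent.Y118.HX.Ev
import Pool.Agent.Y118.HX.Lead

/-!
# Complex conjugation exchanges the positive and the negative roots
-/

set_option autoImplicit false
set_option maxHeartbeats 400000

open Matrix

namespace Pool.Agent.Y118.HX

variable {n d : ℕ}

lemma anti_form {K : Type} [Field K] (w : Matrix (Fin n) (Fin n) K) (γ : Fin n → K) (a b : Fin n) :
    (w.transpose * (Matrix.of fun i j => if j = i.rev then γ i else 0) * w) a b = ∑ i, w i a * γ i * w i.rev b := by
  rw [Matrix.mul_assoc, Matrix.mul_apply]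
  refine Finset.sum_congr rfl fun i _ => ?_
  rw [Matrix.transpose_apply, Matrix.mul_apply, Finset.sum_eq_single i.rev]
  · rw [Matrix.of_apply, if_pos rfl, mul_assoc]
  · intro j _ hj
    rw [Matrix.of_apply, if_neg hj, zero_mul]
  · intro h
    exact absurd (Finset.mem_univ _) h

section conj

variable {w : Matrix (Fin n) (Fin n) ℂ} {r : Fin n → ℂ} (hr : ∀ i, star (w i) = r i • w i.rev)

include hr

lemma star_ev (T : Tn ℚ n d) (I : Fin d → Fin n) :
    star (ev w (cmT T) I) = (∏ l, r (I l)) * ev w (cmT T) (fun l => (I l).rev) := by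
  rw [ev_apply, ev_apply, star_sum, Finset.mul_sum]
  refine Finset.sum_congr rfl fun J _ => ?_
  rw [star_mul', star_prod, ← mul_assoc, ← Finset.prod_mul_distrib]
  have h1 : star (cmT T J) = cmT T J := by
    unfold cmT
    simp
  rw [h1]
  congr 1
  exact Finset.prod_congr rfl fun l _ => congrFun (hr (I l)) (J l)

lemma r_rel {γ : Fin n → ℂ} {Q : Matrix (Fin n) (Fin n) ℚ} (hw : w.det ≠ 0)
    (hQ : w.transpose * (Matrix.of fun i j => if j = i.rev then γ i else 0) * w = Q.map (fun q : ℚ => (q : ℂ)))
    (i : Fin n) : γ i = r i * r i.rev * star (γ i.rev) := by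
  have h1 : w.transpose * (Matrix.of fun i j : Fin n => if j = i.rev then (fun i => r i * r i.rev * star (γ i.rev)) i else 0) * w =
      Q.map (fun q : ℚ => (q : ℂ)) := by
    ext a b
    rw [anti_form]
    have h2 := congrFun (congrFun hQ a) b
    rw [anti_form] at h2
    have h3 := congrArg star h2
    rw [star_sum, Matrix.map_apply] at h3
    have h4 : star ((Q a b : ℚ) : ℂ) = ((Q a b : ℚ) : ℂ) := by simp
    rw [h4] at h3
    rw [Matrix.map_apply, ← h3, ← Equiv.sum_comp Fin.revPerm (fun i => w i a * (r i * r i.rev * star (γ i.rev)) * w i.rev b)]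
    refine Finset.sum_congr rfl fun i _ => ?_
    rw [Fin.revPerm_apply, Fin.rev_rev, star_mul', star_mul']
    have h5 : star (w i a) = r i * w i.rev a := congrFun (hr i) a
    have h6 : star (w i.rev b) = r i.rev * w i b := by
      have := congrFun (hr i.rev) b
      rwa [Fin.rev_rev] at this
    rw [h5, h6]
    ring
  have hu : IsUnit w.det := isUnit_iff_ne_zero.2 hw
  have hut : IsUnit w.transpose.det := by rw [Matrix.det_transpose]; exact hu
  have h4 : ∀ X : Matrix (Fin n) (Fin n) ℂ, (w.transpose)⁻¹ * (w.transpose * X * w) * w⁻¹ = X := by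
    intro X
    calc (w.transpose)⁻¹ * (w.transpose * X * w) * w⁻¹ = ((w.transpose)⁻¹ * w.transpose) * X * (w * w⁻¹) := by
          simp only [Matrix.mul_assoc]
      _ = X := by rw [Matrix.nonsing_inv_mul _ hut, Matrix.mul_nonsing_inv _ hu, Matrix.one_mul, Matrix.mul_one]
  have h5 := congrArg (fun Z => (w.transpose)⁻¹ * Z * w⁻¹) (hQ.trans h1.symm)
  simp only [h4] at h5
  have h6 := congrFun (congrFun h5 i) i.rev
  rw [Matrix.of_apply, Matrix.of_apply, if_pos rfl, if_pos rfl] at h6
  exact h6

end conj

section star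

variable {r γ : Fin n → ℂ} (hr0 : ∀ i, r i ≠ 0) (hγ0 : ∀ i, γ i ≠ 0) (hγr : ∀ i, γ i.rev = -γ i)
  (hrel : ∀ i, γ i = r i * r i.rev * star (γ i.rev))
  {u : Tn ℂ n d} (hu : ∀ I, star (u I) = (∏ l, r (I l)) * u (fun l => (I l).rev))

include hr0 hγ0 hγr hrel in
lemma star_quot (i j : Fin n) : star (γ i / γ j) * r i.rev = r j.rev * ((γ i / γ j) * (r j / r i)) := by
  have h1 : ∀ i, star (γ i) = -(γ i / (r i * r i.rev)) := by
    intro i
    have h2 := hrel i
    rw [hγr, star_neg] at h2
    have h3 := hr0 i
    have h4 := hr0 i.rev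
    rw [eq_neg_iff_add_eq_zero]
    field_simp
    linear_combination h2
  have g1 := hγ0 i
  have g2 := hγ0 j
  have r1 := hr0 i
  have r2 := hr0 j
  have r3 := hr0 i.rev
  have r4 := hr0 j.rev
  rw [star_div₀, h1, h1]
  field_simp

include hr0 hγ0 hγr hrel hu in
lemma star_act (i j : Fin n) (I : Fin d → Fin n) : star (act (Xr γ i j) u I) =
    (∏ l, r (I l)) * (-(γ i / γ j) * (r j / r i)) * act (Xr γ j i) u (fun l => (I l).rev) := by
  rw [act_apply, act_apply, star_sum, Finset.mul_sum]
  refine Finset.sum_congr rfl fun l _ => ?_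
  rw [star_sum, Finset.mul_sum, ← Equiv.sum_comp Fin.revPerm (fun k => (∏ l, r (I l)) * (-(γ i / γ j) * (r j / r i)) *
    (Xr γ j i (I l).rev k * u (Function.update (fun l => (I l).rev) l k)))]
  refine Finset.sum_congr rfl fun k _ => ?_
  rw [Fin.revPerm_apply, star_mul', hu]
  have h1 : (fun l' => (Function.update I l k l').rev) = Function.update (fun l => (I l).rev) l k.rev := by
    funext l'
    by_cases h : l' = l
    · subst h
      rw [Function.update_self, Function.update_self]
    · rw [Function.update_of_ne h, Function.update_of_ne h]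
  rw [h1]
  have h2 : ∏ l', r (Function.update I l k l') = r k * ∏ l' ∈ Finset.univ.erase l, r (I l') := by
    rw [← Finset.mul_prod_erase _ _ (Finset.mem_univ l), Function.update_self]
    congr 1
    exact Finset.prod_congr rfl fun l' hl' => by rw [Function.update_of_ne (Finset.ne_of_mem_erase hl')]
  have h3 : ∏ l', r (I l') = r (I l) * ∏ l' ∈ Finset.univ.erase l, r (I l') := by
    rw [← Finset.mul_prod_erase _ _ (Finset.mem_univ l)]
  rw [h2, h3]
  set a := I l with ha
  -- the identity for the entries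
  have id1 : r i * (-(γ i / γ j) * (r j / r i)) * (-(γ j / γ i)) = r j := by
    have g1 := hγ0 i
    have g2 := hγ0 j
    have r1 := hr0 i
    field_simp
  have id2 := star_quot hr0 hγ0 hγr hrel i j
  have e1 : Xr γ i j a k = (if i = a ∧ j = k then 1 else 0) - (γ i / γ j) * (if j.rev = a ∧ i.rev = k then 1 else 0) := by
    unfold Xr
    rw [Matrix.sub_apply, Matrix.smul_apply, Matrix.single_apply, Matrix.single_apply, smul_eq_mul]
  have e2 : Xr γ j i a.rev k.rev = (if j.rev = a ∧ i.rev = k then 1 else 0) - (γ j / γ i) * (if i = a ∧ j = k then 1 else 0) := by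
    unfold Xr
    rw [Matrix.sub_apply, Matrix.smul_apply, Matrix.single_apply, Matrix.single_apply, smul_eq_mul]
    have q1 : (j = a.rev ∧ i = k.rev) = (j.rev = a ∧ i.rev = k) := by
      refine propext ⟨fun h => ⟨by rw [h.1, Fin.rev_rev], by rw [h.2, Fin.rev_rev]⟩,
        fun h => ⟨by rw [← h.1, Fin.rev_rev], by rw [← h.2, Fin.rev_rev]⟩⟩
    have q2 : (i.rev = a.rev ∧ j.rev = k.rev) = (i = a ∧ j = k) := by
      refine propext ⟨fun h => ⟨Fin.rev_injective h.1, Fin.rev_injective h.2⟩, fun h => ⟨by rw [h.1], by rw [h.2]⟩⟩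
    simp only [q1, q2]
  have key : star (Xr γ i j a k) * r k = r a * (-(γ i / γ j) * (r j / r i)) * Xr γ j i a.rev k.rev := by
    rw [e1, e2]
    by_cases h4 : i = a ∧ j = k
    · by_cases h5 : j.rev = a ∧ i.rev = k
      · rw [if_pos h4, if_pos h5, star_sub, star_mul', star_one]
        have k1 : r k = r j := by rw [h4.2]
        have k2 : r k = r i.rev := by rw [h5.2]
        have k3 : r a = r i := by rw [h4.1]
        have k4 : r a = r j.rev := by rw [h5.1]
        have e3 : (1 - star (γ i / γ j) * 1) * r k = r k - star (γ i / γ j) * r k := by ring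
        have e4 : r a * (-(γ i / γ j) * (r j / r i)) * (1 - γ j / γ i * 1) =
            r a * (-(γ i / γ j) * (r j / r i)) * (-(γ j / γ i)) - r a * ((γ i / γ j) * (r j / r i)) := by ring
        rw [e3, e4]
        congr 1
        · rw [k1, k3, id1]
        · rw [k2, k4, id2]
      · rw [if_pos h4, if_neg h5, mul_zero, sub_zero, star_one, one_mul, zero_sub, mul_one, ← h4.1, ← h4.2, id1]
    · by_cases h5 : j.rev = a ∧ i.rev = k
      · rw [if_neg h4, if_pos h5, mul_one, zero_sub, mul_zero, sub_zero, mul_one, star_neg, ← h5.1, ← h5.2, neg_mul, id2]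
        ring
      · rw [if_neg h4, if_neg h5]
        simp
  linear_combination (∏ l' ∈ Finset.univ.erase l, r (I l')) * u (Function.update (fun l => (I l).rev) l k.rev) * key

include hr0 hγ0 hγr hrel hu in
/-- **the negative roots** -/
theorem neg_dim {ι : Type} [Fintype ι] (q : ι → Fin n × Fin n) :
    Module.finrank ℂ (LinearMap.ker (Ph γ q u)) ≤
      Module.finrank ℂ (LinearMap.ker (Ph γ (fun p => ((q p).2, (q p).1)) u)) := by
  set c : ι → ℂ := fun p => -(γ (q p).1 / γ (q p).2) * (r (q p).2 / r (q p).1) with hc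
  have hc0 : ∀ p, c p ≠ 0 := fun p =>
    mul_ne_zero (neg_ne_zero.2 (div_ne_zero (hγ0 _) (hγ0 _))) (div_ne_zero (hr0 _) (hr0 _))
  have hmem : ∀ f ∈ LinearMap.ker (Ph γ q u), (fun p => star (f p) * c p) ∈
      LinearMap.ker (Ph γ (fun p => ((q p).2, (q p).1)) u) := by
    intro f hf
    rw [LinearMap.mem_ker] at hf ⊢
    funext I
    have h1 : ∑ p, f p * act (Xr γ (q p).1 (q p).2) u (fun l => (I l).rev) = 0 := by
      have h2 := congrFun hf (fun l => (I l).rev)
      have h3 : (Ph γ q u f) (fun l => (I l).rev) = ∑ p, f p * act (Xr γ (q p).1 (q p).2) u (fun l => (I l).rev) := by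
        show (∑ p, f p • act (Xr γ (q p).1 (q p).2) u) (fun l => (I l).rev) = _
        rw [Finset.sum_apply]
        rfl
      rw [h3] at h2
      exact h2
    have h2 := congrArg star h1
    rw [star_sum, star_zero] at h2
    have h3 : ∀ p, star (f p * act (Xr γ (q p).1 (q p).2) u (fun l => (I l).rev)) =
        (∏ l, r (I l).rev) * ((star (f p) * c p) * act (Xr γ (q p).2 (q p).1) u I) := by
      intro p
      rw [star_mul', star_act hr0 hγ0 hγr hrel hu]
      have h4 : (fun l => ((I l).rev).rev) = I := by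
        funext l
        rw [Fin.rev_rev]
      rw [h4, hc]
      ring
    simp only [h3] at h2
    rw [← Finset.mul_sum] at h2
    have h5 := (mul_eq_zero.1 h2).resolve_left (Finset.prod_ne_zero_iff.2 fun l _ => hr0 _)
    show (∑ p, (star (f p) * c p) • act (Xr γ (q p).2 (q p).1) u) I = 0
    rw [Finset.sum_apply]
    exact h5
  set bas := Module.finBasis ℂ (LinearMap.ker (Ph γ q u)) with hbas
  have hli : LinearIndependent ℂ (fun i => (⟨fun p => star ((bas i : ι → ℂ) p) * c p, hmem _ (bas i).2⟩ :
      LinearMap.ker (Ph γ (fun p => ((q p).2, (q p).1)) u))) := by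
    rw [Fintype.linearIndependent_iff]
    intro a ha
    have h1 : ∑ i, star (a i) • bas i = 0 := by
      apply Subtype.ext
      funext p
      have h2 := congrFun (congrArg Subtype.val ha) p
      rw [Submodule.coe_sum, Finset.sum_apply] at h2
      have h3 : ∑ i, a i * (star ((bas i : ι → ℂ) p) * c p) = 0 := h2
      have h4 : (∑ i, a i * star ((bas i : ι → ℂ) p)) * c p = 0 := by
        rw [← h3, Finset.sum_mul]
        exact Finset.sum_congr rfl fun i _ => by ring
      have h5 := congrArg star ((mul_eq_zero.1 h4).resolve_right (hc0 p))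
      rw [star_sum, star_zero] at h5
      rw [Submodule.coe_sum, Finset.sum_apply]
      show ∑ i, star (a i) * (bas i : ι → ℂ) p = 0
      rw [← h5]
      refine Finset.sum_congr rfl fun i _ => ?_
      rw [star_mul', star_star]
    have h2 := Fintype.linearIndependent_iff.1 bas.linearIndependent _ h1
    intro i
    exact star_eq_zero.1 (h2 i)
  have h6 := hli.fintype_card_le_finrank
  rwa [Fintype.card_fin] at h6

end star

end Pool.Agent.Y118.HX
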