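import Pool.Agent.Y118.HX.Tr
import Pool.Agent.Y118.HX.Neg
import Pool.Agent.Y118.HX.Four
import Pool.Agent.Y118.HX.Ex

/-!
# All Hodge tensors at the points `1 / t` are invariant
-/

set_option autoImplicit false
set_option maxHeartbeats 400000

open Matrix Filter

namespace Pool.Agent.Y118.HX

open Pool.Agent.Y118.UL (mk mk_eq mk_eq_zero mk_ne_zero mk_surj ev_ge qc qc_mk algebraMap_eq U)
open Pool.Agent.Y119.HY Pool.Agent.Y119.HZ
open Pool.Agent.Y118.CM

section evx

variable {K : Type} [Field K] {n d : ℕ}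

/-- evaluation of a tensor at vectors -/
def evx (x : Fin d → Fin n → K) (u : Tn K n d) : K := ∑ J : Fin d → Fin n, (∏ l, x l (J l)) * u J

lemma ev_evx (w : Matrix (Fin n) (Fin n) K) (u : Tn K n d) (I : Fin d → Fin n) : ev w u I = evx (fun l => w (I l)) u := rfl

/-- **the infinitesimal action** -/
theorem evx_act (x : Fin d → Fin n → K) (X : Matrix (Fin n) (Fin n) K) (u : Tn K n d) :
    ∑ l, evx (Function.update x l (x l ᵥ* X)) u = evx x (act X u) := by
  unfold evx
  simp only [act_apply]
  have h1 : ∑ J : Fin d → Fin n, (∏ l, x l (J l)) * ∑ l, ∑ j, X (J l) j * u (Function.update J l j) =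
      ∑ l, ∑ J : Fin d → Fin n, ∑ j, (∏ l', x l' (J l')) * (X (J l) j * u (Function.update J l j)) := by
    simp only [Finset.mul_sum]
    rw [Finset.sum_comm]
  rw [h1]
  refine Finset.sum_congr rfl fun l _ => ?_
  have h2 : ∑ J : Fin d → Fin n, ∑ j, (∏ l', x l' (J l')) * (X (J l) j * u (Function.update J l j)) =
      ∑ y : (Fin d → Fin n) × Fin n, (∏ l', x l' (y.1 l')) * (X (y.1 l) y.2 * u (Function.update y.1 l y.2)) := by
    rw [Fintype.sum_prod_type]
  rw [h2, ← Equiv.sum_comp (sw l)]
  have h3 : ∀ y : (Fin d → Fin n) × Fin n, (∏ l', x l' ((sw l y).1 l')) *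
      (X ((sw l y).1 l) (sw l y).2 * u (Function.update (sw l y).1 l (sw l y).2)) =
      (∏ l' ∈ Finset.univ.erase l, x l' (y.1 l')) * ((x l y.2 * X y.2 (y.1 l)) * u y.1) := by
    rintro ⟨J, j⟩
    show (∏ l', x l' (Function.update J l j l')) *
      (X (Function.update J l j l) (J l) * u (Function.update (Function.update J l j) l (J l))) = _
    rw [Function.update_idem, Function.update_eq_self, Function.update_self, ← Finset.mul_prod_erase _ _ (Finset.mem_univ l),
      Function.update_self]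
    have h4 : ∏ l' ∈ Finset.univ.erase l, x l' (Function.update J l j l') = ∏ l' ∈ Finset.univ.erase l, x l' (J l') :=
      Finset.prod_congr rfl fun l' hl' => by rw [Function.update_of_ne (Finset.ne_of_mem_erase hl')]
    rw [h4]
    ring
  simp only [h3]
  rw [Fintype.sum_prod_type]
  refine Finset.sum_congr rfl fun J _ => ?_
  rw [← Finset.mul_prod_erase _ _ (Finset.mem_univ l), Function.update_self]
  have h4 : ∏ l' ∈ Finset.univ.erase l, Function.update x l (x l ᵥ* X) l' (J l') = ∏ l' ∈ Finset.univ.erase l, x l' (J l') :=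
    Finset.prod_congr rfl fun l' hl' => by rw [Function.update_of_ne (Finset.ne_of_mem_erase hl')]
  rw [h4]
  show (∑ j, x l j * X j (J l)) * (∏ l' ∈ Finset.univ.erase l, x l' (J l')) * u J = _
  simp only [Finset.sum_mul]
  refine Finset.sum_congr rfl fun j _ => ?_
  ring

end evx

section sp

variable {K : Type} [Field K] {n d : ℕ}

lemma form_ent {γ : Fin n → K} {B : Matrix (Fin n) (Fin n) K}
    (h : B.transpose * (Matrix.of fun i j => if j = i.rev then γ i else 0) +
      (Matrix.of fun i j => if j = i.rev then γ i else 0) * B = 0) (i j : Fin n) :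
    γ j.rev * B j.rev i.rev + γ i.rev * B i j = 0 := by
  set Γ : Matrix (Fin n) (Fin n) K := Matrix.of fun i j => if j = i.rev then γ i else 0 with hΓ
  have h5 := congrFun (congrFun h i.rev) j
  have h6 : (B.transpose * Γ) i.rev j = B j.rev i.rev * γ j.rev := by
    rw [Matrix.mul_apply, Finset.sum_eq_single j.rev]
    · rw [Matrix.transpose_apply, hΓ, Matrix.of_apply, if_pos (Fin.rev_rev j).symm]
    · intro r _ hr
      rw [hΓ, Matrix.of_apply, if_neg, mul_zero]
      intro h
      exact hr (by rw [h, Fin.rev_rev])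
    · intro h
      exact absurd (Finset.mem_univ _) h
  have h7 : (Γ * B) i.rev j = γ i.rev * B i j := by
    rw [Matrix.mul_apply, Finset.sum_eq_single i]
    · rw [hΓ, Matrix.of_apply, if_pos (Fin.rev_rev i).symm]
    · intro r _ hr
      rw [hΓ, Matrix.of_apply, if_neg, zero_mul]
      intro h
      exact hr (by rw [h, Fin.rev_rev])
    · intro h
      exact absurd (Finset.mem_univ _) h
  rw [Matrix.add_apply, h6, h7, Matrix.zero_apply] at h5
  rw [← h5]
  ring

/-- symplectic matrices are combinations of root vectors and diagonal matrices -/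
theorem sp_zero [CharZero K] {g : Fin n → K} (hg : ∀ i, g i ≠ 0)
    {B : Matrix (Fin n) (Fin n) K} (hB : ∀ i j, g j.rev * B j.rev i.rev + g i.rev * B i j = 0)
    {u : Tn K n d} (h1 : ∀ i j, i ≠ j → act (Xr g i j) u = 0) (h2 : ∀ I, u I ≠ 0 → ∀ k, ch I k = 0) : act B u = 0 := by
  have hdec : (2 : K) • B = (∑ i, ∑ j, (if i = j then 0 else B i j) • Xr g i j) + Matrix.diagonal fun i => 2 * B i i := by
    ext a b
    rw [Matrix.smul_apply, Matrix.add_apply, Matrix.sum_apply]
    simp only [Matrix.sum_apply, Matrix.smul_apply]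
    have e1 : ∀ i j : Fin n, (if i = j then 0 else B i j) • Xr g i j a b =
        (if i = a ∧ j = b then (if i = j then 0 else B i j) else 0) -
        (if i = b.rev ∧ j = a.rev then (if i = j then 0 else B i j) * (g i / g j) else 0) := by
      intro i j
      unfold Xr
      rw [Matrix.sub_apply, Matrix.smul_apply, Matrix.single_apply, Matrix.single_apply, smul_eq_mul, smul_eq_mul]
      have q1 : (j.rev = a ∧ i.rev = b) = (i = b.rev ∧ j = a.rev) := by
        refine propext ⟨fun h => ⟨by rw [← h.2, Fin.rev_rev], by rw [← h.1, Fin.rev_rev]⟩,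
          fun h => ⟨by rw [h.2, Fin.rev_rev], by rw [h.1, Fin.rev_rev]⟩⟩
      simp only [q1]
      generalize (if i = j then (0 : K) else B i j) = F
      split_ifs <;> ring
    simp only [e1, Finset.sum_sub_distrib]
    have e2 : ∀ (a b : Fin n) (f : Fin n → Fin n → K), ∑ i, ∑ j, (if i = a ∧ j = b then f i j else 0) = f a b := by
      intro a b f
      rw [Finset.sum_eq_single a, Finset.sum_eq_single b]
      · rw [if_pos ⟨rfl, rfl⟩]
      · intro j _ hj
        rw [if_neg (fun h => hj h.2)]
      · intro h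
        exact absurd (Finset.mem_univ _) h
      · intro i _ hi
        refine Finset.sum_eq_zero fun j _ => ?_
        rw [if_neg (fun h => hi h.1)]
      · intro h
        exact absurd (Finset.mem_univ _) h
    rw [e2 a b (fun i j => if i = j then 0 else B i j), e2 b.rev a.rev (fun i j => (if i = j then 0 else B i j) * (g i / g j)),
      Matrix.diagonal_apply, smul_eq_mul]
    by_cases hab : a = b
    · subst hab
      simp
    · have hab' : ¬ b.rev = a.rev := fun h => hab (Fin.rev_injective h).symm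
      rw [if_neg hab, if_neg hab, if_neg hab']
      have h3 := hB a b
      have h4 := hg a.rev
      field_simp
      linear_combination h3
  have h3 : (2 : K) • act B u = 0 := by
    rw [← LinearMap.smul_apply, ← map_smul, hdec, map_add, LinearMap.add_apply, map_sum, LinearMap.sum_apply,
      Finset.sum_eq_zero, zero_add]
    · funext I
      rw [act_diag, Pi.zero_apply]
      by_cases hI : u I = 0
      · rw [hI, mul_zero]
      · have hv : ∀ i : Fin n, (2 : K) * B i.rev i.rev = -(2 * B i i) := by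
          intro i
          have h4 := hB i i
          have h5 := hg i.rev
          have h6 : g i.rev * (B i.rev i.rev + B i i) = 0 := by linear_combination h4
          have h7 := (mul_eq_zero.1 h6).resolve_left h5
          linear_combination 2 * h7
        have h4 : ∑ i, (2 * B i i) * ((ch I i : ℤ) : K) = 2 * ∑ l, 2 * B (I l) (I l) := by
          have hch : ∀ i : Fin n, ((ch I i : ℤ) : K) = ∑ l, ((if I l = i then (1 : K) else 0) - (if I l = i.rev then 1 else 0)) := by
            intro i
            unfold ch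
            push_cast
            rfl
          simp only [hch, Finset.mul_sum]
          rw [Finset.sum_comm]
          refine Finset.sum_congr rfl fun l _ => ?_
          have h5 : ∀ i : Fin n, (2 * B i i) * ((if I l = i then (1 : K) else 0) - (if I l = i.rev then 1 else 0)) =
              (if I l = i then 2 * B i i else 0) - (if (I l).rev = i then 2 * B i i else 0) := by
            intro i
            have h6 : (I l = i.rev) = ((I l).rev = i) := propext ⟨fun h => by rw [h, Fin.rev_rev], fun h => by rw [← h, Fin.rev_rev]⟩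
            simp only [h6]
            split_ifs <;> ring
          simp only [h5]
          rw [Finset.sum_sub_distrib, Finset.sum_ite_eq, Finset.sum_ite_eq, if_pos (Finset.mem_univ _),
            if_pos (Finset.mem_univ _), hv]
          ring
        have h5 : ∑ i, (2 * B i i) * ((ch I i : ℤ) : K) = 0 := by
          refine Finset.sum_eq_zero fun i _ => ?_
          rw [h2 I hI, Int.cast_zero, mul_zero]
        rw [h4] at h5
        rw [(mul_eq_zero.1 h5).resolve_left two_ne_zero, zero_mul]
    · intro i _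
      rw [map_sum, LinearMap.sum_apply]
      refine Finset.sum_eq_zero fun j _ => ?_
      rw [map_smul, LinearMap.smul_apply]
      by_cases hij : i = j
      · rw [if_pos hij, zero_smul]
      · rw [h1 i j hij, smul_zero]
  exact (smul_eq_zero.1 h3).resolve_left two_ne_zero

end sp

variable {m : ℕ} {β : Fin m → ℚ}

/-- the data at the point `1 / t` with the form -/
theorem pd_exists' (hm : 1 ≤ m) (hβ : ∀ j, ∀ a : ℤ, β j ≠ a) {t : ℕ} (ht : 2 ≤ t)
    {C : Matrix (Fin (2 * m)) (Fin (2 * m)) ℂ} {M Qb : Matrix (Fin (2 * m)) (Fin (2 * m)) ℚ} {s κ : ℂ}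
    (hC : C.det ≠ 0) (hs : s ≠ 0) (hM : C * cm M = s • (cm (Am (2 * m)) * C))
    (hP : C.transpose * cm (J0 (2 * m)) * C = κ • cm Qb)
    (hopp : ∀ p ≤ 2 * m, Fl (fun i => perr β t i ᵥ* C) (cm Qb⁻¹) p ⊓
      cj (Fl (fun i => perr β t i ᵥ* C) (cm Qb⁻¹) (2 * m - p)) = ⊥) :
    ∃ d : PD β, d.t = t ∧ d.Qb = Qb ∧ (∀ i : Fin (2 * m), d.w i ∈ Fl (fun i => perr β t i ᵥ* C) (cm Qb⁻¹) (2 * m - 1 - i)) ∧
      (∀ i : Fin (2 * m), star (d.w i) ∈ Fl (fun i => perr β t i ᵥ* C) (cm Qb⁻¹) i) ∧
      (∀ i : Fin (2 * m), ∀ z ∈ Fl (fun i => perr β t i ᵥ* C) (cm Qb⁻¹) (2 * m - 1 - i),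
        star z ∈ Fl (fun i => perr β t i ᵥ* C) (cm Qb⁻¹) i → ∃ c : ℂ, z = c • d.w i) := by
  have hQ : QD (2 * m) (QB β) := QD_QB hm (beta' hβ)
  obtain ⟨hκ, hQb, hsk⟩ := kappa_ne hC hP hm
  have hiso : ∀ i j, i < m → j < m → (perr β t i ᵥ* C) ⬝ᵥ (cm Qb⁻¹ *ᵥ (perr β t j ᵥ* C)) = 0 := by
    intro i j hi hj
    have h1 := perr_lag hm hβ ht hi hj
    have h2 := dual_form hC hP hm
    have h3 : (perr β t i ᵥ* C) ⬝ᵥ (cm Qb⁻¹ *ᵥ (perr β t j ᵥ* C)) = (perr β t i ᵥ* (C * cm Qb⁻¹ * C.transpose)) ⬝ᵥ perr β t j := by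
      rw [← mulVec_transpose C (perr β t j), dotProduct_mulVec, dotProduct_mulVec, vecMul_vecMul, vecMul_vecMul,
        Matrix.mul_assoc]
    rw [h3, h2, vecMul_smul, smul_dotProduct, h1, smul_zero]
  obtain ⟨w, c, c', γ, h1, h2, h3, h4, h5, h6, h7, h8, h9, h10⟩ := pt_data (v := fun i => perr β t i ᵥ* C) hm hQb hsk hiso
    (rows_li hm hβ ht hC) hopp
  refine ⟨{ t := t, ht := ht, A := Cc β t C, M := M, Qb := Qb, w := w, c := c, c' := c', s := s, κ := (-1) ^ m * κ, γ := γ,
            Adet := Cc_det hQ t hC, wdet := h1, s0 := hs, κ0 := mul_ne_zero (pow_ne_zero _ (by norm_num)) hκ,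
            mon := Cc_mon hQ t hM, pol := Cc_pol hQ t hP, cw := fun i hi => ?_, c0 := h7, cw' := fun i hi => ?_, c0' := h8,
            γ0 := h5, wQ := h6 }, rfl, rfl, h2, h3, h4⟩
  · rw [h9 i hi]
    funext q
    show ∑ j, c i j * (perr β t j ᵥ* C) q = ∑ j, c i j *
      (cm (DN β) * Hf (Hc (2 * m) (QB β)) (((1 / (t : ℝ) : ℝ)) : ℂ) * Cc β t C) j q
    refine Finset.sum_congr rfl fun j _ => ?_
    by_cases hj : (i : ℕ) < j
    · rw [h7 i j hj, zero_mul, zero_mul]
    · rw [row_eq hm hβ ht j (by omega) C]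
  · rw [← row_eq hm hβ ht i hi C]
    exact h10 i hi

/-- **all Hodge tensors are invariant** -/
theorem no_tensor (hm : 4 ≤ m) (hβ : ∀ j, ∀ a : ℤ, β j ≠ a) : ∃ t0 : ℕ, 2 ≤ t0 ∧ ∀ t : ℕ, t0 ≤ t →
    ∀ (C : Matrix (Fin (2 * m)) (Fin (2 * m)) ℂ) (M Qb : Matrix (Fin (2 * m)) (Fin (2 * m)) ℚ) (s κ : ℂ), C.det ≠ 0 → s ≠ 0 →
    C * cm M = s • (cm (Am (2 * m)) * C) → C.transpose * cm (J0 (2 * m)) * C = κ • cm Qb →
    (∀ p ≤ 2 * m, Fl (fun i => perr β t i ᵥ* C) (cm Qb⁻¹) p ⊓
      cj (Fl (fun i => perr β t i ᵥ* C) (cm Qb⁻¹) (2 * m - p)) = ⊥) →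
    ∀ (d : ℕ) (T : Tn ℚ (2 * m) d),
    (∀ p : Fin d → ℕ, d * (2 * m - 1) < 2 * ∑ l, p l → ∀ x : Fin d → Fin (2 * m) → ℂ,
      (∀ l, x l ∈ Fl (fun i => perr β t i ᵥ* C) (cm Qb⁻¹) (p l)) → evx x (cmT T) = 0) →
    ∀ A : Matrix (Fin (2 * m)) (Fin (2 * m)) ℂ, A * cm Qb⁻¹ + cm Qb⁻¹ * A.transpose = 0 → act A (cmT T) = 0 := by
  have hQ : QD (2 * m) (QB β) := QD_QB (by omega) (beta' hβ)
  by_contra hcon
  have hbad : ∀ N : ℕ, ∃ (d : PD β) (dg : ℕ) (T : Tn ℚ (2 * m) dg) (r : Fin (2 * m) → ℂ)
      (A : Matrix (Fin (2 * m)) (Fin (2 * m)) ℂ), N ≤ d.t ∧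
      (∀ I, ev d.w (cmT T) I ≠ 0 → 2 * ∑ l, ((I l : ℕ) : ℤ) = dg * (2 * m - 1)) ∧
      (∀ i, star (d.w i) = r i • d.w i.rev) ∧ A.transpose * cm d.Qb + cm d.Qb * A = 0 ∧ act A (cmT T) ≠ 0 := by
    intro N
    by_contra hcon2
    apply hcon
    refine ⟨max N 2, le_max_right _ _, fun t ht C M Qb s κ hC hs hM hP hopp dg T hT A hA => ?_⟩
    by_contra hne
    apply hcon2
    obtain ⟨d, hdt, hdQ, h1, h2, h3⟩ := pd_exists' (by omega) hβ ((le_max_right _ _).trans ht) hC hs hM hP hopp
    have hstar : ∀ i : Fin (2 * m), ∃ r : ℂ, star (d.w i) = r • d.w i.rev := by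
      intro i
      have hi := i.2
      refine h3 i.rev _ ?_ ?_
      · have h4 : 2 * m - 1 - (i.rev : ℕ) = i := by
          rw [Fin.val_rev]
          omega
        rw [h4]
        exact h2 i
      · rw [star_star]
        have h4 : (i.rev : ℕ) = 2 * m - 1 - i := by
          rw [Fin.val_rev]
          omega
        rw [h4]
        exact h1 i
    choose r hr using hstar
    refine ⟨d, dg, T, r, A, by rw [hdt]; exact (le_max_left _ _).trans ht, fun I hI => ?_, hr, ?_, hne⟩
    · by_contra hne2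
      apply hI
      rcases lt_or_gt_of_ne hne2 with h4 | h4
      · rw [ev_evx]
        refine hT (fun l => 2 * m - 1 - (I l : ℕ)) ?_ _ fun l => h1 (I l)
        have h5 : ∑ l, (2 * m - 1 - (I l : ℕ)) + ∑ l, (I l : ℕ) = dg * (2 * m - 1) := by
          rw [← Finset.sum_add_distrib]
          have h6 : ∀ l : Fin dg, 2 * m - 1 - (I l : ℕ) + (I l : ℕ) = 2 * m - 1 := fun l => by
            have := (I l).2
            omega
          simp only [h6]
          rw [Finset.sum_const, Finset.card_univ, Fintype.card_fin, smul_eq_mul]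
        have h6 : 2 * ((∑ l, (I l : ℕ) : ℕ) : ℤ) < ((dg * (2 * m - 1) : ℕ) : ℤ) := by
          have h7 : ((2 * m - 1 : ℕ) : ℤ) = 2 * m - 1 := by omega
          push_cast [h7]
          exact h4
        have h7 : 2 * (∑ l, (I l : ℕ)) < dg * (2 * m - 1) := by exact_mod_cast h6
        omega
      · rw [← star_eq_zero, ev_apply, star_sum]
        have h8 : ∀ J : Fin dg → Fin (2 * m), star ((∏ l, d.w (I l) (J l)) * cmT T J) =
            (∏ l, (fun l => star (d.w (I l))) l (J l)) * cmT T J := by
          intro J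
          rw [star_mul', star_prod]
          have h9 : star (cmT T J) = cmT T J := by
            unfold cmT
            simp
          rw [h9]
          rfl
        simp only [h8]
        refine hT (fun l => (I l : ℕ)) ?_ (fun l => star (d.w (I l))) fun l => h2 (I l)
        have h6 : ((dg * (2 * m - 1) : ℕ) : ℤ) < 2 * ((∑ l, (I l : ℕ) : ℕ) : ℤ) := by
          have h7 : ((2 * m - 1 : ℕ) : ℤ) = 2 * m - 1 := by omega
          push_cast [h7]
          exact h4
        exact_mod_cast h6
    · rw [hdQ]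
      obtain ⟨-, hQd, -⟩ := kappa_ne hC hP (by omega)
      have hu : IsUnit Qb.det := isUnit_iff_ne_zero.2 hQd
      have q1 : cm Qb * cm Qb⁻¹ = 1 := by rw [← cm_mul, Matrix.mul_nonsing_inv _ hu, cm_one]
      have q2 : cm Qb⁻¹ * cm Qb = 1 := by rw [← cm_mul, Matrix.nonsing_inv_mul _ hu, cm_one]
      have h4 := congrArg (fun Z => cm Qb * Z * cm Qb) hA
      simp only [Matrix.mul_zero, Matrix.zero_mul] at h4
      calc A.transpose * cm Qb + cm Qb * A = cm Qb * A * (cm Qb⁻¹ * cm Qb) + (cm Qb * cm Qb⁻¹) * A.transpose * cm Qb := by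
            rw [q1, q2, Matrix.one_mul, Matrix.mul_one, add_comm]
        _ = cm Qb * (A * cm Qb⁻¹ + cm Qb⁻¹ * A.transpose) * cm Qb := by
            rw [Matrix.mul_add, Matrix.add_mul]
            simp only [Matrix.mul_assoc]
        _ = 0 := h4
  choose d dg T r A hdt hsup hr hA hne using hbad
  have hμ : ∀ t, act (Matrix.diagonal (dl ℂ (2 * m))) (ev (d t).w (cmT (T t))) = 0 := by
    intro t
    funext I
    rw [act_diag, Pi.zero_apply]
    by_cases hI : ev (d t).w (cmT (T t)) I = 0
    · rw [hI, mul_zero]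
    · have h1 := hsup t I hI
      have h2 : ∑ l, dl ℂ (2 * m) (I l) = ((2 * ∑ l, ((I l : ℕ) : ℤ) - (dg t) * (2 * m - 1) : ℤ) : ℂ) := by
        unfold dl
        push_cast
        rw [Finset.sum_sub_distrib, Finset.sum_const, Finset.card_univ, Fintype.card_fin, ← Finset.mul_sum, nsmul_eq_mul]
      rw [h2, h1, sub_self, Int.cast_zero, zero_mul]
  obtain ⟨k, hk⟩ := (transfer (by omega) hQ (fun i j => sdc_hps (beta' hβ) hQ i j) d hdt T hμ).exists
  -- the point
  have hrev : ∀ i : Fin (2 * m), i.rev ≠ i := fun i h => by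
    have h1 := congrArg Fin.val h
    rw [Fin.val_rev] at h1
    have := i.2
    omega
  set w := (d k).w with hw
  set γ := (d k).γ with hγ
  set u := ev w (cmT (T k)) with hu
  have hwdet := (d k).wdet
  have hr0 : ∀ i, r k i ≠ 0 := by
    intro i h0
    have h1 := hr k i
    rw [h0, zero_smul, star_eq_zero] at h1
    exact hwdet (Matrix.det_eq_zero_of_row_eq_zero i fun j => congrFun h1 j)
  have hrel := r_rel (hr k) hwdet (d k).wQ
  set Γ : Matrix (Fin (2 * m)) (Fin (2 * m)) ℂ := Matrix.of fun i j => if j = i.rev then γ i else 0 with hΓ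
  have hwu : IsUnit w.det := isUnit_iff_ne_zero.2 hwdet
  have hwt : IsUnit w.transpose.det := by rw [Matrix.det_transpose]; exact hwu
  have cancel : ∀ X : Matrix (Fin (2 * m)) (Fin (2 * m)) ℂ, w.transpose * X * w = 0 → X = 0 := by
    intro X h
    calc X = ((w.transpose)⁻¹ * w.transpose) * X * (w * w⁻¹) := by
          rw [Matrix.nonsing_inv_mul _ hwt, Matrix.mul_nonsing_inv _ hwu, Matrix.one_mul, Matrix.mul_one]
      _ = (w.transpose)⁻¹ * (w.transpose * X * w) * w⁻¹ := by simp only [Matrix.mul_assoc]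
      _ = 0 := by rw [h, Matrix.mul_zero, Matrix.zero_mul]
  have hwQ : w.transpose * Γ * w = cm (d k).Qb := (d k).wQ
  have hanti : ∀ i, γ i.rev = -γ i := by
    have h1 : (cm (d k).Qb).transpose = -cm (d k).Qb := by
      have h2 := (d k).pol
      have h3 := congrArg Matrix.transpose h2
      rw [Matrix.transpose_mul, Matrix.transpose_mul, Matrix.transpose_transpose, Jc_skew hQ, Matrix.transpose_smul,
        Matrix.neg_mul, Matrix.mul_neg, ← Matrix.mul_assoc, h2, ← smul_neg] at h3
      have h4 := congrArg (fun Z => (d k).κ⁻¹ • Z) h3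
      simp only [smul_smul, inv_mul_cancel₀ (d k).κ0, one_smul] at h4
      exact h4.symm
    have h2 : Γ.transpose + Γ = 0 := by
      apply cancel
      rw [Matrix.mul_add, Matrix.add_mul, hwQ]
      have h3 := congrArg Matrix.transpose hwQ
      rw [Matrix.transpose_mul, Matrix.transpose_mul, Matrix.transpose_transpose, h1, ← Matrix.mul_assoc] at h3
      rw [h3, neg_add_cancel]
    intro i
    have h3 := congrFun (congrFun h2 i) i.rev
    rw [Matrix.add_apply, Matrix.transpose_apply, hΓ, Matrix.of_apply, Matrix.of_apply, if_pos (Fin.rev_rev i).symm,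
      if_pos rfl, Matrix.zero_apply] at h3
    exact eq_neg_of_add_eq_zero_left h3
  set B := w * A k * w⁻¹ with hB
  have hBw : B * w = w * A k := by
    rw [hB, Matrix.mul_assoc, Matrix.nonsing_inv_mul _ hwu, Matrix.mul_one]
  have hform : B.transpose * Γ + Γ * B = 0 := by
    apply cancel
    have h1 : w.transpose * (B.transpose * Γ) * w = (A k).transpose * (w.transpose * Γ * w) := by
      have t1 : (B * w).transpose = w.transpose * B.transpose := Matrix.transpose_mul B w
      have t2 : (w * A k).transpose = (A k).transpose * w.transpose := Matrix.transpose_mul w (A k)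
      have t3 : w.transpose * B.transpose = (A k).transpose * w.transpose := by rw [← t1, hBw, t2]
      calc w.transpose * (B.transpose * Γ) * w = (w.transpose * B.transpose) * Γ * w := by
            simp only [Matrix.mul_assoc]
        _ = _ := by
            rw [t3]
            simp only [Matrix.mul_assoc]
    have h2 : w.transpose * (Γ * B) * w = w.transpose * Γ * w * A k := by
      calc w.transpose * (Γ * B) * w = w.transpose * Γ * (B * w) := by simp only [Matrix.mul_assoc]
        _ = _ := by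
            rw [hBw]
            simp only [Matrix.mul_assoc]
    rw [Matrix.mul_add, Matrix.add_mul, h1, h2, hwQ]
    exact hA k
  have hneg := neg_dim hr0 (d k).γ0 hanti hrel (star_ev (hr k) (T k)) (fun p : Up m => (p.1.1, p.1.2))
  have hsym : ∀ I, u I ≠ 0 → u (fun l => (I l).rev) ≠ 0 := by
    intro I hI h0
    apply hI
    have h1 : star (u I) = (∏ l, r k (I l)) * u (fun l => (I l).rev) := star_ev (hr k) (T k) I
    rw [h0, mul_zero, star_eq_zero] at h1
    exact h1
  obtain ⟨f1, f2⟩ := dichAll hm (d k).γ0 hanti (fun I hI => hsup k I hI) hsym hk (hk.trans (Nat.add_le_add_right hneg _))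
  have h1 : act B u = 0 := sp_zero (d k).γ0 (form_ent hform) f1 f2
  have h2 := (ev_conj hwdet B (cmT (T k))).2 h1
  have h3 : w⁻¹ * B * w = A k := by
    rw [Matrix.mul_assoc, hBw, ← Matrix.mul_assoc, Matrix.nonsing_inv_mul _ hwu, Matrix.one_mul]
  rw [h3] at h2
  exact hne k h2

end Pool.Agent.Y118.HX
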