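import Mathlib

/-!
# Bases adapted to a Hodge decomposition with one dimensional pieces
-/

set_option autoImplicit false
set_option maxHeartbeats 400000

open Matrix

namespace Pool.Agent.Y118.HX

variable {n : ℕ}

/-- the complex conjugate of a subspace -/
def cj (F : Submodule ℂ (Fin n → ℂ)) : Submodule ℂ (Fin n → ℂ) where
  carrier := {v | star v ∈ F}
  add_mem' := fun {a b} ha hb => by
    show star (a + b) ∈ F
    rw [star_add]
    exact F.add_mem ha hb
  zero_mem' := by
    show star (0 : Fin n → ℂ) ∈ F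
    rw [star_zero]
    exact F.zero_mem
  smul_mem' := fun c a ha => by
    show star (c • a) ∈ F
    rw [star_smul]
    exact F.smul_mem _ ha

lemma mem_cj {F : Submodule ℂ (Fin n → ℂ)} {v : Fin n → ℂ} : v ∈ cj F ↔ star v ∈ F := Iff.rfl

lemma finrank_cj (F : Submodule ℂ (Fin n → ℂ)) : Module.finrank ℂ (cj F) = Module.finrank ℂ F := by
  let e : F ≃ₗ[ℝ] (cj F) :=
    { toFun := fun v => ⟨star v.1, by rw [mem_cj, star_star]; exact v.2⟩
      map_add' := fun a b => Subtype.ext (star_add _ _)
      map_smul' := fun r a => Subtype.ext (by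
        show star (r • a.1) = r • star a.1
        rw [star_smul]
        rfl)
      invFun := fun v => ⟨star v.1, v.2⟩
      left_inv := fun v => Subtype.ext (star_star _)
      right_inv := fun v => Subtype.ext (star_star _) }
  have h1 := e.finrank_eq
  rw [finrank_real_of_complex, finrank_real_of_complex] at h1
  omega

/-- **the adapted basis** -/
theorem hodge_basis (F : ℕ → Submodule ℂ (Fin n → ℂ)) (hanti : ∀ p q, p ≤ q → F q ≤ F p)
    (hdim : ∀ p ≤ n, n - p ≤ Module.finrank ℂ (F p)) (hopp : ∀ p ≤ n, F p ⊓ cj (F (n - p)) = ⊥) :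
    ∃ w : Fin n → Fin n → ℂ, LinearIndependent ℂ w ∧ (∀ i : Fin n, w i ∈ F (n - 1 - i)) ∧
      (∀ i : Fin n, star (w i) ∈ F i) ∧
      (∀ i : Fin n, F (n - 1 - i) = Submodule.span ℂ {x | ∃ j : Fin n, j ≤ i ∧ x = w j}) ∧
      ∀ i : Fin n, ∀ z ∈ F (n - 1 - i), star z ∈ F i → ∃ c : ℂ, z = c • w i := by
  have hup : ∀ p ≤ n, Module.finrank ℂ (F p) ≤ n - p := by
    intro p hp
    have h1 := Submodule.finrank_sup_add_finrank_inf_eq (F p) (cj (F (n - p)))
    rw [hopp p hp, finrank_bot, finrank_cj] at h1
    have h2 := hdim (n - p) (Nat.sub_le _ _)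
    have h3 := Submodule.finrank_le (F p ⊔ cj (F (n - p)))
    rw [Module.finrank_fin_fun] at h3
    omega
  have hex : ∀ i : Fin n, ∃ z : Fin n → ℂ, z ≠ 0 ∧ z ∈ F (n - 1 - i) ∧ star z ∈ F i := by
    intro i
    have hi := i.2
    have h1 := Submodule.finrank_sup_add_finrank_inf_eq (F (n - 1 - i)) (cj (F i))
    rw [finrank_cj] at h1
    have h2 := hdim (n - 1 - i) (by omega)
    have h3 := hdim i (by omega)
    have h4 := Submodule.finrank_le (F (n - 1 - i) ⊔ cj (F i))
    rw [Module.finrank_fin_fun] at h4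
    have h5 : 0 < Module.finrank ℂ (F (n - 1 - i) ⊓ cj (F i) : Submodule ℂ (Fin n → ℂ)) := by omega
    have h6 : (F (n - 1 - i) ⊓ cj (F i) : Submodule ℂ (Fin n → ℂ)) ≠ ⊥ := by
      intro h
      rw [h, finrank_bot] at h5
      exact lt_irrefl _ h5
    obtain ⟨z, hz, hz0⟩ := Submodule.exists_mem_ne_zero_of_ne_bot h6
    rw [Submodule.mem_inf] at hz
    exact ⟨z, hz0, hz.1, hz.2⟩
  choose w hw0 hw1 hw2 using hex
  have hli : LinearIndependent ℂ w := by
    rw [Fintype.linearIndependent_iff]
    intro c hc
    -- downward induction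
    have key : ∀ k : ℕ, ∀ j : Fin n, n - 1 - (j : ℕ) = k → c j = 0 := by
      intro k
      induction k using Nat.strong_induction_on with
      | _ k ih =>
        intro j hj
        have hj2 := j.2
        by_contra hcj
        have h1 : ∀ l : Fin n, j < l → c l = 0 := by
          intro l hl
          have hl2 := l.2
          rw [Fin.lt_def] at hl
          exact ih (n - 1 - l) (by omega) l rfl
        have h2 : c j • w j + ∑ l ∈ Finset.univ.erase j, c l • w l = 0 := by
          rw [Finset.add_sum_erase Finset.univ (fun l => c l • w l) (Finset.mem_univ j)]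
          exact hc
        have h3 : ∑ l ∈ Finset.univ.erase j, c l • w l ∈ F (n - j) := by
          refine Submodule.sum_mem _ fun l hl => ?_
          rw [Finset.mem_erase] at hl
          rcases lt_trichotomy l j with h | h | h
          · refine Submodule.smul_mem _ _ (hanti _ _ ?_ (hw1 l))
            rw [Fin.lt_def] at h
            omega
          · exact absurd h hl.1
          · rw [h1 l h, zero_smul]
            exact Submodule.zero_mem _
        have h4 : c j • w j ∈ F (n - j) := by
          rw [eq_neg_of_add_eq_zero_left h2]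
          exact Submodule.neg_mem _ h3
        have h5 : w j ∈ F (n - j) := (Submodule.smul_mem_iff _ hcj).1 h4
        have h6 := hopp (n - j) (Nat.sub_le _ _)
        have h7 : n - (n - (j : ℕ)) = j := by omega
        rw [h7] at h6
        have h8 : w j ∈ F (n - j) ⊓ cj (F j) := Submodule.mem_inf.2 ⟨h5, hw2 j⟩
        rw [h6, Submodule.mem_bot] at h8
        exact hw0 j h8
    exact fun j => key _ j rfl
  have hspan : ∀ i : Fin n, F (n - 1 - i) = Submodule.span ℂ {x | ∃ j : Fin n, j ≤ i ∧ x = w j} := by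
    intro i
    have hi := i.2
    symm
    refine Submodule.eq_of_le_of_finrank_le ?_ ?_
    · rw [Submodule.span_le]
      rintro _ ⟨j, hj, rfl⟩
      rw [Fin.le_def] at hj
      exact hanti _ _ (by omega) (hw1 j)
    · have h1 := hup (n - 1 - i) (by omega)
      have h2 : {x | ∃ j : Fin n, j ≤ i ∧ x = w j} = Set.range (fun j : {j : Fin n // j ≤ i} => w j) := by
        ext x
        constructor
        · rintro ⟨j, hj, rfl⟩
          exact ⟨⟨j, hj⟩, rfl⟩
        · rintro ⟨⟨j, hj⟩, rfl⟩
          exact ⟨j, hj, rfl⟩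
      have h4 : Module.finrank ℂ (Submodule.span ℂ (Set.range (fun j : {j : Fin n // j ≤ i} => w j))) =
          Fintype.card {j : Fin n // j ≤ i} := finrank_span_eq_card (hli.comp _ Subtype.val_injective)
      rw [h2, h4]
      have h3 : Fintype.card {j : Fin n // j ≤ i} = i + 1 := by
        rw [Fintype.card_subtype]
        have : (Finset.univ.filter fun j : Fin n => j ≤ i) = Finset.Iic i := by
          ext j
          simp
        rw [this, Fin.card_Iic]
      rw [h3]
      omega
  refine ⟨w, hli, hw1, hw2, hspan, fun i z hz hz2 => ?_⟩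
  have hi := i.2
  rw [hspan i] at hz
  -- split off the last vector
  have h1 : Submodule.span ℂ {x | ∃ j : Fin n, j ≤ i ∧ x = w j} ≤ F (n - i) ⊔ Submodule.span ℂ {w i} := by
    rw [Submodule.span_le]
    rintro _ ⟨j, hj, rfl⟩
    rcases eq_or_lt_of_le hj with h | h
    · rw [h]
      exact Submodule.mem_sup_right (Submodule.mem_span_singleton_self _)
    · rw [Fin.lt_def] at h
      exact Submodule.mem_sup_left (hanti _ _ (by omega) (hw1 j))
  obtain ⟨f, hf, g, hg, hfg⟩ := Submodule.mem_sup.1 (h1 hz)
  obtain ⟨c, rfl⟩ := Submodule.mem_span_singleton.1 hg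
  refine ⟨c, ?_⟩
  have h2 : f = z - c • w i := by rw [← hfg, add_sub_cancel_right]
  have h3 : f ∈ F (n - i) ⊓ cj (F i) := by
    refine Submodule.mem_inf.2 ⟨hf, ?_⟩
    rw [mem_cj, h2, star_sub, star_smul]
    exact Submodule.sub_mem _ hz2 (Submodule.smul_mem _ _ (hw2 i))
  have h4 := hopp (n - i) (Nat.sub_le _ _)
  have h5 : n - (n - (i : ℕ)) = i := by omega
  rw [h5] at h4
  rw [h4, Submodule.mem_bot] at h3
  rw [← hfg, h3, zero_add]

end Pool.Agent.Y118.HX
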