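import Pool.Agent.Y118.HX.Two

/-!
# Transfer of the count for two points
-/

set_option autoImplicit false
set_option maxHeartbeats 400000

open Matrix Filter

namespace Pool.Agent.Y118.HX

open Pool.Agent.Y118.UL (mk mk_eq mk_eq_zero mk_ne_zero mk_surj ev_ge qc qc_mk algebraMap_eq U)
open Pool.Agent.Y119.HY Pool.Agent.Y119.HZ
open Pool.Agent.Y118.CM

variable {m : ℕ}

/-- **the kernels at almost all points** -/
theorem ker_ge {β : Fin m → ℚ} (hm : 1 ≤ m) (hQ : QD (2 * m) (QB β))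
    (hH : ∀ i j, Pool.Agent.Y113.SDc (Hp (2 * m) (QB β) i j)) (d : ℕ → PD β) (hd : ∀ k, k ≤ (d k).t)
    {dg : ℕ → ℕ} (T : ∀ t, Tn ℚ (2 * m) (dg t)) :
    ∀ᶠ t in (hyperfilter ℕ : Filter ℕ), Module.finrank (U ℂ) ((An T).comap ((dat hm hQ hH d hd).Ψ fun p => p.1)) ≤
      Module.finrank ℂ (LinearMap.ker (Ph (d t).γ (fun p : Up m => (p.1.1, p.1.2)) (ev (d t).w (cmT (T t))))) := by
  classical
  set D := dat hm hQ hH d hd with hD
  set H := (An T).comap (D.Ψ fun p => p.1) with hHd
  set r := Module.finrank (U ℂ) H with hr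
  -- a basis
  set bas := Module.finBasis (U ℂ) H with hbas
  set v : Fin r → (Up m → U ℂ) := fun i => (bas i : Up m → U ℂ) with hv
  have hli : LinearIndependent (U ℂ) v := bas.linearIndependent.map' H.subtype (Submodule.ker_subtype _)
  obtain ⟨φ, hφ⟩ := LinearMap.exists_leftInverse_of_injective (Fintype.linearCombination (U ℂ) v)
    (LinearMap.ker_eq_bot.2 (linearIndependent_iff_injective_fintypeLinearCombination.1 hli))
  have hφv : ∀ i, φ (v i) = Pi.single i 1 := by
    intro i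
    have h2 := LinearMap.congr_fun hφ (Pi.single i 1)
    rw [LinearMap.comp_apply, Fintype.linearCombination_apply_single, one_smul, LinearMap.id_apply] at h2
    exact h2
  have hφf : ∀ (f : Up m → U ℂ) j, φ f j = ∑ p, f p * φ (Pi.single p 1) j := by
    intro f j
    have h4 : f = ∑ p, f p • (Pi.single p 1 : Up m → U ℂ) := by
      funext z
      rw [Finset.sum_apply]
      simp only [Pi.smul_apply, Pi.single_apply, smul_eq_mul, mul_ite, mul_one, mul_zero]
      rw [Finset.sum_ite_eq Finset.univ z fun p => f p, if_pos (Finset.mem_univ _)]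
    conv_lhs => rw [h4]
    rw [map_sum, Finset.sum_apply]
    refine Finset.sum_congr rfl fun p _ => ?_
    rw [map_smul, Pi.smul_apply, smul_eq_mul]
  choose v' hv' using fun i p => mk_surj (v i p)
  choose G' hG' using fun p j => mk_surj (φ (Pi.single p 1) j)
  have e1 : ∀ i j, ∀ᶠ t in (hyperfilter ℕ : Filter ℕ), ∑ p, v' i p t * G' p j t = if i = j then 1 else 0 := by
    intro i j
    have h2 : mk ℂ (fun t => ∑ p, v' i p t * G' p j t) = (Pi.single i 1 : Fin r → U ℂ) j := by
      rw [← hφv, hφf, mk_sum]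
      refine Finset.sum_congr rfl fun p _ => ?_
      rw [mk_mul', ← hv', ← hG']
    have h3 : (Pi.single i 1 : Fin r → U ℂ) j = mk ℂ (fun _ => if i = j then 1 else 0) := by
      rw [Pi.single_apply]
      by_cases hij : i = j
      · rw [if_pos hij.symm]
        have h4 : (fun _ : ℕ => (if i = j then 1 else 0 : ℂ)) = 1 := by
          funext t
          rw [if_pos hij]
          rfl
        rw [h4, map_one]
      · rw [if_neg (fun h => hij h.symm)]
        have h4 : (fun _ : ℕ => (if i = j then 1 else 0 : ℂ)) = 0 := by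
          funext t
          rw [if_neg hij]
          rfl
        rw [h4, map_zero]
    rw [h3, mk_eq] at h2
    exact h2
  have e2 : ∀ i, ∀ᶠ t in (hyperfilter ℕ : Filter ℕ),
      Ph (d t).γ (fun p : Up m => (p.1.1, p.1.2)) (ev (d t).w (cmT (T t))) (fun p => v' i p t) = 0 := by
    intro i
    obtain ⟨F, hF1, hF2⟩ : (D.Ψ fun p => p.1) (v i) ∈ An T := (bas i).2
    have h2 : (D.Ψ fun p => p.1) (v i) = gm fun t => ((d t).w)⁻¹ * (∑ p : Up m, v' i p t • Xr (d t).γ p.1.1 p.1.2) * (d t).w := by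
      rw [gm_mul, gm_mul, gm_inv fun t => (d t).wdet, gm_sum]
      show (gm fun t => (d t).w)⁻¹ * (∑ p : Up m, v i p • Xr D.γ p.1.1 p.1.2) * (gm fun t => (d t).w) = _
      congr 2
      refine Finset.sum_congr rfl fun p _ => ?_
      rw [gm_smul (fun t => v' i p t), gm_Xr fun t => (d t).γ0, ← hv']
      rfl
    rw [h2] at hF1
    filter_upwards [gm_eq hF1] with t ht
    have h3 := hF2 t
    rw [ht, ev_conj (d t).wdet, map_sum, LinearMap.sum_apply] at h3
    show ∑ p, v' i p t • act (Xr (d t).γ p.1.1 p.1.2) (ev (d t).w (cmT (T t))) = 0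
    rw [← h3]
    refine Finset.sum_congr rfl fun p _ => ?_
    rw [map_smul, LinearMap.smul_apply]
  have e3 : ∀ᶠ t in (hyperfilter ℕ : Filter ℕ), ∀ i j, ∑ p, v' i p t * G' p j t = if i = j then 1 else 0 :=
    Filter.eventually_all.2 fun i => Filter.eventually_all.2 fun j => e1 i j
  filter_upwards [e3, Filter.eventually_all.2 e2] with t h2 h3
  have h5 : LinearIndependent ℂ (fun i : Fin r => (⟨fun p => v' i p t, LinearMap.mem_ker.2 (h3 i)⟩ :
      LinearMap.ker (Ph (d t).γ (fun p : Up m => (p.1.1, p.1.2)) (ev (d t).w (cmT (T t)))))) := by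
    rw [Fintype.linearIndependent_iff]
    intro c hc j
    have h6 : ∀ p, ∑ i, c i * v' i p t = 0 := by
      intro p
      have h7 := congrFun (congrArg Subtype.val hc) p
      rw [Submodule.coe_sum, Finset.sum_apply] at h7
      exact h7
    calc c j = ∑ i, c i * (if i = j then 1 else 0) := by
          simp only [mul_ite, mul_one, mul_zero]
          rw [Finset.sum_ite_eq' Finset.univ j c, if_pos (Finset.mem_univ _)]
      _ = ∑ i, c i * ∑ p, v' i p t * G' p j t := by
          refine Finset.sum_congr rfl fun i _ => ?_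
          rw [h2 i j]
      _ = ∑ p, (∑ i, c i * v' i p t) * G' p j t := by
          simp only [Finset.mul_sum, Finset.sum_mul]
          rw [Finset.sum_comm]
          refine Finset.sum_congr rfl fun p _ => Finset.sum_congr rfl fun i _ => ?_
          ring
      _ = 0 := by
          refine Finset.sum_eq_zero fun p _ => ?_
          rw [h6, zero_mul]
  have h6 := h5.fintype_card_le_finrank
  rwa [Fintype.card_fin] at h6

/-- **the count for two points of a window** -/
theorem transfer2 {β : Fin m → ℚ} (hm : 1 ≤ m) (hQ : QD (2 * m) (QB β))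
    (hH : ∀ i j, Pool.Agent.Y113.SDc (Hp (2 * m) (QB β) i j)) {G : ℕ} (hfib : TF (2 * m) (QB β) G)
    (t : ℕ → Fin 2 → ℕ) (h1 : ∀ k, t k 0 < t k 1) (h2 : ∀ k, G ∣ t k 1 - t k 0)
    (h3 : ∀ k, (t k 1 - t k 0) ^ k ≤ t k 0) (h4 : ∀ k, 2 ≤ t k 0) (hk : ∀ k, k ≤ t k 0)
    (d0 d1 : ℕ → PD β) (ht0 : ∀ k, (d0 k).t = t k 0) (ht1 : ∀ k, (d1 k).t = t k 1)
    (hA : ∀ k, (d1 k).A = E (cm (Am (2 * m))) (-(lg G (t k) 1 - lg G (t k) 0)) * (d0 k).A)
    {dg0 dg1 : ℕ → ℕ} (T0 : ∀ k, Tn ℚ (2 * m) (dg0 k)) (T1 : ∀ k, Tn ℚ (2 * m) (dg1 k))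
    (hμ0 : ∀ k, act (Matrix.diagonal (dl ℂ (2 * m))) (ev (d0 k).w (cmT (T0 k))) = 0)
    (hμ1 : ∀ k, act (Matrix.diagonal (dl ℂ (2 * m))) (ev (d1 k).w (cmT (T1 k))) = 0) :
    ∀ᶠ k in (hyperfilter ℕ : Filter ℕ), 2 * Fintype.card (Up m) ≤
      Module.finrank ℂ (LinearMap.ker (Ph (d0 k).γ (fun p : Up m => (p.1.1, p.1.2)) (ev (d0 k).w (cmT (T0 k))))) +
      Module.finrank ℂ (LinearMap.ker (Ph (d1 k).γ (fun p : Up m => (p.1.1, p.1.2)) (ev (d1 k).w (cmT (T1 k))))) + (m + 1) := by
  have hd0 : ∀ k, k ≤ (d0 k).t := fun k => by rw [ht0]; exact hk k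
  have hd1 : ∀ k, k ≤ (d1 k).t := fun k => by rw [ht1]; exact (hk k).trans (h1 k).le
  set D0 := dat hm hQ hH d0 hd0 with hD0
  set D1 := dat hm hQ hH d1 hd1 with hD1
  obtain ⟨H0, hf0, hb0⟩ := D0.b_mem (An T0) (An_br T0) (An_D T0) (An_mu T0 (fun k => (d0 k).wdet) hμ0)
  obtain ⟨H1, hf1, hb1⟩ := D1.b_mem (An T1) (An_br T1) (An_D T1) (An_mu T1 (fun k => (d1 k).wdet) hμ1)
  have hgen := generic2_of hfib t h1 h2 h3 h4
  set s : ℕ → ℂ := fun k => -(lg G (t k) 1 - lg G (t k) 0) with hs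
  have hcount := Dat.count2 D0 D1 rfl (μ := fun j => mk ℂ fun k => lg G (t k) j)
    (X := gm fun k => E (cm (Am (2 * m))) (s k))
    (gm_unit fun k => by
      intro h0
      have h5 := congrArg Matrix.det (E_mul_neg (Ac_nil (n := 2 * m)) (s k))
      rw [Matrix.det_mul, h0, zero_mul, Matrix.det_one] at h5
      exact zero_ne_one h5)
    (by
      show (gm fun k => (d1 k).A) = gm (fun k => E (cm (Am (2 * m))) (s k)) * gm fun k => (d0 k).A
      rw [← gm_mul]
      congr 1
      funext k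
      exact hA k)
    (fun D hD => dm_E D s (by
      have h5 : mk ℂ s = -((mk ℂ fun k => lg G (t k) 1) - (mk ℂ fun k => lg G (t k) 0)) := by
        rw [← map_sub, ← map_neg]
        rfl
      rw [h5, map_neg, map_sub]
      have a0 : D (mk ℂ fun k => lg G (t k) 0) = 0 := hD 0
      have a1 : D (mk ℂ fun k => lg G (t k) 1) = 0 := hD 1
      rw [a0, a1, sub_zero, neg_zero]))
    (by
      have h5 : (fun j : Fin 2 => if j = 0 then D0.x else D1.x) =
          fun j => gm fun k => Hf (Hc (2 * m) (QB β)) (((1 / (t k j : ℝ) : ℝ)) : ℂ) := by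
        funext j
        fin_cases j
        · show (gm fun k => Hf (Hc (2 * m) (QB β)) (((1 / ((d0 k).t : ℝ) : ℝ)) : ℂ)) = _
          congr 1
          funext k
          rw [ht0]
          rfl
        · show (gm fun k => Hf (Hc (2 * m) (QB β)) (((1 / ((d1 k).t : ℝ) : ℝ)) : ℂ)) = _
          congr 1
          funext k
          rw [ht1]
          rfl
      rw [h5]
      exact hgen) H0 H1 hb0 hb1
  filter_upwards [ker_ge hm hQ hH d0 hd0 T0, ker_ge hm hQ hH d1 hd1 T1] with k e0 e1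
  exact hcount.trans (Nat.add_le_add_right (Nat.add_le_add (hf0.trans e0) (hf1.trans e1)) _)

end Pool.Agent.Y118.HX
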