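import Pool.Agent.Y118.HX.Hge
import Pool.Agent.Y118.HX.Tr2
import Pool.Agent.Y118.HX.DichW

/-!
# Hodge tensors at two points of a window
-/

set_option autoImplicit false
set_option maxHeartbeats 400000

open Matrix Filter

namespace Pool.Agent.Y118.HX

open Pool.Agent.Y118.UL (mk mk_eq mk_eq_zero mk_ne_zero mk_surj ev_ge qc qc_mk algebraMap_eq U)
open Pool.Agent.Y119.HY Pool.Agent.Y119.HZ
open Pool.Agent.Y118.CM

variable {m : ℕ} {β : Fin m → ℚ}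

/-- the data at the point `1 / t` with the form -/
theorem pd_existsA (hm : 1 ≤ m) (hβ : ∀ j, ∀ a : ℤ, β j ≠ a) {t : ℕ} (ht : 2 ≤ t)
    {C : Matrix (Fin (2 * m)) (Fin (2 * m)) ℂ} {M Qb : Matrix (Fin (2 * m)) (Fin (2 * m)) ℚ} {s κ : ℂ}
    (hC : C.det ≠ 0) (hs : s ≠ 0) (hM : C * cm M = s • (cm (Am (2 * m)) * C))
    (hP : C.transpose * cm (J0 (2 * m)) * C = κ • cm Qb)
    (hopp : ∀ p ≤ 2 * m, Fl (fun i => perr β t i ᵥ* C) (cm Qb⁻¹) p ⊓
      cj (Fl (fun i => perr β t i ᵥ* C) (cm Qb⁻¹) (2 * m - p)) = ⊥) :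
    ∃ d : PD β, d.t = t ∧ d.A = Cc β t C ∧ d.Qb = Qb ∧ (∀ i : Fin (2 * m), d.w i ∈ Fl (fun i => perr β t i ᵥ* C) (cm Qb⁻¹) (2 * m - 1 - i)) ∧
      (∀ i : Fin (2 * m), star (d.w i) ∈ Fl (fun i => perr β t i ᵥ* C) (cm Qb⁻¹) i) ∧
      (∀ i : Fin (2 * m), ∀ z ∈ Fl (fun i => perr β t i ᵥ* C) (cm Qb⁻¹) (2 * m - 1 - i),
        star z ∈ Fl (fun i => perr β t i ᵥ* C) (cm Qb⁻¹) i → ∃ c : ℂ, z = c • d.w i) := by
  have hQ : QD (2 * m) (QB β) := QD_QB hm (beta' hβ)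
  obtain ⟨hκ, hQb, hsk⟩ := kappa_ne hC hP hm
  have hiso : ∀ i j, i < m → j < m → (perr β t i ᵥ* C) ⬝ᵥ (cm Qb⁻¹ *ᵥ (perr β t j ᵥ* C)) = 0 := by
    intro i j hi hj
    have h1 := perr_lag hm hβ ht hi hj
    have h2 := dual_form hC hP hm
    have h3 : (perr β t i ᵥ* C) ⬝ᵥ (cm Qb⁻¹ *ᵥ (perr β t j ᵥ* C)) = (perr β t i ᵥ* (C * cm Qb⁻¹ * C.transpose)) ⬝ᵥ perr β t j := by
      rw [← mulVec_transpose C (perr β t j), dotProduct_mulVec, dotProduct_mulVec, vecMul_vecMul, vecMul_vecMul,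
        Matrix.mul_assoc]
    rw [h3, h2, vecMul_smul, smul_dotProduct, h1, smul_zero]
  obtain ⟨w, c, c', γ, h1, h2, h3, h4, h5, h6, h7, h8, h9, h10⟩ := pt_data (v := fun i => perr β t i ᵥ* C) hm hQb hsk hiso
    (rows_li hm hβ ht hC) hopp
  refine ⟨{ t := t, ht := ht, A := Cc β t C, M := M, Qb := Qb, w := w, c := c, c' := c', s := s, κ := (-1) ^ m * κ, γ := γ,
            Adet := Cc_det hQ t hC, wdet := h1, s0 := hs, κ0 := mul_ne_zero (pow_ne_zero _ (by norm_num)) hκ,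
            mon := Cc_mon hQ t hM, pol := Cc_pol hQ t hP, cw := fun i hi => ?_, c0 := h7, cw' := fun i hi => ?_, c0' := h8,
            γ0 := h5, wQ := h6 }, rfl, rfl, rfl, h2, h3, h4⟩
  · rw [h9 i hi]
    funext q
    show ∑ j, c i j * (perr β t j ᵥ* C) q = ∑ j, c i j *
      (cm (DN β) * Hf (Hc (2 * m) (QB β)) (((1 / (t : ℝ) : ℝ)) : ℂ) * Cc β t C) j q
    refine Finset.sum_congr rfl fun j _ => ?_
    by_cases hj : (i : ℕ) < j
    · rw [h7 i j hj, zero_mul, zero_mul]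
    · rw [row_eq hm hβ ht j (by omega) C]
  · rw [← row_eq hm hβ ht i hi C]
    exact h10 i hi

/-- the data at a point with a Hodge tensor -/
lemma point_data (hm : 1 ≤ m) (hβ : ∀ j, ∀ a : ℤ, β j ≠ a) {t : ℕ} (ht : 2 ≤ t)
    {C : Matrix (Fin (2 * m)) (Fin (2 * m)) ℂ} {M Qb : Matrix (Fin (2 * m)) (Fin (2 * m)) ℚ} {s κ : ℂ}
    (hC : C.det ≠ 0) (hs : s ≠ 0) (hM : C * cm M = s • (cm (Am (2 * m)) * C))
    (hP : C.transpose * cm (J0 (2 * m)) * C = κ • cm Qb)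
    (hopp : ∀ p ≤ 2 * m, Fl (fun i => perr β t i ᵥ* C) (cm Qb⁻¹) p ⊓
      cj (Fl (fun i => perr β t i ᵥ* C) (cm Qb⁻¹) (2 * m - p)) = ⊥)
    {dg : ℕ} {T : Tn ℚ (2 * m) dg}
    (hT : ∀ p : Fin dg → ℕ, dg * (2 * m - 1) < 2 * ∑ l, p l → ∀ x : Fin dg → Fin (2 * m) → ℂ,
      (∀ l, x l ∈ Fl (fun i => perr β t i ᵥ* C) (cm Qb⁻¹) (p l)) → evx x (cmT T) = 0)
    {A : Matrix (Fin (2 * m)) (Fin (2 * m)) ℂ} (hA : A * cm Qb⁻¹ + cm Qb⁻¹ * A.transpose = 0) :
    ∃ (d : PD β) (r : Fin (2 * m) → ℂ), d.t = t ∧ d.A = Cc β t C ∧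
      (∀ I, ev d.w (cmT T) I ≠ 0 → 2 * ∑ l, ((I l : ℕ) : ℤ) = dg * (2 * m - 1)) ∧
      (∀ i, star (d.w i) = r i • d.w i.rev) ∧ A.transpose * cm d.Qb + cm d.Qb * A = 0 := by
  obtain ⟨d, hdt, hdA, hdQ, h1, h2, h3⟩ := pd_existsA hm hβ ht hC hs hM hP hopp
  have hstar : ∀ i : Fin (2 * m), ∃ r : ℂ, star (d.w i) = r • d.w i.rev := by
    intro i
    have hi := i.2
    refine h3 i.rev _ ?_ ?_
    · have h4 : 2 * m - 1 - (i.rev : ℕ) = i := by
        rw [Fin.val_rev]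
        omega
      rw [h4]
      exact h2 i
    · rw [star_star]
      have h4 : (i.rev : ℕ) = 2 * m - 1 - i := by
        rw [Fin.val_rev]
        omega
      rw [h4]
      exact h1 i
  choose r hr using hstar
  refine ⟨d, r, hdt, hdA, fun I hI => ?_, hr, ?_⟩
  · by_contra hne2
    apply hI
    rcases lt_or_gt_of_ne hne2 with h4 | h4
    · rw [ev_evx]
      refine hT (fun l => 2 * m - 1 - (I l : ℕ)) ?_ _ fun l => h1 (I l)
      have h5 : ∑ l, (2 * m - 1 - (I l : ℕ)) + ∑ l, (I l : ℕ) = dg * (2 * m - 1) := by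
        rw [← Finset.sum_add_distrib]
        have h6 : ∀ l : Fin dg, 2 * m - 1 - (I l : ℕ) + (I l : ℕ) = 2 * m - 1 := fun l => by
          have := (I l).2
          omega
        simp only [h6]
        rw [Finset.sum_const, Finset.card_univ, Fintype.card_fin, smul_eq_mul]
      have h6 : 2 * ((∑ l, (I l : ℕ) : ℕ) : ℤ) < ((dg * (2 * m - 1) : ℕ) : ℤ) := by
        have h7 : ((2 * m - 1 : ℕ) : ℤ) = 2 * m - 1 := by omega
        push_cast [h7]
        exact h4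
      have h7 : 2 * (∑ l, (I l : ℕ)) < dg * (2 * m - 1) := by exact_mod_cast h6
      omega
    · rw [← star_eq_zero, ev_apply, star_sum]
      have h8 : ∀ J : Fin dg → Fin (2 * m), star ((∏ l, d.w (I l) (J l)) * cmT T J) =
          (∏ l, (fun l => star (d.w (I l))) l (J l)) * cmT T J := by
        intro J
        rw [star_mul', star_prod]
        have h9 : star (cmT T J) = cmT T J := by
          unfold cmT
          simp
        rw [h9]
        rfl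
      simp only [h8]
      refine hT (fun l => (I l : ℕ)) ?_ (fun l => star (d.w (I l))) fun l => h2 (I l)
      have h6 : ((dg * (2 * m - 1) : ℕ) : ℤ) < 2 * ((∑ l, (I l : ℕ) : ℕ) : ℤ) := by
        have h7 : ((2 * m - 1 : ℕ) : ℤ) = 2 * m - 1 := by omega
        push_cast [h7]
        exact h4
      exact_mod_cast h6
  · rw [hdQ]
    obtain ⟨-, hQd, -⟩ := kappa_ne hC hP (by omega)
    have hu : IsUnit Qb.det := isUnit_iff_ne_zero.2 hQd
    have q1 : cm Qb * cm Qb⁻¹ = 1 := by rw [← cm_mul, Matrix.mul_nonsing_inv _ hu, cm_one]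
    have q2 : cm Qb⁻¹ * cm Qb = 1 := by rw [← cm_mul, Matrix.nonsing_inv_mul _ hu, cm_one]
    have h4 := congrArg (fun Z => cm Qb * Z * cm Qb) hA
    simp only [Matrix.mul_zero, Matrix.zero_mul] at h4
    calc A.transpose * cm Qb + cm Qb * A = cm Qb * A * (cm Qb⁻¹ * cm Qb) + (cm Qb * cm Qb⁻¹) * A.transpose * cm Qb := by
          rw [q1, q2, Matrix.one_mul, Matrix.mul_one, add_comm]
      _ = cm Qb * (A * cm Qb⁻¹ + cm Qb⁻¹ * A.transpose) * cm Qb := by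
          rw [Matrix.mul_add, Matrix.add_mul]
          simp only [Matrix.mul_assoc]
      _ = 0 := h4

lemma mu_zero {w : Matrix (Fin (2 * m)) (Fin (2 * m)) ℂ} {dg : ℕ} {T : Tn ℚ (2 * m) dg}
    (hsup : ∀ I, ev w (cmT T) I ≠ 0 → 2 * ∑ l, ((I l : ℕ) : ℤ) = dg * (2 * m - 1)) :
    act (Matrix.diagonal (dl ℂ (2 * m))) (ev w (cmT T)) = 0 := by
  funext I
  rw [act_diag, Pi.zero_apply]
  by_cases hI : ev w (cmT T) I = 0
  · rw [hI, mul_zero]
  · have h1 := hsup I hI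
    have h2 : ∑ l, dl ℂ (2 * m) (I l) = ((2 * ∑ l, ((I l : ℕ) : ℤ) - dg * (2 * m - 1) : ℤ) : ℂ) := by
      unfold dl
      push_cast
      rw [Finset.sum_sub_distrib, Finset.sum_const, Finset.card_univ, Fintype.card_fin, ← Finset.mul_sum, nsmul_eq_mul]
    rw [h2, h1, sub_self, Int.cast_zero, zero_mul]

/-- **one point** -/
theorem final_point (hm : 2 ≤ m) (hQ : QD (2 * m) (QB β)) (d : PD β) {r : Fin (2 * m) → ℂ}
    (hr : ∀ i, star (d.w i) = r i • d.w i.rev) {dg : ℕ} {T : Tn ℚ (2 * m) dg}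
    (hsup : ∀ I, ev d.w (cmT T) I ≠ 0 → 2 * ∑ l, ((I l : ℕ) : ℤ) = dg * (2 * m - 1))
    (hk : 2 * Fintype.card (Up m) ≤ 2 * Module.finrank ℂ (LinearMap.ker
      (Ph d.γ (fun p : Up m => (p.1.1, p.1.2)) (ev d.w (cmT T)))) + (m + 1))
    {A : Matrix (Fin (2 * m)) (Fin (2 * m)) ℂ} (hA : A.transpose * cm d.Qb + cm d.Qb * A = 0) :
    act A (cmT T) = 0 := by
  -- the point
  have hrev : ∀ i : Fin (2 * m), i.rev ≠ i := fun i h => by
    have h1 := congrArg Fin.val h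
    rw [Fin.val_rev] at h1
    have := i.2
    omega
  set w := d.w with hw
  set γ := d.γ with hγ
  set u := ev w (cmT T) with hu
  have hwdet := d.wdet
  have hr0 : ∀ i, r i ≠ 0 := by
    intro i h0
    have h1 := hr i
    rw [h0, zero_smul, star_eq_zero] at h1
    exact hwdet (Matrix.det_eq_zero_of_row_eq_zero i fun j => congrFun h1 j)
  have hrel := r_rel hr hwdet d.wQ
  set Γ : Matrix (Fin (2 * m)) (Fin (2 * m)) ℂ := Matrix.of fun i j => if j = i.rev then γ i else 0 with hΓ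
  have hwu : IsUnit w.det := isUnit_iff_ne_zero.2 hwdet
  have hwt : IsUnit w.transpose.det := by rw [Matrix.det_transpose]; exact hwu
  have cancel : ∀ X : Matrix (Fin (2 * m)) (Fin (2 * m)) ℂ, w.transpose * X * w = 0 → X = 0 := by
    intro X h
    calc X = ((w.transpose)⁻¹ * w.transpose) * X * (w * w⁻¹) := by
          rw [Matrix.nonsing_inv_mul _ hwt, Matrix.mul_nonsing_inv _ hwu, Matrix.one_mul, Matrix.mul_one]
      _ = (w.transpose)⁻¹ * (w.transpose * X * w) * w⁻¹ := by simp only [Matrix.mul_assoc]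
      _ = 0 := by rw [h, Matrix.mul_zero, Matrix.zero_mul]
  have hwQ : w.transpose * Γ * w = cm d.Qb := d.wQ
  have hanti : ∀ i, γ i.rev = -γ i := by
    have h1 : (cm d.Qb).transpose = -cm d.Qb := by
      have h2 := d.pol
      have h3 := congrArg Matrix.transpose h2
      rw [Matrix.transpose_mul, Matrix.transpose_mul, Matrix.transpose_transpose, Jc_skew hQ, Matrix.transpose_smul,
        Matrix.neg_mul, Matrix.mul_neg, ← Matrix.mul_assoc, h2, ← smul_neg] at h3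
      have h4 := congrArg (fun Z => d.κ⁻¹ • Z) h3
      simp only [smul_smul, inv_mul_cancel₀ d.κ0, one_smul] at h4
      exact h4.symm
    have h2 : Γ.transpose + Γ = 0 := by
      apply cancel
      rw [Matrix.mul_add, Matrix.add_mul, hwQ]
      have h3 := congrArg Matrix.transpose hwQ
      rw [Matrix.transpose_mul, Matrix.transpose_mul, Matrix.transpose_transpose, h1, ← Matrix.mul_assoc] at h3
      rw [h3, neg_add_cancel]
    intro i
    have h3 := congrFun (congrFun h2 i) i.rev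
    rw [Matrix.add_apply, Matrix.transpose_apply, hΓ, Matrix.of_apply, Matrix.of_apply, if_pos (Fin.rev_rev i).symm,
      if_pos rfl, Matrix.zero_apply] at h3
    exact eq_neg_of_add_eq_zero_left h3
  set B := w * A * w⁻¹ with hB
  have hBw : B * w = w * A := by
    rw [hB, Matrix.mul_assoc, Matrix.nonsing_inv_mul _ hwu, Matrix.mul_one]
  have hform : B.transpose * Γ + Γ * B = 0 := by
    apply cancel
    have h1 : w.transpose * (B.transpose * Γ) * w = A.transpose * (w.transpose * Γ * w) := by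
      have t1 : (B * w).transpose = w.transpose * B.transpose := Matrix.transpose_mul B w
      have t2 : (w * A).transpose = A.transpose * w.transpose := Matrix.transpose_mul w A
      have t3 : w.transpose * B.transpose = A.transpose * w.transpose := by rw [← t1, hBw, t2]
      calc w.transpose * (B.transpose * Γ) * w = (w.transpose * B.transpose) * Γ * w := by
            simp only [Matrix.mul_assoc]
        _ = _ := by
            rw [t3]
            simp only [Matrix.mul_assoc]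
    have h2 : w.transpose * (Γ * B) * w = w.transpose * Γ * w * A := by
      calc w.transpose * (Γ * B) * w = w.transpose * Γ * (B * w) := by simp only [Matrix.mul_assoc]
        _ = _ := by
            rw [hBw]
            simp only [Matrix.mul_assoc]
    rw [Matrix.mul_add, Matrix.add_mul, h1, h2, hwQ]
    exact hA
  have hneg := neg_dim hr0 d.γ0 hanti hrel (star_ev hr T) (fun p : Up m => (p.1.1, p.1.2))
  have hsym : ∀ I, u I ≠ 0 → u (fun l => (I l).rev) ≠ 0 := by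
    intro I hI h0
    apply hI
    have h1 : star (u I) = (∏ l, r (I l)) * u (fun l => (I l).rev) := star_ev hr T I
    rw [h0, mul_zero, star_eq_zero] at h1
    exact h1
  obtain ⟨f1, f2⟩ := dichW d.γ0 hanti hm (fun I hI => hsup I hI) hk (by
    refine hk.trans (Nat.add_le_add_right (Nat.mul_le_mul_left _ hneg) _))
  have h1 : act B u = 0 := sp_zero d.γ0 (form_ent hform) f1 f2
  have h2 := (ev_conj hwdet B (cmT T)).2 h1
  have h3 : w⁻¹ * B * w = A := by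
    rw [Matrix.mul_assoc, hBw, ← Matrix.mul_assoc, Matrix.nonsing_inv_mul _ hwu, Matrix.one_mul]
  rw [h3] at h2
  exact h2

/-- **at most one of two points of a window has Hodge tensors which are not invariant** -/
theorem win_tensor (hm : 2 ≤ m) (hβ : ∀ j, ∀ a : ℤ, β j ≠ a) : ∃ G E : ℕ, 2 ≤ G ∧ 1 ≤ E ∧ ∀ t : Fin 2 → ℕ,
    t 0 < t 1 → G ∣ t 1 - t 0 → (t 1 - t 0) ^ E ≤ t 0 →
    ∀ (C : Matrix (Fin (2 * m)) (Fin (2 * m)) ℂ) (M Qb : Matrix (Fin (2 * m)) (Fin (2 * m)) ℚ) (s κ : ℂ), C.det ≠ 0 → s ≠ 0 →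
    C * cm M = s • (cm (Am (2 * m)) * C) → C.transpose * cm (J0 (2 * m)) * C = κ • cm Qb →
    (∀ j, ∀ p ≤ 2 * m, Fl (fun i => perr β (t j) i ᵥ* C) (cm Qb⁻¹) p ⊓
      cj (Fl (fun i => perr β (t j) i ᵥ* C) (cm Qb⁻¹) (2 * m - p)) = ⊥) →
    ∀ (d : Fin 2 → ℕ) (T : ∀ j, Tn ℚ (2 * m) (d j)),
    (∀ j, ∀ p : Fin (d j) → ℕ, d j * (2 * m - 1) < 2 * ∑ l, p l → ∀ x : Fin (d j) → Fin (2 * m) → ℂ,
      (∀ l, x l ∈ Fl (fun i => perr β (t j) i ᵥ* C) (cm Qb⁻¹) (p l)) → evx x (cmT (T j)) = 0) →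
    ∃ j, ∀ A : Matrix (Fin (2 * m)) (Fin (2 * m)) ℂ, A * cm Qb⁻¹ + cm Qb⁻¹ * A.transpose = 0 → act A (cmT (T j)) = 0 := by
  have hQ : QD (2 * m) (QB β) := QD_QB (by omega) (beta' hβ)
  have hH : ∀ i j, Pool.Agent.Y113.SDc (Hp (2 * m) (QB β) i j) := fun i j => sdc_hps (beta' hβ) hQ i j
  obtain ⟨G, hG, hfib⟩ := ex_TF hQ hH
  refine ⟨G, ?_⟩
  by_contra hcon
  have hbad : ∀ N : ℕ, ∃ (t : Fin 2 → ℕ) (d0 d1 : PD β) (dg : Fin 2 → ℕ) (T : ∀ j, Tn ℚ (2 * m) (dg j))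
      (r0 r1 : Fin (2 * m) → ℂ) (A : Fin 2 → Matrix (Fin (2 * m)) (Fin (2 * m)) ℂ) (C : Matrix (Fin (2 * m)) (Fin (2 * m)) ℂ),
      t 0 < t 1 ∧ G ∣ t 1 - t 0 ∧ (t 1 - t 0) ^ N ≤ t 0 ∧ 2 ≤ t 0 ∧ N ≤ t 0 ∧
      d0.t = t 0 ∧ d1.t = t 1 ∧ d0.A = Cc β (t 0) C ∧ d1.A = Cc β (t 1) C ∧
      (∀ I, ev d0.w (cmT (T 0)) I ≠ 0 → 2 * ∑ l, ((I l : ℕ) : ℤ) = dg 0 * (2 * m - 1)) ∧
      (∀ I, ev d1.w (cmT (T 1)) I ≠ 0 → 2 * ∑ l, ((I l : ℕ) : ℤ) = dg 1 * (2 * m - 1)) ∧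
      (∀ i, star (d0.w i) = r0 i • d0.w i.rev) ∧ (∀ i, star (d1.w i) = r1 i • d1.w i.rev) ∧
      (A 0).transpose * cm d0.Qb + cm d0.Qb * A 0 = 0 ∧ (A 1).transpose * cm d1.Qb + cm d1.Qb * A 1 = 0 ∧
      act (A 0) (cmT (T 0)) ≠ 0 ∧ act (A 1) (cmT (T 1)) ≠ 0 := by
    intro N
    by_contra hcon2
    apply hcon
    refine ⟨N + 1, hG, Nat.le_add_left _ _, fun t h1 h2 h3 C M Qb s κ hC hs hM hP hopp dg T hT => ?_⟩
    by_contra hne
    push Not at hne
    choose A hA hne using hne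
    apply hcon2
    have hx : 2 ≤ t 1 - t 0 := hG.trans (Nat.le_of_dvd (by omega) h2)
    have e1 : (t 1 - t 0) ^ N ≤ t 0 := (Nat.pow_le_pow_right (by omega) (Nat.le_succ N)).trans h3
    have e2 : 2 ≤ t 0 := by
      refine le_trans ?_ h3
      calc 2 ≤ t 1 - t 0 := hx
        _ = (t 1 - t 0) ^ 1 := (pow_one _).symm
        _ ≤ (t 1 - t 0) ^ (N + 1) := Nat.pow_le_pow_right (by omega) (by omega)
    have e3 : N ≤ t 0 := by
      refine le_trans ?_ e1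
      calc N ≤ 2 ^ N := Nat.lt_two_pow_self.le
        _ ≤ (t 1 - t 0) ^ N := Nat.pow_le_pow_left hx _
    obtain ⟨d0, r0, a1, a2, a3, a4, a5⟩ := point_data (by omega) hβ e2 hC hs hM hP (hopp 0) (hT 0) (hA 0)
    obtain ⟨d1, r1, b1, b2, b3, b4, b5⟩ := point_data (by omega) hβ (by omega : 2 ≤ t 1) hC hs hM hP (hopp 1) (hT 1) (hA 1)
    exact ⟨t, d0, d1, dg, T, r0, r1, A, C, h1, h2, e1, e2, e3, a1, b1, a2, b2, a3, b3, a4, b4, a5, b5, hne 0, hne 1⟩
  choose t d0 d1 dg T r0 r1 A C h1 h2 h3 h4 h5 a1 b1 a2 b2 a3 b3 a4 b4 a5 b5 hne0 hne1 using hbad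
  obtain ⟨k, hk⟩ := (transfer2 (by omega) hQ hH hfib t h1 h2 h3 h4 h5 d0 d1 a1 b1 (fun k => by
    rw [a2, b2]
    exact Cc_two hQ (h4 k) (h1 k) (C k)) (fun k => T k 0) (fun k => T k 1) (fun k => mu_zero (a3 k))
    fun k => mu_zero (b3 k)).exists
  by_cases hc : 2 * Fintype.card (Up m) ≤ 2 * Module.finrank ℂ (LinearMap.ker
      (Ph (d0 k).γ (fun p : Up m => (p.1.1, p.1.2)) (ev (d0 k).w (cmT (T k 0))))) + (m + 1)
  · exact hne0 k (final_point hm hQ (d0 k) (a4 k) (a3 k) hc (a5 k))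
  · exact hne1 k (final_point hm hQ (d1 k) (b4 k) (b3 k) (by omega) (b5 k))

end Pool.Agent.Y118.HX
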