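import Pool.Agent.Y118.HX.Gen

/-!
# The normaliser of the shift in the symplectic Lie algebra
-/

set_option autoImplicit false
set_option maxHeartbeats 400000

open Matrix

namespace Pool.Agent.Y118.HX

variable {Ω : Type} [Field Ω]

/-- the shift -/
def Sh (Ω : Type) [Field Ω] (n : ℕ) : Matrix (Fin n) (Fin n) Ω := Matrix.of fun i j => if (j : ℕ) = i + 1 then 1 else 0

variable {n : ℕ}

lemma Sh_pow (k : ℕ) (i j : Fin n) : (Sh Ω n ^ k) i j = if (j : ℕ) = i + k then 1 else 0 := by
  induction k generalizing i j with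
  | zero =>
    rw [pow_zero, Matrix.one_apply, add_zero]
    by_cases h : i = j
    · rw [if_pos h, if_pos (by rw [h])]
    · rw [if_neg h, if_neg fun h2 => h (Fin.ext h2.symm)]
  | succ k ih =>
    rw [pow_succ, Matrix.mul_apply]
    by_cases hi : (i : ℕ) + k < n
    · rw [Finset.sum_eq_single (⟨i + k, hi⟩ : Fin n)]
      · rw [ih, if_pos rfl, one_mul]
        unfold Sh
        rw [Matrix.of_apply]
        by_cases h : (j : ℕ) = i + k + 1
        · rw [if_pos h, if_pos (by rw [h]; ring)]
        · rw [if_neg h, if_neg (by omega)]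
      · intro b _ hb
        rw [ih, if_neg (fun h => hb (Fin.ext h)), zero_mul]
      · intro h
        exact absurd (Finset.mem_univ _) h
    · rw [Finset.sum_eq_zero]
      · rw [if_neg]
        have := j.2
        omega
      · intro b _
        rw [ih, if_neg, zero_mul]
        have := b.2
        omega

/-- the matrices which commute with the shift -/
lemma comm_shift {Z : Matrix (Fin n) (Fin n) Ω} (h : Z * Sh Ω n = Sh Ω n * Z) (hn : 0 < n) (i j : Fin n) :
    Z i j = if h : (i : ℕ) ≤ j then Z ⟨0, hn⟩ ⟨j - i, by have := j.2; omega⟩ else 0 := by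
  have hent : ∀ i j : Fin n, ∑ l, Z i l * Sh Ω n l j = ∑ l, Sh Ω n i l * Z l j := fun i j => by
    have := congrFun (congrFun h i) j
    rwa [Matrix.mul_apply, Matrix.mul_apply] at this
  have hL : ∀ (i : Fin n) (j : Fin n) (j' : Fin n), (j : ℕ) = j' + 1 → ∑ l, Z i l * Sh Ω n l j = Z i j' := by
    intro i j j' hj
    rw [Finset.sum_eq_single j']
    · unfold Sh
      rw [Matrix.of_apply, if_pos hj, mul_one]
    · intro b _ hb
      unfold Sh
      rw [Matrix.of_apply, if_neg (fun h2 => hb (Fin.ext (by omega))), mul_zero]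
    · intro h
      exact absurd (Finset.mem_univ _) h
  have hR : ∀ (i : Fin n) (i' : Fin n) (j : Fin n), (i' : ℕ) = i + 1 → ∑ l, Sh Ω n i l * Z l j = Z i' j := by
    intro i i' j hi
    rw [Finset.sum_eq_single i']
    · unfold Sh
      rw [Matrix.of_apply, if_pos hi, one_mul]
    · intro b _ hb
      unfold Sh
      rw [Matrix.of_apply, if_neg (fun h2 => hb (Fin.ext (by omega))), zero_mul]
    · intro h
      exact absurd (Finset.mem_univ _) h
  have hL0 : ∀ (i : Fin n) (j : Fin n), (j : ℕ) = 0 → ∑ l, Z i l * Sh Ω n l j = 0 := by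
    intro i j hj
    refine Finset.sum_eq_zero fun l _ => ?_
    unfold Sh
    rw [Matrix.of_apply, if_neg (by omega), mul_zero]
  -- by induction on the row
  have key : ∀ (a : ℕ) (ha : a < n) (j : Fin n), Z ⟨a, ha⟩ j = if h : a ≤ (j : ℕ) then
      Z ⟨0, hn⟩ ⟨j - a, by have := j.2; omega⟩ else 0 := by
    intro a
    induction a with
    | zero =>
      intro ha j
      rw [dif_pos (Nat.zero_le _)]
      rfl
    | succ a ih =>
      intro ha j
      have h1 := hent ⟨a, by omega⟩ j
      rw [hR ⟨a, by omega⟩ ⟨a + 1, ha⟩ j rfl] at h1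
      rw [← h1]
      rcases Nat.eq_zero_or_pos (j : ℕ) with hj | hj
      · rw [hL0 _ _ hj, dif_neg (by omega)]
      · have hj2 := j.2
        rw [hL _ j ⟨j - 1, by omega⟩ (by show (j : ℕ) = j - 1 + 1; omega), ih (by omega)]
        by_cases h2 : a + 1 ≤ (j : ℕ)
        · rw [dif_pos h2, dif_pos (by show a ≤ (j : ℕ) - 1; omega)]
          congr 1
          apply Fin.ext
          show (j : ℕ) - 1 - a = j - (a + 1)
          omega
        · rw [dif_neg h2, dif_neg (by show ¬ a ≤ (j : ℕ) - 1; omega)]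
  exact key i i.2 j

lemma comm_sum {Z : Matrix (Fin n) (Fin n) Ω} (h : Z * Sh Ω n = Sh Ω n * Z) (hn : 0 < n) :
    Z = ∑ a : Fin n, Z ⟨0, hn⟩ a • Sh Ω n ^ (a : ℕ) := by
  ext i j
  rw [comm_shift h hn, Matrix.sum_apply]
  simp only [Matrix.smul_apply, Sh_pow, smul_eq_mul]
  split_ifs with h1
  · rw [Finset.sum_eq_single (⟨j - i, by have := j.2; omega⟩ : Fin n)]
    · rw [if_pos (by show (j : ℕ) = i + (j - i); omega), mul_one]
    · intro b _ hb
      rw [if_neg (fun h2 => hb (Fin.ext (by show (b : ℕ) = j - i; omega))), mul_zero]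
    · intro h
      exact absurd (Finset.mem_univ _) h
  · symm
    refine Finset.sum_eq_zero fun l _ => ?_
    rw [if_neg (by omega), mul_zero]

/-- the elements of the symplectic Lie algebra which normalise the shift -/
def N0 (J : Matrix (Fin n) (Fin n) Ω) : Submodule Ω (Matrix (Fin n) (Fin n) Ω) where
  carrier := {Z | (∃ c : Ω, Z * Sh Ω n - Sh Ω n * Z = c • Sh Ω n) ∧ Z.transpose * J + J * Z = 0}
  add_mem' := by
    rintro a b ⟨⟨c1, h1⟩, h2⟩ ⟨⟨c2, h3⟩, h4⟩
    refine ⟨⟨c1 + c2, ?_⟩, ?_⟩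
    · rw [add_smul, ← h1, ← h3, Matrix.add_mul, Matrix.mul_add]
      abel
    · rw [Matrix.transpose_add, Matrix.add_mul, Matrix.mul_add]
      calc a.transpose * J + b.transpose * J + (J * a + J * b) = (a.transpose * J + J * a) + (b.transpose * J + J * b) := by abel
        _ = 0 := by rw [h2, h4, add_zero]
  zero_mem' := ⟨⟨0, by simp⟩, by simp⟩
  smul_mem' := by
    rintro r a ⟨⟨c1, h1⟩, h2⟩
    refine ⟨⟨r * c1, ?_⟩, ?_⟩
    · rw [mul_smul, ← h1, Matrix.smul_mul, Matrix.mul_smul, smul_sub]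
    · rw [Matrix.transpose_smul, Matrix.smul_mul, Matrix.mul_smul, ← smul_add, h2, smul_zero]

lemma skew_pow {J : Matrix (Fin n) (Fin n) Ω} (hN : (Sh Ω n).transpose * J = -(J * Sh Ω n)) (k : ℕ) :
    ((Sh Ω n) ^ k).transpose * J = (-1 : Ω) ^ k • (J * (Sh Ω n) ^ k) := by
  induction k with
  | zero => simp
  | succ k ih =>
    have h1 : Sh Ω n * Sh Ω n ^ k = Sh Ω n ^ k * Sh Ω n := by rw [← pow_succ', ← pow_succ]
    rw [pow_succ, Matrix.transpose_mul, Matrix.mul_assoc, ih, Matrix.mul_smul, ← Matrix.mul_assoc, hN,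
      Matrix.neg_mul, Matrix.mul_assoc, h1, smul_neg, pow_succ (-1 : Ω) k, mul_neg, mul_one, neg_smul]

/-- the dimension of the normaliser -/
theorem N0_dim [CharZero Ω] {m : ℕ} (hm : 1 ≤ m) {J : Matrix (Fin (2 * m)) (Fin (2 * m)) Ω} (hJ : IsUnit J.det)
    (hN : (Sh Ω (2 * m)).transpose * J = -(J * Sh Ω (2 * m))) : Module.finrank Ω (N0 J) ≤ m + 1 := by
  have hn : 0 < 2 * m := by omega
  have h1n : 1 < 2 * m := by omega
  let i0 : Fin (2 * m) := ⟨0, hn⟩
  let i1 : Fin (2 * m) := ⟨1, h1n⟩
  let od : Fin m → Fin (2 * m) := fun a => ⟨2 * a + 1, by have := a.2; omega⟩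
  let f : Matrix (Fin (2 * m)) (Fin (2 * m)) Ω →ₗ[Ω] (Option (Fin m) → Ω) :=
    { toFun := fun Z o => match o with
        | none => (Z * Sh Ω (2 * m) - Sh Ω (2 * m) * Z) i0 i1
        | some a => Z i0 (od a)
      map_add' := fun a b => by
        funext o
        rcases o with _ | o
        · simp only [Matrix.add_mul, Matrix.mul_add, Matrix.sub_apply, Matrix.add_apply, Pi.add_apply]
          ring
        · rfl
      map_smul' := fun r a => by
        funext o
        rcases o with _ | o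
        · simp only [Matrix.smul_mul, Matrix.mul_smul, Matrix.sub_apply, Matrix.smul_apply, Pi.smul_apply, smul_eq_mul,
            RingHom.id_apply]
          ring
        · rfl }
  have hinj : Function.Injective (f.comp (N0 J).subtype) := by
    rw [← LinearMap.ker_eq_bot, LinearMap.ker_eq_bot']
    rintro ⟨Z, ⟨c, hc⟩, hZJ⟩ h0
    apply Subtype.ext
    show Z = 0
    have e1 : (Z * Sh Ω (2 * m) - Sh Ω (2 * m) * Z) i0 i1 = 0 := congrFun h0 none
    have e2 : ∀ a : Fin m, Z i0 (od a) = 0 := fun a => congrFun h0 (some a)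
    have hc0 : c = 0 := by
      rw [hc, Matrix.smul_apply] at e1
      unfold Sh at e1
      rw [Matrix.of_apply, if_pos (by rfl), smul_eq_mul, mul_one] at e1
      exact e1
    rw [hc0, zero_smul, sub_eq_zero] at hc
    have hs := comm_sum hc hn
    -- the form
    have h3 : ∑ a : Fin (2 * m), (((-1 : Ω) ^ (a : ℕ) + 1) * Z i0 a) • Sh Ω (2 * m) ^ (a : ℕ) = 0 := by
      have h4 : Z.transpose * J = J * ∑ a : Fin (2 * m), ((-1 : Ω) ^ (a : ℕ) * Z i0 a) • Sh Ω (2 * m) ^ (a : ℕ) := by
        conv_lhs => rw [hs]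
        rw [Matrix.transpose_sum, Finset.sum_mul, Finset.mul_sum]
        refine Finset.sum_congr rfl fun a _ => ?_
        rw [Matrix.transpose_smul, Matrix.smul_mul, skew_pow hN, Matrix.mul_smul, smul_smul]
        congr 1
        exact mul_comm _ _
      have h5 : J * ∑ a : Fin (2 * m), (((-1 : Ω) ^ (a : ℕ) + 1) * Z i0 a) • Sh Ω (2 * m) ^ (a : ℕ) = 0 := by
        calc J * ∑ a : Fin (2 * m), (((-1 : Ω) ^ (a : ℕ) + 1) * Z i0 a) • Sh Ω (2 * m) ^ (a : ℕ) =
            J * (∑ a : Fin (2 * m), ((-1 : Ω) ^ (a : ℕ) * Z i0 a) • Sh Ω (2 * m) ^ (a : ℕ) +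
              ∑ a : Fin (2 * m), Z i0 a • Sh Ω (2 * m) ^ (a : ℕ)) := by
              rw [← Finset.sum_add_distrib]
              congr 1
              refine Finset.sum_congr rfl fun a _ => ?_
              rw [← add_smul, add_mul, one_mul]
          _ = Z.transpose * J + J * Z := by rw [Matrix.mul_add, ← h4, ← hs]
          _ = 0 := hZJ
      have h6 := congrArg (fun X => J⁻¹ * X) h5
      simp only [← Matrix.mul_assoc, Matrix.nonsing_inv_mul _ hJ, Matrix.one_mul, Matrix.mul_zero] at h6
      exact h6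
    have h7 : ∀ a : Fin (2 * m), ((-1 : Ω) ^ (a : ℕ) + 1) * Z i0 a = 0 := by
      intro a
      have h8 := congrFun (congrFun h3 i0) a
      rw [Matrix.sum_apply] at h8
      simp only [Matrix.smul_apply, Sh_pow, smul_eq_mul, Matrix.zero_apply] at h8
      rw [Finset.sum_eq_single a] at h8
      · rwa [if_pos (by show (a : ℕ) = 0 + a; omega), mul_one] at h8
      · intro b _ hb
        rw [if_neg (fun h2 => hb (Fin.ext (by have : (a : ℕ) = 0 + b := h2; omega))), mul_zero]
      · intro h
        exact absurd (Finset.mem_univ _) h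
    have h9 : ∀ a : Fin (2 * m), Z i0 a = 0 := by
      intro a
      rcases Nat.even_or_odd (a : ℕ) with he | ⟨r, hr⟩
      · have h10 := h7 a
        rw [he.neg_one_pow] at h10
        have h11 : (1 : Ω) + 1 ≠ 0 := by norm_num
        exact (mul_eq_zero.1 h10).resolve_left h11
      · have hr2 : r < m := by have := a.2; omega
        have h12 := e2 ⟨r, hr2⟩
        have h13 : od ⟨r, hr2⟩ = a := Fin.ext hr.symm
        rwa [h13] at h12
    rw [hs]
    refine Finset.sum_eq_zero fun a _ => ?_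
    show Z i0 a • _ = 0
    rw [h9, zero_smul]
  have h := LinearMap.finrank_le_finrank_of_injective hinj
  rw [Module.finrank_fintype_fun_eq_card, Fintype.card_option, Fintype.card_fin] at h
  exact h

end Pool.Agent.Y118.HX
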