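import Mathlib

/-!
# The action of matrices on tensors
-/

set_option autoImplicit false
set_option maxHeartbeats 400000

open Matrix

namespace Pool.Agent.Y118.HX

/-- tensors -/
abbrev Tn (K : Type) (n d : ℕ) : Type := (Fin d → Fin n) → K

variable {K : Type} [Field K] {n d : ℕ}

/-- the action on one factor -/
def al (l : Fin d) (X : Matrix (Fin n) (Fin n) K) : Module.End K (Tn K n d) where
  toFun := fun u I => ∑ j, X (I l) j * u (Function.update I l j)
  map_add' := fun u v => by
    funext I
    rw [Pi.add_apply, ← Finset.sum_add_distrib]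
    refine Finset.sum_congr rfl fun j _ => ?_
    rw [Pi.add_apply, mul_add]
  map_smul' := fun c u => by
    funext I
    rw [Pi.smul_apply, RingHom.id_apply, smul_eq_mul, Finset.mul_sum]
    refine Finset.sum_congr rfl fun j _ => ?_
    rw [Pi.smul_apply, smul_eq_mul]
    ring

lemma al_apply (l : Fin d) (X : Matrix (Fin n) (Fin n) K) (u : Tn K n d) (I : Fin d → Fin n) :
    al l X u I = ∑ j, X (I l) j * u (Function.update I l j) := rfl

lemma al_mul (l : Fin d) (X Y : Matrix (Fin n) (Fin n) K) : al l X * al l Y = (al l (X * Y) : Module.End K (Tn K n d)) := by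
  refine LinearMap.ext fun u => ?_
  funext I
  rw [Module.End.mul_apply, al_apply, al_apply]
  simp only [al_apply, Function.update_self, Function.update_idem, Matrix.mul_apply, Finset.mul_sum, Finset.sum_mul]
  rw [Finset.sum_comm]
  refine Finset.sum_congr rfl fun k _ => Finset.sum_congr rfl fun j _ => ?_
  ring

lemma al_comm {l l' : Fin d} (h : l ≠ l') (X Y : Matrix (Fin n) (Fin n) K) :
    al l X * al l' Y = (al l' Y * al l X : Module.End K (Tn K n d)) := by
  refine LinearMap.ext fun u => ?_
  funext I
  rw [Module.End.mul_apply, Module.End.mul_apply, al_apply, al_apply]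
  simp only [al_apply, Function.update_of_ne h, Function.update_of_ne h.symm, Finset.mul_sum]
  rw [Finset.sum_comm]
  refine Finset.sum_congr rfl fun k _ => Finset.sum_congr rfl fun j _ => ?_
  rw [Function.update_comm h]
  ring

lemma al_add (l : Fin d) (X Y : Matrix (Fin n) (Fin n) K) : al l (X + Y) = (al l X + al l Y : Module.End K (Tn K n d)) := by
  refine LinearMap.ext fun u => ?_
  funext I
  rw [LinearMap.add_apply, Pi.add_apply, al_apply, al_apply, al_apply, ← Finset.sum_add_distrib]
  refine Finset.sum_congr rfl fun j _ => ?_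
  rw [Matrix.add_apply, add_mul]

lemma al_smul (l : Fin d) (c : K) (X : Matrix (Fin n) (Fin n) K) : al l (c • X) = (c • al l X : Module.End K (Tn K n d)) := by
  refine LinearMap.ext fun u => ?_
  funext I
  rw [LinearMap.smul_apply, Pi.smul_apply, al_apply, al_apply, smul_eq_mul, Finset.mul_sum]
  refine Finset.sum_congr rfl fun j _ => ?_
  rw [Matrix.smul_apply, smul_eq_mul, mul_assoc]

lemma al_neg (l : Fin d) (X : Matrix (Fin n) (Fin n) K) : al l (-X) = (-al l X : Module.End K (Tn K n d)) := by
  refine LinearMap.ext fun u => ?_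
  funext I
  rw [LinearMap.neg_apply, Pi.neg_apply, al_apply, al_apply, ← Finset.sum_neg_distrib]
  refine Finset.sum_congr rfl fun j _ => ?_
  rw [Matrix.neg_apply, neg_mul]

/-- the action of matrices on tensors -/
def act : Matrix (Fin n) (Fin n) K →ₗ[K] Module.End K (Tn K n d) where
  toFun := fun X => ∑ l, al l X
  map_add' := fun X Y => by rw [← Finset.sum_add_distrib]; exact Finset.sum_congr rfl fun l _ => al_add l X Y
  map_smul' := fun c X => by
    rw [RingHom.id_apply, Finset.smul_sum]
    exact Finset.sum_congr rfl fun l _ => al_smul l c X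

lemma act_apply (X : Matrix (Fin n) (Fin n) K) (u : Tn K n d) (I : Fin d → Fin n) :
    act X u I = ∑ l, ∑ j, X (I l) j * u (Function.update I l j) := by
  show (∑ l, al l X : Module.End K (Tn K n d)) u I = _
  rw [LinearMap.sum_apply, Finset.sum_apply]
  rfl

/-- **the action is an action of Lie algebras** -/
lemma act_comm (X Y : Matrix (Fin n) (Fin n) K) :
    act X * act Y - act Y * act X = (act (X * Y - Y * X) : Module.End K (Tn K n d)) := by
  show (∑ l, al l X) * (∑ l, al l Y) - (∑ l, al l Y) * (∑ l, al l X) = ∑ l, al l (X * Y - Y * X)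
  rw [Finset.sum_mul_sum, Finset.sum_mul_sum]
  have h1 : ∑ i, ∑ j, al i Y * al j X = (∑ i, ∑ j, al j Y * al i X : Module.End K (Tn K n d)) := Finset.sum_comm
  rw [h1, ← Finset.sum_sub_distrib]
  refine Finset.sum_congr rfl fun l _ => ?_
  rw [← Finset.sum_sub_distrib, Finset.sum_eq_single l]
  · rw [al_mul, al_mul, sub_eq_add_neg (X * Y), al_add, al_neg, sub_eq_add_neg]
  · intro b _ hb
    rw [al_comm hb.symm, sub_self]
  · intro h
    exact absurd (Finset.mem_univ _) h

/-- the lowering operators are nilpotent -/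
lemma act_nilp {Y : Matrix (Fin n) (Fin n) K} (ε : Fin n → ℕ) (hY : ∀ i j, Y i j ≠ 0 → ε j < ε i) (k : ℕ) (u : Tn K n d)
    (I : Fin d → Fin n) (hI : ∑ l, ε (I l) < k) : (act Y ^ k) u I = 0 := by
  induction k generalizing I with
  | zero => exact absurd hI (Nat.not_lt_zero _)
  | succ k ih =>
    rw [pow_succ', Module.End.mul_apply, act_apply]
    refine Finset.sum_eq_zero fun l _ => Finset.sum_eq_zero fun j _ => ?_
    by_cases h : Y (I l) j = 0
    · rw [h, zero_mul]
    · rw [ih, mul_zero]
      have h1 := hY _ _ h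
      have h2 : ∑ l', ε (Function.update I l j l') + ε (I l) = ∑ l', ε (I l') + ε j := by
        rw [← Finset.add_sum_erase _ _ (Finset.mem_univ l), ← Finset.add_sum_erase Finset.univ (fun l' => ε (I l')) (Finset.mem_univ l),
          Function.update_self]
        have h3 : ∑ x ∈ Finset.univ.erase l, ε (Function.update I l j x) = ∑ x ∈ Finset.univ.erase l, ε (I x) :=
          Finset.sum_congr rfl fun x hx => by rw [Function.update_of_ne (Finset.ne_of_mem_erase hx)]
        rw [h3]
        ring
      omega

lemma act_nilp' {Y : Matrix (Fin n) (Fin n) K} (ε : Fin n → ℕ) (hY : ∀ i j, Y i j ≠ 0 → ε j < ε i) :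
    ∃ k : ℕ, (act Y ^ k : Module.End K (Tn K n d)) = 0 := by
  refine ⟨d * (∑ i, ε i) + 1, LinearMap.ext fun u => ?_⟩
  funext I
  refine act_nilp ε hY _ u I ?_
  have h1 : ∑ l, ε (I l) ≤ ∑ _l : Fin d, ∑ i, ε i :=
    Finset.sum_le_sum fun l _ => Finset.single_le_sum (f := ε) (fun _ _ => Nat.zero_le _) (Finset.mem_univ (I l))
  rw [Finset.sum_const, Finset.card_univ, Fintype.card_fin, smul_eq_mul] at h1
  omega

/-- the weight of a primitive vector is not negative -/
lemma sl2_pos [CharZero K] {U : Type} [AddCommGroup U] [Module K U] {e f h : Module.End K U} (hef : e * f - f * e = h)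
    (hhf : h * f - f * h = (-2 : K) • f) {u : U} (hu : u ≠ 0) (heu : e u = 0) {z : ℤ} (hz : h u = (z : K) • u)
    (hf : ∃ k : ℕ, f ^ k = 0) : 0 ≤ z := by
  have h1 : ∀ k : ℕ, h ((f ^ k) u) = ((z : K) - 2 * k) • (f ^ k) u := by
    intro k
    induction k with
    | zero => rw [pow_zero, Module.End.one_apply, hz, Nat.cast_zero, mul_zero, sub_zero]
    | succ k ih =>
      have h2 : h (f ((f ^ k) u)) = f (h ((f ^ k) u)) + (-2 : K) • f ((f ^ k) u) := by
        have h3 := LinearMap.congr_fun hhf ((f ^ k) u)
        rw [LinearMap.sub_apply, Module.End.mul_apply, Module.End.mul_apply, LinearMap.smul_apply] at h3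
        rw [← h3]
        abel
      rw [pow_succ', Module.End.mul_apply, h2, ih, map_smul, ← add_smul]
      congr 1
      push_cast
      ring
  have h2 : ∀ k : ℕ, e ((f ^ (k + 1)) u) = (((k : K) + 1) * ((z : K) - k)) • (f ^ k) u := by
    intro k
    have h3 : ∀ v : U, e (f v) = f (e v) + h v := by
      intro v
      have h4 := LinearMap.congr_fun hef v
      rw [LinearMap.sub_apply, Module.End.mul_apply, Module.End.mul_apply] at h4
      rw [← h4]
      abel
    induction k with
    | zero =>
      rw [zero_add, pow_one, h3, heu, map_zero, zero_add, hz, pow_zero, Module.End.one_apply]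
      congr 1
      push_cast
      ring
    | succ k ih =>
      rw [pow_succ', Module.End.mul_apply, h3, ih, h1, map_smul, ← Module.End.mul_apply, ← pow_succ', ← add_smul]
      congr 1
      push_cast
      ring
  classical
  have hex : ∃ k : ℕ, (f ^ k) u = 0 := by
    obtain ⟨k, hk⟩ := hf
    exact ⟨k, by rw [hk, LinearMap.zero_apply]⟩
  set N := Nat.find hex with hN
  have hN1 : (f ^ N) u = 0 := Nat.find_spec hex
  have hN0 : N ≠ 0 := by
    intro h0
    rw [h0, pow_zero, Module.End.one_apply] at hN1
    exact hu hN1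
  obtain ⟨k, hk⟩ : ∃ k, N = k + 1 := ⟨N - 1, by omega⟩
  have h3 := h2 k
  rw [← hk, hN1, map_zero] at h3
  have h4 : (f ^ k) u ≠ 0 := fun h5 => by
    have := Nat.find_min' hex h5
    omega
  have h5 := (smul_eq_zero.1 h3.symm).resolve_right h4
  have h6 : ((k : K) + 1) ≠ 0 := by exact_mod_cast Nat.succ_ne_zero k
  have h7 := (mul_eq_zero.1 h5).resolve_left h6
  have h8 : (z : K) = ((k : ℤ) : K) := by
    rw [sub_eq_zero] at h7
    rw [h7]
    push_cast
    rfl
  have h9 : z = k := by exact_mod_cast h8
  omega

end Pool.Agent.Y118.HX
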