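import Pool.Agent.Y118.HX.Asm
import Pool.Agent.Y118.HX.Alg
import Pool.Agent.Y118.HX.Ev
import Pool.Agent.Y118.HX.Lead

/-!
# Transfer of the count from the ultraproduct to the points
-/

set_option autoImplicit false
set_option maxHeartbeats 400000

open Matrix Filter

namespace Pool.Agent.Y118.HX

open Pool.Agent.Y118.UL (mk mk_eq mk_eq_zero mk_ne_zero mk_surj ev_ge qc qc_mk algebraMap_eq U)
open Pool.Agent.Y119.HY Pool.Agent.Y119.HZ
open Pool.Agent.Y118.CM

section gm

variable {n : ℕ} {K : Type} [Field K]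

lemma gm_add (F G : ℕ → Matrix (Fin n) (Fin n) K) : gm (fun t => F t + G t) = gm F + gm G := by
  ext i j
  rw [gm_apply, Matrix.add_apply, gm_apply, gm_apply, ← map_add]
  rfl

lemma gm_sub (F G : ℕ → Matrix (Fin n) (Fin n) K) : gm (fun t => F t - G t) = gm F - gm G := by
  ext i j
  rw [gm_apply, Matrix.sub_apply, gm_apply, gm_apply, ← map_sub]
  rfl

lemma gm_zero : gm (fun _ => (0 : Matrix (Fin n) (Fin n) K)) = 0 := by
  ext i j
  rw [gm_apply]
  exact map_zero (mk K)

lemma gm_sum {ι : Type} (s : Finset ι) (F : ι → ℕ → Matrix (Fin n) (Fin n) K) :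
    gm (fun t => ∑ a ∈ s, F a t) = ∑ a ∈ s, gm (F a) := by
  ext i j
  rw [gm_apply, Matrix.sum_apply]
  simp only [Matrix.sum_apply, gm_apply]
  exact mk_sum _ _

lemma gm_inv {w : ℕ → Matrix (Fin n) (Fin n) K} (h : ∀ t, (w t).det ≠ 0) : gm (fun t => (w t)⁻¹) = (gm w)⁻¹ := by
  symm
  refine Matrix.inv_eq_right_inv ?_
  rw [← gm_mul, ← gm_one]
  congr 1
  funext t
  exact Matrix.mul_nonsing_inv _ (isUnit_iff_ne_zero.2 (h t))

lemma mk_div {f g : ℕ → K} (hg : ∀ t, g t ≠ 0) : mk K (fun t => f t / g t) = mk K f / mk K g := by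
  have h1 : mk K g ≠ 0 := mk_ne_zero.2 (Eventually.of_forall hg)
  rw [eq_div_iff h1, ← mk_mul']
  congr 1
  funext t
  exact div_mul_cancel₀ _ (hg t)

lemma gm_single (i j : Fin n) : gm (fun _ => Matrix.single i j (1 : K)) = Matrix.single i j 1 := by
  ext a b
  show mk K (fun _ => Matrix.single i j (1 : K) a b) = Matrix.single i j (1 : U K) a b
  by_cases h : i = a ∧ j = b
  · have h1 : (fun _ : ℕ => Matrix.single i j (1 : K) a b) = 1 := by
      funext t
      rw [Matrix.single_apply, if_pos h]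
      rfl
    rw [h1, map_one, Matrix.single_apply, if_pos h]
  · have h1 : (fun _ : ℕ => Matrix.single i j (1 : K) a b) = 0 := by
      funext t
      rw [Matrix.single_apply, if_neg h]
      rfl
    rw [h1, map_zero, Matrix.single_apply, if_neg h]

lemma gm_Xr {γ : ℕ → Fin n → K} (hγ : ∀ t i, γ t i ≠ 0) (i j : Fin n) :
    gm (fun t => Xr (γ t) i j) = Xr (fun i => mk K fun t => γ t i) i j := by
  unfold Xr
  rw [gm_sub, gm_single]
  have h1 : gm (fun t => (γ t i / γ t j) • Matrix.single j.rev i.rev (1 : K)) =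
      mk K (fun t => γ t i / γ t j) • Matrix.single j.rev i.rev 1 := by
    rw [gm_smul (fun t => γ t i / γ t j), gm_single]
  rw [h1, mk_div fun t => hγ t j]

lemma gm_dl (n : ℕ) : gm (fun _ => Matrix.diagonal (dl ℂ n)) = Matrix.diagonal (dl (U ℂ) n) := by
  ext i j
  show mk ℂ (fun _ => Matrix.diagonal (dl ℂ n) i j) = Matrix.diagonal (dl (U ℂ) n) i j
  by_cases h : i = j
  · have h1 : (fun _ : ℕ => Matrix.diagonal (dl ℂ n) i j) = ((2 * ((i : ℕ) : ℤ) - ((n : ℤ) - 1) : ℤ) : ℕ → ℂ) := by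
      funext t
      rw [Matrix.diagonal_apply, if_pos h]
      rfl
    rw [h1, map_intCast, Matrix.diagonal_apply, if_pos h]
    rfl
  · have h1 : (fun _ : ℕ => Matrix.diagonal (dl ℂ n) i j) = 0 := by
      funext t
      rw [Matrix.diagonal_apply, if_neg h]
      rfl
    rw [h1, map_zero, Matrix.diagonal_apply, if_neg h]

end gm

section An

variable {n : ℕ} {dg : ℕ → ℕ} (T : ∀ t, Tn ℚ n (dg t))

/-- the ultraproduct of the annihilators -/
def An : Submodule (U ℂ) (Matrix (Fin n) (Fin n) (U ℂ)) where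
  carrier := {X | ∃ F : ℕ → Matrix (Fin n) (Fin n) ℂ, gm F = X ∧ ∀ t, act (F t) (cmT (T t)) = 0}
  add_mem' := by
    rintro _ _ ⟨F, rfl, hF⟩ ⟨G, rfl, hG⟩
    exact ⟨fun t => F t + G t, gm_add F G, fun t => by rw [map_add, LinearMap.add_apply, hF, hG, add_zero]⟩
  zero_mem' := ⟨fun _ => 0, gm_zero, fun t => by rw [map_zero, LinearMap.zero_apply]⟩
  smul_mem' := by
    rintro c _ ⟨F, rfl, hF⟩
    obtain ⟨c, rfl⟩ := mk_surj c
    exact ⟨fun t => c t • F t, gm_smul c F, fun t => by rw [map_smul, LinearMap.smul_apply, hF, smul_zero]⟩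

lemma An_br : ∀ X ∈ An T, ∀ Y ∈ An T, X * Y - Y * X ∈ An T := by
  rintro _ ⟨F, rfl, hF⟩ _ ⟨G, rfl, hG⟩
  refine ⟨fun t => F t * G t - G t * F t, by rw [gm_sub, gm_mul, gm_mul], fun t => ?_⟩
  rw [← act_comm, LinearMap.sub_apply, Module.End.mul_apply, Module.End.mul_apply, hF, hG, map_zero, map_zero, sub_zero]

lemma An_D (D : Derivation (U ℚ) (U ℂ) (U ℂ)) : ∀ X ∈ An T, dm D X ∈ An T := by
  rintro _ ⟨F, rfl, hF⟩
  choose h hh hflat using fun t => flat (T t)
  have e : ∀ a b, gm F a b = ∑ i, ∑ j, gm F i j * algebraMap (U ℚ) (U ℂ) (gm (fun t => h t i j) a b) := by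
    intro a b
    have h1 : F = fun t => ∑ i, ∑ j, F t i j • (h t i j).map (fun q : ℚ => (q : ℂ)) := funext fun t => hflat t _ (hF t)
    conv_lhs => rw [h1]
    rw [gm_apply]
    simp only [Matrix.sum_apply, Matrix.smul_apply, Matrix.map_apply, smul_eq_mul]
    rw [mk_sum]
    refine Finset.sum_congr rfl fun i _ => ?_
    rw [mk_sum]
    refine Finset.sum_congr rfl fun j _ => ?_
    rw [mk_mul', gm_apply, gm_apply, algebraMap_eq, qc_mk]
  have e2 : dm D (gm F) = ∑ i, ∑ j, D (gm F i j) • (gm fun t => (h t i j).map (fun q : ℚ => (q : ℂ))) := by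
    ext a b
    show D (gm F a b) = _
    rw [e a b, map_sum, Matrix.sum_apply]
    refine Finset.sum_congr rfl fun i _ => ?_
    rw [map_sum, Matrix.sum_apply]
    refine Finset.sum_congr rfl fun j _ => ?_
    rw [Derivation.leibniz, Derivation.map_algebraMap, smul_zero, zero_add, Matrix.smul_apply, smul_eq_mul, smul_eq_mul,
      mul_comm]
    rfl
  rw [e2]
  refine Submodule.sum_mem _ fun i _ => Submodule.sum_mem _ fun j _ => Submodule.smul_mem _ _
    ⟨fun t => (h t i j).map (fun q : ℚ => (q : ℂ)), rfl, fun t => ?_⟩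
  rw [act_cmT, hh]
  funext I
  unfold cmT
  simp

lemma An_mu {w : ℕ → Matrix (Fin n) (Fin n) ℂ} (hw : ∀ t, (w t).det ≠ 0)
    (hμ : ∀ t, act (Matrix.diagonal (dl ℂ n)) (ev (w t) (cmT (T t))) = 0) :
    (gm w)⁻¹ * Matrix.diagonal (dl (U ℂ) n) * gm w ∈ An T :=
  ⟨fun t => (w t)⁻¹ * Matrix.diagonal (dl ℂ n) * w t, by rw [gm_mul, gm_mul, gm_inv hw, gm_dl],
    fun t => (ev_conj (hw t) _ _).2 (hμ t)⟩

end An

variable {m : ℕ}

/-- **the count at almost all points** -/
theorem transfer {β : Fin m → ℚ} (hm : 1 ≤ m) (hQ : QD (2 * m) (QB β))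
    (hH : ∀ i j, Pool.Agent.Y113.SDc (Hp (2 * m) (QB β) i j)) (d : ℕ → PD β) (hd : ∀ k, k ≤ (d k).t)
    {dg : ℕ → ℕ} (T : ∀ t, Tn ℚ (2 * m) (dg t))
    (hμ : ∀ t, act (Matrix.diagonal (dl ℂ (2 * m))) (ev (d t).w (cmT (T t))) = 0) :
    ∀ᶠ t in (hyperfilter ℕ : Filter ℕ), Fintype.card (Up m) ≤ Module.finrank ℂ (LinearMap.ker
      (Ph (d t).γ (fun p : Up m => (p.1.1, p.1.2)) (ev (d t).w (cmT (T t))))) + (m + 1) := by
  classical
  set D := dat hm hQ hH d hd with hD
  set H := (An T).comap (D.Ψ fun p => p.1) with hHd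
  have h1 : Fintype.card (Up m) ≤ Module.finrank (U ℂ) H + (m + 1) :=
    D.count_alg (An T) (An_br T) (An_D T) (An_mu T (fun t => (d t).wdet) hμ)
  set r := Module.finrank (U ℂ) H with hr
  -- a basis
  set bas := Module.finBasis (U ℂ) H with hbas
  set v : Fin r → (Up m → U ℂ) := fun i => (bas i : Up m → U ℂ) with hv
  have hli : LinearIndependent (U ℂ) v := bas.linearIndependent.map' H.subtype (Submodule.ker_subtype _)
  obtain ⟨φ, hφ⟩ := LinearMap.exists_leftInverse_of_injective (Fintype.linearCombination (U ℂ) v)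
    (LinearMap.ker_eq_bot.2 (linearIndependent_iff_injective_fintypeLinearCombination.1 hli))
  have hφv : ∀ i, φ (v i) = Pi.single i 1 := by
    intro i
    have h2 := LinearMap.congr_fun hφ (Pi.single i 1)
    rw [LinearMap.comp_apply, Fintype.linearCombination_apply_single, one_smul, LinearMap.id_apply] at h2
    exact h2
  have hφf : ∀ (f : Up m → U ℂ) j, φ f j = ∑ p, f p * φ (Pi.single p 1) j := by
    intro f j
    have h4 : f = ∑ p, f p • (Pi.single p 1 : Up m → U ℂ) := by
      funext z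
      rw [Finset.sum_apply]
      simp only [Pi.smul_apply, Pi.single_apply, smul_eq_mul, mul_ite, mul_one, mul_zero]
      rw [Finset.sum_ite_eq Finset.univ z fun p => f p, if_pos (Finset.mem_univ _)]
    conv_lhs => rw [h4]
    rw [map_sum, Finset.sum_apply]
    refine Finset.sum_congr rfl fun p _ => ?_
    rw [map_smul, Pi.smul_apply, smul_eq_mul]
  choose v' hv' using fun i p => mk_surj (v i p)
  choose G' hG' using fun p j => mk_surj (φ (Pi.single p 1) j)
  have e1 : ∀ i j, ∀ᶠ t in (hyperfilter ℕ : Filter ℕ), ∑ p, v' i p t * G' p j t = if i = j then 1 else 0 := by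
    intro i j
    have h2 : mk ℂ (fun t => ∑ p, v' i p t * G' p j t) = (Pi.single i 1 : Fin r → U ℂ) j := by
      rw [← hφv, hφf, mk_sum]
      refine Finset.sum_congr rfl fun p _ => ?_
      rw [mk_mul', ← hv', ← hG']
    have h3 : (Pi.single i 1 : Fin r → U ℂ) j = mk ℂ (fun _ => if i = j then 1 else 0) := by
      rw [Pi.single_apply]
      by_cases hij : i = j
      · rw [if_pos hij.symm]
        have h4 : (fun _ : ℕ => (if i = j then 1 else 0 : ℂ)) = 1 := by
          funext t
          rw [if_pos hij]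
          rfl
        rw [h4, map_one]
      · rw [if_neg (fun h => hij h.symm)]
        have h4 : (fun _ : ℕ => (if i = j then 1 else 0 : ℂ)) = 0 := by
          funext t
          rw [if_neg hij]
          rfl
        rw [h4, map_zero]
    rw [h3, mk_eq] at h2
    exact h2
  have e2 : ∀ i, ∀ᶠ t in (hyperfilter ℕ : Filter ℕ),
      Ph (d t).γ (fun p : Up m => (p.1.1, p.1.2)) (ev (d t).w (cmT (T t))) (fun p => v' i p t) = 0 := by
    intro i
    obtain ⟨F, hF1, hF2⟩ : (D.Ψ fun p => p.1) (v i) ∈ An T := (bas i).2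
    have h2 : (D.Ψ fun p => p.1) (v i) = gm fun t => ((d t).w)⁻¹ * (∑ p : Up m, v' i p t • Xr (d t).γ p.1.1 p.1.2) * (d t).w := by
      rw [gm_mul, gm_mul, gm_inv fun t => (d t).wdet, gm_sum]
      show (gm fun t => (d t).w)⁻¹ * (∑ p : Up m, v i p • Xr D.γ p.1.1 p.1.2) * (gm fun t => (d t).w) = _
      congr 2
      refine Finset.sum_congr rfl fun p _ => ?_
      rw [gm_smul (fun t => v' i p t), gm_Xr fun t => (d t).γ0, ← hv']
      rfl
    rw [h2] at hF1
    filter_upwards [gm_eq hF1] with t ht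
    have h3 := hF2 t
    rw [ht, ev_conj (d t).wdet, map_sum, LinearMap.sum_apply] at h3
    show ∑ p, v' i p t • act (Xr (d t).γ p.1.1 p.1.2) (ev (d t).w (cmT (T t))) = 0
    rw [← h3]
    refine Finset.sum_congr rfl fun p _ => ?_
    rw [map_smul, LinearMap.smul_apply]
  have e3 : ∀ᶠ t in (hyperfilter ℕ : Filter ℕ), ∀ i j, ∑ p, v' i p t * G' p j t = if i = j then 1 else 0 :=
    Filter.eventually_all.2 fun i => Filter.eventually_all.2 fun j => e1 i j
  filter_upwards [e3, Filter.eventually_all.2 e2] with t h2 h3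
  have h4 : r ≤ Module.finrank ℂ (LinearMap.ker
      (Ph (d t).γ (fun p : Up m => (p.1.1, p.1.2)) (ev (d t).w (cmT (T t))))) := by
    have h5 : LinearIndependent ℂ (fun i : Fin r => (⟨fun p => v' i p t, LinearMap.mem_ker.2 (h3 i)⟩ :
        LinearMap.ker (Ph (d t).γ (fun p : Up m => (p.1.1, p.1.2)) (ev (d t).w (cmT (T t)))))) := by
      rw [Fintype.linearIndependent_iff]
      intro c hc j
      have h6 : ∀ p, ∑ i, c i * v' i p t = 0 := by
        intro p
        have h7 := congrFun (congrArg Subtype.val hc) p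
        rw [Submodule.coe_sum, Finset.sum_apply] at h7
        exact h7
      calc c j = ∑ i, c i * (if i = j then 1 else 0) := by
            simp only [mul_ite, mul_one, mul_zero]
            rw [Finset.sum_ite_eq' Finset.univ j c, if_pos (Finset.mem_univ _)]
        _ = ∑ i, c i * ∑ p, v' i p t * G' p j t := by
            refine Finset.sum_congr rfl fun i _ => ?_
            rw [h2 i j]
        _ = ∑ p, (∑ i, c i * v' i p t) * G' p j t := by
            simp only [Finset.mul_sum, Finset.sum_mul]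
            rw [Finset.sum_comm]
            refine Finset.sum_congr rfl fun p _ => Finset.sum_congr rfl fun i _ => ?_
            ring
        _ = 0 := by
            refine Finset.sum_eq_zero fun p _ => ?_
            rw [h6, zero_mul]
    have h6 := h5.fintype_card_le_finrank
    rwa [Fintype.card_fin] at h6
  omega

end Pool.Agent.Y118.HX
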