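import Pool.Agent.Y118.HX.Tr
import Pool.Agent.Y118.HX.Gen2
import Pool.Agent.Y118.HX.Fib2

/-!
# The count for two points of a window
-/

set_option autoImplicit false
set_option maxHeartbeats 400000

open Matrix Filter

namespace Pool.Agent.Y118.HX

open Pool.Agent.Y118.UL (mk mk_eq mk_eq_zero mk_ne_zero mk_surj ev_ge rep qc qc_mk algebraMap_eq U)
open Pool.Agent.Y119.HY Pool.Agent.Y119.HZ
open Pool.Agent.Y118.CM

/-- the relations at two points -/
def TF (n : ℕ) (Q : Polynomial ℚ) (G : ℕ) : Prop := ∀ D d : ℕ, ∃ E : ℕ, ∀ t : Fin 2 → ℕ,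
    t 0 < t 1 → G ∣ t 1 - t 0 → (t 1 - t 0) ^ E ≤ t 0 → 2 ≤ t 0 →
    ∀ K : IntermediateField ℚ ℂ, FiniteDimensional ℚ K → Module.finrank ℚ K ≤ D →
    ∀ P : MvPolynomial (Fin 2 × Option (Fin n × Fin n)) K, P.totalDegree ≤ d →
    MvPolynomial.aeval (fun a : Fin 2 × Option (Fin n × Fin n) =>
      a.2.elim ((Real.log ((t a.1 : ℝ) / (t 1 + G)) : ℝ) : ℂ) fun x => Hf (Hc n Q) (((1 / (t a.1 : ℝ) : ℝ)) : ℂ) x.1 x.2) P = 0 →
    ∀ g : Fin 2 → Matrix (Fin n) (Fin n) ℂ, (∀ j, (g j).transpose * cm (Jm n Q) * g j = cm (Jm n Q)) → ∀ ν : Fin 2 → ℂ,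
    MvPolynomial.aeval (fun a : Fin 2 × Option (Fin n × Fin n) => a.2.elim (ν a.1) fun x => g a.1 x.1 x.2) P = 0

lemma ex_TF {n : ℕ} {Q : Polynomial ℚ} (hQ : QD n Q) (hH : ∀ i j, Pool.Agent.Y113.SDc (Hp n Q i j)) :
    ∃ G : ℕ, 2 ≤ G ∧ TF n Q G := two_fibre hQ hH

/-- the logarithms -/
noncomputable def lg (G : ℕ) (t : Fin 2 → ℕ) (j : Fin 2) : ℂ := ((Real.log ((t j : ℝ) / (t 1 + G)) : ℝ) : ℂ)

/-- **generic pairs** -/
theorem generic2_of {n : ℕ} {Q : Polynomial ℚ} {G : ℕ} (hfib : TF n Q G) (t : ℕ → Fin 2 → ℕ) (h1 : ∀ k, t k 0 < t k 1)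
    (h2 : ∀ k, G ∣ t k 1 - t k 0) (h3 : ∀ k, (t k 1 - t k 0) ^ k ≤ t k 0) (h4 : ∀ k, 2 ≤ t k 0) :
    Generic2 (U ℚ) ((gm fun _ => Jm n Q).map (algebraMap (U ℚ) (U ℂ)))
      (fun j => gm fun k => Hf (Hc n Q) (((1 / (t k j : ℝ) : ℝ)) : ℂ)) (fun j => mk ℂ fun k => lg G (t k) j) := by
  intro P hP g hg ν
  obtain ⟨P0, rfl⟩ := rep P
  obtain ⟨E, hE⟩ := hfib 1 P0.totalDegree
  choose F hF using fun j => gm_surj (g j)
  choose f hf using fun j => mk_surj (ν j)
  have e1 : ∀ j, ∀ᶠ k in (hyperfilter ℕ : Filter ℕ), (F j k).transpose * cm (Jm n Q) * F j k = cm (Jm n Q) := by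
    intro j
    have h5 := hg j
    rw [← hF j, gm_map, ← gm_transpose, ← gm_mul, ← gm_mul] at h5
    exact gm_eq h5
  have e2 : ∀ᶠ k in (hyperfilter ℕ : Filter ℕ), MvPolynomial.aeval (fun a : Fin 2 × Option (Fin n × Fin n) =>
      a.2.elim (lg G (t k) a.1) fun x => Hf (Hc n Q) (((1 / (t k a.1 : ℝ) : ℝ)) : ℂ) x.1 x.2)
      (MvPolynomial.map (Pi.evalRingHom (fun _ => ℚ) k) P0) = 0 := by
    have h5 := aeval_gm P0 fun (a : Fin 2 × Option (Fin n × Fin n)) k =>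
      a.2.elim (lg G (t k) a.1) fun x => Hf (Hc n Q) (((1 / (t k a.1 : ℝ) : ℝ)) : ℂ) x.1 x.2
    have h6 : (fun a : Fin 2 × Option (Fin n × Fin n) => a.2.elim ((fun j => mk ℂ fun k => lg G (t k) j) a.1)
        fun p => (fun j => gm fun k => Hf (Hc n Q) (((1 / (t k j : ℝ) : ℝ)) : ℂ)) a.1 p.1 p.2) =
        fun a => mk ℂ (fun k => a.2.elim (lg G (t k) a.1) fun x => Hf (Hc n Q) (((1 / (t k a.1 : ℝ) : ℝ)) : ℂ) x.1 x.2) := by
      funext a
      obtain ⟨j, _ | p⟩ := a <;> rfl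
    rw [h6, h5] at hP
    exact mk_eq_zero.1 hP
  have h5 := aeval_gm P0 fun (a : Fin 2 × Option (Fin n × Fin n)) k => a.2.elim (f a.1 k) fun p => F a.1 k p.1 p.2
  have h6 : (fun a : Fin 2 × Option (Fin n × Fin n) => a.2.elim (ν a.1) fun p => g a.1 p.1 p.2) =
      fun a => mk ℂ (fun k => a.2.elim (f a.1 k) fun p => F a.1 k p.1 p.2) := by
    funext a
    obtain ⟨j, _ | p⟩ := a
    · exact (hf j).symm
    · show g j p.1 p.2 = _
      rw [← hF j]
      rfl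
  rw [h6, h5, mk_eq_zero]
  filter_upwards [Filter.eventually_all.2 e1, e2, ev_ge E] with k h7 h8 h9
  have h10 := hE (t k) (h1 k) (h2 k) ((Nat.pow_le_pow_right (by have := h1 k; omega) h9).trans (h3 k)) (h4 k) ⊥
    inferInstance (by rw [IntermediateField.finrank_bot])
    (MvPolynomial.map (algebraMap ℚ (⊥ : IntermediateField ℚ ℂ)) (MvPolynomial.map (Pi.evalRingHom (fun _ => ℚ) k) P0))
    ((tdm _ _).trans (tdm _ _))
    (by
      rw [MvPolynomial.aeval_map_algebraMap]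
      exact h8) (fun j => F j k) h7 fun j => f j k
  rwa [MvPolynomial.aeval_map_algebraMap] at h10

/-- the exponential has derivative zero -/
lemma dm_E {n : ℕ} (D : Derivation (U ℚ) (U ℂ) (U ℂ)) (s : ℕ → ℂ) (hs : D (mk ℂ s) = 0) :
    dm D (gm fun k => E (cm (Am n)) (s k)) = 0 := by
  ext a b
  show D (gm (fun k => E (cm (Am n)) (s k)) a b) = 0
  have h1 : gm (fun k => E (cm (Am n)) (s k)) a b = ∑ i ∈ Finset.range n, (mk ℂ s) ^ i *
      algebraMap (U ℚ) (U ℂ) (mk ℚ fun _ => (Am n ^ i) a b / (i.factorial : ℚ)) := by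
    rw [gm_apply]
    have h2 : (fun k => E (cm (Am n)) (s k) a b) = fun k => ∑ i ∈ Finset.range n,
        (s k) ^ i * (((Am n ^ i) a b / (i.factorial : ℚ) : ℚ) : ℂ) := by
      funext k
      unfold E
      rw [Matrix.sum_apply]
      refine Finset.sum_congr rfl fun i _ => ?_
      rw [Matrix.smul_apply, smul_eq_mul, ← cm_pow, cm_apply]
      push_cast
      ring
    rw [h2, mk_sum]
    refine Finset.sum_congr rfl fun i _ => ?_
    rw [mk_mul', algebraMap_eq, qc_mk, ← map_pow (mk ℂ) s i]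
    rfl
  rw [h1, map_sum]
  refine Finset.sum_eq_zero fun i _ => ?_
  rw [Derivation.leibniz, Derivation.map_algebraMap, smul_zero, zero_add, Derivation.leibniz_pow, hs]
  simp

variable {m : ℕ} {β : Fin m → ℚ}

lemma DN_E (hQ : QD (2 * m) (QB β)) (s : ℂ) : cm (DN β)⁻¹ * E (cm (Am (2 * m))) s = E (cm (Am (2 * m))) s * cm (DN β)⁻¹ := by
  unfold E
  rw [Finset.mul_sum, Finset.sum_mul]
  refine Finset.sum_congr rfl fun i _ => ?_
  rw [mul_smul_comm, smul_mul_assoc]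
  congr 1
  have h1 : Commute (cm (DN β)⁻¹) (cm (Am (2 * m))) := DN_comm hQ
  exact h1.pow_right i

lemma Cc_two (hQ : QD (2 * m) (QB β)) {G : ℕ} {t : Fin 2 → ℕ} (h0 : 2 ≤ t 0) (h1 : t 0 < t 1)
    (C : Matrix (Fin (2 * m)) (Fin (2 * m)) ℂ) :
    Cc β (t 1) C = E (cm (Am (2 * m))) (-(lg G t 1 - lg G t 0)) * Cc β (t 0) C := by
  have e1 : -((Real.log (t 1) : ℝ) : ℂ) = -(lg G t 1 - lg G t 0) + -((Real.log (t 0) : ℝ) : ℂ) := by
    unfold lg
    have a0 : (0 : ℝ) < t 0 := by exact_mod_cast (by omega : 0 < t 0)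
    have a1 : (0 : ℝ) < t 1 := by exact_mod_cast (by omega : 0 < t 1)
    have a2 : (0 : ℝ) < (t 1 : ℝ) + G := by positivity
    rw [Real.log_div a0.ne' a2.ne', Real.log_div a1.ne' a2.ne']
    push_cast
    ring
  unfold Cc
  rw [e1, E_add Ac_nil, ← Matrix.mul_assoc (cm (DN β)⁻¹), DN_E hQ]
  simp only [Matrix.mul_assoc]

namespace Dat

variable {k Ω : Type} [Field k] [Field Ω] [CharZero Ω] [Algebra k Ω] (d : Dat k Ω m)

/-- **the velocities lie in a small subspace** -/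
theorem b_mem (h : Submodule Ω (Matrix (Fin (2 * m)) (Fin (2 * m)) Ω))
    (hbr : ∀ X ∈ h, ∀ Y ∈ h, X * Y - Y * X ∈ h) (hD : ∀ (D : Derivation k Ω Ω), ∀ X ∈ h, dm D X ∈ h)
    (hμ : d.w⁻¹ * Matrix.diagonal (dl Ω (2 * m)) * d.w ∈ h) :
    ∃ H' : Submodule Ω (Up m → Ω), Module.finrank Ω H' ≤ Module.finrank Ω (h.comap (d.Ψ fun p => p.1)) ∧
      ∀ D : Derivation k Ω Ω, (fun p : Up m => d.b D p.1.1 p.1.2) ∈ H' := by
  -- the conjugate algebra
  set κw : Matrix (Fin (2 * m)) (Fin (2 * m)) Ω →ₗ[Ω] Matrix (Fin (2 * m)) (Fin (2 * m)) Ω :=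
    { toFun := fun Y => d.w⁻¹ * Y * d.w
      map_add' := fun X Y => by rw [Matrix.mul_add, Matrix.add_mul]
      map_smul' := fun c X => by rw [Matrix.mul_smul, Matrix.smul_mul, RingHom.id_apply] } with hκw
  set h' := h.comap κw with hh'
  have hww : d.w * d.w⁻¹ = 1 := Matrix.mul_nonsing_inv _ d.wdet
  have hww' : d.w⁻¹ * d.w = 1 := Matrix.nonsing_inv_mul _ d.wdet
  have hst : ∀ X ∈ h', adm (dl Ω (2 * m)) X ∈ h' := by
    intro X hX
    have h1 := hbr _ hμ _ (show d.w⁻¹ * X * d.w ∈ h from hX)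
    show d.w⁻¹ * (Matrix.diagonal (dl Ω (2 * m)) * X - X * Matrix.diagonal (dl Ω (2 * m))) * d.w ∈ h
    have h2 : d.w⁻¹ * (Matrix.diagonal (dl Ω (2 * m)) * X - X * Matrix.diagonal (dl Ω (2 * m))) * d.w =
        d.w⁻¹ * Matrix.diagonal (dl Ω (2 * m)) * d.w * (d.w⁻¹ * X * d.w) -
          d.w⁻¹ * X * d.w * (d.w⁻¹ * Matrix.diagonal (dl Ω (2 * m)) * d.w) := by
      rw [Matrix.mul_sub, Matrix.sub_mul]
      congr 1
      · calc d.w⁻¹ * (Matrix.diagonal (dl Ω (2 * m)) * X) * d.w =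
            d.w⁻¹ * Matrix.diagonal (dl Ω (2 * m)) * 1 * X * d.w := by simp only [Matrix.mul_assoc, Matrix.one_mul]
          _ = _ := by
            rw [← hww]
            simp only [Matrix.mul_assoc]
      · calc d.w⁻¹ * (X * Matrix.diagonal (dl Ω (2 * m))) * d.w =
            d.w⁻¹ * X * 1 * Matrix.diagonal (dl Ω (2 * m)) * d.w := by simp only [Matrix.mul_assoc, Matrix.one_mul]
          _ = _ := by
            rw [← hww]
            simp only [Matrix.mul_assoc]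
    rw [h2]
    exact h1
  have hDb : ∀ D : Derivation k Ω Ω, adm (dl Ω (2 * m)) (d.b D) ∈ h' := by
    intro D
    have h1 := hD D _ hμ
    have e1 : dm D (Matrix.diagonal (dl Ω (2 * m))) = 0 := by
      ext i j
      unfold dm
      rw [Matrix.map_apply, Matrix.diagonal_apply, Matrix.zero_apply]
      split_ifs
      · unfold dl
        have : ((2 * ((i : ℕ) : ℤ) - (((2 * m : ℕ) : ℤ) - 1) : ℤ) : Ω) =
            algebraMap k Ω ((2 * ((i : ℕ) : ℤ) - (((2 * m : ℕ) : ℤ) - 1) : ℤ) : k) := (map_intCast (algebraMap k Ω) _).symm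
        rw [this, Derivation.map_algebraMap]
      · exact map_zero _
    have e2 : dm D d.w⁻¹ = -(d.w⁻¹ * d.b D) := by
      have h2 := congrArg (dm D) hww'
      have h3 : dm D (1 : Matrix (Fin (2 * m)) (Fin (2 * m)) Ω) = 0 := by
        ext i j
        unfold dm
        rw [Matrix.map_apply, Matrix.one_apply, Matrix.zero_apply]
        split_ifs
        · exact Derivation.map_one_eq_zero _
        · exact map_zero _
      rw [dm_mul, h3] at h2
      have h4 : dm D d.w⁻¹ * d.w = -(d.w⁻¹ * dm D d.w) := eq_neg_of_add_eq_zero_left h2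
      calc dm D d.w⁻¹ = dm D d.w⁻¹ * (d.w * d.w⁻¹) := by rw [hww, Matrix.mul_one]
        _ = (dm D d.w⁻¹ * d.w) * d.w⁻¹ := by rw [Matrix.mul_assoc]
        _ = _ := by
          rw [h4, Matrix.neg_mul, Matrix.mul_assoc]
          rfl
    show d.w⁻¹ * (Matrix.diagonal (dl Ω (2 * m)) * d.b D - d.b D * Matrix.diagonal (dl Ω (2 * m))) * d.w ∈ h
    have h5 : dm D (d.w⁻¹ * Matrix.diagonal (dl Ω (2 * m)) * d.w) =
        d.w⁻¹ * (Matrix.diagonal (dl Ω (2 * m)) * d.b D - d.b D * Matrix.diagonal (dl Ω (2 * m))) * d.w := by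
      rw [dm_mul, dm_mul, e1, e2, Matrix.mul_zero, add_zero, ← d.bw D, Matrix.mul_sub, Matrix.sub_mul]
      simp only [Matrix.neg_mul, Matrix.mul_assoc]
      abel
    rw [← h5]
    exact h1
  have hup : ∀ D : Derivation k Ω Ω, (∑ p : Up m, (d.b D p.1.1 p.1.2 * cu Ω p.1) • Xr d.γ p.1.1 p.1.2) ∈ h' := by
    intro D
    rw [← up_sum d.γ0 d.γ_rev fun i j hij => d.b_symp D hij]
    exact ad_proj h' hst (hDb D)
  -- the scaling
  set sc : (Up m → Ω) →ₗ[Ω] (Up m → Ω) :=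
    { toFun := fun f p => f p * cu Ω p.1
      map_add' := fun f h => by
        funext p
        rw [Pi.add_apply, Pi.add_apply, add_mul]
      map_smul' := fun c f => by
        funext p
        rw [Pi.smul_apply, Pi.smul_apply, RingHom.id_apply, smul_eq_mul, smul_eq_mul, mul_assoc] } with hsc
  have hsci : Function.Injective sc := by
    intro f g hfg
    funext p
    have h1 : f p * cu Ω p.1 = g p * cu Ω p.1 := congrFun hfg p
    have h2 : cu Ω p.1 ≠ 0 := by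
      unfold cu
      split_ifs
      · exact one_div_ne_zero two_ne_zero
      · exact one_ne_zero
    exact mul_right_cancel₀ h2 h1
  refine ⟨(h.comap (d.Ψ fun p => p.1)).comap sc, ?_, fun D => ?_⟩
  · let e : ((h.comap (d.Ψ fun p => p.1)).comap sc) →ₗ[Ω] (h.comap (d.Ψ fun p => p.1)) :=
      { toFun := fun f => ⟨sc f.1, f.2⟩
        map_add' := fun f g => Subtype.ext (map_add sc _ _)
        map_smul' := fun c f => Subtype.ext (map_smul sc _ _) }
    exact LinearMap.finrank_le_finrank_of_injective (f := e) fun f g hfg =>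
      Subtype.ext (hsci (congrArg Subtype.val hfg))
  · show (d.Ψ fun p => p.1) (sc _) ∈ h
    exact hup D

end Dat

end Pool.Agent.Y118.HX
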