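import Pool.Agent.Y118.UL.Ger
import Pool.Agent.Y118.HX.Gen
import Pool.Agent.Y118.CM.One

/-!
# Ultraproducts of matrices and generic points of the symplectic group
-/

set_option autoImplicit false
set_option maxHeartbeats 400000

open Matrix Filter

namespace Pool.Agent.Y118.HX

open Pool.Agent.Y118.UL (mk mk_eq mk_eq_zero mk_surj ev_ge eval_mk rep qc qc_mk algebraMap_eq U)
open Pool.Agent.Y113 Pool.Agent.Y120.GF Pool.Agent.Y120.GH Pool.Agent.Y119.HY Pool.Agent.Y119.HZ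

variable {n : ℕ} {K : Type} [Field K]

/-- the ultraproduct of matrices -/
noncomputable def gm (F : ℕ → Matrix (Fin n) (Fin n) K) : Matrix (Fin n) (Fin n) (U K) :=
  Matrix.of fun i j => mk K (fun t => F t i j)

lemma gm_apply (F : ℕ → Matrix (Fin n) (Fin n) K) (i j : Fin n) : gm F i j = mk K (fun t => F t i j) := rfl

lemma mk_sum {ι : Type} (s : Finset ι) (f : ι → ℕ → K) : mk K (fun t => ∑ i ∈ s, f i t) = ∑ i ∈ s, mk K (f i) := by
  rw [← map_sum]
  congr 1
  funext t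
  rw [Finset.sum_apply]

lemma mk_mul' (f g : ℕ → K) : mk K (fun t => f t * g t) = mk K f * mk K g := by
  rw [← map_mul]
  rfl

lemma gm_mul (F G : ℕ → Matrix (Fin n) (Fin n) K) : gm (fun t => F t * G t) = gm F * gm G := by
  ext i j
  rw [gm_apply, Matrix.mul_apply]
  simp only [Matrix.mul_apply, gm_apply]
  rw [mk_sum]
  exact Finset.sum_congr rfl fun l _ => mk_mul' _ _

lemma gm_transpose (F : ℕ → Matrix (Fin n) (Fin n) K) : gm (fun t => (F t).transpose) = (gm F).transpose := rfl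

lemma gm_smul (c : ℕ → K) (F : ℕ → Matrix (Fin n) (Fin n) K) : gm (fun t => c t • F t) = mk K c • gm F := by
  ext i j
  rw [gm_apply, Matrix.smul_apply, gm_apply, smul_eq_mul, ← mk_mul']
  rfl

lemma gm_neg (F : ℕ → Matrix (Fin n) (Fin n) K) : gm (fun t => -F t) = -gm F := by
  ext i j
  rw [gm_apply, Matrix.neg_apply, gm_apply, ← map_neg]
  rfl

lemma gm_one : gm (fun _ => (1 : Matrix (Fin n) (Fin n) K)) = 1 := by
  ext i j
  show mk K (fun _ => (1 : Matrix (Fin n) (Fin n) K) i j) = (1 : Matrix (Fin n) (Fin n) (U K)) i j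
  by_cases h : i = j
  · subst h
    have h1 : (fun _ : ℕ => (1 : Matrix (Fin n) (Fin n) K) i i) = 1 := by
      funext t
      exact Matrix.one_apply_eq i
    rw [h1]
    exact (map_one (mk K)).trans (Matrix.one_apply_eq i).symm
  · have h1 : (fun _ : ℕ => (1 : Matrix (Fin n) (Fin n) K) i j) = 0 := by
      funext t
      exact Matrix.one_apply_ne h
    rw [h1]
    exact (map_zero (mk K)).trans (Matrix.one_apply_ne h).symm

lemma gm_unit {F : ℕ → Matrix (Fin n) (Fin n) K} (h : ∀ t, (F t).det ≠ 0) : IsUnit (gm F).det := by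
  have h1 : gm F * gm (fun t => (F t)⁻¹) = 1 := by
    rw [← gm_mul, ← gm_one]
    congr 1
    funext t
    exact Matrix.mul_nonsing_inv _ (isUnit_iff_ne_zero.2 (h t))
  exact Matrix.isUnit_det_of_right_inverse h1

lemma gm_map (F : ℕ → Matrix (Fin n) (Fin n) ℚ) : (gm F).map (algebraMap (U ℚ) (U ℂ)) = gm fun t => cm (F t) := by
  ext i j
  rw [Matrix.map_apply, gm_apply, gm_apply, algebraMap_eq, qc_mk]
  rfl

lemma gm_surj (g : Matrix (Fin n) (Fin n) (U K)) : ∃ F : ℕ → Matrix (Fin n) (Fin n) K, gm F = g := by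
  choose f hf using fun i j => mk_surj (g i j)
  refine ⟨fun t => Matrix.of fun i j => f i j t, ?_⟩
  ext i j
  rw [gm_apply, ← hf i j]
  rfl

lemma gm_eq {F G : ℕ → Matrix (Fin n) (Fin n) K} (h : gm F = gm G) : ∀ᶠ t in (hyperfilter ℕ : Filter ℕ), F t = G t := by
  have h1 : ∀ i j, ∀ᶠ t in (hyperfilter ℕ : Filter ℕ), F t i j = G t i j := fun i j => by
    have h2 := congrFun (congrFun h i) j
    rw [gm_apply, gm_apply, mk_eq] at h2
    exact h2
  have h2 : ∀ᶠ t in (hyperfilter ℕ : Filter ℕ), ∀ i j, F t i j = G t i j :=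
    Filter.eventually_all.2 fun i => Filter.eventually_all.2 fun j => h1 i j
  filter_upwards [h2] with t ht
  ext i j
  exact ht i j

/-- the embedding of the sequences of rational numbers -/
noncomputable def cst : (ℕ → ℚ) →+* (ℕ → ℂ) := RingHom.pi fun t => (Rat.castHom ℂ).comp (Pi.evalRingHom _ t)

lemma aeval_gm {ι : Type} (P0 : MvPolynomial ι (ℕ → ℚ)) (y : ι → ℕ → ℂ) :
    MvPolynomial.aeval (fun i => mk ℂ (y i)) (MvPolynomial.map (mk ℚ) P0) =
      mk ℂ (fun t => MvPolynomial.aeval (fun i => y i t) (MvPolynomial.map (Pi.evalRingHom (fun _ => ℚ) t) P0)) := by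
  have h1 : MvPolynomial.aeval (fun i => mk ℂ (y i)) (MvPolynomial.map (mk ℚ) P0) =
      MvPolynomial.eval (fun i => mk ℂ (y i)) (MvPolynomial.map (mk ℂ) (MvPolynomial.map cst P0)) := by
    rw [MvPolynomial.map_map, MvPolynomial.aeval_def, MvPolynomial.eval₂_map, MvPolynomial.eval_map]
    congr 1
  rw [h1, eval_mk]
  congr 1
  funext t
  rw [MvPolynomial.map_map, MvPolynomial.aeval_def, MvPolynomial.eval₂_map, MvPolynomial.eval_map]
  congr 1

lemma tdm {R S ι : Type} [CommSemiring R] [CommSemiring S] (f : R →+* S) (p : MvPolynomial ι R) :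
    (MvPolynomial.map f p).totalDegree ≤ p.totalDegree :=
  Finset.sup_mono (MvPolynomial.support_map_subset f p)

/-- **the holomorphic parts at `1 / t` give a generic point of the symplectic group** -/
theorem generic_of {Q : Polynomial ℚ} (hQ : QD n Q) (hH : ∀ i j, SDc (Hp n Q i j)) (t : ℕ → ℕ) (ht : ∀ k, k ≤ t k) :
    Generic (U ℚ) ((gm fun _ => Jm n Q).map (algebraMap (U ℚ) (U ℂ)))
      (gm fun k => Hf (Hc n Q) (((1 / (t k : ℝ) : ℝ)) : ℂ)) := by
  intro P hP g hg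
  obtain ⟨P0, rfl⟩ := rep P
  obtain ⟨t0, ht0⟩ := Pool.Agent.Y118.CM.one_fibre hQ hH 1 P0.totalDegree
  obtain ⟨G, rfl⟩ := gm_surj g
  have e1 : ∀ᶠ k in (hyperfilter ℕ : Filter ℕ), (G k).transpose * cm (Jm n Q) * G k = cm (Jm n Q) := by
    rw [gm_map, ← gm_transpose, ← gm_mul, ← gm_mul] at hg
    exact gm_eq hg
  have e2 : ∀ᶠ k in (hyperfilter ℕ : Filter ℕ), MvPolynomial.aeval (fun p : Fin n × Fin n =>
      Hf (Hc n Q) (((1 / (t k : ℝ) : ℝ)) : ℂ) p.1 p.2) (MvPolynomial.map (Pi.evalRingHom (fun _ => ℚ) k) P0) = 0 := by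
    have h1 := aeval_gm P0 fun (p : Fin n × Fin n) k => Hf (Hc n Q) (((1 / (t k : ℝ) : ℝ)) : ℂ) p.1 p.2
    have h2 : MvPolynomial.aeval (fun p : Fin n × Fin n => mk ℂ fun k => Hf (Hc n Q) (((1 / (t k : ℝ) : ℝ)) : ℂ) p.1 p.2)
        (MvPolynomial.map (mk ℚ) P0) = 0 := hP
    rw [h2] at h1
    exact mk_eq_zero.1 h1.symm
  have h3 := aeval_gm P0 fun (p : Fin n × Fin n) k => G k p.1 p.2
  have h4 : MvPolynomial.aeval (fun p : Fin n × Fin n => gm G p.1 p.2) (MvPolynomial.map (mk ℚ) P0) =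
      mk ℂ (fun k => MvPolynomial.aeval (fun p : Fin n × Fin n => G k p.1 p.2)
        (MvPolynomial.map (Pi.evalRingHom (fun _ => ℚ) k) P0)) := h3
  rw [h4, mk_eq_zero]
  filter_upwards [e1, e2, ev_ge t0] with k h5 h6 h7
  have h8 := ht0 (t k) (h7.trans (ht k)) ⊥ inferInstance (by rw [IntermediateField.finrank_bot])
    (MvPolynomial.map (algebraMap ℚ (⊥ : IntermediateField ℚ ℂ)) (MvPolynomial.map (Pi.evalRingHom (fun _ => ℚ) k) P0))
    ((tdm _ _).trans (tdm _ _))
    (by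
      rw [MvPolynomial.aeval_map_algebraMap]
      exact h6) (G k) h5
  rwa [MvPolynomial.aeval_map_algebraMap] at h8

end Pool.Agent.Y118.HX
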