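import Pool.Agent.Y118.CM.WinG

/-!
# The windows theorem with the logarithms of the quotients
-/

set_option autoImplicit false
set_option maxHeartbeats 400000

open PowerSeries Pool.Agent.Y113 Pool.Agent.Y120.GF Pool.Agent.Y120.GH Pool.Agent.Y118.UL

namespace Pool.Agent.Y118.HX

theorem winM {r : ℕ} {h : Fin r → ℚ⟦X⟧} {T : Polynomial ℤ} {A : Fin r → Fin r → Polynomial ℤ} (hT : T ≠ 0)
    (hode : ∀ i, ps T * d⁄dX ℚ (h i) = ∑ j, ps (A i j) * h j)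
    {q' : ℕ} {C' : ℝ} (hG' : GSys q' C' T h)
    (hqu : QU0 T A) :
    ∃ G0 : ℕ, ∀ G : ℕ, G0 ≤ G → ∀ (k D d : ℕ), ∃ E : ℕ, ∀ H t : ℕ, (H + 2) ^ E ≤ t →
      (∀ u ≤ H, G * u < t) ∧
        ∀ u : Fin k → ℕ, Function.Injective u → (∀ j, 1 ≤ u j ∧ u j ≤ H) →
        ∀ Y : Set (Fin k × Fin r → ℂ), Irr Y → (∀ y ∈ Y, ∀ j, (fun i => y (j, i)) ∈ Vx h (1 / ((t - G * u j : ℕ) : ℚ))) →
        (fun a => ((ev ((t - G * u a.1 : ℕ) : ℝ) (h a.2) : ℝ) : ℂ)) ∈ Y →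
        ∀ K : IntermediateField ℚ ℂ, FiniteDimensional ℚ K → Module.finrank ℚ K ≤ D →
        ∀ P : MvPolynomial (Fin k × Option (Fin r)) K, P.totalDegree ≤ d →
        MvPolynomial.aeval (gl (fun a : Fin k × Fin r =>
          ((ev ((t - G * u a.1 : ℕ) : ℝ) (h a.2) : ℝ) : ℂ)) fun j => ((Real.log (1 - ((G * u j : ℕ) : ℝ) / t) : ℝ) : ℂ)) P = 0 →
        ∀ y ∈ Y, ∀ μ : Fin k → ℂ, MvPolynomial.aeval (gl y μ) P = 0 := by
  classical
  have hsize : ∃ C : ℝ, ∀ i m, |((coeff m (h i) : ℚ) : ℝ)| ≤ C ^ (m + 1) := ⟨C', hG'.size⟩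
  obtain ⟨R, hfam⟩ := famG hT hode hG' hqu
  obtain ⟨I, hI, hI2⟩ := exists_free h
  obtain ⟨RR, hRR, hRR2⟩ := exists_R hI2
  refine ⟨R + 1, fun G hG k D d => ?_⟩
  have hnr := norel hsize hI hfam (show 1 ≤ G by omega) (show R ≤ G by omega)
  have key1 := absWin (υ₀ := Fin 0) (υ₁ := Fin 0) (vl G h) (Option.map (Subtype.val : I → Fin r))
    (fun t g => 1 / (((t - G * g : ℕ) : ℚ))) RR hRR hnr (small_x G) Fin.elim0 ∅ (fun j => j.elim0) k D d
  obtain ⟨E1, hE1⟩ := key1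
  refine ⟨E1 + (G + 1), fun H t ht => ⟨fun u hu => ?_, ?_⟩⟩
  · have h1 : (H + 2) ^ (G + 1) ≤ t := (Nat.pow_le_pow_right (by omega) (by omega)).trans ht
    have h2 : G + 1 ≤ 2 ^ G := Nat.lt_two_pow_self
    have h3 : 2 ^ G ≤ (H + 2) ^ G := Nat.pow_le_pow_left (by omega) _
    have h4 : (G + 1) * (H + 2) ≤ t := by
      refine le_trans ?_ h1
      rw [pow_succ]
      exact Nat.mul_le_mul_right _ (h2.trans h3)
    have h5 : G * u ≤ G * H := Nat.mul_le_mul_left _ hu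
    nlinarith
  · obtain ⟨S, hS, hmain⟩ := hE1 H t ((Nat.pow_le_pow_right (by omega) (by omega)).trans ht) Fin.elim0
    have hS0 : S = ∅ := by
      rw [Finset.card_empty, Fintype.card_fin, add_zero] at hS
      exact Finset.card_eq_zero.1 (Nat.le_zero.1 hS)
    subst hS0
    intro u hu huS Y hY hYV hval K hK1 hK2 P hP hP0 y hy μ
    set μ0 : Fin k → ℂ := fun j => ((Real.log (1 - ((G * u j : ℕ) : ℝ) / t) : ℝ) : ℂ) with hμ0
    have hv : (fun a : Fin k × Option (Fin r) => vl G h t (u a.1) a.2) =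
        gl (fun a : Fin k × Fin r => ((ev ((t - G * u a.1 : ℕ) : ℝ) (h a.2) : ℝ) : ℂ)) μ0 := by
      funext a
      obtain ⟨j, _ | i⟩ := a <;> rfl
    have hpoly : ∀ y' : Fin k × Option (Fin r) → ℂ, MvPolynomial.aeval (Sum.elim (Sum.elim Fin.elim0 Fin.elim0) y')
        (MvPolynomial.rename (Sum.inr : Fin k × Option (Fin r) → (Fin 0 ⊕ Fin 0) ⊕ Fin k × Option (Fin r)) P) =
        MvPolynomial.aeval y' P := by
      intro y'
      rw [MvPolynomial.aeval_rename]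
      congr 2
    have h1 := hmain u hu (fun j => ⟨(huS j).1, (huS j).2, Finset.notMem_empty _⟩) {y' | ∃ y ∈ Y, ∃ μ, y' = gl y μ}
      (irr_free hY) ⟨_, hval, _, hv⟩ (by
      rintro _ ⟨z, hz, ν, rfl⟩ j s
      exact hRR2 _ (fun s => gl z ν (j, s)) (hYV z hz j) s) K hK1 hK2
      (MvPolynomial.rename (Sum.inr : Fin k × Option (Fin r) → (Fin 0 ⊕ Fin 0) ⊕ Fin k × Option (Fin r)) P)
      ((MvPolynomial.totalDegree_rename_le _ _).trans hP) (by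
      rw [hpoly, hv]
      exact hP0) (gl y μ) ⟨y, hy, _, rfl⟩
    rw [hpoly] at h1
    exact h1

end Pool.Agent.Y118.HX
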